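import Pool.Agent.Lib.MP_a4f5e0_gt.F1

/-!
JOB D1. The distance `dg g`: first properties.

`dg g x y = sInf {L | ∃ γ, ContDiff ℝ 1 γ ∧ γ 0 = x ∧ γ 1 = y ∧ L = ∫ t in 0..1, √(g (γ t) (γ' t) (γ' t))}` (Defs).

* `speed_smul`: `g x (a • v) (a • v) = a ^ 2 * g x v v`, `Real.sqrt_sq_eq_abs`, `Real.sqrt_mul`.
* `continuous_speed`: `hg.smooth 0 : ContDiff ℝ 0 g`, so `g` is continuous; `Continuous.clm_apply`, `Continuous.sqrt`.
* `continuousOn_speed`: compose `continuous_speed` with `t ↦ (c t, c' t)`.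
* `dg_nonneg`: `Real.sInf_nonneg`; every length is `≥ 0` (`intervalIntegral.integral_nonneg`, `Real.sqrt_nonneg`).
* `dg_le_len`: `csInf_le` (bounded below by `0`).
* `exists_curve`: the set is nonempty (`γ t = x + t • (y - x)`); `exists_lt_of_csInf_lt`.
* `dg_self`: constant curve. 
* `dg_comm`: reverse curves: `γ (1 - t)` has `deriv = - deriv γ (1 - t)` (`deriv_comp_const_sub`) and the same length
  (`intervalIntegral.integral_comp_sub_left`); prove `dg g x y ≤ dg g y x` with `exists_curve` (or `le_csInf`).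
* `dg_le_segment`: straight segment, `γ t = x + t • (y - x)`, `deriv γ t = y - x`.
-/

set_option autoImplicit false

open MeasureTheory Set Filter Topology Real Metric

noncomputable section

namespace PPF

variable {g : E → E →L[ℝ] E →L[ℝ] ℝ}

theorem speed_smul (x v : E) (a : ℝ) :
    Real.sqrt (g x (a • v) (a • v)) = |a| * Real.sqrt (g x v v) := by
  have h : g x (a • v) (a • v) = a ^ 2 * g x v v := by
    simp only [map_smul, ContinuousLinearMap.smul_apply, smul_eq_mul]
    ring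
  rw [h, Real.sqrt_mul (sq_nonneg a), Real.sqrt_sq_eq_abs]

theorem continuous_speed (hg : Met g) :
    Continuous (fun q : E × E => Real.sqrt (g q.1 q.2 q.2)) := by
  have hc : Continuous g := (hg.smooth 0).continuous
  exact (((hc.comp continuous_fst).clm_apply continuous_snd).clm_apply continuous_snd).sqrt

theorem continuousOn_speed (hg : Met g) {c c' : ℝ → E} {s : Set ℝ} (hc : ContinuousOn c s)
    (hc' : ContinuousOn c' s) :
    ContinuousOn (fun t => Real.sqrt (g (c t) (c' t) (c' t))) s :=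
  (continuous_speed hg).comp_continuousOn (hc.prodMk hc')

theorem dg_nonneg (x y : E) : 0 ≤ dg g x y := by
  apply Real.sInf_nonneg
  rintro L ⟨γ, -, -, -, rfl⟩
  exact intervalIntegral.integral_nonneg zero_le_one (fun t _ => Real.sqrt_nonneg _)

theorem D1_bdd (x y : E) : BddBelow {L : ℝ | ∃ γ : ℝ → E,
    ContDiff ℝ 1 γ ∧ γ 0 = x ∧ γ 1 = y ∧
    L = ∫ t in (0:ℝ)..1, Real.sqrt (g (γ t) (deriv γ t) (deriv γ t))} := by
  refine ⟨0, ?_⟩
  rintro L ⟨γ, -, -, -, rfl⟩
  exact intervalIntegral.integral_nonneg zero_le_one (fun t _ => Real.sqrt_nonneg _)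

theorem dg_le_len (hg : Met g) {γ : ℝ → E} (h : ContDiff ℝ 1 γ) : dg g (γ 0) (γ 1) ≤ len g γ :=
  csInf_le (D1_bdd _ _) ⟨γ, h, rfl, rfl, rfl⟩

theorem exists_curve (hg : Met g) (x y : E) {ε : ℝ} (hε : 0 < ε) :
    ∃ γ : ℝ → E, ContDiff ℝ 1 γ ∧ γ 0 = x ∧ γ 1 = y ∧ len g γ < dg g x y + ε := by
  have hne : {L : ℝ | ∃ γ : ℝ → E, ContDiff ℝ 1 γ ∧ γ 0 = x ∧ γ 1 = y ∧
      L = ∫ t in (0:ℝ)..1, Real.sqrt (g (γ t) (deriv γ t) (deriv γ t))}.Nonempty := by
    refine ⟨_, fun t => x + t • (y - x), ?_, ?_, ?_, rfl⟩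
    · fun_prop
    · simp
    · simp
  obtain ⟨L, ⟨γ, h1, h2, h3, h4⟩, hL⟩ := exists_lt_of_csInf_lt hne
    (show dg g x y < dg g x y + ε by linarith)
  exact ⟨γ, h1, h2, h3, by rw [len, ← h4]; exact hL⟩

theorem dg_self (hg : Met g) (x : E) : dg g x x = 0 := by
  apply le_antisymm _ (dg_nonneg x x)
  have h := dg_le_len hg (γ := fun _ => x) contDiff_const
  have h2 : len g (fun _ => x) = 0 := by
    simp [len]
  rw [h2] at h
  exact h

theorem D1_comm_le (hg : Met g) (x y : E) : dg g x y ≤ dg g y x := by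
  apply le_of_forall_pos_le_add
  intro ε hε
  obtain ⟨γ, h1, h2, h3, h4⟩ := exists_curve hg y x hε
  have hc : ContDiff ℝ 1 (fun t : ℝ => γ (1 - t)) := h1.comp (contDiff_const.sub contDiff_id)
  have h := dg_le_len hg hc
  have e : len g (fun t : ℝ => γ (1 - t)) = len g γ := by
    unfold len
    have e1 : ∀ t : ℝ, Real.sqrt (g (γ (1 - t)) (deriv (fun t : ℝ => γ (1 - t)) t)
        (deriv (fun t : ℝ => γ (1 - t)) t)) =
        (fun s => Real.sqrt (g (γ s) (deriv γ s) (deriv γ s))) (1 - t) := by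
      intro t
      rw [deriv_comp_const_sub]
      simp
    simp only [e1]
    rw [intervalIntegral.integral_comp_sub_left
      (fun s => Real.sqrt (g (γ s) (deriv γ s) (deriv γ s))) 1]
    simp
  rw [e] at h
  simp only [sub_zero, sub_self] at h
  rw [h2, h3] at h
  linarith

theorem dg_comm (hg : Met g) (x y : E) : dg g x y = dg g y x :=
  le_antisymm (D1_comm_le hg x y) (D1_comm_le hg y x)

theorem dg_le_segment (hg : Met g) (x y : E) :
    dg g x y ≤ ∫ t in (0:ℝ)..1, Real.sqrt (g (x + t • (y - x)) (y - x) (y - x)) := by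
  have hc : ContDiff ℝ 1 (fun t : ℝ => x + t • (y - x)) := by fun_prop
  have h := dg_le_len hg hc
  have hd : ∀ t : ℝ, deriv (fun t : ℝ => x + t • (y - x)) t = y - x := by
    intro t
    have : HasDerivAt (fun t : ℝ => x + t • (y - x)) ((1 : ℝ) • (y - x)) t :=
      ((hasDerivAt_id t).smul_const (y - x)).const_add x
    rw [this.deriv, one_smul]
  simp only [len, hd] at h
  simpa using h

end PPF
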