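import Pool.Agent.Lib.MP_a4f5e0_gt.D1

/-!
JOB D2. Arcs and the triangle inequality.

Let `χ τ = sin (π τ / 2) ^ 2`: `χ` is smooth, `0 ≤ χ ≤ 1` on `ℝ`, `χ 0 = 0`, `χ 1 = 1`,
`χ' τ = (π / 2) * sin (π τ)`, so `χ' 0 = χ' 1 = 0` and `χ' ≥ 0` on `[0, 1]`.

* `dg_le_arc`: `γ τ = c (a + (b - a) * χ τ)` is `C¹` on `ℝ`, with derivative
  `((b - a) * χ' τ) • c' (a + (b - a) * χ τ)` (the argument always lies in `[a, b]`, where `c` has a two sided
  derivative; `contDiff_one_iff_deriv` and `HasDerivAt.scomp`). Its length is, by `speed_smul` and the substitution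
  `s = a + (b - a) χ τ` (`intervalIntegral.integral_comp_mul_deriv''`), equal to the right hand side. Use `dg_le_len`.
* `dg_le_unit`: the integrand is `1`.
* `dg_add_le_len`: `dg_le_arc` on `[0, t]` and `[t, 1]` with `c = γ`, `c' = deriv γ`, and
  `intervalIntegral.integral_add_adjacent_intervals`.
* `glue`: `γ t = if t ≤ 1/2 then γ₁ (χ (2 t)) else γ₂ (χ (2 t - 1))`. Candidate derivative
  `D t = if t ≤ 1/2 then (2 χ' (2 t)) • γ₁' (χ (2 t)) else (2 χ' (2 t - 1)) • γ₂' (χ (2 t - 1))`; both branches are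
  `C¹` functions on `ℝ` which have the same value (`h`) and the same derivative `0` at `t = 1/2`. `D` is continuous
  (`Continuous.if_le`), `HasDerivAt γ (D t) t`: for `t ≠ 1/2` by `HasDerivAt.congr_of_eventuallyEq`, at `1/2` by
  `HasDerivWithinAt.union` on `Iic` and `Ici` (or `hasDerivAt_of_hasDerivAt_of_ne` / `Iic_union_Ici`).
  Length: split at `1/2` and substitute as in `dg_le_arc`.
* `dg_triangle`: `exists_curve` for `(x, y)` and `(y, z)` with `ε / 2`, `glue`, `dg_le_len`; `le_of_forall_pos_le_add`.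
-/

set_option autoImplicit false

open MeasureTheory Set Filter Topology Real Metric

noncomputable section

namespace PPF

variable {g : E → E →L[ℝ] E →L[ℝ] ℝ}

private def d2ch (t : ℝ) : ℝ := sin (π * t / 2) ^ 2

private def d2ch' (t : ℝ) : ℝ := π / 2 * sin (π * t)

private theorem d2ch_hd (t : ℝ) : HasDerivAt d2ch (d2ch' t) t := by
  have h1 : HasDerivAt (fun t : ℝ => π * t / 2) (π / 2) t := by
    have h := ((hasDerivAt_id t).const_mul π).div_const 2
    rw [mul_one] at h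
    exact h
  have h2 : HasDerivAt d2ch (((2 : ℕ) : ℝ) * sin (π * t / 2) ^ (2 - 1) *
      (cos (π * t / 2) * (π / 2))) t := h1.sin.pow 2
  have h3 : ((2 : ℕ) : ℝ) * sin (π * t / 2) ^ (2 - 1) *
      (cos (π * t / 2) * (π / 2)) = d2ch' t := by
    have h4 : sin (π * t) = 2 * sin (π * t / 2) * cos (π * t / 2) := by
      rw [← sin_two_mul]
      congr 1
      ring
    unfold d2ch'
    rw [h4]
    norm_num
    ring
  rw [h3] at h2
  exact h2

private theorem d2ch'_cont : Continuous d2ch' :=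
  continuous_const.mul (continuous_sin.comp (continuous_const.mul continuous_id))

private theorem d2ch_cont : Continuous d2ch :=
  continuous_iff_continuousAt.2 fun t => (d2ch_hd t).continuousAt

private theorem d2ch_zero : d2ch 0 = 0 := by
  unfold d2ch
  simp

private theorem d2ch_one : d2ch 1 = 1 := by
  unfold d2ch
  simp

private theorem d2ch'_zero : d2ch' 0 = 0 := by
  unfold d2ch'
  simp

private theorem d2ch'_one : d2ch' 1 = 0 := by
  unfold d2ch'
  simp

private theorem d2ch_nonneg (t : ℝ) : 0 ≤ d2ch t := sq_nonneg _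

private theorem d2ch_le_one (t : ℝ) : d2ch t ≤ 1 := by
  have h := sin_sq_add_cos_sq (π * t / 2)
  have h2 := sq_nonneg (cos (π * t / 2))
  unfold d2ch
  linarith

private theorem d2ch'_nonneg {t : ℝ} (ht : t ∈ Icc (0:ℝ) 1) : 0 ≤ d2ch' t := by
  refine mul_nonneg (by positivity) (sin_nonneg_of_nonneg_of_le_pi ?_ ?_)
  · exact mul_nonneg pi_pos.le ht.1
  · have := mul_le_mul_of_nonneg_left ht.2 pi_pos.le
    linarith

private theorem d2_subst {f f' : ℝ → ℝ} {p q : ℝ} (hpq : p ≤ q)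
    (hf : ∀ t, HasDerivAt f (f' t) t) (hf' : ∀ t ∈ Icc p q, 0 ≤ f' t) (c c' : ℝ → E) :
    ∫ t in p..q, Real.sqrt (g (c (f t)) (f' t • c' (f t)) (f' t • c' (f t))) =
      ∫ s in f p..f q, Real.sqrt (g (c s) (c' s) (c' s)) := by
  have h1 : (∫ t in p..q, ((fun s => Real.sqrt (g (c s) (c' s) (c' s))) ∘ f) t * f' t) =
      ∫ s in f p..f q, Real.sqrt (g (c s) (c' s) (c' s)) := by
    apply intervalIntegral.integral_comp_mul_deriv_of_deriv_nonneg
    · exact fun t _ => (hf t).continuousAt.continuousWithinAt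
    · exact fun t _ => hf t
    · intro t ht
      rw [min_eq_left hpq, max_eq_right hpq] at ht
      exact hf' t (Ioo_subset_Icc_self ht)
  rw [← h1]
  apply intervalIntegral.integral_congr
  intro t ht
  rw [uIcc_of_le hpq] at ht
  show Real.sqrt (g (c (f t)) (f' t • c' (f t)) (f' t • c' (f t))) =
    Real.sqrt (g (c (f t)) (c' (f t)) (c' (f t))) * f' t
  rw [speed_smul, abs_of_nonneg (hf' t ht), mul_comm]

private theorem d2_C1 {γ D : ℝ → E} (h : ∀ t, HasDerivAt γ (D t) t) (hD : Continuous D) :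
    ContDiff ℝ 1 γ := by
  rw [contDiff_one_iff_deriv]
  refine ⟨fun t => (h t).differentiableAt, ?_⟩
  have : deriv γ = D := funext fun t => (h t).deriv
  rw [this]
  exact hD

/-- the length of a `C¹` arc bounds the distance -/
theorem dg_le_arc (hg : Met g) {a b : ℝ} (hab : a ≤ b) {c c' : ℝ → E}
    (hc : ∀ t ∈ Icc a b, HasDerivAt c (c' t) t) (hc' : ContinuousOn c' (Icc a b)) :
    dg g (c a) (c b) ≤ ∫ t in a..b, Real.sqrt (g (c t) (c' t) (c' t)) := by
  have hba : 0 ≤ b - a := sub_nonneg.2 hab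
  have hf : ∀ t, HasDerivAt (fun t => a + (b - a) * d2ch t) ((b - a) * d2ch' t) t := by
    intro t
    exact ((d2ch_hd t).const_mul (b - a)).const_add a
  have hmem : ∀ t, a + (b - a) * d2ch t ∈ Icc a b := by
    intro t
    have h1 := mul_nonneg hba (d2ch_nonneg t)
    have h2 := mul_le_mul_of_nonneg_left (d2ch_le_one t) hba
    constructor <;> linarith
  have hγ : ∀ t, HasDerivAt (fun t => c (a + (b - a) * d2ch t))
      (((b - a) * d2ch' t) • c' (a + (b - a) * d2ch t)) t := by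
    intro t
    exact HasDerivAt.scomp t (hc _ (hmem t)) (hf t)
  have hD : Continuous (fun t => ((b - a) * d2ch' t) • c' (a + (b - a) * d2ch t)) := by
    refine (continuous_const.mul d2ch'_cont).smul ?_
    exact hc'.comp_continuous (continuous_const.add (continuous_const.mul d2ch_cont)) hmem
  have h1 := dg_le_len hg (d2_C1 hγ hD)
  have hlen : len g (fun t => c (a + (b - a) * d2ch t)) =
      ∫ t in (a + (b - a) * d2ch 0)..(a + (b - a) * d2ch 1), Real.sqrt (g (c t) (c' t) (c' t)) := by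
    rw [← d2_subst (g := g) zero_le_one hf
      (fun t ht => mul_nonneg hba (d2ch'_nonneg ht)) c c']
    unfold len
    apply intervalIntegral.integral_congr
    intro t _
    show Real.sqrt (g (c (a + (b - a) * d2ch t)) (deriv (fun t => c (a + (b - a) * d2ch t)) t)
      (deriv (fun t => c (a + (b - a) * d2ch t)) t)) = _
    rw [(hγ t).deriv]
  have ea : a + (b - a) * d2ch 0 = a := by rw [d2ch_zero]; ring
  have eb : a + (b - a) * d2ch 1 = b := by rw [d2ch_one]; ring
  rw [hlen] at h1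
  simp only [ea, eb] at h1
  exact h1

/-- unit speed arcs -/
theorem dg_le_unit (hg : Met g) {a b : ℝ} (hab : a ≤ b) {c c' : ℝ → E}
    (hc : ∀ t ∈ Icc a b, HasDerivAt c (c' t) t) (hc' : ContinuousOn c' (Icc a b))
    (h1 : ∀ t ∈ Icc a b, g (c t) (c' t) (c' t) = 1) :
    dg g (c a) (c b) ≤ b - a := by
  refine (dg_le_arc hg hab hc hc').trans ?_
  have h2 : ∫ t in a..b, Real.sqrt (g (c t) (c' t) (c' t)) = ∫ t in a..b, (1:ℝ) := by
    apply intervalIntegral.integral_congr
    intro t ht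
    rw [uIcc_of_le hab] at ht
    show Real.sqrt (g (c t) (c' t) (c' t)) = 1
    rw [h1 t ht, Real.sqrt_one]
  rw [h2, intervalIntegral.integral_const, smul_eq_mul, mul_one]

/-- every point of a curve splits its length -/
theorem dg_add_le_len (hg : Met g) {γ : ℝ → E} (h : ContDiff ℝ 1 γ) {t : ℝ} (ht : t ∈ Icc (0:ℝ) 1) :
    dg g (γ 0) (γ t) + dg g (γ t) (γ 1) ≤ len g γ := by
  have hd : ∀ s, HasDerivAt γ (deriv γ s) s :=
    fun s => ((h.differentiable one_ne_zero) s).hasDerivAt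
  have hcd : Continuous (deriv γ) := h.continuous_deriv le_rfl
  have hcs : Continuous (fun s => Real.sqrt (g (γ s) (deriv γ s) (deriv γ s))) :=
    (continuous_speed hg).comp (h.continuous.prodMk hcd)
  have h1 := dg_le_arc hg ht.1 (fun s _ => hd s) hcd.continuousOn
  have h2 := dg_le_arc hg ht.2 (fun s _ => hd s) hcd.continuousOn
  have h3 := intervalIntegral.integral_add_adjacent_intervals (μ := volume)
    (hcs.intervalIntegrable 0 t) (hcs.intervalIntegrable t 1)
  unfold len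
  rw [← h3]
  exact add_le_add h1 h2

/-- concatenation of `C¹` curves -/
theorem glue (hg : Met g) {γ₁ γ₂ : ℝ → E} (h₁ : ContDiff ℝ 1 γ₁) (h₂ : ContDiff ℝ 1 γ₂)
    (h : γ₁ 1 = γ₂ 0) :
    ∃ γ : ℝ → E, ContDiff ℝ 1 γ ∧ γ 0 = γ₁ 0 ∧ γ 1 = γ₂ 1 ∧ len g γ = len g γ₁ + len g γ₂ := by
  obtain ⟨A, hA⟩ : ∃ A : ℝ → E, A = fun t => γ₁ (d2ch (2 * t)) := ⟨_, rfl⟩
  obtain ⟨B, hB⟩ : ∃ B : ℝ → E, B = fun t => γ₂ (d2ch (2 * t - 1)) := ⟨_, rfl⟩
  obtain ⟨A', hA'⟩ : ∃ A' : ℝ → E, A' = fun t => (2 * d2ch' (2 * t)) • deriv γ₁ (d2ch (2 * t)) :=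
    ⟨_, rfl⟩
  obtain ⟨B', hB'⟩ : ∃ B' : ℝ → E,
      B' = fun t => (2 * d2ch' (2 * t - 1)) • deriv γ₂ (d2ch (2 * t - 1)) := ⟨_, rfl⟩
  have hd1 : ∀ s, HasDerivAt γ₁ (deriv γ₁ s) s :=
    fun s => ((h₁.differentiable one_ne_zero) s).hasDerivAt
  have hd2 : ∀ s, HasDerivAt γ₂ (deriv γ₂ s) s :=
    fun s => ((h₂.differentiable one_ne_zero) s).hasDerivAt
  have hc1 : Continuous (deriv γ₁) := h₁.continuous_deriv le_rfl
  have hc2 : Continuous (deriv γ₂) := h₂.continuous_deriv le_rfl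
  have hf1 : ∀ t, HasDerivAt (fun t => d2ch (2 * t)) (2 * d2ch' (2 * t)) t := by
    intro t
    have h1 : HasDerivAt (fun t : ℝ => 2 * t) 2 t := by
      have h := (hasDerivAt_id t).const_mul (2:ℝ)
      rw [mul_one] at h
      exact h
    have h2 := HasDerivAt.comp t (d2ch_hd (2 * t)) h1
    rw [mul_comm] at h2
    exact h2
  have hf2 : ∀ t, HasDerivAt (fun t => d2ch (2 * t - 1)) (2 * d2ch' (2 * t - 1)) t := by
    intro t
    have h1 : HasDerivAt (fun t : ℝ => 2 * t - 1) 2 t := by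
      have h := ((hasDerivAt_id t).const_mul (2:ℝ)).sub_const 1
      rw [mul_one] at h
      exact h
    have h2 := HasDerivAt.comp t (d2ch_hd (2 * t - 1)) h1
    rw [mul_comm] at h2
    exact h2
  have hAd : ∀ t, HasDerivAt A (A' t) t := by
    intro t
    rw [hA, hA']
    exact HasDerivAt.scomp t (hd1 _) (hf1 t)
  have hBd : ∀ t, HasDerivAt B (B' t) t := by
    intro t
    rw [hB, hB']
    exact HasDerivAt.scomp t (hd2 _) (hf2 t)
  have c2t : Continuous (fun t : ℝ => 2 * t) := continuous_const.mul continuous_id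
  have c2t1 : Continuous (fun t : ℝ => 2 * t - 1) := c2t.sub continuous_const
  have hA'c : Continuous A' := by
    rw [hA']
    exact (continuous_const.mul (d2ch'_cont.comp c2t)).smul (hc1.comp (d2ch_cont.comp c2t))
  have hB'c : Continuous B' := by
    rw [hB']
    exact (continuous_const.mul (d2ch'_cont.comp c2t1)).smul (hc2.comp (d2ch_cont.comp c2t1))
  have e1 : (2:ℝ) * (1 / 2) = 1 := by norm_num
  have e2 : (2:ℝ) * (1 / 2) - 1 = 0 := by norm_num
  have hAh : A (1 / 2) = γ₁ 1 := by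
    rw [hA]
    show γ₁ (d2ch (2 * (1 / 2))) = γ₁ 1
    rw [e1, d2ch_one]
  have hBh : B (1 / 2) = γ₂ 0 := by
    rw [hB]
    show γ₂ (d2ch (2 * (1 / 2) - 1)) = γ₂ 0
    rw [e2, d2ch_zero]
  have hA'h : A' (1 / 2) = 0 := by
    rw [hA']
    show (2 * d2ch' (2 * (1 / 2))) • deriv γ₁ (d2ch (2 * (1 / 2))) = 0
    rw [e1, d2ch'_one, mul_zero, zero_smul]
  have hB'h : B' (1 / 2) = 0 := by
    rw [hB']
    show (2 * d2ch' (2 * (1 / 2) - 1)) • deriv γ₂ (d2ch (2 * (1 / 2) - 1)) = 0
    rw [e2, d2ch'_zero, mul_zero, zero_smul]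
  have hABh : A (1 / 2) = B (1 / 2) := by rw [hAh, hBh, h]
  obtain ⟨γ, hγ⟩ : ∃ γ : ℝ → E, γ = fun t => if t ≤ 1 / 2 then A t else B t := ⟨_, rfl⟩
  obtain ⟨D, hD⟩ : ∃ D : ℝ → E, D = fun t => if t ≤ 1 / 2 then A' t else B' t := ⟨_, rfl⟩
  have hγA : ∀ t, t ≤ 1 / 2 → γ t = A t := by
    intro t ht
    rw [hγ]
    exact if_pos ht
  have hγB : ∀ t, 1 / 2 ≤ t → γ t = B t := by
    intro t ht
    rcases eq_or_lt_of_le ht with h1 | h1
    · rw [hγA t h1.ge, ← h1]
      exact hABh
    · rw [hγ]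
      exact if_neg (not_le.2 h1)
  have hDA : ∀ t, t ≤ 1 / 2 → D t = A' t := by
    intro t ht
    rw [hD]
    exact if_pos ht
  have hDB : ∀ t, 1 / 2 ≤ t → D t = B' t := by
    intro t ht
    rcases eq_or_lt_of_le ht with h1 | h1
    · rw [hDA t h1.ge, ← h1, hA'h, hB'h]
    · rw [hD]
      exact if_neg (not_le.2 h1)
  have hDc : Continuous D := by
    rw [hD]
    refine Continuous.if_le hA'c hB'c continuous_id continuous_const ?_
    intro t ht
    have ht' : t = 1 / 2 := ht
    rw [ht', hA'h, hB'h]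
  have hγd : ∀ t, HasDerivAt γ (D t) t := by
    intro t
    have hl : t ≤ 1 / 2 → HasDerivWithinAt γ (D t) (Iic (1 / 2)) t := by
      intro ht
      rw [hDA t ht]
      exact (hAd t).hasDerivWithinAt.congr (fun s hs => hγA s hs) (hγA t ht)
    have hr : 1 / 2 ≤ t → HasDerivWithinAt γ (D t) (Ici (1 / 2)) t := by
      intro ht
      rw [hDB t ht]
      exact (hBd t).hasDerivWithinAt.congr (fun s hs => hγB s hs) (hγB t ht)
    rcases lt_trichotomy t (1 / 2) with ht | ht | ht
    · exact (hl ht.le).hasDerivAt (Iic_mem_nhds ht)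
    · have h1 := (hl ht.le).union (hr ht.ge)
      rw [Iic_union_Ici, hasDerivWithinAt_univ] at h1
      exact h1
    · exact (hr ht.le).hasDerivAt (Ici_mem_nhds ht)
  refine ⟨γ, d2_C1 hγd hDc, ?_, ?_, ?_⟩
  · rw [hγA 0 (by norm_num), hA]
    show γ₁ (d2ch (2 * 0)) = γ₁ 0
    rw [mul_zero, d2ch_zero]
  · rw [hγB 1 (by norm_num), hB]
    show γ₂ (d2ch (2 * 1 - 1)) = γ₂ 1
    have e3 : (2:ℝ) * 1 - 1 = 1 := by norm_num
    rw [e3, d2ch_one]
  · have hγc : Continuous γ := continuous_iff_continuousAt.2 fun t => (hγd t).continuousAt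
    have hcs : Continuous (fun s => Real.sqrt (g (γ s) (D s) (D s))) :=
      (continuous_speed hg).comp (hγc.prodMk hDc)
    have h0 : len g γ = ∫ t in (0:ℝ)..1, Real.sqrt (g (γ t) (D t) (D t)) := by
      unfold len
      apply intervalIntegral.integral_congr
      intro t _
      show Real.sqrt (g (γ t) (deriv γ t) (deriv γ t)) = Real.sqrt (g (γ t) (D t) (D t))
      rw [(hγd t).deriv]
    have hhalf : (0:ℝ) ≤ 1 / 2 := by norm_num
    have hhalf' : (1:ℝ) / 2 ≤ 1 := by norm_num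
    have h1 : ∫ t in (0:ℝ)..(1 / 2), Real.sqrt (g (γ t) (D t) (D t)) = len g γ₁ := by
      have h2 := d2_subst (g := g) hhalf hf1 (fun t ht => by
        have : 2 * t ∈ Icc (0:ℝ) 1 := by
          have h3 := ht.1
          have h4 := ht.2
          constructor <;> linarith
        exact mul_nonneg (by norm_num) (d2ch'_nonneg this)) γ₁ (deriv γ₁)
      simp only [mul_zero, d2ch_zero, e1, d2ch_one] at h2
      unfold len
      rw [← h2]
      apply intervalIntegral.integral_congr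
      intro t ht
      rw [uIcc_of_le hhalf] at ht
      show Real.sqrt (g (γ t) (D t) (D t)) = _
      rw [hγA t ht.2, hDA t ht.2, hA, hA']
    have h2 : ∫ t in (1 / 2 : ℝ)..1, Real.sqrt (g (γ t) (D t) (D t)) = len g γ₂ := by
      have h3 := d2_subst (g := g) hhalf' hf2 (fun t ht => by
        have : 2 * t - 1 ∈ Icc (0:ℝ) 1 := by
          have h3 := ht.1
          have h4 := ht.2
          constructor <;> linarith
        exact mul_nonneg (by norm_num) (d2ch'_nonneg this)) γ₂ (deriv γ₂)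
      have e3 : (2:ℝ) * 1 - 1 = 1 := by norm_num
      simp only [e2, e3, d2ch_zero, d2ch_one] at h3
      unfold len
      rw [← h3]
      apply intervalIntegral.integral_congr
      intro t ht
      rw [uIcc_of_le hhalf'] at ht
      show Real.sqrt (g (γ t) (D t) (D t)) = _
      rw [hγB t ht.1, hDB t ht.1, hB, hB']
    rw [h0, ← intervalIntegral.integral_add_adjacent_intervals
      (hcs.intervalIntegrable 0 (1 / 2)) (hcs.intervalIntegrable (1 / 2) 1), h1, h2]

theorem dg_triangle (hg : Met g) (x y z : E) : dg g x z ≤ dg g x y + dg g y z := by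
  refine le_of_forall_pos_le_add fun ε hε => ?_
  obtain ⟨γ₁, h1, h10, h11, h1l⟩ := exists_curve hg x y (half_pos hε)
  obtain ⟨γ₂, h2, h20, h21, h2l⟩ := exists_curve hg y z (half_pos hε)
  obtain ⟨γ, h3, h30, h31, h3l⟩ := glue hg h1 h2 (by rw [h11, h20])
  have h4 := dg_le_len hg h3
  rw [h30, h31, h10, h21, h3l] at h4
  linarith

end PPF
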