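import Pool.Agent.Lib.MP_a4f5e0_gt.D2

/-!
JOB D3. Comparison with the Euclidean norm.

* `exists_bounds`: `(x, v) ↦ √(g x v v)` is continuous (`continuous_speed`) and positive on the compact set
  `K ×ˢ sphere 0 1`; take a minimum `c` and a maximum `C` (if `K` is empty, `c = C = 1`); for general `v ≠ 0` scale by `‖v‖`
  (`speed_smul`), for `v = 0` both sides are `0`.
* `len_lower` (a curve leaving a ball is long): the curve `γ` starts at `x`. Let `t₁ = 1` if `γ` stays in `closedBall x r` on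
  `[0, 1]`, otherwise the first time with `‖γ t₁ - x‖ = r` (e.g. `sInf {t ∈ Icc 0 1 | r ≤ ‖γ t - x‖}`, a closed set; on
  `[0, t₁]` the curve lies in `closedBall x r`, intermediate value theorem). On `[0, t₁]` we have
  `c * ‖γ' t‖ ≤ √(g (γ t) (γ' t) (γ' t))`, so `len ≥ ∫_0^{t₁} √… ≥ c ∫_0^{t₁} ‖γ'‖ ≥ c ‖γ t₁ - x‖`
  (`intervalIntegral.integral_eq_sub_of_hasDerivAt` and `intervalIntegral.norm_integral_le_integral_norm`).
* `dg_lower`: `K' = cthickening 1 K` is compact and contains `closedBall x 1` for `x ∈ K`; `exists_bounds` on `K'` and `len_lower` with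
  `r = 1`, then `le_csInf`/`exists_curve`.
* `dg_upper`: `dg_le_segment`, the segment lies in the convex set `closedBall 0 M`, `exists_bounds`, and
  `intervalIntegral.integral_mono_on` against the constant `C * ‖y - x‖`.
-/

set_option autoImplicit false

open MeasureTheory Set Filter Topology Real Metric

noncomputable section

namespace PPF

variable {g : E → E →L[ℝ] E →L[ℝ] ℝ}

/-- comparison with the Euclidean norm on compact sets -/
theorem exists_bounds (hg : Met g) {K : Set E} (hK : IsCompact K) :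
    ∃ c > 0, ∃ C > 0, ∀ x ∈ K, ∀ v, c * ‖v‖ ≤ Real.sqrt (g x v v) ∧
      Real.sqrt (g x v v) ≤ C * ‖v‖ := by
  rcases K.eq_empty_or_nonempty with rfl | hne
  · exact ⟨1, one_pos, 1, one_pos, by simp⟩
  have hS : IsCompact (K ×ˢ sphere (0 : E) 1) := hK.prod (isCompact_sphere 0 1)
  have hSne : (K ×ˢ sphere (0 : E) 1).Nonempty :=
    hne.prod (NormedSpace.sphere_nonempty.mpr zero_le_one)
  obtain ⟨p, hp, hpmin⟩ := hS.exists_isMinOn hSne (continuous_speed hg).continuousOn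
  obtain ⟨q, hq, hqmax⟩ := hS.exists_isMaxOn hSne (continuous_speed hg).continuousOn
  have pos : ∀ r ∈ K ×ˢ sphere (0 : E) 1, 0 < Real.sqrt (g r.1 r.2 r.2) := by
    intro r hr
    have h1 : ‖r.2‖ = 1 := by
      have := hr.2
      rwa [mem_sphere_zero_iff_norm] at this
    have h2 : r.2 ≠ 0 := by
      intro h
      rw [h, norm_zero] at h1
      exact zero_ne_one h1
    exact Real.sqrt_pos.mpr (hg.pos _ _ h2)
  refine ⟨_, pos p hp, _, pos q hq, fun x hx v => ?_⟩
  by_cases hv : v = 0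
  · simp [hv]
  have hn : 0 < ‖v‖ := norm_pos_iff.mpr hv
  have hw : (x, ‖v‖⁻¹ • v) ∈ K ×ˢ sphere (0 : E) 1 := by
    refine ⟨hx, ?_⟩
    rw [mem_sphere_zero_iff_norm]
    exact norm_smul_inv_norm (𝕜 := ℝ) hv
  have e : Real.sqrt (g x v v) =
      Real.sqrt (g x (‖v‖⁻¹ • v) (‖v‖⁻¹ • v)) * ‖v‖ := by
    rw [speed_smul, abs_of_pos (inv_pos.mpr hn)]
    field_simp
  rw [e]
  exact ⟨mul_le_mul_of_nonneg_right (hpmin hw) hn.le,
    mul_le_mul_of_nonneg_right (hqmax hw) hn.le⟩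

/-- the first exit time -/
theorem D3_time {γ : ℝ → E} (h : Continuous γ) {r : ℝ} {t : ℝ}
    (ht : t ∈ Icc (0:ℝ) 1) :
    ∃ t₁ ∈ Icc (0:ℝ) 1, (∀ s ∈ Ioo 0 t₁, γ s ∈ closedBall (γ 0) r) ∧
      min ‖γ t - γ 0‖ r ≤ ‖γ t₁ - γ 0‖ := by
  by_cases hs : ∀ s ∈ Icc (0:ℝ) t, γ s ∈ closedBall (γ 0) r
  · exact ⟨t, ht, fun s hs' => hs s ⟨hs'.1.le, hs'.2.le⟩, min_le_left _ _⟩
  · push Not at hs
    obtain ⟨s, hs1, hs2⟩ := hs
    have hcl : IsClosed {s : ℝ | s ∈ Icc (0:ℝ) 1 ∧ r ≤ ‖γ s - γ 0‖} :=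
      isClosed_Icc.inter (isClosed_le continuous_const (h.sub continuous_const).norm)
    have hne : {s : ℝ | s ∈ Icc (0:ℝ) 1 ∧ r ≤ ‖γ s - γ 0‖}.Nonempty := by
      refine ⟨s, ⟨hs1.1, hs1.2.trans ht.2⟩, ?_⟩
      rw [mem_closedBall, dist_eq_norm, not_le] at hs2
      exact hs2.le
    have hbd : BddBelow {s : ℝ | s ∈ Icc (0:ℝ) 1 ∧ r ≤ ‖γ s - γ 0‖} :=
      ⟨0, fun x hx => hx.1.1⟩
    have hmem := hcl.csInf_mem hne hbd
    refine ⟨_, hmem.1, fun s' hs' => ?_, (min_le_right _ _).trans hmem.2⟩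
    by_contra hcon
    rw [mem_closedBall, dist_eq_norm, not_le] at hcon
    have : s' ∈ {s : ℝ | s ∈ Icc (0:ℝ) 1 ∧ r ≤ ‖γ s - γ 0‖} :=
      ⟨⟨hs'.1.le, hs'.2.le.trans hmem.1.2⟩, hcon.le⟩
    exact absurd (csInf_le hbd this) (not_le.mpr hs'.2)

theorem len_lower (hg : Met g) {γ : ℝ → E} (h : ContDiff ℝ 1 γ) {r c : ℝ} (hr : 0 < r)
    (hc : 0 ≤ c) (hb : ∀ x ∈ closedBall (γ 0) r, ∀ v, c * ‖v‖ ≤ Real.sqrt (g x v v)) {t : ℝ}
    (ht : t ∈ Icc (0:ℝ) 1) :
    c * min ‖γ t - γ 0‖ r ≤ len g γ := by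
  obtain ⟨t₁, ht₁, hball, hmin⟩ := D3_time h.continuous (r := r) ht
  have hd : Continuous (deriv γ) := h.continuous_deriv le_rfl
  have hsp : Continuous (fun s => Real.sqrt (g (γ s) (deriv γ s) (deriv γ s))) :=
    (continuous_speed hg).comp (h.continuous.prodMk hd)
  have hftc : ∫ s in (0:ℝ)..t₁, deriv γ s = γ t₁ - γ 0 :=
    intervalIntegral.integral_eq_sub_of_hasDerivAt
      (fun s _ => (h.differentiable one_ne_zero s).hasDerivAt) (hd.intervalIntegrable _ _)
  calc c * min ‖γ t - γ 0‖ r ≤ c * ‖γ t₁ - γ 0‖ := mul_le_mul_of_nonneg_left hmin hc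
    _ = c * ‖∫ s in (0:ℝ)..t₁, deriv γ s‖ := by rw [hftc]
    _ ≤ c * ∫ s in (0:ℝ)..t₁, ‖deriv γ s‖ :=
        mul_le_mul_of_nonneg_left (intervalIntegral.norm_integral_le_integral_norm ht₁.1) hc
    _ = ∫ s in (0:ℝ)..t₁, c * ‖deriv γ s‖ := by rw [intervalIntegral.integral_const_mul]
    _ ≤ ∫ s in (0:ℝ)..t₁, Real.sqrt (g (γ s) (deriv γ s) (deriv γ s)) := by
        apply intervalIntegral.integral_mono_on_of_le_Ioo ht₁.1
        · exact (continuous_const.mul hd.norm).intervalIntegrable _ _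
        · exact hsp.intervalIntegrable _ _
        · intro s hs
          exact hb _ (hball s hs) _
    _ ≤ len g γ := by
        unfold len
        rw [← intervalIntegral.integral_add_adjacent_intervals (hsp.intervalIntegrable 0 t₁)
          (hsp.intervalIntegrable t₁ 1)]
        have : 0 ≤ ∫ s in t₁..1, Real.sqrt (g (γ s) (deriv γ s) (deriv γ s)) :=
          intervalIntegral.integral_nonneg ht₁.2 fun s _ => Real.sqrt_nonneg _
        linarith

theorem dg_lower (hg : Met g) {K : Set E} (hK : IsCompact K) :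
    ∃ c > 0, ∀ x ∈ K, ∀ y, c * min ‖y - x‖ 1 ≤ dg g x y := by
  obtain ⟨c, hc, C, hC, hb⟩ := exists_bounds hg (hK.cthickening (r := 1))
  refine ⟨c, hc, fun x hx y => ?_⟩
  refine le_of_forall_pos_le_add fun ε hε => ?_
  obtain ⟨γ, hγ, h0, h1, hlen⟩ := exists_curve hg x y hε
  have hsub : closedBall (γ 0) 1 ⊆ cthickening 1 K := by
    rw [h0]
    exact closedBall_subset_cthickening hx 1
  have := len_lower hg hγ one_pos hc.le (fun z hz v => (hb z (hsub hz) v).1)
    (t := 1) ⟨zero_le_one, le_rfl⟩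
  rw [h0, h1] at this
  exact this.trans hlen.le

theorem dg_upper (hg : Met g) (M : ℝ) :
    ∃ C > 0, ∀ x ∈ closedBall (0 : E) M, ∀ y ∈ closedBall (0 : E) M, dg g x y ≤ C * ‖x - y‖ := by
  obtain ⟨c, hc, C, hC, hb⟩ := exists_bounds hg (isCompact_closedBall (0 : E) M)
  refine ⟨C, hC, fun x hx y hy => (dg_le_segment hg x y).trans ?_⟩
  have hcont : Continuous
      (fun t : ℝ => Real.sqrt (g (x + t • (y - x)) (y - x) (y - x))) :=
    (continuous_speed hg).comp
      ((continuous_const.add (continuous_id.smul continuous_const)).prodMk continuous_const)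
  calc ∫ t in (0:ℝ)..1, Real.sqrt (g (x + t • (y - x)) (y - x) (y - x))
      ≤ ∫ _ in (0:ℝ)..1, C * ‖x - y‖ := by
        apply intervalIntegral.integral_mono_on zero_le_one
        · exact hcont.intervalIntegrable _ _
        · exact intervalIntegrable_const
        · intro t ht
          rw [norm_sub_rev x y]
          exact (hb _ ((convex_closedBall (0 : E) M).add_smul_sub_mem hx hy ht) _).2
    _ = C * ‖x - y‖ := by simp

end PPF
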