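import Pool.Agent.Lib.MP_a4f5e0_gt.D3

/-!
JOB D4. The distance is a continuous metric; infinitesimal upper bound.

* `dg_pos`: `dg_lower` with `K = {x}`.
* `dg_abs_sub_le`: triangle inequality and symmetry: `|d(x,y) - d(x',y')| ≤ d(x,x') + d(y,y')`.
* `dg_continuous`: at `(x₀, y₀)` use `dg_abs_sub_le` and `dg_upper` with `M = ‖x₀‖ + ‖y₀‖ + 1`.
* `dg_tendsto`: `dg_lower` with `K = {x}`: `c * min ‖s n - x‖ 1 → 0`, so `‖s n - x‖ → 0`.
* `dg_tendsto'`: the same for a general filter.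
* `dg_ball_subset`: `dg_lower`.
* `dg_le_infinitesimal`: by `exists_bounds` with `K = {x₀}`: `c ‖v‖ ≤ √(g x₀ v v)`. By continuity of `g` (operator norm) there is
  `δ > 0` with `‖g z - g x₀‖ ≤ η` on `ball x₀ δ`, where `η = ε c²` (then `g z v v ≤ g x₀ v v + η ‖v‖² ≤ (1 + ε) g x₀ v v ≤ (1 + ε)² g x₀ v v`).
  The ball is convex, so `dg_le_segment` and `intervalIntegral.integral_mono_on` with the constant
  `(1 + ε) √(g x₀ (y - x) (y - x))` give the claim.
* `hasDerivAt_dg_bound` is not needed.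
-/

set_option autoImplicit false

open MeasureTheory Set Filter Topology Real Metric

noncomputable section

namespace PPF

variable {g : E → E →L[ℝ] E →L[ℝ] ℝ}

theorem dg_pos (hg : Met g) {x y : E} (h : x ≠ y) : 0 < dg g x y := by
  obtain ⟨c, hc, hK⟩ := dg_lower hg (isCompact_singleton : IsCompact ({x} : Set E))
  refine lt_of_lt_of_le ?_ (hK x rfl y)
  have h1 : 0 < ‖y - x‖ := norm_pos_iff.mpr (sub_ne_zero.mpr h.symm)
  exact mul_pos hc (lt_min h1 one_pos)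

theorem dg_eq_zero_iff (hg : Met g) {x y : E} : dg g x y = 0 ↔ x = y := by
  constructor
  · intro h
    by_contra hne
    exact (dg_pos hg hne).ne' h
  · rintro rfl
    exact dg_self hg x

theorem dg_abs_sub_le (hg : Met g) (x y x' y' : E) :
    |dg g x y - dg g x' y'| ≤ dg g x x' + dg g y y' := by
  have h1 := dg_triangle hg x x' y
  have h2 := dg_triangle hg x' y' y
  have h3 := dg_triangle hg x' x y'
  have h4 := dg_triangle hg x y y'
  have h5 := dg_comm hg x x'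
  have h6 := dg_comm hg y y'
  rw [abs_le]
  constructor <;> linarith

theorem dg_continuous (hg : Met g) : Continuous (fun q : E × E => dg g q.1 q.2) := by
  rw [continuous_iff_continuousAt]
  rintro ⟨x₀, y₀⟩
  obtain ⟨C, hC, hup⟩ := dg_upper hg (‖x₀‖ + ‖y₀‖ + 1)
  have hx0 : x₀ ∈ closedBall (0 : E) (‖x₀‖ + ‖y₀‖ + 1) := by
    rw [mem_closedBall_zero_iff]
    linarith [norm_nonneg y₀]
  have hy0 : y₀ ∈ closedBall (0 : E) (‖x₀‖ + ‖y₀‖ + 1) := by
    rw [mem_closedBall_zero_iff]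
    linarith [norm_nonneg x₀]
  have hev : ∀ᶠ q : E × E in 𝓝 (x₀, y₀),
      dist (dg g q.1 q.2) (dg g x₀ y₀) ≤ C * ‖q.1 - x₀‖ + C * ‖q.2 - y₀‖ := by
    filter_upwards [ball_mem_nhds (x₀, y₀) one_pos] with q hq
    rw [mem_ball, Prod.dist_eq, max_lt_iff, dist_eq_norm, dist_eq_norm] at hq
    have hq1 : q.1 ∈ closedBall (0 : E) (‖x₀‖ + ‖y₀‖ + 1) := by
      rw [mem_closedBall_zero_iff]
      have h1 : ‖q.1‖ ≤ ‖q.1 - x₀‖ + ‖x₀‖ := by
        simpa using norm_add_le (q.1 - x₀) x₀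
      have h2 : ‖q.1 - x₀‖ < 1 := hq.1
      linarith [norm_nonneg y₀]
    have hq2 : q.2 ∈ closedBall (0 : E) (‖x₀‖ + ‖y₀‖ + 1) := by
      rw [mem_closedBall_zero_iff]
      have h1 : ‖q.2‖ ≤ ‖q.2 - y₀‖ + ‖y₀‖ := by
        simpa using norm_add_le (q.2 - y₀) y₀
      have h2 : ‖q.2 - y₀‖ < 1 := hq.2
      linarith [norm_nonneg x₀]
    rw [Real.dist_eq]
    exact (dg_abs_sub_le hg _ _ _ _).trans (add_le_add (hup _ hq1 _ hx0) (hup _ hq2 _ hy0))
  have hlim : Tendsto (fun q : E × E => C * ‖q.1 - x₀‖ + C * ‖q.2 - y₀‖) (𝓝 (x₀, y₀)) (𝓝 0) := by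
    have hcont : Continuous (fun q : E × E => C * ‖q.1 - x₀‖ + C * ‖q.2 - y₀‖) := by fun_prop
    have h1 := hcont.tendsto (x₀, y₀)
    simpa using h1
  exact tendsto_iff_dist_tendsto_zero.mpr
    (squeeze_zero' (Eventually.of_forall fun _ => dist_nonneg) hev hlim)

private theorem D4_lt_of_lt {c a ε : ℝ} (hc : 0 < c) (h : c * min a 1 < c * min ε 1) : a < ε := by
  have h1 : min a 1 < min ε 1 := lt_of_mul_lt_mul_left h hc.le
  by_contra hcon
  push Not at hcon
  exact absurd (min_le_min_right 1 hcon) (not_le.mpr h1)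

theorem dg_tendsto' (hg : Met g) {ι : Type*} {l : Filter ι} {x : E} {s : ι → E}
    (h : Tendsto (fun n => dg g x (s n)) l (𝓝 0)) : Tendsto s l (𝓝 x) := by
  obtain ⟨c, hc, hK⟩ := dg_lower hg (isCompact_singleton : IsCompact ({x} : Set E))
  rw [Metric.tendsto_nhds]
  intro ε hε
  have hpos : 0 < c * min ε 1 := mul_pos hc (lt_min hε one_pos)
  filter_upwards [h.eventually (gt_mem_nhds hpos)] with n hn
  rw [dist_eq_norm]
  exact D4_lt_of_lt hc (lt_of_le_of_lt (hK x rfl (s n)) hn)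

theorem dg_tendsto (hg : Met g) {x : E} {s : ℕ → E}
    (h : Tendsto (fun n => dg g x (s n)) atTop (𝓝 0)) : Tendsto s atTop (𝓝 x) :=
  dg_tendsto' hg h

/-- small `dg`-balls are contained in small Euclidean balls, uniformly on compact sets -/
theorem dg_ball_subset (hg : Met g) {K : Set E} (hK : IsCompact K) {ε : ℝ} (hε : 0 < ε) :
    ∃ δ > 0, ∀ x ∈ K, ∀ y, dg g x y < δ → ‖y - x‖ < ε := by
  obtain ⟨c, hc, hlow⟩ := dg_lower hg hK
  refine ⟨c * min ε 1, mul_pos hc (lt_min hε one_pos), fun x hx y hy => ?_⟩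
  exact D4_lt_of_lt hc (lt_of_le_of_lt (hlow x hx y) hy)

/-- infinitesimal upper bound -/
theorem dg_le_infinitesimal (hg : Met g) (x₀ : E) {ε : ℝ} (hε : 0 < ε) :
    ∃ δ > 0, ∀ x ∈ ball x₀ δ, ∀ y ∈ ball x₀ δ,
      dg g x y ≤ (1 + ε) * Real.sqrt (g x₀ (y - x) (y - x)) := by
  obtain ⟨c, hc, C, hC, hb⟩ := exists_bounds hg (isCompact_singleton : IsCompact ({x₀} : Set E))
  have hgc : Continuous g := (hg.smooth 0).continuous
  have hη : 0 < ε * c ^ 2 := by positivity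
  obtain ⟨δ, hδ, hball⟩ := (Metric.continuousAt_iff (f := g) (a := x₀)).mp
    (by exact hgc.continuousAt) (ε * c ^ 2) hη
  have hnn : ∀ v : E, 0 ≤ g x₀ v v := by
    intro v
    by_cases hv : v = 0
    · simp [hv]
    · exact (hg.pos x₀ v hv).le
  have key : ∀ z ∈ ball x₀ δ, ∀ v : E,
      Real.sqrt (g z v v) ≤ (1 + ε) * Real.sqrt (g x₀ v v) := by
    intro z hz v
    have h1 : ‖g z - g x₀‖ ≤ ε * c ^ 2 := by
      have h0 := (hball (mem_ball.mp hz)).le
      have h00 : dist (g z) (g x₀) = ‖g z - g x₀‖ := dist_eq_norm (g z) (g x₀)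
      exact h00 ▸ h0
    have h2 : g z v v - g x₀ v v ≤ ε * c ^ 2 * (‖v‖ * ‖v‖) := by
      have h3 : g z v v - g x₀ v v = (g z - g x₀) v v := by simp
      rw [h3]
      calc (g z - g x₀) v v ≤ ‖(g z - g x₀) v v‖ := Real.le_norm_self _
        _ ≤ ‖g z - g x₀‖ * ‖v‖ * ‖v‖ := ContinuousLinearMap.le_opNorm₂ _ _ _
        _ ≤ ε * c ^ 2 * ‖v‖ * ‖v‖ := by gcongr
        _ = _ := by ring
    have h4 : c ^ 2 * (‖v‖ * ‖v‖) ≤ g x₀ v v := by
      have h5 := (hb x₀ rfl v).1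
      have h6 : (c * ‖v‖) ^ 2 ≤ Real.sqrt (g x₀ v v) ^ 2 := by
        exact pow_le_pow_left₀ (by positivity) h5 2
      rw [Real.sq_sqrt (hnn v)] at h6
      nlinarith
    have h7 : g z v v ≤ (1 + ε) ^ 2 * g x₀ v v := by
      have h8 := hnn v
      have h9 : ε * (c ^ 2 * (‖v‖ * ‖v‖)) ≤ ε * g x₀ v v := mul_le_mul_of_nonneg_left h4 hε.le
      have h10 : 0 ≤ (ε + ε ^ 2) * g x₀ v v := by positivity
      nlinarith
    calc Real.sqrt (g z v v) ≤ Real.sqrt ((1 + ε) ^ 2 * g x₀ v v) := Real.sqrt_le_sqrt h7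
      _ = (1 + ε) * Real.sqrt (g x₀ v v) := by
          rw [Real.sqrt_mul (by positivity), Real.sqrt_sq (by positivity)]
  refine ⟨δ, hδ, fun x hx y hy => ?_⟩
  refine (dg_le_segment hg x y).trans ?_
  have hseg : ∀ t ∈ Icc (0:ℝ) 1, x + t • (y - x) ∈ ball x₀ δ := by
    intro t ht
    have h1 := (convex_ball x₀ δ).add_smul_sub_mem hx hy ht
    exact h1
  have hint : IntervalIntegrable
      (fun t : ℝ => Real.sqrt (g (x + t • (y - x)) (y - x) (y - x))) volume 0 1 := by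
    apply ContinuousOn.intervalIntegrable
    have h1 : ContinuousOn (fun t : ℝ => x + t • (y - x)) (uIcc 0 1) := by fun_prop
    exact continuousOn_speed hg h1 continuousOn_const
  calc ∫ t in (0:ℝ)..1, Real.sqrt (g (x + t • (y - x)) (y - x) (y - x))
      ≤ ∫ _t in (0:ℝ)..1, (1 + ε) * Real.sqrt (g x₀ (y - x) (y - x)) := by
        refine intervalIntegral.integral_mono_on zero_le_one hint intervalIntegrable_const ?_
        intro t ht
        exact key _ (hseg t ht) _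
    _ = (1 + ε) * Real.sqrt (g x₀ (y - x) (y - x)) := by simp

end PPF
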