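import Pool.Agent.Lib.MP_a4f5e0_gt.D4

/-!
JOB D5. Calibrations.

* `calib_curve`: `t ↦ f (γ t)` has derivative `θ (γ t) (γ' t)` on `[0, 1]` (`HasFDerivAt.comp_hasDerivAt`), bounded by the speed, which is
  continuous, hence integrable: `|f (γ 1) - f (γ 0)| = |∫ θ(γ)(γ')| ≤ ∫ √(g γ γ' γ') = len` (`intervalIntegral.integral_eq_sub_of_hasDerivAt`,
  `intervalIntegral.norm_integral_le_of_norm_le` or `intervalIntegral.abs_integral_le_integral_abs` and `integral_mono_on`; the integrand
  is continuous on `[0, 1]`, hence integrable).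
* `calib_global`: `calib_curve` with `U = univ`, `exists_curve`.
* `calib_local`: let `B = closedBall x₀ (δ / 2)`, `exists_bounds` for `B` gives `c, C`. Put `ρ = min (δ / 8) (c δ / (16 C))` or similar.
  Let `x, y ∈ ball x₀ ρ` and `γ` a curve from `x` to `y`. If `γ` stays in `B` on `[0, 1]` then `calib_curve` applies with `U = ball x₀ δ`.
  Otherwise `‖γ t - x₀‖ > δ / 2` for some `t`, so `‖γ t - γ 0‖ > δ / 4`, and `len_lower` with `r = δ / 4` (the ball
  `closedBall x (δ / 4)` lies in `B`) gives `len ≥ c δ / 4`, while `|f x - f y| ≤ C ‖x - y‖ ≤ 2 C ρ ≤ c δ / 8` by the mean value inequality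
  (`Convex.norm_image_sub_le_of_norm_hasFDerivWithin_le` on the convex set `ball x₀ ρ`; `‖θ z‖ ≤ C` there by `h1` and `exists_bounds`,
  `ContinuousLinearMap.opNorm_le_bound`). So `|f x - f y| ≤ len g γ` in both cases; conclude by `exists_curve`.
-/

set_option autoImplicit false

open MeasureTheory Set Filter Topology Real Metric

noncomputable section

namespace PPF

variable {g : E → E →L[ℝ] E →L[ℝ] ℝ}

theorem calib_curve (hg : Met g) {f : E → ℝ} {θ : E → E →L[ℝ] ℝ} {U : Set E}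
    (hθ : ContinuousOn θ U) (hf : ∀ x ∈ U, HasFDerivAt f (θ x) x)
    (h1 : ∀ x ∈ U, ∀ v, |θ x v| ≤ Real.sqrt (g x v v)) {γ : ℝ → E} (h : ContDiff ℝ 1 γ)
    (hU : ∀ t ∈ Icc (0:ℝ) 1, γ t ∈ U) :
    |f (γ 0) - f (γ 1)| ≤ len g γ := by
  have hd : Continuous (deriv γ) := h.continuous_deriv (le_refl 1)
  have hder : ∀ t, HasDerivAt γ (deriv γ t) t := fun t =>
    ((h.differentiable (by norm_num)) t).hasDerivAt
  have hF : ContinuousOn (fun t => θ (γ t) (deriv γ t)) (Icc (0:ℝ) 1) :=
    (hθ.comp h.continuous.continuousOn hU).clm_apply hd.continuousOn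
  have hu : uIcc (0:ℝ) 1 = Icc 0 1 := uIcc_of_le zero_le_one
  have hS : ContinuousOn (fun t => Real.sqrt (g (γ t) (deriv γ t) (deriv γ t))) (Icc (0:ℝ) 1) :=
    continuousOn_speed hg h.continuous.continuousOn hd.continuousOn
  have hint : ∫ t in (0:ℝ)..1, θ (γ t) (deriv γ t) = f (γ 1) - f (γ 0) := by
    refine intervalIntegral.integral_eq_sub_of_hasDerivAt (f := fun t => f (γ t)) ?_ ?_
    · intro t ht
      rw [hu] at ht
      exact (hf (γ t) (hU t ht)).comp_hasDerivAt t (hder t)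
    · exact (by rw [hu]; exact hF : ContinuousOn _ (uIcc (0:ℝ) 1)).intervalIntegrable
  rw [abs_sub_comm, ← hint]
  refine (intervalIntegral.abs_integral_le_integral_abs zero_le_one).trans ?_
  refine intervalIntegral.integral_mono_on zero_le_one ?_ ?_ ?_
  · exact (by rw [hu]; exact hF.abs : ContinuousOn _ (uIcc (0:ℝ) 1)).intervalIntegrable
  · exact (by rw [hu]; exact hS : ContinuousOn _ (uIcc (0:ℝ) 1)).intervalIntegrable
  · intro t ht
    exact h1 (γ t) (hU t ht) _

/-- calibration, global version -/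
theorem calib_global (hg : Met g) {f : E → ℝ} {θ : E → E →L[ℝ] ℝ} (hθ : Continuous θ)
    (hf : ∀ x, HasFDerivAt f (θ x) x) (h1 : ∀ x v, |θ x v| ≤ Real.sqrt (g x v v)) (x y : E) :
    |f x - f y| ≤ dg g x y := by
  refine le_of_forall_pos_le_add fun ε hε => ?_
  obtain ⟨γ, h2, h3, h4, h5⟩ := exists_curve hg x y hε
  have h6 := calib_curve hg (U := univ) hθ.continuousOn (fun x _ => hf x) (fun x _ => h1 x) h2
    (fun t _ => mem_univ _)
  rw [h3, h4] at h6
  exact h6.trans h5.le

/-- calibration, local version: `ρ` depends only on `x₀` and `δ` -/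
theorem calib_local (hg : Met g) (x₀ : E) {δ : ℝ} (hδ : 0 < δ) :
    ∃ ρ > 0, ∀ (f : E → ℝ) (θ : E → E →L[ℝ] ℝ), ContinuousOn θ (ball x₀ δ) →
      (∀ x ∈ ball x₀ δ, HasFDerivAt f (θ x) x) →
      (∀ x ∈ ball x₀ δ, ∀ v, |θ x v| ≤ Real.sqrt (g x v v)) →
      ∀ x ∈ ball x₀ ρ, ∀ y ∈ ball x₀ ρ, |f x - f y| ≤ dg g x y := by
  obtain ⟨c, hc, C, hC, hb⟩ := exists_bounds hg (isCompact_closedBall x₀ (δ / 2))
  have hρ : 0 < min (δ / 8) (c * δ / (16 * C)) := lt_min (by positivity) (by positivity)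
  refine ⟨min (δ / 8) (c * δ / (16 * C)), hρ, ?_⟩
  intro f θ hθ hf h1 x hx y hy
  have hρ1 : min (δ / 8) (c * δ / (16 * C)) ≤ δ / 8 := min_le_left _ _
  have hρ2 : min (δ / 8) (c * δ / (16 * C)) ≤ c * δ / (16 * C) := min_le_right _ _
  refine le_of_forall_pos_le_add fun ε hε => ?_
  obtain ⟨γ, h2, h3, h4, h5⟩ := exists_curve hg x y hε
  refine le_trans ?_ h5.le
  rw [mem_ball, dist_eq_norm] at hx hy
  by_cases hstay : ∀ t ∈ Icc (0:ℝ) 1, γ t ∈ ball x₀ δ
  · have h6 := calib_curve hg (U := ball x₀ δ) hθ hf h1 h2 hstay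
    rwa [h3, h4] at h6
  · push Not at hstay
    obtain ⟨t, ht, h6⟩ := hstay
    rw [mem_ball, dist_eq_norm, not_lt] at h6
    have h7 : δ / 4 ≤ ‖γ t - γ 0‖ := by
      have h8 : ‖γ t - x₀‖ ≤ ‖γ t - γ 0‖ + ‖γ 0 - x₀‖ := by
        have : γ t - x₀ = (γ t - γ 0) + (γ 0 - x₀) := by abel
        rw [this]; exact norm_add_le _ _
      rw [h3] at h8 ⊢
      linarith
    have h9 := len_lower hg h2 (r := δ / 4) (c := c) (by positivity) hc.le (by
      intro z hz v
      refine (hb z ?_ v).1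
      rw [h3, mem_closedBall, dist_eq_norm] at hz
      rw [mem_closedBall, dist_eq_norm]
      have : z - x₀ = (z - x) + (x - x₀) := by abel
      rw [this]
      refine (norm_add_le _ _).trans ?_
      linarith) ht
    rw [min_eq_right h7] at h9
    have h10 : ‖f y - f x‖ ≤ C * ‖y - x‖ := by
      refine Convex.norm_image_sub_le_of_norm_hasFDerivWithin_le (f := f) (f' := θ)
        (s := closedBall x₀ (δ / 8)) ?_ ?_ (convex_closedBall _ _) ?_ ?_
      · intro z hz
        refine (hf z ?_).hasFDerivWithinAt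
        rw [mem_closedBall] at hz
        rw [mem_ball]
        linarith
      · intro z hz
        rw [mem_closedBall] at hz
        refine ContinuousLinearMap.opNorm_le_bound _ hC.le fun v => ?_
        rw [Real.norm_eq_abs]
        refine (h1 z ?_ v).trans (hb z ?_ v).2
        · rw [mem_ball]; linarith
        · rw [mem_closedBall]; linarith
      · rw [mem_closedBall, dist_eq_norm]; linarith
      · rw [mem_closedBall, dist_eq_norm]; linarith
    have h11 : ‖y - x‖ ≤ 2 * (c * δ / (16 * C)) := by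
      have : y - x = (y - x₀) - (x - x₀) := by abel
      rw [this]
      refine (norm_sub_le _ _).trans ?_
      linarith
    have h12 : C * ‖y - x‖ ≤ c * (δ / 4) := by
      calc C * ‖y - x‖ ≤ C * (2 * (c * δ / (16 * C))) := mul_le_mul_of_nonneg_left h11 hC.le
        _ = c * δ / 8 := by field_simp; ring
        _ ≤ c * (δ / 4) := by nlinarith [mul_pos hc hδ]
    rw [abs_sub_comm, ← Real.norm_eq_abs]
    linarith

end PPF
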