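import Mathlib

/-!
# ODet: Liouville's formula

JOB ODet.
-/

set_option autoImplicit false

open MeasureTheory Set Filter Topology Real

noncomputable section

namespace PPF

variable {F : Type*} [NormedAddCommGroup F] [NormedSpace ℝ F] [FiniteDimensional ℝ F]

/-- the determinant is differentiable -/
theorem odet_diff (N : F →L[ℝ] F) : DifferentiableAt ℝ (fun A : F →L[ℝ] F => A.det) N := by
  set b := Module.finBasis ℝ F with hb
  have hdet : (fun A : F →L[ℝ] F => A.det) = fun A : F →L[ℝ] F =>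
      ∑ σ : Equiv.Perm (Fin (Module.finrank ℝ F)), ((Equiv.Perm.sign σ : ℤ) : ℝ) *
        ∏ i, (LinearMap.toContinuousLinearMap (b.coord (σ i))) (A (b i)) := by
    funext A
    show LinearMap.det (A : F →ₗ[ℝ] F) = _
    rw [← LinearMap.det_toMatrix b, Matrix.det_apply']
    refine Finset.sum_congr rfl fun σ _ => ?_
    congr 1
    refine Finset.prod_congr rfl fun i _ => ?_
    rw [LinearMap.toMatrix_apply]
    rfl
  rw [hdet]
  have h1 : ∀ (σ : Equiv.Perm (Fin (Module.finrank ℝ F))) (i : Fin (Module.finrank ℝ F)),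
      DifferentiableAt ℝ (fun A : F →L[ℝ] F =>
        (LinearMap.toContinuousLinearMap (b.coord (σ i))) (A (b i))) N := by
    intro σ i
    have h2 : DifferentiableAt ℝ (fun A : F →L[ℝ] F => A (b i)) N :=
      (ContinuousLinearMap.apply ℝ F (b i)).differentiableAt
    exact (LinearMap.toContinuousLinearMap (b.coord (σ i))).differentiableAt.comp N h2
  refine DifferentiableAt.fun_sum fun σ _ => ?_
  refine DifferentiableAt.const_mul ?_ _
  exact (HasFDerivAt.finsetProd fun i _ => (h1 σ i).hasFDerivAt).differentiableAt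

/-- the derivative of `det (1 + s A)` at `0` -/
theorem odet_one_add (A : F →L[ℝ] F) (c : ℝ) :
    HasDerivAt (fun s : ℝ => (ContinuousLinearMap.id ℝ F + s • A).det * c)
      (LinearMap.trace ℝ F (A : F →ₗ[ℝ] F) * c) 0 := by
  set b := Module.finBasis ℝ F with hb
  set B := LinearMap.toMatrix b b (A : F →ₗ[ℝ] F) with hB
  have h1 : ∀ s : ℝ, (ContinuousLinearMap.id ℝ F + s • A).det = 1 + Matrix.trace B * s +
      (Matrix.det (1 + (Polynomial.X : Polynomial ℝ) • B.map Polynomial.C)).divX.divX.eval s *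
        s ^ 2 := by
    intro s
    rw [← Matrix.det_one_add_smul]
    show LinearMap.det ((ContinuousLinearMap.id ℝ F + s • A : F →L[ℝ] F) : F →ₗ[ℝ] F) = _
    rw [← LinearMap.det_toMatrix b]
    congr 1
    have h2 : ((ContinuousLinearMap.id ℝ F + s • A : F →L[ℝ] F) : F →ₗ[ℝ] F) =
        LinearMap.id + s • (A : F →ₗ[ℝ] F) := rfl
    rw [h2, map_add, map_smul, LinearMap.toMatrix_id]
  have h3 : LinearMap.trace ℝ F (A : F →ₗ[ℝ] F) = Matrix.trace B :=
    LinearMap.trace_eq_matrix_trace ℝ b _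
  rw [h3]
  set P := (Matrix.det (1 + (Polynomial.X : Polynomial ℝ) • B.map Polynomial.C)).divX.divX
    with hP
  have h4 : (fun s : ℝ => (ContinuousLinearMap.id ℝ F + s • A).det * c) =
      fun s : ℝ => (1 + Matrix.trace B * s + P.eval s * s ^ 2) * c := by
    funext s
    rw [h1]
  rw [h4]
  have h5 : HasDerivAt (fun s : ℝ => P.eval s) (P.derivative.eval 0) 0 := P.hasDerivAt 0
  have h6 : HasDerivAt (fun s : ℝ => s ^ 2) (0 : ℝ) 0 := by
    have := hasDerivAt_pow 2 (0 : ℝ)
    simpa using this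
  have h7 : HasDerivAt (fun s : ℝ => Matrix.trace B * s) (Matrix.trace B) 0 := by
    have := (hasDerivAt_id (0 : ℝ)).const_mul (Matrix.trace B)
    simpa using this
  have h8 := ((h7.const_add 1).add (h5.mul h6)).mul_const c
  have h9 : (Matrix.trace B + (P.derivative.eval 0 * (0 : ℝ) ^ 2 + P.eval 0 * 0)) * c =
      Matrix.trace B * c := by ring
  rw [h9] at h8
  exact h8

/-- Jacobi's formula along a solution of `M' = A M`. PROOF: `det` is differentiable on `F →L[ℝ] F` (a
polynomial in the matrix entries with respect to a basis: `LinearMap.det_toMatrix`, `Matrix.det_apply`,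
finite sums of products of continuous linear functionals), so the derivative of `det ∘ M` at `t` equals the
derivative at `s = 0` of `s ↦ det ((1 + s A) M t) = det (1 + s A) * det (M t)`, and
`d/ds det (1 + s A) = tr A` (Mathlib `Matrix.derivative_det_one_add_X_smul`, or differentiate
`Matrix.det_apply`). Alternative: `Matrix.det` as `∑ σ, sign σ ∏ i` and `HasDerivAt.fun_finset_prod`. -/
theorem hasDerivAt_det {M : ℝ → (F →L[ℝ] F)} {A : F →L[ℝ] F} {t : ℝ}
    (hM : HasDerivAt M (A.comp (M t)) t) :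
    HasDerivAt (fun s => (M s).det) (LinearMap.trace ℝ F (A : F →ₗ[ℝ] F) * (M t).det) t := by
  have hd := (odet_diff (M t)).hasFDerivAt
  have h1 : HasDerivAt (fun s => (M s).det)
      (fderiv ℝ (fun A : F →L[ℝ] F => A.det) (M t) (A.comp (M t))) t :=
    HasFDerivAt.comp_hasDerivAt t hd hM
  have h2 : HasDerivAt (fun s : ℝ => M t + s • A.comp (M t)) (A.comp (M t)) 0 := by
    have h3 := ((hasDerivAt_id (0 : ℝ)).smul_const (A.comp (M t))).const_add (M t)
    simpa using h3
  have hd' : HasFDerivAt (fun A : F →L[ℝ] F => A.det)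
      (fderiv ℝ (fun A : F →L[ℝ] F => A.det) (M t)) (M t + (0 : ℝ) • A.comp (M t)) := by
    rw [zero_smul, add_zero]
    exact hd
  have h3 : HasDerivAt (fun s : ℝ => (M t + s • A.comp (M t)).det)
      (fderiv ℝ (fun A : F →L[ℝ] F => A.det) (M t) (A.comp (M t))) 0 :=
    HasFDerivAt.comp_hasDerivAt (l := fun A : F →L[ℝ] F => A.det) (0 : ℝ) hd' h2
  have h4 : (fun s : ℝ => (M t + s • A.comp (M t)).det) =
      fun s : ℝ => (ContinuousLinearMap.id ℝ F + s • A).det * (M t).det := by
    funext s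
    have h5 : M t + s • A.comp (M t) = (ContinuousLinearMap.id ℝ F + s • A).comp (M t) := by
      ext x
      simp
    rw [h5]
    show LinearMap.det (((ContinuousLinearMap.id ℝ F + s • A).comp (M t) : F →L[ℝ] F) :
      F →ₗ[ℝ] F) = _
    rw [ContinuousLinearMap.toLinearMap_comp, LinearMap.det_comp]
  rw [h4] at h3
  have h6 := h3.unique (odet_one_add A (M t).det)
  rw [h6] at h1
  exact h1

/-- the trace of the derivative of `D V` -/
theorem trace_fderiv_smul {V : F → F} {D : F → ℝ} {z : F} (hV : DifferentiableAt ℝ V z)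
    (hD : DifferentiableAt ℝ D z) :
    LinearMap.trace ℝ F (fderiv ℝ (fun x => D x • V x) z : F →ₗ[ℝ] F) =
      D z * LinearMap.trace ℝ F (fderiv ℝ V z : F →ₗ[ℝ] F) + fderiv ℝ D z (V z) := by
  have h1 : fderiv ℝ (fun x => D x • V x) z = D z • fderiv ℝ V z +
      (fderiv ℝ D z).smulRight (V z) := fderiv_fun_smul hD hV
  rw [h1]
  have h2 : ((D z • fderiv ℝ V z + (fderiv ℝ D z).smulRight (V z) : F →L[ℝ] F) : F →ₗ[ℝ] F) =
      D z • (fderiv ℝ V z : F →ₗ[ℝ] F) + ((fderiv ℝ D z : F →ₗ[ℝ] ℝ)).smulRight (V z) := rfl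
  rw [h2, map_add, map_smul, smul_eq_mul]
  congr 1
  rw [LinearMap.trace_smulRight]
  rfl

/-- **Liouville's formula**. PROOF: the derivative in `t` of the left side is
`tr(DV) det D(φ) + det DD(V(φ)) = 0` by `hasDerivAt_det`, `hdiv` at `φ t z`; so it is constant
(`is_const_of_deriv_eq_zero`), and at `t = 0` it equals `D z` (`φ 0 = id`). -/
theorem flow_det {V : F → F} {φ : ℝ → F → F} (hV : ContDiff ℝ 1 V) (h0 : ∀ z, φ 0 z = z)
    (hd : ∀ t z, HasDerivAt (fun s => φ s z) (V (φ t z)) t)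
    (hvar : ∀ t z, HasDerivAt (fun s => fderiv ℝ (φ s) z)
        ((fderiv ℝ V (φ t z)).comp (fderiv ℝ (φ t) z)) t)
    {D : F → ℝ} (hD : ContDiff ℝ 1 D)
    (hdiv : ∀ z, LinearMap.trace ℝ F (fderiv ℝ (fun x => D x • V x) z : F →ₗ[ℝ] F) = 0)
    (t : ℝ) (z : F) : (fderiv ℝ (φ t) z).det * D (φ t z) = D z := by
  have hφ0 : fderiv ℝ (φ 0) z = ContinuousLinearMap.id ℝ F := by
    have : φ 0 = id := funext h0
    rw [this, fderiv_id]
  have hVd : ∀ x, DifferentiableAt ℝ V x := fun x => hV.differentiable one_ne_zero x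
  have hDd : ∀ x, DifferentiableAt ℝ D x := fun x => hD.differentiable one_ne_zero x
  have key : ∀ s, HasDerivAt (fun s => (fderiv ℝ (φ s) z).det * D (φ s z)) 0 s := by
    intro s
    have h1 := hasDerivAt_det (hvar s z)
    have h2 : HasDerivAt (fun s => D (φ s z)) (fderiv ℝ D (φ s z) (V (φ s z))) s :=
      (hDd (φ s z)).hasFDerivAt.comp_hasDerivAt s (hd s z)
    have h3 := h1.mul h2
    have h4 := hdiv (φ s z)
    rw [trace_fderiv_smul (hVd _) (hDd _)] at h4
    have h5 : LinearMap.trace ℝ F (fderiv ℝ V (φ s z) : F →ₗ[ℝ] F) * (fderiv ℝ (φ s) z).det *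
        D (φ s z) + (fderiv ℝ (φ s) z).det * fderiv ℝ D (φ s z) (V (φ s z)) = 0 := by
      linear_combination (fderiv ℝ (φ s) z).det * h4
    rw [h5] at h3
    exact h3
  have h5 : (fun s => (fderiv ℝ (φ s) z).det * D (φ s z)) t =
      (fun s => (fderiv ℝ (φ s) z).det * D (φ s z)) 0 :=
    is_const_of_deriv_eq_zero (fun s => (key s).differentiableAt) (fun s => (key s).deriv) t 0
  have h6 : (fderiv ℝ (φ t) z).det * D (φ t z) = (fderiv ℝ (φ 0) z).det * D (φ 0 z) := h5
  rw [h6, hφ0, h0]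
  have h7 : (ContinuousLinearMap.id ℝ F).det = 1 := LinearMap.det_id
  rw [h7, one_mul]

end PPF
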