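import Pool.Agent.Lib.MP_a4f5e0_gt.OTube
import Pool.Agent.Lib.MP_a4f5e0_gt.ODet

/-!
# OLint: the flow preserves the measure `D dx`

JOB OLint.
-/

set_option autoImplicit false

open MeasureTheory Set Filter Topology Real

noncomputable section

namespace PPF

variable {F : Type*} [NormedAddCommGroup F] [NormedSpace ℝ F] [FiniteDimensional ℝ F]
  [MeasurableSpace F] [BorelSpace F]

/-- PROOF: `φ t` is a bijection with inverse `φ (-t)` (`Fl.add`), so `φ t '' univ = univ`, and it is
injective. `lintegral_image_eq_lintegral_abs_det_fderiv_mul` with `s = univ` and the function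
`x ↦ ofReal (D x) * G x` gives `∫⁻ ofReal (D x) G x = ∫⁻ ofReal |det| * (ofReal (D (φ t z)) * G (φ t z))`,
and `|det| * D (φ t z) = det * D (φ t z) = D z` by `flow_det` (`det = D z / D (φ t z) > 0`). -/
theorem flow_lintegral (μ : Measure F) [μ.IsAddHaarMeasure] {V : F → F} {φ : ℝ → F → F}
    (hV : ContDiff ℝ 1 V) (h0 : ∀ z, φ 0 z = z)
    (hd : ∀ t z, HasDerivAt (fun s => φ s z) (V (φ t z)) t)
    (hC : ContDiff ℝ 1 (fun q : ℝ × F => φ q.1 q.2))
    (hvar : ∀ t z, HasDerivAt (fun s => fderiv ℝ (φ s) z)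
        ((fderiv ℝ V (φ t z)).comp (fderiv ℝ (φ t) z)) t)
    {D : F → ℝ} (hD : ContDiff ℝ 1 D) (hDpos : ∀ z, 0 < D z)
    (hdiv : ∀ z, LinearMap.trace ℝ F (fderiv ℝ (fun x => D x • V x) z : F →ₗ[ℝ] F) = 0)
    (t : ℝ) (G : F → ENNReal) :
    ∫⁻ z, ENNReal.ofReal (D z) * G (φ t z) ∂μ = ∫⁻ z, ENNReal.ofReal (D z) * G z ∂μ := by
  have hfl : Fl V φ := ⟨h0, hd⟩
  have hsurj : Function.Surjective (φ t) := by
    intro z
    refine ⟨φ (-t) z, ?_⟩
    have := hfl.neg_cancel hV (-t) z
    rwa [neg_neg] at this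
  have hinj : Function.Injective (φ t) := by
    intro x y hxy
    rw [← hfl.neg_cancel hV t x, ← hfl.neg_cancel hV t y, hxy]
  have hdiff : Differentiable ℝ (φ t) := by
    have h1 : Differentiable ℝ (fun q : ℝ × F => φ q.1 q.2) := hC.differentiable (by norm_num)
    exact h1.comp ((differentiable_const t).prodMk differentiable_id)
  have key := lintegral_image_eq_lintegral_abs_det_fderiv_mul μ MeasurableSet.univ
    (f := φ t) (f' := fun z => fderiv ℝ (φ t) z)
    (fun z _ => ((hdiff z).hasFDerivAt).hasFDerivWithinAt) hinj.injOn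
    (fun z => ENNReal.ofReal (D z) * G z)
  rw [Set.image_univ, hsurj.range_eq, Measure.restrict_univ] at key
  rw [key]
  apply lintegral_congr
  intro z
  have h1 := flow_det hV h0 hd hvar hD hdiv t z
  have h2 : 0 < (fderiv ℝ (φ t) z).det := by
    by_contra hcon
    push Not at hcon
    have h3 := mul_nonpos_of_nonpos_of_nonneg hcon (hDpos (φ t z)).le
    rw [h1] at h3
    exact absurd (hDpos z) (not_lt.2 h3)
  rw [← mul_assoc, abs_of_pos h2, ← ENNReal.ofReal_mul h2.le, h1]

end PPF
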