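import Mathlib

/-!
# OUniq: uniqueness and patching of solutions of `c' = V(c)`

JOB OUniq.
-/

set_option autoImplicit false

open MeasureTheory Set Filter Topology Real

noncomputable section

namespace PPF

theorem ouniq_local {F : Type*} [NormedAddCommGroup F] [NormedSpace ℝ F] {V : F → F}
    (hV : ContDiff ℝ 1 V) {a b t : ℝ} {c c' : ℝ → F} (ht : t ∈ Ioo a b)
    (hc : ∀ t ∈ Ioo a b, HasDerivAt c (V (c t)) t)
    (hc' : ∀ t ∈ Ioo a b, HasDerivAt c' (V (c' t)) t) (h : c t = c' t) :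
    c =ᶠ[𝓝 t] c' := by
  obtain ⟨K, s, hs, hLip⟩ := (hV.contDiffAt (x := c t)).exists_lipschitzOnWith
  have hI : Ioo a b ∈ 𝓝 t := Ioo_mem_nhds ht.1 ht.2
  have h1 : ∀ᶠ x in 𝓝 t, c x ∈ s := (hc t ht).continuousAt hs
  have hs' : s ∈ 𝓝 (c' t) := by rwa [← h]
  have h2 : ∀ᶠ x in 𝓝 t, c' x ∈ s := (hc' t ht).continuousAt hs'
  refine ODE_solution_unique_of_eventually (v := fun _ => V) (s := fun _ => s) (K := K)
    (Eventually.of_forall fun _ => hLip) ?_ ?_ h
  · filter_upwards [hI, h1] with x hx hx'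
    exact ⟨hc x hx, hx'⟩
  · filter_upwards [hI, h2] with x hx hx'
    exact ⟨hc' x hx, hx'⟩

/-- uniqueness of solutions on an open interval.
PROOF. `IsPreconnected.subset_of_closure_inter_subset` (or a clopen argument in the subtype) for the set
`A = {t ∈ Ioo a b | c t = c' t}`. Open: at `t ∈ A` the field is Lipschitz on a neighbourhood of `c t`
(`(hV.contDiffAt).exists_lipschitzOnWith`), both curves are continuous, so they stay in it near `t`; apply
`ODE_solution_unique_of_eventually` (constant set `s`, `v := fun _ => V`). Closed: continuity. -/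
theorem sol_unique {F : Type*} [NormedAddCommGroup F] [NormedSpace ℝ F] {V : F → F}
    (hV : ContDiff ℝ 1 V) {a b t₀ : ℝ} {c c' : ℝ → F} (ht : t₀ ∈ Ioo a b)
    (hc : ∀ t ∈ Ioo a b, HasDerivAt c (V (c t)) t)
    (hc' : ∀ t ∈ Ioo a b, HasDerivAt c' (V (c' t)) t) (h : c t₀ = c' t₀) :
    EqOn c c' (Ioo a b) := by
  have hsub : Ioo a b ⊆ {t | c =ᶠ[𝓝 t] c'} := by
    refine isPreconnected_Ioo.subset_of_closure_inter_subset isOpen_setOfPred_eventually_nhds
      ⟨t₀, ht, ouniq_local hV ht hc hc' h⟩ ?_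
    rintro t ⟨ht1, ht2⟩
    refine ouniq_local hV ht2 hc hc' ?_
    by_contra hne
    have hev0 : ∀ᶠ x in 𝓝 t, (c - c') x ≠ 0 :=
      ((hc t ht2).continuousAt.sub (hc' t ht2).continuousAt).eventually_ne (sub_ne_zero.2 hne)
    have hev : ∀ᶠ x in 𝓝 t, c x ≠ c' x := by
      filter_upwards [hev0] with x hx
      exact fun h => hx (sub_eq_zero.2 h)
    have hfr : ∃ᶠ x in 𝓝 t, x ∈ {t | c =ᶠ[𝓝 t] c'} := mem_closure_iff_frequently.1 ht1
    obtain ⟨x, hx1, hx2⟩ := (hfr.and_eventually hev).exists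
    exact hx2 (hx1 : c =ᶠ[𝓝 x] c').self_of_nhds
  intro t ht'
  exact (hsub ht' : c =ᶠ[𝓝 t] c').self_of_nhds

/-- uniqueness of global solutions -/
theorem sol_unique_univ {F : Type*} [NormedAddCommGroup F] [NormedSpace ℝ F] {V : F → F}
    (hV : ContDiff ℝ 1 V) {t₀ : ℝ} {c c' : ℝ → F}
    (hc : ∀ t, HasDerivAt c (V (c t)) t)
    (hc' : ∀ t, HasDerivAt c' (V (c' t)) t) (h : c t₀ = c' t₀) :
    c = c' := by
  funext t
  have h1 : t₀ ∈ Ioo (min t t₀ - 1) (max t t₀ + 1) :=
    ⟨by linarith [min_le_right t t₀], by linarith [le_max_right t t₀]⟩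
  have h2 : t ∈ Ioo (min t t₀ - 1) (max t t₀ + 1) :=
    ⟨by linarith [min_le_left t t₀], by linarith [le_max_left t t₀]⟩
  exact sol_unique hV h1 (fun x _ => hc x) (fun x _ => hc' x) h h2

/-- patching two solutions on overlapping intervals. PROOF: `c'' t = if t < b then c t else c' t`; on
`Ioo a' b` both agree by `sol_unique`, so near every point of `Ioo a b'` the function `c''` coincides with
`c` or with `c'` (`HasDerivAt.congr_of_eventuallyEq`). -/
theorem sol_patch {F : Type*} [NormedAddCommGroup F] [NormedSpace ℝ F] {V : F → F}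
    (hV : ContDiff ℝ 1 V) {a b a' b' t₀ : ℝ} {c c' : ℝ → F} (ha : a ≤ a') (hb : b ≤ b')
    (ht : t₀ ∈ Ioo a' b)
    (hc : ∀ t ∈ Ioo a b, HasDerivAt c (V (c t)) t)
    (hc' : ∀ t ∈ Ioo a' b', HasDerivAt c' (V (c' t)) t) (h : c t₀ = c' t₀) :
    ∃ c'' : ℝ → F, EqOn c'' c (Ioo a b) ∧ EqOn c'' c' (Ioo a' b') ∧
      ∀ t ∈ Ioo a b', HasDerivAt c'' (V (c'' t)) t := by
  have hEq : EqOn c c' (Ioo a' b) :=
    sol_unique hV ht (fun t ht' => hc t ⟨lt_of_le_of_lt ha ht'.1, ht'.2⟩)
      (fun t ht' => hc' t ⟨ht'.1, lt_of_lt_of_le ht'.2 hb⟩) h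
  have e1 : EqOn (fun t => if t < b then c t else c' t) c (Ioo a b) := by
    intro t ht'
    simp only [if_pos ht'.2]
  have e2 : EqOn (fun t => if t < b then c t else c' t) c' (Ioo a' b') := by
    intro t ht'
    by_cases hb' : t < b
    · simp only [if_pos hb']
      exact hEq ⟨ht'.1, hb'⟩
    · simp only [if_neg hb']
  refine ⟨fun t => if t < b then c t else c' t, e1, e2, ?_⟩
  intro t ht'
  by_cases hb' : t < b
  · have hmem : t ∈ Ioo a b := ⟨ht'.1, hb'⟩
    have hev : (fun t => if t < b then c t else c' t) =ᶠ[𝓝 t] c := by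
      filter_upwards [Ioo_mem_nhds hmem.1 hmem.2] with x hx
      exact e1 hx
    have hval : (fun t => if t < b then c t else c' t) t = c t := e1 hmem
    rw [hval]
    exact (hc t hmem).congr_of_eventuallyEq hev
  · have hmem : t ∈ Ioo a' b' := ⟨lt_of_lt_of_le (ht.1.trans ht.2) (not_lt.1 hb'), ht'.2⟩
    have hev : (fun t => if t < b then c t else c' t) =ᶠ[𝓝 t] c' := by
      filter_upwards [Ioo_mem_nhds hmem.1 hmem.2] with x hx
      exact e2 hx
    have hval : (fun t => if t < b then c t else c' t) t = c' t := e2 hmem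
    rw [hval]
    exact (hc' t hmem).congr_of_eventuallyEq hev

end PPF
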