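import Pool.Agent.Lib.MP_a4f5e0_gt.OFlow
import Pool.Agent.Lib.MP_a4f5e0_gt.OGlob
import Pool.Agent.Lib.MP_a4f5e0_gt.OUniq
import Pool.Agent.Lib.MP_a4f5e0_gt.OLint

/-!
# Interface O: abstract ODE theory (stream O)

`OUniq.lean`: `sol_unique`, `sol_unique_univ`; `OGlob.lean`: `glob_exists`; `OTube.lean`: `Fl`, `Fl.add`,
`Fl.cont`; `OVar.lean`, `ODiff.lean`; `OFlow.lean`: `exists_flow`; `ODet.lean`: `hasDerivAt_det`,
`trace_fderiv_smul`, `flow_det`; `OLint.lean`: `flow_lintegral`.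
-/
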