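import Pool.Agent.Lib.MP_a4f5e0_gt.F4
import Pool.Agent.Lib.MP_a4f5e0_gt.IfO

/-!
JOB G1. Symmetries of the geodesic flow.

`IsFlow g φ` (Defs): `φ 0 z = z`, `d/dt φ t z = V g (φ t z)`, jointly `C¹`.
Everything follows from uniqueness `sol_unique_univ` (IfO.lean) for the `C¹` field `V g`
(`contDiff_V hg 1`, cast `(1 : ℕ)`): 
* `unique`: `c` and `fun t => φ t (c 0)` are solutions with the same value at `0`.
* `add`: `s ↦ φ (s + t) z` is a solution (chain rule `HasDerivAt.comp_add_const`), value `φ t z` at `0`.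
* `add_two_pi`: `t ↦ φ t z + (0, 2π)` is a solution because `V g (x, α + 2π) = V g (x, α)`.
* `add_pi`: `t ↦ ((φ (-t) z).1, (φ (-t) z).2 + π)` is a solution: its derivative is
  `-V g (φ (-t) z) = V g ((φ (-t) z).1, (φ (-t) z).2 + π)` (`V_add_pi`).
* `int_two_pi`: induction on `ℤ` (`Int.induction_on`) or: `t ↦ φ t z + (0, 2πk)` is a solution because
  `V g (x, α + 2πk) = V g (x, α)`.
-/

set_option autoImplicit false

open MeasureTheory Set Filter Topology Real

noncomputable section

namespace PPF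

variable {g : E → E →L[ℝ] E →L[ℝ] ℝ} {φ : ℝ → St → St}

private theorem hV1 (hg : Met g) : ContDiff ℝ 1 (V g) := by
  have h := contDiff_V hg 1
  rwa [Nat.cast_one] at h

theorem IsFlow.unique (hg : Met g) (hφ : IsFlow g φ) {c : ℝ → St}
    (hc : ∀ t, HasDerivAt c (V g (c t)) t) (t : ℝ) : c t = φ t (c 0) := by
  have h := sol_unique_univ (hV1 hg) (t₀ := 0) (c := c) (c' := fun t => φ t (c 0)) hc
    (fun t => hφ.deriv t (c 0)) (hφ.zero _).symm
  exact congrFun h t

theorem IsFlow.add (hg : Met g) (hφ : IsFlow g φ) (s t : ℝ) (z : St) :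
    φ (s + t) z = φ s (φ t z) := by
  have h := IsFlow.unique hg hφ (c := fun s => φ (s + t) z)
    (fun s => (hφ.deriv (s + t) z).comp_add_const s t) s
  simp only [zero_add] at h
  exact h

theorem IsFlow.neg_left (hg : Met g) (hφ : IsFlow g φ) (t : ℝ) (z : St) :
    φ (-t) (φ t z) = z := by
  rw [← IsFlow.add hg hφ, neg_add_cancel, hφ.zero]

theorem IsFlow.neg_right (hg : Met g) (hφ : IsFlow g φ) (t : ℝ) (z : St) :
    φ t (φ (-t) z) = z := by
  rw [← IsFlow.add hg hφ, add_neg_cancel, hφ.zero]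

theorem V_int_two_pi (x : E) (α : ℝ) (k : ℤ) : V g (x, α + 2 * π * k) = V g (x, α) := by
  have e : α + 2 * π * k = α + k * (2 * π) := by ring
  have hu : ∀ y, u g (y, α + 2 * π * k) = u g (y, α) := by
    intro y
    unfold u
    simp only [e, Real.cos_add_int_mul_two_pi, Real.sin_add_int_mul_two_pi]
  have hp : ∀ y, p g (y, α + 2 * π * k) = p g (y, α) := by
    intro y
    unfold p
    rw [hu y]
  have hc : curl g (x, α + 2 * π * k) = curl g (x, α) := by
    unfold curl
    simp only [hp]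
  unfold V an
  rw [hu x, hc]

theorem IsFlow.int_two_pi (hg : Met g) (hφ : IsFlow g φ) (t : ℝ) (x : E) (α : ℝ) (k : ℤ) :
    φ t (x, α + 2 * π * k) = ((φ t (x, α)).1, (φ t (x, α)).2 + 2 * π * k) := by
  have h := IsFlow.unique hg hφ
    (c := fun t => φ t (x, α) + ((0 : E), 2 * π * (k : ℝ))) (fun t => by
      have h1 := (hφ.deriv t (x, α)).add_const ((0 : E), 2 * π * (k : ℝ))
      have h2 : V g (φ t (x, α) + ((0 : E), 2 * π * (k : ℝ))) = V g (φ t (x, α)) := by
        have h3 : φ t (x, α) + ((0 : E), 2 * π * (k : ℝ)) =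
            ((φ t (x, α)).1, (φ t (x, α)).2 + 2 * π * k) := by
          ext1
          · simp
          · simp
        rw [h3, V_int_two_pi]
      rw [h2]
      exact h1) t
  simp only [hφ.zero] at h
  have h4 : ((x, α) : St) + ((0 : E), 2 * π * (k : ℝ)) = (x, α + 2 * π * k) := by
    ext1
    · simp
    · simp
  rw [h4] at h
  rw [← h]
  ext1
  · simp
  · simp

theorem IsFlow.add_two_pi (hg : Met g) (hφ : IsFlow g φ) (t : ℝ) (x : E) (α : ℝ) :
    φ t (x, α + 2 * π) = ((φ t (x, α)).1, (φ t (x, α)).2 + 2 * π) := by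
  have h := IsFlow.int_two_pi hg hφ t x α 1
  simpa using h

/-- reversal of the direction -/
theorem IsFlow.add_pi (hg : Met g) (hφ : IsFlow g φ) (t : ℝ) (x : E) (α : ℝ) :
    φ t (x, α + π) = ((φ (-t) (x, α)).1, (φ (-t) (x, α)).2 + π) := by
  have h := IsFlow.unique hg hφ
    (c := fun t => φ (-t) (x, α) + ((0 : E), π)) (fun t => by
      have h0 : HasDerivAt (fun t => φ (-t) (x, α)) (-(V g (φ (-t) (x, α)))) t := by
        have h5 := (hφ.deriv (-t) (x, α)).scomp t (hasDerivAt_neg t)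
        rw [neg_one_smul] at h5
        exact h5
      have h1 := h0.add_const ((0 : E), π)
      have h2 : V g (φ (-t) (x, α) + ((0 : E), π)) = -(V g (φ (-t) (x, α))) := by
        have h3 : φ (-t) (x, α) + ((0 : E), π) =
            ((φ (-t) (x, α)).1, (φ (-t) (x, α)).2 + π) := by
          ext1
          · simp
          · simp
        rw [h3, V_add_pi]
      rw [h2]
      exact h1) t
  simp only [neg_zero, hφ.zero] at h
  have h4 : ((x, α) : St) + ((0 : E), π) = (x, α + π) := by
    ext1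
    · simp
    · simp
  rw [h4] at h
  rw [← h]
  ext1
  · simp
  · simp

theorem IsFlow.hasDerivAt_fst (hφ : IsFlow g φ) (t : ℝ) (z : St) :
    HasDerivAt (fun s => (φ s z).1) (u g (φ t z)) t := by
  have h := (ContinuousLinearMap.fst ℝ E ℝ).hasFDerivAt.comp_hasDerivAt t (hφ.deriv t z)
  exact h

theorem IsFlow.hasDerivAt_snd (hφ : IsFlow g φ) (t : ℝ) (z : St) :
    HasDerivAt (fun s => (φ s z).2) (an g (φ t z)) t := by
  have h := (ContinuousLinearMap.snd ℝ E ℝ).hasFDerivAt.comp_hasDerivAt t (hφ.deriv t z)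
  exact h

theorem IsFlow.continuous (hφ : IsFlow g φ) : Continuous (fun q : ℝ × St => φ q.1 q.2) :=
  hφ.C1.continuous

theorem IsFlow.contDiff_fst (hφ : IsFlow g φ) (z : St) :
    ContDiff ℝ 1 (fun s => (φ s z).1) := by
  have h1 : ContDiff ℝ 1 (fun s : ℝ => ((s, z) : ℝ × St)) := contDiff_id.prodMk contDiff_const
  exact _root_.contDiff_fst.comp (hφ.C1.comp h1)

end PPF
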