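import Pool.Agent.Lib.MP_a4f5e0_gt.D5
import Pool.Agent.Lib.MP_a4f5e0_gt.G1

/-!
JOB D6. Completeness gives the geodesic flow.

* `V_sol_dg_le`: `dg_le_unit` for the first component (`HasDerivAt.fst`), `g_u_self` (F2).
* `an_bounded`: `an g` is continuous (`contDiff_an`) and `2π`-periodic in the angle (`V_int_two_pi` or `V_add_two_pi`, second
  components); reduce the angle to `[0, 2π]` (`toIcoMod` / `exists_unique_add_zsmul_mem_Ico`), and use compactness of `K ×ˢ Icc 0 (2π)`.
* `lim_right`: let `c` solve `c' = V g c` on `(a, b)`. The sequence `(c (t n)).1`, `t n = b - (b - a) / (n + 2)`, is `dg`-Cauchy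
  (`V_sol_dg_le`), so by `Compl` it converges to some `x`. For `t ∈ (a, b)`: `dg (c t).1 (c (t n)).1 ≤ |t - t n|`, let
  `n → ∞` (`dg_continuous`): `dg (c t).1 x ≤ b - t`. So `(c t).1 → x` as `t ↑ b` (`dg_tendsto'`). Hence `(c t).1 ∈ closedBall x 1`
  for `t ∈ [t₀, b)`, and by `an_bounded` `|d/dt (c t).2| ≤ M` there: `(c t).2` is `M`-Lipschitz on `[t₀, b)`
  (`Convex.norm_image_sub_le_of_norm_hasDerivWithin_le`), so it is Cauchy at `b` and has a limit
  (`cauchy_map_iff`, or `LipschitzOnWith.extend…`, or: sequence `(c (t n)).2` is Cauchy, limit `l`, `|(c t).2 - l| ≤ M (b - t)`).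
* `lim_left`: apply `lim_right` to the reversed solution `t ↦ ((c (-t)).1, (c (-t)).2 + π)`, a solution of the same equation on `(-b, -a)` by
  `V_add_pi`; or repeat the argument.
* `exists_isFlow`: `glob_exists` (IfO) gives for every `z` a global solution, then `exists_flow` (`contDiff_V hg 2`).
-/

set_option autoImplicit false

open MeasureTheory Set Filter Topology Real Metric

noncomputable section

namespace PPF

variable {g : E → E →L[ℝ] E →L[ℝ] ℝ}

theorem d6_fst {c : ℝ → St} {t : ℝ} (h : HasDerivAt c (V g (c t)) t) :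
    HasDerivAt (fun s => (c s).1) (u g (c t)) t := by
  have h1 : HasFDerivAt (Prod.fst : St → E) (ContinuousLinearMap.fst ℝ E ℝ) (c t) :=
    hasFDerivAt_fst
  exact h1.comp_hasDerivAt t h

theorem d6_snd {c : ℝ → St} {t : ℝ} (h : HasDerivAt c (V g (c t)) t) :
    HasDerivAt (fun s => (c s).2) (an g (c t)) t := by
  have h1 : HasFDerivAt (Prod.snd : St → ℝ) (ContinuousLinearMap.snd ℝ E ℝ) (c t) :=
    hasFDerivAt_snd
  exact h1.comp_hasDerivAt t h

theorem d6_aux (hg : Met g) {a b : ℝ} {c : ℝ → St}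
    (hc : ∀ t ∈ Ioo a b, HasDerivAt c (V g (c t)) t) {s t : ℝ} (hs : s ∈ Ioo a b)
    (ht : t ∈ Ioo a b) (hst : s ≤ t) : dg g (c s).1 (c t).1 ≤ t - s := by
  have hsub : Icc s t ⊆ Ioo a b := fun r hr => ⟨lt_of_lt_of_le hs.1 hr.1, lt_of_le_of_lt hr.2 ht.2⟩
  have hcont : ContinuousOn c (Icc s t) := fun r hr =>
    (hc r (hsub hr)).continuousAt.continuousWithinAt
  have hu : Continuous (u g) := (contDiff_u hg 0).continuous
  exact dg_le_unit hg hst (c := fun r => (c r).1) (c' := fun r => u g (c r))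
    (fun r hr => d6_fst (hc r (hsub hr))) (hu.comp_continuousOn hcont)
    (fun r hr => g_u_self hg (c r))

theorem V_sol_dg_le (hg : Met g) {a b : ℝ} {c : ℝ → St}
    (hc : ∀ t ∈ Ioo a b, HasDerivAt c (V g (c t)) t) {s t : ℝ} (hs : s ∈ Ioo a b)
    (ht : t ∈ Ioo a b) : dg g (c s).1 (c t).1 ≤ |s - t| := by
  rcases le_total s t with h | h
  · rw [abs_sub_comm, abs_of_nonneg (sub_nonneg.2 h)]
    exact d6_aux hg hc hs ht h
  · rw [abs_of_nonneg (sub_nonneg.2 h), dg_comm hg]
    exact d6_aux hg hc ht hs h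

theorem an_bounded (hg : Met g) {K : Set E} (hK : IsCompact K) :
    ∃ M, ∀ x ∈ K, ∀ α, |an g (x, α)| ≤ M := by
  have hcont : Continuous (an g) := (contDiff_an hg 0).continuous
  have hcomp : IsCompact (K ×ˢ Icc (0:ℝ) (2 * π)) := hK.prod isCompact_Icc
  obtain ⟨M, hM⟩ := hcomp.exists_bound_of_continuousOn (f := an g) hcont.continuousOn
  refine ⟨M, fun x hx α => ?_⟩
  obtain ⟨k, hk, -⟩ := existsUnique_add_zsmul_mem_Ico Real.two_pi_pos α 0
  have h1 : an g (x, α + 2 * π * k) = an g (x, α) := by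
    have := V_int_two_pi (g := g) x α k
    exact congrArg Prod.snd this
  rw [← h1]
  have h2 : α + 2 * π * k = α + k • (2 * π) := by
    rw [zsmul_eq_mul]; ring
  rw [h2]
  have h3 := hM (x, α + k • (2 * π)) ⟨hx, ⟨hk.1, by linarith [hk.2]⟩⟩
  rwa [Real.norm_eq_abs] at h3

theorem lim_right (hg : Met g) (hcp : Compl (dg g)) {a b : ℝ} (hab : a < b) {c : ℝ → St}
    (hc : ∀ t ∈ Ioo a b, HasDerivAt c (V g (c t)) t) : ∃ l, Tendsto c (𝓝[<] b) (𝓝 l) := by
  -- the sequence of times
  set τ : ℕ → ℝ := fun n => b - (b - a) / (n + 2) with hτ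
  have hba : 0 < b - a := sub_pos.2 hab
  have hτm : ∀ n, τ n ∈ Ioo a b := by
    intro n
    have hn : (0:ℝ) ≤ n := Nat.cast_nonneg n
    constructor
    · have : (b - a) / (n + 2) < b - a := by
        rw [div_lt_iff₀ (by linarith)]
        nlinarith
      show a < b - (b - a) / (n + 2)
      linarith
    · have : 0 < (b - a) / (n + 2) := by positivity
      show b - (b - a) / (n + 2) < b
      linarith
  have hτl : Tendsto τ atTop (𝓝 b) := by
    have h1 : Tendsto (fun n : ℕ => (b - a) / ((n : ℝ) + 2)) atTop (𝓝 0) := by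
      apply Tendsto.div_atTop (a := b - a) tendsto_const_nhds
      exact tendsto_atTop_add_const_right _ _ tendsto_natCast_atTop_atTop
    have h2 := (tendsto_const_nhds (x := b)).sub h1
    rw [sub_zero] at h2
    exact h2
  obtain ⟨x, hx⟩ := hcp (fun n => (c (τ n)).1) (by
    intro ε hε
    have h1 : ∀ᶠ n in atTop, |τ n - b| < ε / 2 := by
      have := (Metric.tendsto_nhds.1 hτl) (ε / 2) (by linarith)
      simpa [Real.dist_eq] using this
    obtain ⟨N, hN⟩ := eventually_atTop.1 h1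
    refine ⟨N, fun m hm n hn => ?_⟩
    have h2 := V_sol_dg_le hg hc (hτm m) (hτm n)
    have h3 : |τ m - τ n| ≤ |τ m - b| + |τ n - b| := by
      rw [abs_sub_comm (τ n) b]
      exact abs_sub_le _ _ _
    have := hN m hm
    have := hN n hn
    linarith)
  have hdx : ∀ t ∈ Ioo a b, dg g x (c t).1 ≤ b - t := by
    intro t ht
    have h1 : Tendsto (fun n => dg g (c (τ n)).1 (c t).1) atTop (𝓝 (dg g x (c t).1)) :=
      ((dg_continuous hg).tendsto (x, (c t).1)).comp (hx.prodMk_nhds tendsto_const_nhds)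
    have h2 : Tendsto (fun n => |τ n - t|) atTop (𝓝 |b - t|) :=
      (hτl.sub tendsto_const_nhds).abs
    have h3 := le_of_tendsto_of_tendsto' h1 h2 (fun n => V_sol_dg_le hg hc (hτm n) ht)
    rwa [abs_of_pos (sub_pos.2 ht.2)] at h3
  have hIoo : ∀ᶠ t in 𝓝[<] b, t ∈ Ioo a b := Ioo_mem_nhdsLT hab
  have hfst : Tendsto (fun t => (c t).1) (𝓝[<] b) (𝓝 x) := by
    apply dg_tendsto' hg
    have h1 : Tendsto (fun t : ℝ => b - t) (𝓝[<] b) (𝓝 0) := by
      have : Tendsto (fun t : ℝ => b - t) (𝓝 b) (𝓝 (b - b)) :=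
        (continuous_const.sub continuous_id).tendsto b
      rw [sub_self] at this
      exact this.mono_left nhdsWithin_le_nhds
    exact tendsto_of_tendsto_of_tendsto_of_le_of_le' tendsto_const_nhds h1
      (Eventually.of_forall fun t => dg_nonneg _ _) (hIoo.mono fun t ht => hdx t ht)
  obtain ⟨M, hM⟩ := an_bounded hg (isCompact_closedBall x 1)
  have hball : ∀ᶠ t in 𝓝[<] b, (c t).1 ∈ closedBall x 1 :=
    hfst.eventually (closedBall_mem_nhds x one_pos)
  obtain ⟨t₀, ht₀b, ht₀⟩ := (mem_nhdsLT_iff_exists_Ioo_subset' hab).1 (hball.and hIoo)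
  -- Lipschitz bound
  have hlip : ∀ s ∈ Ioo t₀ b, ∀ t ∈ Ioo t₀ b, |(c t).2 - (c s).2| ≤ M * |t - s| := by
    intro s hs t ht
    have := Convex.norm_image_sub_le_of_norm_hasDerivWithin_le (f := fun r => (c r).2)
      (f' := fun r => an g (c r)) (C := M) (s := Ioo t₀ b) (x := s) (y := t)
      (fun r hr => (d6_snd (hc r (ht₀ hr).2)).hasDerivWithinAt)
      (fun r hr => by
        rw [Real.norm_eq_abs]
        exact hM (c r).1 (ht₀ hr).1 (c r).2) (convex_Ioo _ _) hs ht
    simpa [Real.norm_eq_abs] using this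
  have hIoo' : ∀ᶠ t in 𝓝[<] b, t ∈ Ioo t₀ b := Ioo_mem_nhdsLT ht₀b
  have hsnd : ∃ l, Tendsto (fun t => (c t).2) (𝓝[<] b) (𝓝 l) := by
    have hcauchy : Cauchy (map (fun t => (c t).2) (𝓝[<] b)) := by
      rw [Metric.cauchy_iff]
      refine ⟨inferInstance, fun ε hε => ?_⟩
      set δ := ε / (2 * (|M| + 1)) with hδ
      have hM1 : 0 < |M| + 1 := by positivity
      have hδ0 : 0 < δ := by positivity
      have h1 : ∀ᶠ t in 𝓝[<] b, t ∈ Ioo (max t₀ (b - δ)) b :=
        Ioo_mem_nhdsLT (max_lt ht₀b (by linarith))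
      refine ⟨(fun t => (c t).2) '' Ioo (max t₀ (b - δ)) b, image_mem_map h1, ?_⟩
      rintro _ ⟨s, hs, rfl⟩ _ ⟨t, ht, rfl⟩
      have hs1 : t₀ < s := lt_of_le_of_lt (le_max_left _ _) hs.1
      have hs2 : b - δ < s := lt_of_le_of_lt (le_max_right _ _) hs.1
      have ht1 : t₀ < t := lt_of_le_of_lt (le_max_left _ _) ht.1
      have ht2 : b - δ < t := lt_of_le_of_lt (le_max_right _ _) ht.1
      have h2 := hlip t ⟨ht1, ht.2⟩ s ⟨hs1, hs.2⟩
      have h3 : |s - t| ≤ δ := by
        rw [abs_le]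
        constructor
        · linarith [ht.2]
        · linarith [hs.2]
      rw [Real.dist_eq]
      show |(c s).2 - (c t).2| < ε
      have h4 : M * |s - t| ≤ |M| * δ :=
        mul_le_mul (le_abs_self M) h3 (abs_nonneg _) (abs_nonneg _)
      have h5 : |M| * δ < ε := by
        have h6 : (|M| + 1) * δ = ε / 2 := by
          rw [hδ]; field_simp
        nlinarith
      linarith
    exact cauchy_map_iff_exists_tendsto.1 hcauchy
  obtain ⟨l, hl⟩ := hsnd
  exact ⟨(x, l), hfst.prodMk_nhds hl⟩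

theorem lim_left (hg : Met g) (hcp : Compl (dg g)) {a b : ℝ} (hab : a < b) {c : ℝ → St}
    (hc : ∀ t ∈ Ioo a b, HasDerivAt c (V g (c t)) t) : ∃ l, Tendsto c (𝓝[>] a) (𝓝 l) := by
  have h1 : ∀ t ∈ Ioo (-b) (-a), HasDerivAt (fun t => ((c (-t)).1, (c (-t)).2 + π) : ℝ → St)
      (V g ((fun t => ((c (-t)).1, (c (-t)).2 + π) : ℝ → St) t)) t := by
    intro t ht
    have h2 := hc (-t) ⟨by linarith [ht.2], by linarith [ht.1]⟩
    have h3 : HasDerivAt (fun s => (c (-s)).1) (-(u g (c (-t)))) t := by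
      have := HasDerivAt.scomp t (d6_fst h2) (hasDerivAt_neg t)
      rwa [neg_one_smul] at this
    have h4 : HasDerivAt (fun s => (c (-s)).2 + π) (-(an g (c (-t)))) t := by
      have := HasDerivAt.scomp t (d6_snd h2) (hasDerivAt_neg t)
      rw [neg_one_smul] at this
      exact this.add_const π
    have h5 : V g ((c (-t)).1, (c (-t)).2 + π) = (-(u g (c (-t))), -(an g (c (-t)))) := by
      rw [V_add_pi]
      rfl
    show HasDerivAt _ (V g ((c (-t)).1, (c (-t)).2 + π)) t
    rw [h5]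
    exact h3.prodMk h4
  obtain ⟨l, hl⟩ := lim_right hg hcp (a := -b) (b := -a) (by linarith) h1
  have h6 : Tendsto (fun t : ℝ => -t) (𝓝[>] a) (𝓝[<] (-a)) := by
    rw [tendsto_nhdsWithin_iff]
    constructor
    · exact ((continuous_neg.tendsto a).mono_left nhdsWithin_le_nhds)
    · filter_upwards [self_mem_nhdsWithin] with t ht
      have : a < t := ht
      show -t < -a
      linarith
  have h7 := hl.comp h6
  have h8 : Tendsto (fun t => (c t).1) (𝓝[>] a) (𝓝 l.1) := by
    have := (continuous_fst.tendsto l).comp h7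
    refine this.congr fun t => ?_
    show (c (- -t)).1 = (c t).1
    rw [neg_neg]
  have h9 : Tendsto (fun t => (c t).2) (𝓝[>] a) (𝓝 (l.2 - π)) := by
    have := ((continuous_snd.tendsto l).comp h7).sub_const π
    refine this.congr fun t => ?_
    show (c (- -t)).2 + π - π = (c t).2
    rw [neg_neg, add_sub_cancel_right]
  exact ⟨(l.1, l.2 - π), h8.prodMk_nhds h9⟩

/-- completeness gives the geodesic flow -/
theorem exists_isFlow (hg : Met g) (hcp : Compl (dg g)) : ∃ φ, IsFlow g φ := by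
  have h2 : ContDiff ℝ 2 (V g) := contDiff_V hg 2
  have h1 : ContDiff ℝ 1 (V g) := contDiff_V hg 1
  obtain ⟨φ, hφ0, hφd, hφC, hφv⟩ := exists_flow (V g) h2 (fun z =>
    glob_exists h1 z (fun T hT c _ hc => ⟨lim_right hg hcp (by linarith) hc,
      lim_left hg hcp (by linarith) hc⟩))
  exact ⟨φ, hφ0, hφd, hφC, hφv⟩

theorem IsFlow.dg_le (hg : Met g) {φ : ℝ → St → St} (hφ : IsFlow g φ) (z : St) (s t : ℝ) :
    dg g (φ s z).1 (φ t z).1 ≤ |s - t| :=
  V_sol_dg_le hg (c := fun r => φ r z) (a := min s t - 1) (b := max s t + 1)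
    (fun r _ => hφ.deriv r z)
    ⟨by linarith [min_le_left s t], by linarith [le_max_left s t]⟩
    ⟨by linarith [min_le_right s t], by linarith [le_max_right s t]⟩

end PPF
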