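import Mathlib

/-!
# MP_a4f5e0_gt: definitions

Riemannian metrics on the plane in the format of the frozen statement, an orthonormal frame,
the geodesic vector field on the state space `St = E × ℝ` (point, angle), lengths and distance.
-/

set_option autoImplicit false

open MeasureTheory Set Filter Topology Real

noncomputable section

namespace PPF

/-- the plane -/
abbrev E := EuclideanSpace ℝ (Fin 2)

/-- the state space: a point and an angle (relative to the frame `e1`, `e2`) -/
abbrev St := E × ℝ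

/-- metrics as in the frozen statement -/
structure Met (g : E → E →L[ℝ] E →L[ℝ] ℝ) : Prop where
  smooth : ∀ n : ℕ, ContDiff ℝ n g
  symm : ∀ x v w, g x v w = g x w v
  pos : ∀ x v, v ≠ 0 → 0 < g x v v

def b1 : E := !₂[1, 0]
def b2 : E := !₂[0, 1]

variable (g : E → E →L[ℝ] E →L[ℝ] ℝ)

def g11 (x : E) : ℝ := g x b1 b1
def g12 (x : E) : ℝ := g x b1 b2
def g22 (x : E) : ℝ := g x b2 b2

/-- the area density `√det g` -/
def dt (x : E) : ℝ := Real.sqrt (g11 g x * g22 g x - g12 g x ^ 2)

/-- the first vector of the orthonormal frame -/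
def e1 (x : E) : E := (Real.sqrt (g11 g x))⁻¹ • b1

/-- the second vector of the orthonormal frame -/
def e2 (x : E) : E := (Real.sqrt (g11 g x) * dt g x)⁻¹ • (g11 g x • b2 - g12 g x • b1)

/-- the unit vector at `z.1` with angle `z.2` -/
def u (z : St) : E := Real.cos z.2 • e1 g z.1 + Real.sin z.2 • e2 g z.1

/-- the covector `g(u, ·)` -/
def p (z : St) : E →L[ℝ] ℝ := g z.1 (u g z)

/-- `∂₁ p₂ - ∂₂ p₁` for fixed angle -/
def curl (z : St) : ℝ :=
  fderiv ℝ (fun x => p g (x, z.2) b2) z.1 b1 - fderiv ℝ (fun x => p g (x, z.2) b1) z.1 b2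

/-- the angular component of the geodesic field -/
def an (z : St) : ℝ := - curl g z / dt g z.1

/-- the geodesic vector field on the state space -/
def V (z : St) : St := (u g z, an g z)

/-- the coordinate area `v₀ w₁ - v₁ w₀` -/
def wd (v w : E) : ℝ := v 0 * w 1 - v 1 * w 0

/-- length of a curve on `[0,1]` -/
def len (γ : ℝ → E) : ℝ := ∫ t in (0:ℝ)..1, Real.sqrt (g (γ t) (deriv γ t) (deriv γ t))

/-- the Riemannian distance, as in the frozen statement -/
def dg (x y : E) : ℝ := sInf {L : ℝ | ∃ γ : ℝ → E,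
  ContDiff ℝ 1 γ ∧ γ 0 = x ∧ γ 1 = y ∧
  L = ∫ t in (0:ℝ)..1, Real.sqrt (g (γ t) (deriv γ t) (deriv γ t))}

/-- completeness, as in the frozen statement -/
def Compl (d : E → E → ℝ) : Prop :=
  ∀ s : ℕ → E, (∀ ε > 0, ∃ N : ℕ, ∀ m ≥ N, ∀ n ≥ N, d (s m) (s n) < ε) →
    ∃ x, Filter.Tendsto s Filter.atTop (nhds x)

/-- local `d`-geodesics, as in the frozen statement -/
def LocGeo (d : E → E → ℝ) (γ : ℝ → E) : Prop :=
  ∀ t : ℝ, ∃ ε > 0, ∀ s s' : ℝ, |s - t| < ε → |s' - t| < ε → d (γ s) (γ s') = |s - s'|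

/-- `φ` is the geodesic flow of `g` -/
structure IsFlow (φ : ℝ → St → St) : Prop where
  zero : ∀ z, φ 0 z = z
  deriv : ∀ t z, HasDerivAt (fun s => φ s z) (V g (φ t z)) t
  C1 : ContDiff ℝ 1 (fun q : ℝ × St => φ q.1 q.2)
  var : ∀ t z, HasDerivAt (fun s => fderiv ℝ (φ s) z)
    ((fderiv ℝ (V g) (φ t z)).comp (fderiv ℝ (φ t) z)) t

/-- the line of a state -/
def line (φ : ℝ → St → St) (z : St) : Set E := Set.range (fun t => (φ t z).1)

/-- the parallel postulate for the lines of the flow -/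
def PP (φ : ℝ → St → St) : Prop :=
  ∀ z : St, ∀ x, x ∉ line φ z →
    ∃! S : Set E, (∃ w, line φ w = S) ∧ x ∈ S ∧ Disjoint S (line φ z)

/-- the Liouville measure on the unit tangent bundle, realised on angles in `(0, 2π]` -/
def muS : Measure St :=
  ((volume : Measure St).restrict (Set.univ ×ˢ Set.Ioc 0 (2 * π))).withDensity
    (fun z => ENNReal.ofReal (dt g z.1))

/-- periodicity in the angle -/
def Per {X : Type*} (F : St → X) : Prop := ∀ x α, F (x, α + 2 * π) = F (x, α)

end PPF
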