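import Pool.Agent.Lib.MP_a4f5e0_gt.Defs

/-!
JOB F1. The metric in coordinates, the orthonormal frame (linear algebra in dimension two).

`Met g` is a smooth symmetric positive definite bilinear form on `E = EuclideanSpace ℝ (Fin 2)`;
`b1, b2` is the standard basis. Expand everything in coordinates (`vec_eq`, `g_expand`).

* `vec_eq`: ext on `Fin 2`, `simp [b1, b2]`.
* `g_expand`: write `v = v 0 • b1 + v 1 • b2`, `w = …`, use `map_add`, `map_smul`,
  `ContinuousLinearMap.add_apply`, `smul_apply`, symmetry `g x b2 b1 = g x b1 b2`.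
* `det_pos`: `0 < g x w w` for `w = g11 x • b2 - g12 x • b1 ≠ 0` (its second coordinate is
  `g11 x > 0`) and `g x w w = g11 (g11 g22 - g12²)`.
* frame: `e1 = b1/√g11`, `e2 = (g11 b2 - g12 b1)/(√g11 dt)`; direct computation.
* `frame_expand`: both sides have the same coordinates (or: orthonormal basis).
* `g_cs`: Cauchy-Schwarz for a positive semidefinite symmetric form
  (discriminant of `t ↦ g x (v + t w) (v + t w) ≥ 0`, or by `frame_expand`).
-/

set_option autoImplicit false

open MeasureTheory Set Filter Topology Real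

noncomputable section

namespace PPF

variable {g : E → E →L[ℝ] E →L[ℝ] ℝ}

theorem vec_eq (v : E) : v = v 0 • b1 + v 1 • b2 := by
  ext i
  fin_cases i
  · simp [b1, b2]
  · simp [b1, b2]

theorem g_expand (hg : Met g) (x v w : E) : g x v w =
    g11 g x * (v 0 * w 0) + g12 g x * (v 0 * w 1 + v 1 * w 0) + g22 g x * (v 1 * w 1) := by
  have hv := vec_eq v
  have hw := vec_eq w
  have e : g x v w = g x (v 0 • b1 + v 1 • b2) (w 0 • b1 + w 1 • b2) := by
    rw [← hv, ← hw]
  rw [e]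
  simp only [map_add, map_smul, ContinuousLinearMap.add_apply, ContinuousLinearMap.smul_apply,
    smul_eq_mul]
  unfold g11 g12 g22
  rw [hg.symm x b2 b1]
  ring

theorem g11_pos (hg : Met g) (x : E) : 0 < g11 g x := by
  refine hg.pos x b1 ?_
  intro h
  have h1 : b1 0 = (0 : E) 0 := by rw [h]
  simp [b1] at h1

theorem det_pos (hg : Met g) (x : E) : 0 < g11 g x * g22 g x - g12 g x ^ 2 := by
  have h11 := g11_pos hg x
  obtain ⟨w, hw⟩ : ∃ w : E, w = g11 g x • b2 - g12 g x • b1 := ⟨_, rfl⟩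
  have hw0 : w 0 = - g12 g x := by
    rw [hw]
    simp [b1, b2]
  have hw1 : w 1 = g11 g x := by
    rw [hw]
    simp [b1, b2]
  have hne : w ≠ 0 := by
    intro h
    rw [h] at hw1
    simp at hw1
    linarith
  have h1 := hg.pos x w hne
  rw [g_expand hg, hw0, hw1] at h1
  have h2 : g11 g x * (-g12 g x * -g12 g x) + g12 g x * (-g12 g x * g11 g x + g11 g x * -g12 g x) +
      g22 g x * (g11 g x * g11 g x) = g11 g x * (g11 g x * g22 g x - g12 g x ^ 2) := by ring
  rw [h2] at h1
  exact (mul_pos_iff_of_pos_left h11).1 h1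

theorem dt_pos (hg : Met g) (x : E) : 0 < dt g x := by
  unfold dt
  exact Real.sqrt_pos.2 (det_pos hg x)

theorem dt_sq (hg : Met g) (x : E) : dt g x ^ 2 = g11 g x * g22 g x - g12 g x ^ 2 := by
  unfold dt
  exact Real.sq_sqrt (det_pos hg x).le

private theorem f1_s_pos (hg : Met g) (x : E) : 0 < Real.sqrt (g11 g x) :=
  Real.sqrt_pos.2 (g11_pos hg x)

private theorem f1_s (hg : Met g) (x : E) : Real.sqrt (g11 g x) ^ 2 = g11 g x :=
  Real.sq_sqrt (g11_pos hg x).le

private theorem f1_e1_0 (x : E) : (e1 g x) 0 = (Real.sqrt (g11 g x))⁻¹ := by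
  unfold e1
  simp [b1]

private theorem f1_e1_1 (x : E) : (e1 g x) 1 = 0 := by
  unfold e1
  simp [b1]

private theorem f1_e2_0 (x : E) :
    (e2 g x) 0 = -(g12 g x / (Real.sqrt (g11 g x) * dt g x)) := by
  unfold e2
  simp [b1, b2]
  ring

private theorem f1_e2_1 (x : E) :
    (e2 g x) 1 = g11 g x / (Real.sqrt (g11 g x) * dt g x) := by
  unfold e2
  simp [b1, b2]
  ring

theorem g_e1_e1 (hg : Met g) (x : E) : g x (e1 g x) (e1 g x) = 1 := by
  have h := f1_s hg x
  rw [g_expand hg, f1_e1_0, f1_e1_1]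
  have hs := f1_s_pos hg x
  field_simp
  rw [h]
  ring

theorem g_e1_e2 (hg : Met g) (x : E) : g x (e1 g x) (e2 g x) = 0 := by
  rw [g_expand hg, f1_e1_0, f1_e1_1, f1_e2_0, f1_e2_1]
  have hs := f1_s_pos hg x
  have hd := dt_pos hg x
  field_simp
  ring

theorem g_e2_e1 (hg : Met g) (x : E) : g x (e2 g x) (e1 g x) = 0 := by
  rw [hg.symm, g_e1_e2 hg]

theorem g_e2_e2 (hg : Met g) (x : E) : g x (e2 g x) (e2 g x) = 1 := by
  have h := f1_s hg x
  have h2 := dt_sq hg x
  rw [g_expand hg, f1_e2_0, f1_e2_1]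
  have hs := f1_s_pos hg x
  have hd := dt_pos hg x
  field_simp
  rw [h, h2]
  ring

theorem wd_e1_e2 (hg : Met g) (x : E) : wd (e1 g x) (e2 g x) = (dt g x)⁻¹ := by
  have h := f1_s hg x
  unfold wd
  rw [f1_e1_0, f1_e1_1, f1_e2_0, f1_e2_1]
  have hs := f1_s_pos hg x
  have hd := dt_pos hg x
  field_simp
  rw [h]
  ring

theorem frame_expand (hg : Met g) (x v : E) :
    v = g x v (e1 g x) • e1 g x + g x v (e2 g x) • e2 g x := by
  have h := f1_s hg x
  have h2 := dt_sq hg x
  have hs := f1_s_pos hg x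
  have hd := dt_pos hg x
  have h11 := g11_pos hg x
  have ha : g x v (e1 g x) = (Real.sqrt (g11 g x))⁻¹ * (g11 g x * v 0 + g12 g x * v 1) := by
    rw [g_expand hg, f1_e1_0, f1_e1_1]
    ring
  have hb : g x v (e2 g x) = dt g x / Real.sqrt (g11 g x) * v 1 := by
    rw [g_expand hg, f1_e2_0, f1_e2_1]
    field_simp
    rw [h2]
    ring
  rw [ha, hb]
  ext i
  fin_cases i
  · show v 0 = ((Real.sqrt (g11 g x))⁻¹ * (g11 g x * v 0 + g12 g x * v 1)) * (e1 g x) 0 +
      (dt g x / Real.sqrt (g11 g x) * v 1) * (e2 g x) 0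
    rw [f1_e1_0, f1_e2_0]
    field_simp
    rw [h]
    ring
  · show v 1 = ((Real.sqrt (g11 g x))⁻¹ * (g11 g x * v 0 + g12 g x * v 1)) * (e1 g x) 1 +
      (dt g x / Real.sqrt (g11 g x) * v 1) * (e2 g x) 1
    rw [f1_e1_1, f1_e2_1]
    field_simp
    rw [h]
    ring

theorem g_nonneg (hg : Met g) (x v : E) : 0 ≤ g x v v := by
  rcases eq_or_ne v 0 with h | h
  · rw [h, map_zero]
  · exact (hg.pos x v h).le

theorem g_cs (hg : Met g) (x v w : E) :
    |g x v w| ≤ Real.sqrt (g x v v) * Real.sqrt (g x w w) := by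
  have h1 : (g x v w) ^ 2 ≤ g x v v * g x w w := by
    rw [g_expand hg, g_expand hg, g_expand hg]
    have h2 : 0 ≤ (g11 g x * g22 g x - g12 g x ^ 2) * (v 0 * w 1 - v 1 * w 0) ^ 2 :=
      mul_nonneg (det_pos hg x).le (sq_nonneg _)
    nlinarith
  have h3 := Real.abs_le_sqrt h1
  rw [Real.sqrt_mul (g_nonneg hg x v)] at h3
  exact h3

/-- the norm `√(g x v v)` is subadditive -/
theorem g_norm_add (hg : Met g) (x v w : E) :
    Real.sqrt (g x (v + w) (v + w)) ≤ Real.sqrt (g x v v) + Real.sqrt (g x w w) := by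
  have hv := g_nonneg hg x v
  have hw := g_nonneg hg x w
  have h1 := g_cs hg x v w
  rw [Real.sqrt_le_iff]
  refine ⟨by positivity, ?_⟩
  have e1 := Real.sq_sqrt hv
  have e2 := Real.sq_sqrt hw
  have e3 : g x (v + w) (v + w) = g x v v + 2 * g x v w + g x w w := by
    simp only [map_add, ContinuousLinearMap.add_apply]
    rw [hg.symm x w v]
    ring
  rw [e3, add_sq, e1, e2]
  have h2 := (le_abs_self _).trans h1
  linarith

end PPF
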