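import Pool.Agent.Lib.MP_a4f5e0_gt.F1

/-!
JOB F2. Unit vectors and angles. `u g (x, α) = cos α e1 + sin α e2`.

* `g_u_u`: expand with the orthonormality of the frame (F1); `cos α cos β + sin α sin β`.
* `exists_angle`: `v = a e1 + b e2` with `a² + b² = 1` (F1 `frame_expand`), so `a = cos α`,
  `b = sin α` for some `α` (e.g. `Complex.arg`, or `Real.arccos` with a sign).
* `u_eq_iff`: `⇐` periodicity of `cos, sin` (`Real.cos_add_int_mul_two_pi`); `⇒` by `g_u_u`
  `cos (α - β) = 1`, `Real.cos_eq_one_iff`.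
* `u_par_iff`: `g_u_u`-style: `u(x,α) = ± u(x,β)` iff `sin (α - β) = 0`.
* `wd_u`: `wd` is bilinear alternating, `wd e1 e2 = 1/dt`.
* `g_perp`: both sides are linear in `w`; check on `w = u g (x, α)` and `w = u g (x, α + π/2)`,
  or in coordinates; (or expand `w` by `frame_expand` and use `wd_e1_e2`).
* `u_rot`: `cos (A + (β - A)) = …`, addition formulas.
* `abs_p_le`: Cauchy-Schwarz `g_cs` and `g(u,u) = 1`.
-/

set_option autoImplicit false

open MeasureTheory Set Filter Topology Real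

noncomputable section

namespace PPF

variable {g : E → E →L[ℝ] E →L[ℝ] ℝ}

theorem g_u_u (hg : Met g) (x : E) (α β : ℝ) :
    g x (u g (x, α)) (u g (x, β)) = cos (α - β) := by
  unfold u
  simp only [map_add, map_smul, ContinuousLinearMap.add_apply, ContinuousLinearMap.smul_apply,
    smul_eq_mul, g_e1_e1 hg, g_e1_e2 hg, g_e2_e1 hg, g_e2_e2 hg]
  rw [Real.cos_sub]
  ring

theorem g_u_self (hg : Met g) (z : St) : g z.1 (u g z) (u g z) = 1 := by
  obtain ⟨x, α⟩ := z
  show g x (u g (x, α)) (u g (x, α)) = 1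
  rw [g_u_u hg, sub_self, Real.cos_zero]

theorem u_ne_zero (hg : Met g) (z : St) : u g z ≠ 0 := by
  intro h
  have h1 := g_u_self hg z
  rw [h, map_zero] at h1
  exact zero_ne_one h1

theorem exists_angle (hg : Met g) (x v : E) (h : g x v v = 1) : ∃ α, v = u g (x, α) := by
  obtain ⟨a, b, hv⟩ : ∃ a b : ℝ, v = a • e1 g x + b • e2 g x := ⟨_, _, frame_expand hg x v⟩
  have h1 : a ^ 2 + b ^ 2 = 1 := by
    rw [← h, hv]
    simp only [map_add, map_smul, ContinuousLinearMap.add_apply, ContinuousLinearMap.smul_apply,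
      smul_eq_mul, g_e1_e1 hg, g_e1_e2 hg, g_e2_e1 hg, g_e2_e2 hg]
    ring
  obtain ⟨z, hz⟩ : ∃ z : ℂ, z = ⟨a, b⟩ := ⟨_, rfl⟩
  have hre : z.re = a := by rw [hz]
  have him : z.im = b := by rw [hz]
  have hn : ‖z‖ = 1 := by
    have h2 : ‖z‖ ^ 2 = 1 := by
      rw [Complex.sq_norm, Complex.normSq_apply, hre, him]
      nlinarith
    have h3 := norm_nonneg z
    nlinarith
  have hz0 : z ≠ 0 := by
    intro h2
    rw [h2, norm_zero] at hn
    exact zero_ne_one hn
  refine ⟨Complex.arg z, ?_⟩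
  show v = Real.cos (Complex.arg z) • e1 g x + Real.sin (Complex.arg z) • e2 g x
  rw [Complex.cos_arg hz0, Complex.sin_arg, hn, div_one, div_one, hre, him]
  exact hv

/-- every vector is `t • u` with `t ≥ 0` its norm -/
theorem exists_polar (hg : Met g) (x v : E) :
    ∃ α, v = Real.sqrt (g x v v) • u g (x, α) := by
  rcases eq_or_ne v 0 with h | h
  · refine ⟨0, ?_⟩
    rw [h, map_zero, Real.sqrt_zero, zero_smul]
  · have hpos := hg.pos x v h
    have hr : 0 < Real.sqrt (g x v v) := Real.sqrt_pos.2 hpos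
    obtain ⟨r, hr'⟩ : ∃ r, r = Real.sqrt (g x v v) := ⟨_, rfl⟩
    have hsq : r ^ 2 = g x v v := by
      rw [hr']
      exact Real.sq_sqrt hpos.le
    rw [← hr'] at hr
    obtain ⟨α, hα⟩ := exists_angle hg x (r⁻¹ • v) (by
      simp only [map_smul, ContinuousLinearMap.smul_apply, smul_eq_mul]
      rw [← hsq]
      field_simp)
    refine ⟨α, ?_⟩
    rw [← hr', ← hα, smul_smul, mul_inv_cancel₀ hr.ne', one_smul]

theorem u_add_pi (x : E) (α : ℝ) : u g (x, α + π) = - u g (x, α) := by
  unfold u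
  simp only [Real.cos_add_pi, Real.sin_add_pi, neg_smul]
  abel

theorem u_add_two_pi (x : E) (α : ℝ) : u g (x, α + 2 * π) = u g (x, α) := by
  unfold u
  simp only [Real.cos_add_two_pi, Real.sin_add_two_pi]

theorem u_eq_iff (hg : Met g) (x : E) (α β : ℝ) :
    u g (x, α) = u g (x, β) ↔ ∃ k : ℤ, β = α + 2 * π * k := by
  constructor
  · intro h
    have h1 := g_u_u hg x α β
    rw [← h, g_u_self hg (x, α)] at h1
    obtain ⟨n, hn⟩ := (Real.cos_eq_one_iff _).1 h1.symm
    refine ⟨-n, ?_⟩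
    push_cast
    linarith
  · rintro ⟨k, rfl⟩
    have e : α + 2 * π * k = α + k * (2 * π) := by ring
    unfold u
    simp only [e, Real.cos_add_int_mul_two_pi, Real.sin_add_int_mul_two_pi]

theorem wd_u (hg : Met g) (x : E) (α β : ℝ) :
    wd (u g (x, α)) (u g (x, β)) = sin (β - α) / dt g x := by
  have h := wd_e1_e2 hg x
  have h1 : wd (u g (x, α)) (u g (x, β)) =
      (Real.cos α * Real.sin β - Real.sin α * Real.cos β) * wd (e1 g x) (e2 g x) := by
    unfold wd u
    simp only [PiLp.add_apply, PiLp.smul_apply, smul_eq_mul]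
    ring
  rw [h1, h, Real.sin_sub]
  ring

theorem g_perp (hg : Met g) (x : E) (α : ℝ) (w : E) :
    g x (u g (x, α + π / 2)) w = dt g x * wd (u g (x, α)) w := by
  obtain ⟨a, b, hw⟩ : ∃ a b : ℝ, w = a • e1 g x + b • e2 g x := ⟨_, _, frame_expand hg x w⟩
  have hd := dt_pos hg x
  have h := wd_e1_e2 hg x
  have h1 : wd (u g (x, α)) w = (Real.cos α * b - Real.sin α * a) * wd (e1 g x) (e2 g x) := by
    rw [hw]
    unfold wd u
    simp only [PiLp.add_apply, PiLp.smul_apply, smul_eq_mul]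
    ring
  rw [h1, h, hw]
  unfold u
  simp only [map_add, map_smul, ContinuousLinearMap.add_apply, ContinuousLinearMap.smul_apply,
    smul_eq_mul, g_e1_e1 hg, g_e1_e2 hg, g_e2_e1 hg, g_e2_e2 hg, Real.cos_add_pi_div_two,
    Real.sin_add_pi_div_two]
  field_simp
  ring

/-- rotation by the angle `β - A` -/
theorem u_rot (x : E) (A β : ℝ) :
    u g (x, β) = cos (β - A) • u g (x, A) + sin (β - A) • u g (x, A + π / 2) := by
  have h1 : Real.cos β = Real.cos (β - A) * Real.cos A - Real.sin (β - A) * Real.sin A := by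
    rw [← Real.cos_add]
    congr 1
    ring
  have h2 : Real.sin β = Real.sin (β - A) * Real.cos A + Real.cos (β - A) * Real.sin A := by
    rw [← Real.sin_add]
    congr 1
    ring
  unfold u
  simp only [Real.cos_add_pi_div_two, Real.sin_add_pi_div_two]
  rw [h1, h2]
  module

theorem hasDerivAt_u (x : E) (α : ℝ) :
    HasDerivAt (fun β => u g (x, β)) (u g (x, α + π / 2)) α := by
  have h1 : HasDerivAt (fun β : ℝ => Real.cos β • e1 g x + Real.sin β • e2 g x)
      ((-Real.sin α) • e1 g x + Real.cos α • e2 g x) α :=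
    ((Real.hasDerivAt_cos α).smul_const (e1 g x)).fun_add
      ((Real.hasDerivAt_sin α).smul_const (e2 g x))
  have h2 : u g (x, α + π / 2) = (-Real.sin α) • e1 g x + Real.cos α • e2 g x := by
    unfold u
    simp only [Real.cos_add_pi_div_two, Real.sin_add_pi_div_two]
  rw [h2]
  exact h1

theorem p_u (hg : Met g) (x : E) (α β : ℝ) : p g (x, α) (u g (x, β)) = cos (α - β) := by
  show g x (u g (x, α)) (u g (x, β)) = Real.cos (α - β)
  exact g_u_u hg x α β

theorem abs_p_le (hg : Met g) (z : St) (v : E) : |p g z v| ≤ Real.sqrt (g z.1 v v) := by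
  have h := g_cs hg z.1 (u g z) v
  rw [g_u_self hg z, Real.sqrt_one, one_mul] at h
  exact h

end PPF
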