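import Pool.Agent.Lib.MP_a4f5e0_gt.F2

/-!
JOB F3. Smoothness of the frame, of `u`, `p`, `dt` and of the geodesic field `V`.

`hg.smooth n : ContDiff ℝ n g` for every natural number `n`. `g11 g x = g x b1 b1` is `C^n` (apply
`ContDiff.clm_apply` twice with constants), so are `g12, g22`, `dt` (`Real.sqrt` of a positive
`C^n` function: `ContDiff.sqrt` with `det_pos`), `√g11`, inverses (`ContDiff.inv` with nonzero
values), `e1`, `e2`, `u` (as function on `St = E × ℝ`), `p` (`ContDiff.clm_apply`).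
`curl g z = fderiv ℝ (fun w : St => p g w b2) z (b1, 0) - fderiv ℝ (fun w : St => p g w b1) z (b2, 0)`
(chain rule for `x ↦ (x, z.2)`, whose derivative is `v ↦ (v, 0)`; `curl_eq`), which is `C^n` because
`p g · b` is `C^(n+1)` (`ContDiff.fderiv_right`). So `an` and `V` are `C^n`.
-/

set_option autoImplicit false

open MeasureTheory Set Filter Topology Real

noncomputable section

namespace PPF

variable {g : E → E →L[ℝ] E →L[ℝ] ℝ}

private theorem F3_g11 (hg : Met g) (n : ℕ) : ContDiff ℝ n (g11 g) :=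
  ((hg.smooth n).clm_apply contDiff_const).clm_apply contDiff_const

private theorem F3_g12 (hg : Met g) (n : ℕ) : ContDiff ℝ n (g12 g) :=
  ((hg.smooth n).clm_apply contDiff_const).clm_apply contDiff_const

private theorem F3_g22 (hg : Met g) (n : ℕ) : ContDiff ℝ n (g22 g) :=
  ((hg.smooth n).clm_apply contDiff_const).clm_apply contDiff_const

theorem contDiff_dt (hg : Met g) (n : ℕ) : ContDiff ℝ n (dt g) := by
  unfold dt
  exact (((F3_g11 hg n).mul (F3_g22 hg n)).sub ((F3_g12 hg n).pow 2)).sqrt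
    fun x => (det_pos hg x).ne'

private theorem F3_sqrt (hg : Met g) (n : ℕ) : ContDiff ℝ n (fun x => Real.sqrt (g11 g x)) :=
  (F3_g11 hg n).sqrt fun x => (g11_pos hg x).ne'

private theorem F3_sqrt_ne (hg : Met g) (x : E) : Real.sqrt (g11 g x) ≠ 0 :=
  (Real.sqrt_pos.2 (g11_pos hg x)).ne'

private theorem F3_e1 (hg : Met g) (n : ℕ) : ContDiff ℝ n (e1 g) := by
  unfold e1
  exact ((F3_sqrt hg n).inv (F3_sqrt_ne hg)).smul contDiff_const

private theorem F3_e2 (hg : Met g) (n : ℕ) : ContDiff ℝ n (e2 g) := by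
  unfold e2
  exact (((F3_sqrt hg n).mul (contDiff_dt hg n)).inv
    (fun x => mul_ne_zero (F3_sqrt_ne hg x) (dt_pos hg x).ne')).smul
    (((F3_g11 hg n).smul contDiff_const).sub ((F3_g12 hg n).smul contDiff_const))

theorem contDiff_u (hg : Met g) (n : ℕ) : ContDiff ℝ n (u g) := by
  unfold u
  exact ((Real.contDiff_cos.comp contDiff_snd).smul ((F3_e1 hg n).comp contDiff_fst)).add
    ((Real.contDiff_sin.comp contDiff_snd).smul ((F3_e2 hg n).comp contDiff_fst))

theorem contDiff_p (hg : Met g) (n : ℕ) : ContDiff ℝ n (p g) := by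
  unfold p
  exact ((hg.smooth n).comp contDiff_fst).clm_apply (contDiff_u hg n)

private theorem F3_pb (hg : Met g) (n : ℕ) (b : E) : ContDiff ℝ n (fun w : St => p g w b) :=
  (contDiff_p hg n).clm_apply contDiff_const

private theorem F3_chain (hg : Met g) (z : St) (b v : E) :
    fderiv ℝ (fun x => p g (x, z.2) b) z.1 v = fderiv ℝ (fun w : St => p g w b) z (v, 0) := by
  have h1 : DifferentiableAt ℝ (fun w : St => p g w b) (z.1, z.2) :=
    ((F3_pb hg 1 b).differentiable (by norm_num)) _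
  have h2 : HasFDerivAt (fun x : E => ((x, z.2) : St)) (ContinuousLinearMap.inl ℝ E ℝ) z.1 :=
    hasFDerivAt_prodMk_left z.1 z.2
  have h3 := h1.hasFDerivAt.comp z.1 h2
  have h4 : HasFDerivAt (fun x => p g (x, z.2) b)
      ((fderiv ℝ (fun w : St => p g w b) (z.1, z.2)).comp (ContinuousLinearMap.inl ℝ E ℝ)) z.1 :=
    h3
  rw [h4.fderiv]
  rfl

theorem curl_eq (hg : Met g) (z : St) :
    curl g z = fderiv ℝ (fun w : St => p g w b2) z (b1, 0)
      - fderiv ℝ (fun w : St => p g w b1) z (b2, 0) := by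
  unfold curl
  rw [F3_chain hg z b2 b1, F3_chain hg z b1 b2]

private theorem F3_fd (hg : Met g) (n : ℕ) (b v : E) :
    ContDiff ℝ n (fun z : St => fderiv ℝ (fun w : St => p g w b) z (v, 0)) := by
  have h1 : ContDiff ℝ ((n + 1 : ℕ) : WithTop ℕ∞) (fun w : St => p g w b) := F3_pb hg (n + 1) b
  have h2 : ContDiff ℝ n (fderiv ℝ (fun w : St => p g w b)) :=
    h1.fderiv_right (by push_cast; exact le_rfl)
  exact h2.clm_apply contDiff_const

private theorem F3_curl (hg : Met g) (n : ℕ) : ContDiff ℝ n (curl g) := by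
  have h : curl g = fun z : St => fderiv ℝ (fun w : St => p g w b2) z (b1, 0)
      - fderiv ℝ (fun w : St => p g w b1) z (b2, 0) := funext fun z => curl_eq hg z
  rw [h]
  exact (F3_fd hg n b2 b1).sub (F3_fd hg n b1 b2)

theorem contDiff_an (hg : Met g) (n : ℕ) : ContDiff ℝ n (an g) := by
  unfold an
  exact (F3_curl hg n).neg.div ((contDiff_dt hg n).comp contDiff_fst)
    fun z => (dt_pos hg z.1).ne'

theorem contDiff_V (hg : Met g) (n : ℕ) : ContDiff ℝ n (V g) := by
  unfold V
  exact (contDiff_u hg n).prodMk (contDiff_an hg n)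

end PPF
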