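import Pool.Agent.Lib.MP_a4f5e0_gt.F3

/-!
JOB F4. The structure identities of the geodesic field.

* `V_add_pi`: `u(x, α+π) = -u(x, α)` for ALL `x`, hence `p(x, α+π) = -p(x, α)`,
  `curl(x, α+π) = -curl(x, α)`, `an(x, α+π) = -an(x, α)`.
* `V_add_two_pi`: the same with `2π`.
* `hasDerivAt_p`: `∂_α p(x,α) w = g x (u(x, α+π/2)) w = dt x * wd (u(x,α)) w` (`hasDerivAt_u`,
  `g_perp`). So `∂_α p(b1) = -dt u₁`, `∂_α p(b2) = dt u₀` where `u = (u₀, u₁)`.
* `closed_of_inv` (the calibration identity): let `A` be differentiable at `x` with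
  `DA(x)[u(x, A x)] = an(x, A x)`. The 1-form `θ(y) = p g (y, A y)` has derivative at `x`
  `Dθ(v) = (∂_x p)(x, A x)[v] + DA(x)[v] • (∂_α p)(x, A x)`. Antisymmetrisation on `b1, b2`:
  `Dθ(b1)(b2) - Dθ(b2)(b1) = curl + DA(b1) ∂_αp(b2) - DA(b2) ∂_αp(b1)
   = curl + dt (u₀ DA(b1) + u₁ DA(b2)) = curl + dt DA(u) = curl + dt an = 0`
  because `an = -curl/dt` and `u = u₀ b1 + u₁ b2`. A bilinear form on `E` which is symmetric on
  `(b1, b2)` is symmetric (`vec_eq`).
* `div_V`: `tr(DV) dt + D(dt)(u) = 0`. In coordinates (basis `(b1,0), (b2,0), (0,1)` of `St`) this is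
  `∂₁(dt u₀) + ∂₂(dt u₁) + ∂_α(dt an) = 0`; now `dt u₀ = ∂_α p(b2)`, `dt u₁ = -∂_α p(b1)`,
  `dt an = -curl = -(∂₁ p(b2) - ∂₂ p(b1))` as functions on `St`, so the sum is
  `∂₁∂_α p(b2) - ∂₂∂_α p(b1) - ∂_α∂₁ p(b2) + ∂_α∂₂ p(b1) = 0` by the symmetry of second derivatives
  (`ContDiffAt.isSymmSndFDerivAt` / `second_derivative_symmetric`) of the smooth functions
  `w ↦ p g w b1`, `w ↦ p g w b2` on `St`. For the trace use
  `LinearMap.trace_eq_matrix_trace` with a basis of `E × ℝ` (e.g. `Basis.prod`), or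
  `LinearMap.trace_prodMap`-style splitting; choose what is easiest.
-/

set_option autoImplicit false

open MeasureTheory Set Filter Topology Real

noncomputable section

namespace PPF

variable {g : E → E →L[ℝ] E →L[ℝ] ℝ}

theorem f4_p_add_pi (x : E) (α : ℝ) : p g (x, α + π) = - p g (x, α) := by
  show g x (u g (x, α + π)) = - g x (u g (x, α))
  rw [u_add_pi, map_neg]

theorem V_add_pi (x : E) (α : ℝ) : V g (x, α + π) = - V g (x, α) := by
  have hc : curl g (x, α + π) = - curl g (x, α) := by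
    have h1 : ∀ b : E, (fun y => p g (y, α + π) b) = fun y => - (p g (y, α) b) := by
      intro b
      funext y
      rw [f4_p_add_pi]
      rfl
    unfold curl
    show fderiv ℝ (fun y => p g (y, α + π) b2) x b1 - fderiv ℝ (fun y => p g (y, α + π) b1) x b2 =
      - (fderiv ℝ (fun y => p g (y, α) b2) x b1 - fderiv ℝ (fun y => p g (y, α) b1) x b2)
    rw [h1, h1, fderiv_fun_neg, fderiv_fun_neg]
    have h2 : ∀ (T : E →L[ℝ] ℝ) (v : E), (-T) v = -(T v) := fun T v => rfl
    rw [h2, h2]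
    ring
  have ha : an g (x, α + π) = - an g (x, α) := by
    show - curl g (x, α + π) / dt g x = - (- curl g (x, α) / dt g x)
    rw [hc]
    ring
  show (u g (x, α + π), an g (x, α + π)) = (- u g (x, α), - an g (x, α))
  rw [u_add_pi, ha]

theorem V_add_two_pi (x : E) (α : ℝ) : V g (x, α + 2 * π) = V g (x, α) := by
  have h : α + 2 * π = α + π + π := by ring
  rw [h, V_add_pi, V_add_pi, neg_neg]

theorem hasDerivAt_p (hg : Met g) (x w : E) (α : ℝ) :
    HasDerivAt (fun β => p g (x, β) w) (dt g x * wd (u g (x, α)) w) α := by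
  have h1 := ((g x).flip w).hasFDerivAt.comp_hasDerivAt α (hasDerivAt_u (g := g) x α)
  rw [← g_perp hg]
  exact h1

/-- the angular derivative of `p` in the total space -/
theorem f4_fderiv_p (hg : Met g) (z : St) (w : E) :
    fderiv ℝ (fun y : St => p g y w) z (0, 1) = dt g z.1 * wd (u g z) w := by
  have hd : DifferentiableAt ℝ (fun y : St => p g y w) z := by
    have h1 : ContDiff ℝ 1 (fun y : St => p g y w) := (contDiff_p hg 1).clm_apply contDiff_const
    exact h1.differentiable (by norm_num) z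
  have h2 : HasDerivAt (fun β : ℝ => (z.1, β)) ((0 : E), (1 : ℝ)) z.2 :=
    (hasDerivAt_const z.2 z.1).prodMk (hasDerivAt_id z.2)
  have h3 : HasFDerivAt (fun y : St => p g y w) (fderiv ℝ (fun y : St => p g y w) z)
      ((fun β : ℝ => (z.1, β)) z.2) := hd.hasFDerivAt
  have h4 := h3.comp_hasDerivAt z.2 h2
  exact h4.unique (hasDerivAt_p hg z.1 w z.2)

theorem f4_wd_b1 (v : E) : wd v b1 = - v 1 := by simp [wd, b1]

theorem f4_wd_b2 (v : E) : wd v b2 = v 0 := by simp [wd, b2]

/-- the calibration identity: an invariant direction field gives a closed form -/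
theorem closed_of_inv (hg : Met g) {A : E → ℝ} {x : E} (hA : DifferentiableAt ℝ A x)
    (h : fderiv ℝ A x (u g (x, A x)) = an g (x, A x)) :
    DifferentiableAt ℝ (fun y => p g (y, A y)) x ∧
      ∀ v w, fderiv ℝ (fun y => p g (y, A y)) x v w = fderiv ℝ (fun y => p g (y, A y)) x w v := by
  obtain ⟨z, hz⟩ : ∃ z : St, z = (x, A x) := ⟨_, rfl⟩
  have hp : HasFDerivAt (p g) (fderiv ℝ (p g) z) z :=
    ((contDiff_p hg 1).differentiable (by norm_num) z).hasFDerivAt
  have hin : HasFDerivAt (fun y : E => (y, A y))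
      ((ContinuousLinearMap.id ℝ E).prod (fderiv ℝ A x)) x :=
    (hasFDerivAt_id x).prodMk hA.hasFDerivAt
  have hθ : HasFDerivAt (fun y => p g (y, A y))
      ((fderiv ℝ (p g) z).comp ((ContinuousLinearMap.id ℝ E).prod (fderiv ℝ A x))) x := by
    rw [hz] at hp ⊢
    exact HasFDerivAt.comp x hp hin
  refine ⟨hθ.differentiableAt, ?_⟩
  -- evaluation of `D p`
  have hev : ∀ (h : St) (w : E), fderiv ℝ (fun y : St => p g y w) z h = fderiv ℝ (p g) z h w := by
    intro h w
    have := hp.clm_apply (hasFDerivAt_const w z)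
    rw [this.fderiv]
    simp
  have hval : ∀ v w : E, fderiv ℝ (fun y => p g (y, A y)) x v w =
      fderiv ℝ (fun y : St => p g y w) z (v, 0) + fderiv ℝ A x v * (dt g x * wd (u g z) w) := by
    intro v w
    rw [hθ.fderiv]
    have h1 : ((fderiv ℝ (p g) z).comp ((ContinuousLinearMap.id ℝ E).prod (fderiv ℝ A x))) v =
        fderiv ℝ (p g) z (v, fderiv ℝ A x v) := rfl
    have h2 : ((v, fderiv ℝ A x v) : St) = (v, 0) + fderiv ℝ A x v • ((0 : E), (1 : ℝ)) := by
      simp
    have h3 := f4_fderiv_p hg z w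
    rw [hev] at h3
    rw [h1, h2, map_add, map_smul, add_apply, smul_apply, h3, hev, hz]
    rfl
  have hbas : fderiv ℝ (fun y => p g (y, A y)) x b1 b2 = fderiv ℝ (fun y => p g (y, A y)) x b2 b1 := by
    have h1 := curl_eq hg z
    have h2 : dt g x * an g z = - curl g z := by
      have hd : dt g x ≠ 0 := (dt_pos hg x).ne'
      have : an g z = - curl g z / dt g x := by rw [hz]; rfl
      rw [this]
      field_simp
    have h3 : an g z = (u g z) 0 * fderiv ℝ A x b1 + (u g z) 1 * fderiv ℝ A x b2 := by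
      rw [hz, ← h]
      conv_lhs => rw [vec_eq (u g (x, A x))]
      rw [map_add, map_smul, map_smul, smul_eq_mul, smul_eq_mul]
    rw [hval, hval, f4_wd_b1, f4_wd_b2]
    rw [h3] at h2
    rw [h1] at h2
    linarith
  intro v w
  have hexp : ∀ a b : E, fderiv ℝ (fun y => p g (y, A y)) x a b =
      a 0 * (b 0 * fderiv ℝ (fun y => p g (y, A y)) x b1 b1 +
        b 1 * fderiv ℝ (fun y => p g (y, A y)) x b1 b2) +
      a 1 * (b 0 * fderiv ℝ (fun y => p g (y, A y)) x b2 b1 +
        b 1 * fderiv ℝ (fun y => p g (y, A y)) x b2 b2) := by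
    intro a b
    conv_lhs => rw [vec_eq a, vec_eq b]
    simp only [map_add, map_smul, add_apply, smul_apply, smul_eq_mul]
    ring
  rw [hexp v w, hexp w v, hbas]
  ring

theorem f4_trace (T : St →L[ℝ] St) : LinearMap.trace ℝ St (T : St →ₗ[ℝ] St) =
    (T (b1, 0)).1 0 + (T (b2, 0)).1 1 + (T (0, 1)).2 := by
  classical
  have h0 : EuclideanSpace.single (0 : Fin 2) (1 : ℝ) = b1 := by
    ext i; fin_cases i <;> simp [b1]
  have h1 : EuclideanSpace.single (1 : Fin 2) (1 : ℝ) = b2 := by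
    ext i; fin_cases i <;> simp [b2]
  rw [LinearMap.trace_eq_matrix_trace ℝ
    ((EuclideanSpace.basisFun (Fin 2) ℝ).toBasis.prod (Module.Basis.singleton Unit ℝ)), Matrix.trace]
  simp [Fin.sum_univ_two, LinearMap.toMatrix_apply, h0, h1]

theorem f4_symm (hg : Met g) (z : St) (w : E) (a b : St) :
    fderiv ℝ (fun y : St => fderiv ℝ (fun y : St => p g y w) y b) z a =
      fderiv ℝ (fun y : St => fderiv ℝ (fun y : St => p g y w) y a) z b := by
  have h1 : ContDiff ℝ 2 (fun y : St => p g y w) := (contDiff_p hg 2).clm_apply contDiff_const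
  have h2 : IsSymmSndFDerivAt ℝ (fun y : St => p g y w) z :=
    h1.contDiffAt.isSymmSndFDerivAt (by simp)
  have h3 : DifferentiableAt ℝ (fderiv ℝ (fun y : St => p g y w)) z :=
    (h1.fderiv_right (m := 1) (by norm_num)).differentiable (by norm_num) z
  have h4 : ∀ a b : St, fderiv ℝ (fun y : St => fderiv ℝ (fun y : St => p g y w) y b) z a =
      fderiv ℝ (fderiv ℝ (fun y : St => p g y w)) z a b := by
    intro a b
    have := h3.hasFDerivAt.clm_apply (hasFDerivAt_const b z)
    rw [this.fderiv]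
    simp
  rw [h4, h4]
  exact h2 a b

theorem div_V (hg : Met g) (z : St) :
    LinearMap.trace ℝ St (fderiv ℝ (V g) z : St →ₗ[ℝ] St) * dt g z.1
      + fderiv ℝ (fun w : St => dt g w.1) z (V g z) = 0 := by
  have hD : DifferentiableAt ℝ (fun w : St => dt g w.1) z :=
    ((contDiff_dt hg 1).comp contDiff_fst).differentiable (by norm_num) z
  have hV : DifferentiableAt ℝ (V g) z := (contDiff_V hg 1).differentiable (by norm_num) z
  have hc0 : HasFDerivAt (fun w : St => (V g w).1 0)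
      ((EuclideanSpace.proj (0 : Fin 2)).comp
        ((ContinuousLinearMap.fst ℝ E ℝ).comp (fderiv ℝ (V g) z))) z :=
    ((EuclideanSpace.proj (0 : Fin 2) : E →L[ℝ] ℝ).comp
      (ContinuousLinearMap.fst ℝ E ℝ)).hasFDerivAt.comp z hV.hasFDerivAt
  have hc1 : HasFDerivAt (fun w : St => (V g w).1 1)
      ((EuclideanSpace.proj (1 : Fin 2)).comp
        ((ContinuousLinearMap.fst ℝ E ℝ).comp (fderiv ℝ (V g) z))) z :=
    ((EuclideanSpace.proj (1 : Fin 2) : E →L[ℝ] ℝ).comp
      (ContinuousLinearMap.fst ℝ E ℝ)).hasFDerivAt.comp z hV.hasFDerivAt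
  have hc2 : HasFDerivAt (fun w : St => (V g w).2)
      ((ContinuousLinearMap.snd ℝ E ℝ).comp (fderiv ℝ (V g) z)) z :=
    (ContinuousLinearMap.snd ℝ E ℝ).hasFDerivAt.comp z hV.hasFDerivAt
  have k0 : (fun w : St => dt g w.1 * (V g w).1 0) =
      fun w : St => fderiv ℝ (fun y : St => p g y b2) w (0, 1) := by
    funext w
    rw [f4_fderiv_p hg, f4_wd_b2]
    rfl
  have k1 : (fun w : St => dt g w.1 * (V g w).1 1) =
      fun w : St => - fderiv ℝ (fun y : St => p g y b1) w (0, 1) := by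
    funext w
    rw [f4_fderiv_p hg, f4_wd_b1, mul_neg, neg_neg]
    rfl
  have k2 : (fun w : St => dt g w.1 * (V g w).2) =
      fun w : St => - (fderiv ℝ (fun y : St => p g y b2) w (b1, 0)
        - fderiv ℝ (fun y : St => p g y b1) w (b2, 0)) := by
    funext w
    rw [← curl_eq hg]
    have hd : dt g w.1 ≠ 0 := (dt_pos hg w.1).ne'
    show dt g w.1 * (- curl g w / dt g w.1) = _
    field_simp
  have hdp : ∀ (b : E) (h : St),
      DifferentiableAt ℝ (fun w : St => fderiv ℝ (fun y : St => p g y b) w h) z := by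
    intro b h
    have h1 : ContDiff ℝ 2 (fun y : St => p g y b) := (contDiff_p hg 2).clm_apply contDiff_const
    have h3 : DifferentiableAt ℝ (fderiv ℝ (fun y : St => p g y b)) z :=
      (h1.fderiv_right (m := 1) (by norm_num)).differentiable (by norm_num) z
    exact h3.clm_apply (differentiableAt_const h)
  have e0 : dt g z.1 * (fderiv ℝ (V g) z (b1, 0)).1 0 +
      (V g z).1 0 * fderiv ℝ (fun w : St => dt g w.1) z (b1, 0) =
      fderiv ℝ (fun w : St => fderiv ℝ (fun y : St => p g y b2) w (0, 1)) z (b1, 0) := by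
    rw [← k0, (hD.hasFDerivAt.fun_mul hc0).fderiv]
    rfl
  have e1 : dt g z.1 * (fderiv ℝ (V g) z (b2, 0)).1 1 +
      (V g z).1 1 * fderiv ℝ (fun w : St => dt g w.1) z (b2, 0) =
      - fderiv ℝ (fun w : St => fderiv ℝ (fun y : St => p g y b1) w (0, 1)) z (b2, 0) := by
    have : fderiv ℝ (fun w : St => dt g w.1 * (V g w).1 1) z (b2, 0) =
        - fderiv ℝ (fun w : St => fderiv ℝ (fun y : St => p g y b1) w (0, 1)) z (b2, 0) := by
      rw [k1, fderiv_fun_neg]
      rfl
    rw [← this, (hD.hasFDerivAt.fun_mul hc1).fderiv]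
    rfl
  have e2 : dt g z.1 * (fderiv ℝ (V g) z (0, 1)).2 +
      (V g z).2 * fderiv ℝ (fun w : St => dt g w.1) z (0, 1) =
      - (fderiv ℝ (fun w : St => fderiv ℝ (fun y : St => p g y b2) w (b1, 0)) z (0, 1)
        - fderiv ℝ (fun w : St => fderiv ℝ (fun y : St => p g y b1) w (b2, 0)) z (0, 1)) := by
    have : fderiv ℝ (fun w : St => dt g w.1 * (V g w).2) z (0, 1) =
        - (fderiv ℝ (fun w : St => fderiv ℝ (fun y : St => p g y b2) w (b1, 0)) z (0, 1)
        - fderiv ℝ (fun w : St => fderiv ℝ (fun y : St => p g y b1) w (b2, 0)) z (0, 1)) := by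
      rw [k2, fderiv_fun_neg, fderiv_fun_sub (hdp b2 (b1, 0)) (hdp b1 (b2, 0))]
      rfl
    rw [← this, (hD.hasFDerivAt.fun_mul hc2).fderiv]
    rfl
  have hVz : V g z = (V g z).1 0 • (b1, (0 : ℝ)) + (V g z).1 1 • (b2, (0 : ℝ)) +
      (V g z).2 • ((0 : E), (1 : ℝ)) := by
    have h1 := vec_eq (V g z).1
    ext1
    · simp only [Prod.fst_add, Prod.smul_fst, smul_zero, add_zero]
      exact h1
    · simp
  have hDV : fderiv ℝ (fun w : St => dt g w.1) z (V g z) =
      (V g z).1 0 * fderiv ℝ (fun w : St => dt g w.1) z (b1, 0) +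
      (V g z).1 1 * fderiv ℝ (fun w : St => dt g w.1) z (b2, 0) +
      (V g z).2 * fderiv ℝ (fun w : St => dt g w.1) z (0, 1) := by
    conv_lhs => rw [hVz]
    rw [map_add, map_add, map_smul, map_smul, map_smul, smul_eq_mul, smul_eq_mul, smul_eq_mul]
  have s0 := f4_symm hg z b2 (b1, 0) (0, 1)
  have s1 := f4_symm hg z b1 (b2, 0) (0, 1)
  rw [f4_trace, hDV]
  linear_combination e0 + e1 + e2 + s0 - s1

end PPF
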