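import Pool.Agent.Lib.MP_a4f5e0_gt.IfL

/-!
JOB X1. The law of cosines and the isometry.

Hypotheses: all geodesics are minimising (`hm`) and the second difference identity (`h2`).

* `quad_of_second_diff`: a continuous `f : ℝ → ℝ` with `f (t+h) + f (t-h) - 2 f t = 2 h²` for all `t, h` satisfies
  `f t = t² + b t + f 0` for some `b` and all `t`. (`k t = f t - t² - f 0` is continuous,
  `k (t+h) + k (t-h) = 2 k t`, `k 0 = 0`; so `k (2t) = 2 k t`, `k` is additive: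
  `k (a) + k (b) = 2 k ((a+b)/2) = k (a+b)`, and continuous additive maps are linear:
  `AddMonoidHom.toRealLinearMap`.)
* `law_of_cosines`: `z.1 = w.1 = o`. `F s t = (dg (φ s z).1 (φ t w).1)²`. For fixed `s`, `h2` with the centre
  `(φ s z).1` and the line of `w` gives `F s t = t² + b(s) t + F s 0` and `F s 0 = s²` (`hm`). In the same way
  (`dg_comm`) `F s t = s² + b'(t) s + t²`. So `b(s) t = b'(t) s`, hence `F s t = s² + t² + k s t` with `k = b(1)`.
  Upper bound: for `ε > 0` small, `ε² F s t = F (εs) (εt) ≤ (1+η)² g o (y - x) (y - x)` with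
  `x = (φ (εs) z).1 = o + εs u(z) + o(ε)`, `y = (φ (εt) w).1 = o + εt u(w) + o(ε)`
  (`dg_le_infinitesimal`, `IsFlow.hasDerivAt_fst` at `0`); divide by `ε²`, `ε → 0`, `η → 0`:
  `F s t ≤ g o (s u(z) - t u(w)) (s u(z) - t u(w)) = s² + t² - 2 s t cos (z.2 - w.2)` for ALL real `s, t`.
  With `(1,1)` and `(1,-1)`: `k = -2 cos (z.2 - w.2)`.
* `exists_isometry`: fix `o = 0`; for every `y` choose `α y` with `(φ (dg o y) (o, α y)).1 = y` (`hopf_rinow`);
  `f y = dg o y • !₂[cos (α y), sin (α y)]`. `dist (f x) (f y)² = ` law of cosines `= dg x y²`. Injective: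
  `dg_pos`. Surjective: `v = ρ • !₂[cos β, sin β]` with `ρ ≥ 0` (polar coordinates), `y = (φ ρ (o, β)).1`; then
  `dg o y = ρ`, and `0 = dg y y² = 2ρ² - 2ρ² cos (α y - β) = dist (f y) v²`.
-/

set_option autoImplicit false

open MeasureTheory Set Filter Topology Real Metric

noncomputable section

namespace PPF

variable {g : E → E →L[ℝ] E →L[ℝ] ℝ} {φ : ℝ → St → St}

theorem quad_of_second_diff {f : ℝ → ℝ} (hf : Continuous f)
    (h : ∀ t h, f (t + h) + f (t - h) - 2 * f t = 2 * h ^ 2) :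
    ∃ b, ∀ t, f t = t ^ 2 + b * t + f 0 := by
  let k : ℝ → ℝ := fun t => f t - t ^ 2 - f 0
  have hk : ∀ t, k t = f t - t ^ 2 - f 0 := fun t => rfl
  have hk0 : k 0 = 0 := by rw [hk]; ring
  have hk2 : ∀ t s, k (t + s) + k (t - s) = 2 * k t := by
    intro t s
    have := h t s
    rw [hk, hk, hk]
    linarith [this, sq_nonneg s, (by ring : (t + s) ^ 2 + (t - s) ^ 2 = 2 * t ^ 2 + 2 * s ^ 2)]
  have hadd : ∀ a b, k (a + b) = k a + k b := by
    intro a b
    have h1 := hk2 ((a + b) / 2) ((a - b) / 2)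
    have h2 := hk2 ((a + b) / 2) ((a + b) / 2)
    rw [show (a + b) / 2 + (a - b) / 2 = a by ring, show (a + b) / 2 - (a - b) / 2 = b by ring]
      at h1
    rw [show (a + b) / 2 + (a + b) / 2 = a + b by ring,
      show (a + b) / 2 - (a + b) / 2 = 0 by ring, hk0] at h2
    linarith
  have hkc : Continuous k := (hf.sub (continuous_pow 2)).sub continuous_const
  let K : ℝ →+ ℝ := { toFun := k, map_zero' := hk0, map_add' := hadd }
  have hK : ∀ t, k t = t * k 1 := by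
    intro t
    have h1 := map_real_smul K hkc t 1
    rw [smul_eq_mul, mul_one, smul_eq_mul] at h1
    exact h1
  refine ⟨k 1, fun t => ?_⟩
  have h1 := hK t
  rw [hk t] at h1
  linarith

private theorem x1_upper (hg : Met g) (hφ : IsFlow g φ) (o : E) (α β : ℝ) {k : ℝ}
    (hk : ∀ s t, (dg g (φ s (o, α)).1 (φ t (o, β)).1) ^ 2 = s ^ 2 + t ^ 2 + k * s * t) (s t : ℝ) :
    s ^ 2 + t ^ 2 + k * s * t ≤ s ^ 2 + t ^ 2 - 2 * s * t * cos (α - β) := by
  set v : E := t • u g (o, β) - s • u g (o, α) with hv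
  -- the value of the form
  have hQ : g o v v = s ^ 2 + t ^ 2 - 2 * s * t * cos (α - β) := by
    rw [hv]
    simp only [map_sub, map_smul, sub_apply, smul_apply, smul_eq_mul, g_u_u hg, sub_self,
      cos_zero]
    rw [show cos (β - α) = cos (α - β) by rw [← cos_neg, neg_sub]]
    ring
  -- the derivative
  have hD1 : HasDerivAt (fun ε : ℝ => (φ (ε * s) (o, α)).1) (s • u g (o, α)) 0 := by
    have h1 := hφ.hasDerivAt_fst (0 * s) (o, α)
    have h2 : HasDerivAt (fun ε : ℝ => ε * s) s 0 := by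
      simpa using (hasDerivAt_id (0 : ℝ)).mul_const s
    have h3 := HasDerivAt.scomp (0 : ℝ) h1 h2
    rw [zero_mul, hφ.zero] at h3
    exact h3
  have hD2 : HasDerivAt (fun ε : ℝ => (φ (ε * t) (o, β)).1) (t • u g (o, β)) 0 := by
    have h1 := hφ.hasDerivAt_fst (0 * t) (o, β)
    have h2 : HasDerivAt (fun ε : ℝ => ε * t) t 0 := by
      simpa using (hasDerivAt_id (0 : ℝ)).mul_const t
    have h3 := HasDerivAt.scomp (0 : ℝ) h1 h2
    rw [zero_mul, hφ.zero] at h3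
    exact h3
  have hD := hD2.sub hD1
  rw [← hv] at hD
  have hslope := (hasDerivAt_iff_tendsto_slope_zero.1 hD)
  have hslope' : Tendsto (fun ε : ℝ => ε⁻¹ • ((φ (ε * t) (o, β)).1 - (φ (ε * s) (o, α)).1))
      (𝓝[>] 0) (𝓝 v) := by
    have h1 := hslope.mono_left (nhdsWithin_mono 0 (fun x (hx : x ∈ Ioi (0 : ℝ)) => ne_of_gt hx))
    refine h1.congr fun ε => ?_
    simp only [Pi.sub_apply, zero_add, zero_mul, hφ.zero, sub_self, sub_zero]
  have hlim : Tendsto (fun ε : ℝ => g o (ε⁻¹ • ((φ (ε * t) (o, β)).1 - (φ (ε * s) (o, α)).1))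
      (ε⁻¹ • ((φ (ε * t) (o, β)).1 - (φ (ε * s) (o, α)).1))) (𝓝[>] 0) (𝓝 (g o v v)) := by
    have hc : Continuous (fun w : E => g o w w) :=
      (g o).continuous.clm_apply continuous_id
    exact (hc.tendsto v).comp hslope'
  -- for every η
  have hη : ∀ η > 0, s ^ 2 + t ^ 2 + k * s * t ≤ (1 + η) ^ 2 * g o v v := by
    intro η hη
    obtain ⟨δ, hδ, hball⟩ := dg_le_infinitesimal hg o hη
    have hlim2 := hlim.const_mul ((1 + η) ^ 2)
    refine ge_of_tendsto hlim2 ?_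
    have hx : ∀ᶠ ε in 𝓝[>] (0 : ℝ), (φ (ε * s) (o, α)).1 ∈ ball o δ := by
      have h1 : Tendsto (fun ε : ℝ => (φ (ε * s) (o, α)).1) (𝓝 0) (𝓝 o) := by
        have := hD1.continuousAt.tendsto
        simp only [zero_mul, hφ.zero] at this
        exact this
      exact (h1.mono_left nhdsWithin_le_nhds) (ball_mem_nhds o hδ)
    have hy : ∀ᶠ ε in 𝓝[>] (0 : ℝ), (φ (ε * t) (o, β)).1 ∈ ball o δ := by
      have h1 : Tendsto (fun ε : ℝ => (φ (ε * t) (o, β)).1) (𝓝 0) (𝓝 o) := by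
        have := hD2.continuousAt.tendsto
        simp only [zero_mul, hφ.zero] at this
        exact this
      exact (h1.mono_left nhdsWithin_le_nhds) (ball_mem_nhds o hδ)
    filter_upwards [hx, hy, self_mem_nhdsWithin] with ε h1 h2 hε
    have hε' : (0 : ℝ) < ε := hε
    have h3 := hball _ h1 _ h2
    have h4 : (dg g (φ (ε * s) (o, α)).1 (φ (ε * t) (o, β)).1) ^ 2 ≤
        (1 + η) ^ 2 * g o ((φ (ε * t) (o, β)).1 - (φ (ε * s) (o, α)).1)
          ((φ (ε * t) (o, β)).1 - (φ (ε * s) (o, α)).1) := by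
      have h5 := pow_le_pow_left₀ (dg_nonneg _ _) h3 2
      rw [mul_pow, Real.sq_sqrt (g_nonneg hg _ _)] at h5
      exact h5
    rw [hk] at h4
    simp only [map_smul, smul_apply, smul_eq_mul]
    have h6 : s ^ 2 + t ^ 2 + k * s * t =
        ε⁻¹ * (ε⁻¹ * ((ε * s) ^ 2 + (ε * t) ^ 2 + k * (ε * s) * (ε * t))) := by
      field_simp
    rw [h6]
    have h7 : 0 < ε⁻¹ := inv_pos.2 hε'
    calc ε⁻¹ * (ε⁻¹ * ((ε * s) ^ 2 + (ε * t) ^ 2 + k * (ε * s) * (ε * t)))
        ≤ ε⁻¹ * (ε⁻¹ * ((1 + η) ^ 2 * g o ((φ (ε * t) (o, β)).1 - (φ (ε * s) (o, α)).1)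
          ((φ (ε * t) (o, β)).1 - (φ (ε * s) (o, α)).1))) :=
          mul_le_mul_of_nonneg_left (mul_le_mul_of_nonneg_left h4 h7.le) h7.le
      _ = _ := by ring
  have hfin : Tendsto (fun η : ℝ => (1 + η) ^ 2 * g o v v) (𝓝[>] 0) (𝓝 (g o v v)) := by
    have hc : Continuous (fun η : ℝ => (1 + η) ^ 2 * g o v v) := by fun_prop
    have h1 := hc.tendsto 0
    simp only [add_zero, one_pow, one_mul] at h1
    exact h1.mono_left nhdsWithin_le_nhds
  rw [← hQ]
  refine ge_of_tendsto hfin ?_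
  filter_upwards [self_mem_nhdsWithin] with η h
  exact hη η h

theorem law_of_cosines (hg : Met g) (hφ : IsFlow g φ)
    (hm : ∀ z s t, dg g (φ s z).1 (φ t z).1 = |s - t|)
    (h2 : ∀ (o : E) (z : St) (t h : ℝ), (dg g o (φ (t + h) z).1) ^ 2
      + (dg g o (φ (t - h) z).1) ^ 2 - 2 * (dg g o (φ t z).1) ^ 2 = 2 * h ^ 2)
    {z w : St} (hzw : z.1 = w.1) (s t : ℝ) :
    (dg g (φ s z).1 (φ t w).1) ^ 2 = s ^ 2 + t ^ 2 - 2 * s * t * cos (z.2 - w.2) := by
  obtain ⟨o, α⟩ := z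
  obtain ⟨o', β⟩ := w
  have hoo : o = o' := hzw
  subst hoo
  have hcont : ∀ (x : E) (z : St), Continuous (fun t => (dg g x (φ t z).1) ^ 2) := by
    intro x z
    have h1 : Continuous (fun t => (φ t z).1) := (hφ.contDiff_fst z).continuous
    exact ((dg_continuous hg).comp (continuous_const.prodMk h1)).pow 2
  have hb : ∀ s, ∃ b, ∀ t, (dg g (φ s (o, α)).1 (φ t (o, β)).1) ^ 2 = t ^ 2 + b * t + s ^ 2 := by
    intro s
    obtain ⟨b, hb⟩ := quad_of_second_diff (hcont (φ s (o, α)).1 (o, β))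
      (fun t h => h2 (φ s (o, α)).1 (o, β) t h)
    refine ⟨b, fun t => ?_⟩
    rw [hb t]
    congr 1
    have h3 : (φ 0 (o, β)).1 = (φ 0 (o, α)).1 := by rw [hφ.zero, hφ.zero]
    rw [h3, hm, sub_zero, sq_abs]
  have hb' : ∀ t, ∃ b, ∀ s, (dg g (φ s (o, α)).1 (φ t (o, β)).1) ^ 2 = s ^ 2 + b * s + t ^ 2 := by
    intro t
    obtain ⟨b, hb⟩ := quad_of_second_diff (hcont (φ t (o, β)).1 (o, α))
      (fun s h => h2 (φ t (o, β)).1 (o, α) s h)
    refine ⟨b, fun s => ?_⟩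
    rw [dg_comm hg, hb s]
    congr 1
    have h3 : (φ 0 (o, α)).1 = (φ 0 (o, β)).1 := by rw [hφ.zero, hφ.zero]
    rw [h3, hm, sub_zero, sq_abs]
  choose b hb using hb
  choose b' hb' using hb'
  have hbb : ∀ s t, b s * t = b' t * s := by
    intro s t
    have h3 := hb s t
    have h4 := hb' t s
    linarith
  have hk : ∀ s t, (dg g (φ s (o, α)).1 (φ t (o, β)).1) ^ 2 = s ^ 2 + t ^ 2 + b 1 * s * t := by
    intro s t
    rw [hb s t]
    have h3 := hbb s 1
    have h4 := hbb 1 1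
    have h5 : b s = b 1 * s := by
      rw [mul_one, mul_one] at h4
      rw [mul_one, ← h4] at h3
      exact h3
    rw [h5]
    ring
  have h11 := x1_upper hg hφ o α β hk 1 1
  have h12 := x1_upper hg hφ o α β hk 1 (-1)
  have hk1 : b 1 = -2 * cos (α - β) := by linarith
  rw [hk, hk1]
  ring

theorem exists_isometry (hg : Met g) (hφ : IsFlow g φ)
    (hm : ∀ z s t, dg g (φ s z).1 (φ t z).1 = |s - t|)
    (h2 : ∀ (o : E) (z : St) (t h : ℝ), (dg g o (φ (t + h) z).1) ^ 2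
      + (dg g o (φ (t - h) z).1) ^ 2 - 2 * (dg g o (φ t z).1) ^ 2 = 2 * h ^ 2) :
    ∃ f : E → E, Function.Bijective f ∧ ∀ x y, dist (f x) (f y) = dg g x y := by
  choose α hα using fun y : E => hopf_rinow hg hφ (0 : E) y
  have hpol : ∀ ρ σ a b : ℝ, dist (ρ • (!₂[cos a, sin a] : E)) (σ • (!₂[cos b, sin b] : E)) ^ 2 =
      ρ ^ 2 + σ ^ 2 - 2 * ρ * σ * cos (a - b) := by
    intro ρ σ a b
    rw [EuclideanSpace.dist_eq, Real.sq_sqrt (Finset.sum_nonneg fun _ _ => sq_nonneg _)]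
    simp only [Fin.sum_univ_two, PiLp.smul_apply, smul_eq_mul, Real.dist_eq, sq_abs]
    simp only [Matrix.cons_val_zero, Matrix.cons_val_one]
    rw [cos_sub]
    linear_combination ρ ^ 2 * sin_sq_add_cos_sq a + σ ^ 2 * sin_sq_add_cos_sq b
  have hiso : ∀ x y, dist (dg g 0 x • (!₂[cos (α x), sin (α x)] : E))
      (dg g 0 y • (!₂[cos (α y), sin (α y)] : E)) = dg g x y := by
    intro x y
    rw [← sq_eq_sq₀ dist_nonneg (dg_nonneg _ _), hpol]
    have h1 := law_of_cosines hg hφ hm h2 (z := ((0 : E), α x)) (w := ((0 : E), α y)) rfl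
      (dg g 0 x) (dg g 0 y)
    rw [hα x, hα y] at h1
    exact h1.symm
  refine ⟨fun y => dg g 0 y • (!₂[cos (α y), sin (α y)] : E), ⟨?_, ?_⟩, hiso⟩
  · intro x y hxy
    by_contra hne
    have h1 := dg_pos hg hne
    rw [← hiso x y] at h1
    have h3 : dist (dg g 0 x • (!₂[cos (α x), sin (α x)] : E))
      (dg g 0 y • (!₂[cos (α y), sin (α y)] : E)) = 0 := by
      rw [dist_eq_zero]
      exact hxy
    rw [h3] at h1
    exact lt_irrefl _ h1
  · intro v
    have hv : v = ‖(⟨v 0, v 1⟩ : ℂ)‖ • (!₂[cos (Complex.arg ⟨v 0, v 1⟩),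
        sin (Complex.arg ⟨v 0, v 1⟩)] : E) := by
      ext i
      fin_cases i
      · show v 0 = ‖(⟨v 0, v 1⟩ : ℂ)‖ * cos (Complex.arg ⟨v 0, v 1⟩)
        rw [Complex.norm_mul_cos_arg]
      · show v 1 = ‖(⟨v 0, v 1⟩ : ℂ)‖ * sin (Complex.arg ⟨v 0, v 1⟩)
        rw [Complex.norm_mul_sin_arg]
    set ρ : ℝ := ‖(⟨v 0, v 1⟩ : ℂ)‖ with hρ
    set β : ℝ := Complex.arg ⟨v 0, v 1⟩ with hβ
    have hρ0 : 0 ≤ ρ := norm_nonneg _
    refine ⟨(φ ρ ((0 : E), β)).1, ?_⟩
    set y : E := (φ ρ ((0 : E), β)).1 with hy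
    have hd : dg g 0 y = ρ := by
      have h1 := hm ((0 : E), β) 0 ρ
      rw [hφ.zero, zero_sub, abs_neg, abs_of_nonneg hρ0] at h1
      exact h1
    show dg g 0 y • (!₂[cos (α y), sin (α y)] : E) = v
    rw [hv, hd, ← dist_eq_zero, ← sq_eq_zero_iff, hpol]
    have h1 := law_of_cosines hg hφ hm h2 (z := ((0 : E), α y)) (w := ((0 : E), β)) rfl ρ ρ
    have h3 := hα y
    rw [hd] at h3
    rw [h3, ← hy, dg_self hg] at h1
    rw [← h1]
    norm_num

end PPF
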