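import Pool.Agent.Lib.MP_a4f5e0_gt.R5
import Pool.Agent.Lib.MP_a4f5e0_gt.X1

/-!
JOB Final. Assembly: a complete Riemannian plane with the parallel postulate is isometric to the
Euclidean plane.
-/

set_option autoImplicit false

open MeasureTheory Set Filter Topology Real Metric

noncomputable section

namespace PPF

variable {g : E → E →L[ℝ] E →L[ℝ] ℝ} {φ : ℝ → St → St}

/-- the parallel postulate of the frozen statement in terms of the flow -/
theorem PP_of (hg : Met g) (hφ : IsFlow g φ)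
    (h : ∀ γ : ℝ → E, LocGeo (dg g) γ → ∀ x, x ∉ Set.range γ →
      ∃! S : Set E, (∃ σ : ℝ → E, LocGeo (dg g) σ ∧ Set.range σ = S) ∧
        x ∈ S ∧ Disjoint S (Set.range γ)) : PP φ := by
  intro z x hx
  have hiff : ∀ S : Set E, (∃ σ : ℝ → E, LocGeo (dg g) σ ∧ Set.range σ = S) ↔
      ∃ w, line φ w = S := by
    intro S
    constructor
    · rintro ⟨σ, hσ, rfl⟩
      obtain ⟨w, hw⟩ := (locGeo_iff hg hφ σ).1 hσ
      exact ⟨w, by unfold line; congr 1; funext t; exact (hw t).symm⟩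
    · rintro ⟨w, rfl⟩
      exact ⟨fun t => (φ t w).1, (locGeo_iff hg hφ _).2 ⟨w, fun _ => rfl⟩, rfl⟩
  have h1 := h (fun t => (φ t z).1) ((locGeo_iff hg hφ _).2 ⟨z, fun _ => rfl⟩) x hx
  obtain ⟨S, hS, hu⟩ := h1
  refine ⟨S, ⟨(hiff S).1 hS.1, hS.2.1, hS.2.2⟩, ?_⟩
  rintro S' ⟨h1', h2', h3'⟩
  exact hu S' ⟨(hiff S').2 h1', h2', h3'⟩

theorem main (g : E → E →L[ℝ] E →L[ℝ] ℝ) (hg : Met g) (hc : Compl (dg g))
    (h : ∀ γ : ℝ → E, LocGeo (dg g) γ → ∀ x, x ∉ Set.range γ →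
      ∃! S : Set E, (∃ σ : ℝ → E, LocGeo (dg g) σ ∧ Set.range σ = S) ∧
        x ∈ S ∧ Disjoint S (Set.range γ)) :
    ∃ f : E → E, Function.Bijective f ∧ ∀ x y, dist (f x) (f y) = dg g x y := by
  obtain ⟨φ, hφ⟩ := exists_isFlow hg hc
  have hP : PP φ := PP_of hg hφ h
  have hm : Mini g φ := fun z s t => min_of_PP hg hφ hP z s t
  have hn : Meets g φ := fun z => null_disjoint hg hφ hP z
  exact exists_isometry hg hφ hm (fun o z t h => second_diff hg hφ hm hn o z t h)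

end PPF
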