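import Pool.Agent.Lib.MP_a4f5e0_gt.A.AMain

/-!
# Interface A: the analytic theorem (stream A): `analytic_main` is in A/AMain.lean.
-/
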