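import Pool.Agent.Lib.MP_a4f5e0_gt.D6

/-!
# Interface D: the distance (stream D); everything is in D1 - D6.
-/
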