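import Pool.Agent.Lib.MP_a4f5e0_gt.L7b

/-!
# Interface L: local minimisation, Hopf-Rinow, local `d`-geodesics (stream L); everything is in L1a - L7b.
-/
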