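import Pool.Agent.Lib.MP_a4f5e0_gt.SInv

/-!
JOB SDet. The determinant of the map `(t, s, b) ↦ φ s ((φ t z).1, b)`.
-/

set_option autoImplicit false

open MeasureTheory Set Filter Topology Real

noncomputable section

namespace PPF

variable {g : E → E →L[ℝ] E →L[ℝ] ℝ} {φ : ℝ → St → St}

variable (φ) in
def Psi (z y : St) : St := φ (y.1 1) ((φ (y.1 0) z).1, y.2)

theorem sdet_diff (hφ : IsFlow g φ) (s : ℝ) : Differentiable ℝ (φ s) := by
  have h1 : ContDiff ℝ 1 (φ s) := hφ.C1.comp (contDiff_const.prodMk contDiff_id)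
  exact h1.differentiable (by norm_num)

/-- the flow maps the field to itself -/
theorem flow_V (hg : Met g) (hφ : IsFlow g φ) (s : ℝ) (w : St) :
    fderiv ℝ (φ s) w (V g w) = V g (φ s w) := by
  have hd := sdet_diff hφ s
  have h1 : HasDerivAt (fun τ => φ s (φ τ w)) (fderiv ℝ (φ s) (φ 0 w) (V g (φ 0 w))) 0 :=
    (hd (φ 0 w)).hasFDerivAt.comp_hasDerivAt 0 (hφ.deriv 0 w)
  have h2 : HasDerivAt (fun τ => φ (s + τ) w) (V g (φ (s + 0) w)) 0 :=
    (hφ.deriv (s + 0) w).comp_const_add s 0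
  have h3 : (fun τ => φ s (φ τ w)) = fun τ => φ (s + τ) w := by
    ext1 τ
    rw [hφ.add hg]
  rw [h3] at h1
  have h4 := h1.unique h2
  rw [hφ.zero, add_zero] at h4
  exact h4

theorem det_col (a v : E) (c : ℝ) (L : St →L[ℝ] St)
    (hL : ∀ η : St, L η = (η.1 0 • a + η.1 1 • v, η.1 1 * c + η.2)) : L.det = wd a v := by
  let B : Module.Basis (Fin 2 ⊕ Unit) ℝ St :=
    ((EuclideanSpace.basisFun (Fin 2) ℝ).toBasis).prod (Module.Basis.singleton Unit ℝ)
  have h1 : L.det = (LinearMap.toMatrix B B (L : St →ₗ[ℝ] St)).det := by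
    rw [LinearMap.det_toMatrix]
  rw [h1]
  have h2 : LinearMap.toMatrix B B (L : St →ₗ[ℝ] St) =
      Matrix.fromBlocks (!![a 0, v 0; a 1, v 1] : Matrix (Fin 2) (Fin 2) ℝ) 0
        (Matrix.of fun (_ : Unit) (j : Fin 2) => (![0, c] : Fin 2 → ℝ) j)
        (1 : Matrix Unit Unit ℝ) := by
    ext i j
    rw [LinearMap.toMatrix_apply]
    rcases i with i | i <;> rcases j with j | j
    · fin_cases i <;> fin_cases j <;> simp [B, hL]
    · fin_cases i <;> simp [B, hL]
    · fin_cases j <;> simp [B, hL]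
    · simp [B, hL]
  rw [h2, Matrix.det_fromBlocks_zero₁₂, Matrix.det_fin_two_of, Matrix.det_one, mul_one]
  unfold wd
  ring

/-- the coordinates `y.1 0`, `y.1 1` as linear functionals on `St` -/
def sdet_pr (i : Fin 2) : St →L[ℝ] ℝ :=
  (EuclideanSpace.proj i : E →L[ℝ] ℝ).comp (ContinuousLinearMap.fst ℝ E ℝ)

theorem sdet_pr_apply (i : Fin 2) (y : St) : sdet_pr i y = y.1 i := rfl

/-- derivative of the joint flow -/
theorem sdet_joint (hφ : IsFlow g φ) (s : ℝ) (w : St) (σ : ℝ) (ω : St) :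
    fderiv ℝ (fun q : ℝ × St => φ q.1 q.2) (s, w) (σ, ω) =
      σ • V g (φ s w) + fderiv ℝ (φ s) w ω := by
  have hD : HasFDerivAt (fun q : ℝ × St => φ q.1 q.2)
      (fderiv ℝ (fun q : ℝ × St => φ q.1 q.2) (s, w)) (s, w) :=
    (hφ.C1.differentiable (by norm_num) (s, w)).hasFDerivAt
  have e : ((σ, ω) : ℝ × St) = σ • ((1 : ℝ), (0 : St)) + ((0 : ℝ), ω) := by
    ext <;> simp
  rw [e, map_add, map_smul]
  congr 1
  · congr 1
    have h1 : HasDerivAt (fun t : ℝ => ((t, w) : ℝ × St)) ((1 : ℝ), (0 : St)) s :=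
      (hasDerivAt_id s).prodMk (hasDerivAt_const s w)
    have h2 := hD.comp_hasDerivAt s h1
    exact h2.unique (hφ.deriv s w)
  · have h1 : HasFDerivAt (fun x : St => ((s, x) : ℝ × St))
        (ContinuousLinearMap.inr ℝ ℝ St) w := hasFDerivAt_prodMk_right s w
    have h2 := (hD.comp w h1).unique ((sdet_diff hφ s w).hasFDerivAt)
    rw [← h2]
    rfl

theorem Psi_deriv (hg : Met g) (hφ : IsFlow g φ) (z : St) :
    ∃ L : St → St →L[ℝ] St, (∀ y, HasFDerivAt (Psi φ z) (L y) y) ∧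
      ∀ y, dt g (Psi φ z y).1 * (L y).det = Real.sin (y.2 - (φ (y.1 0) z).2) := by
  let κ' : St → (St →L[ℝ] ℝ × St) := fun y =>
    (sdet_pr 1).prod (((sdet_pr 0).smulRight (u g (φ (y.1 0) z))).prod
      (ContinuousLinearMap.snd ℝ E ℝ))
  let κ : St → ℝ × St := fun y => (y.1 1, ((φ (y.1 0) z).1, y.2))
  have hκ : ∀ y, HasFDerivAt κ (κ' y) y := by
    intro y
    have h1 : HasFDerivAt (fun y : St => y.1 1) (sdet_pr 1) y := (sdet_pr 1).hasFDerivAt
    have h0 : HasFDerivAt (fun y : St => y.1 0) (sdet_pr 0) y := (sdet_pr 0).hasFDerivAt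
    have h2 : HasFDerivAt (fun y : St => (φ (y.1 0) z).1)
        ((sdet_pr 0).smulRight (u g (φ (y.1 0) z))) y := by
      have h3 := (hφ.hasDerivAt_fst (y.1 0) z).hasFDerivAt.comp y h0
      have e3 : (ContinuousLinearMap.toSpanSingleton ℝ (u g (φ (y.1 0) z))).comp (sdet_pr 0) =
          (sdet_pr 0).smulRight (u g (φ (y.1 0) z)) := ContinuousLinearMap.ext fun η => rfl
      rw [e3] at h3
      exact h3
    exact h1.prodMk (h2.prodMk (hasFDerivAt_snd))
  refine ⟨fun y => (fderiv ℝ (fun q : ℝ × St => φ q.1 q.2) (κ y)).comp (κ' y), ?_, ?_⟩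
  · intro y
    have hD : HasFDerivAt (fun q : ℝ × St => φ q.1 q.2)
      (fderiv ℝ (fun q : ℝ × St => φ q.1 q.2) (κ y)) (κ y) :=
      (hφ.C1.differentiable (by norm_num) (κ y)).hasFDerivAt
    exact hD.comp y (hκ y)
  · intro y
    set s := y.1 1 with hs
    set w : St := ((φ (y.1 0) z).1, y.2) with hw
    let L0 : St →L[ℝ] St := ((sdet_pr 0).smulRight (u g (φ (y.1 0) z)) +
      (sdet_pr 1).smulRight (V g w).1).prod
        ((V g w).2 • sdet_pr 1 + ContinuousLinearMap.snd ℝ E ℝ)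
    have hL : (fderiv ℝ (fun q : ℝ × St => φ q.1 q.2) (κ y)).comp (κ' y) =
        (fderiv ℝ (φ s) w).comp L0 := by
      refine ContinuousLinearMap.ext fun η => ?_
      show fderiv ℝ (fun q : ℝ × St => φ q.1 q.2) (s, w) (η.1 1, (η.1 0 • u g (φ (y.1 0) z), η.2)) =
        fderiv ℝ (φ s) w (L0 η)
      rw [sdet_joint hφ, ← flow_V hg hφ, ← map_smul, ← map_add]
      congr 1
      ext1
      · show (η.1 1 • (V g w).1 + η.1 0 • u g (φ (y.1 0) z) : E) =
          η.1 0 • u g (φ (y.1 0) z) + η.1 1 • (V g w).1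
        exact add_comm _ _
      · show η.1 1 * (V g w).2 + η.2 = (V g w).2 * η.1 1 + η.2
        ring
    beta_reduce
    rw [hL]
    have hdet : ((fderiv ℝ (φ s) w).comp L0).det = (fderiv ℝ (φ s) w).det * L0.det := by
      exact LinearMap.det_comp _ _
    have hL0 : L0.det = wd (u g (φ (y.1 0) z)) (u g w) := by
      apply det_col _ _ (V g w).2
      intro η
      ext1
      · rfl
      · show (V g w).2 * η.1 1 + η.2 = η.1 1 * (V g w).2 + η.2
        ring
    have hf := flow_det_St hg hφ s w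
    have hwd := wd_u hg (φ (y.1 0) z).1 (φ (y.1 0) z).2 y.2
    have hpos := dt_pos hg (φ (y.1 0) z).1
    have e1 : u g (φ (y.1 0) z) = u g ((φ (y.1 0) z).1, (φ (y.1 0) z).2) := rfl
    have e2 : Psi φ z y = φ s w := rfl
    rw [hdet, hL0, e2]
    calc dt g (φ s w).1 * ((fderiv ℝ (φ s) w).det * wd (u g (φ (y.1 0) z)) (u g w))
        = ((fderiv ℝ (φ s) w).det * dt g (φ s w).1) * wd (u g (φ (y.1 0) z)) (u g w) := by ring
      _ = dt g (φ (y.1 0) z).1 * wd (u g (φ (y.1 0) z)) (u g w) := by rw [hf]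
      _ = dt g (φ (y.1 0) z).1 * (Real.sin (y.2 - (φ (y.1 0) z).2) / dt g (φ (y.1 0) z).1) := by
          rw [← hwd]
      _ = _ := by field_simp

end PPF
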