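import Pool.Agent.Lib.MP_a4f5e0_gt.SArea
import Pool.Agent.Lib.MP_a4f5e0_gt.SDet

/-!
JOB SCross. The crossing inequality for one line.

Let `M = {w | line of w meets line of z}` and `S = {y : St | (Psi φ z y).2 ∈ Ioc 0 (2π)}` (measurable, `Psi φ z` is
continuous). `Psi φ z '' S = M ∩ {w | w.2 ∈ Ioc 0 (2π)}`: `w ∈ M` means `(φ s w).1 = (φ t z).1` for some `s, t`;
put `b = (φ s w).2`; then `φ s w = ((φ t z).1, b)` and `w = φ (-s) ((φ t z).1, b) = Psi φ z y` with
`y = (!₂[t, -s], b)`. Only `M ∩ {w.2 ∈ Ioc} ⊆ Psi φ z '' S` is needed.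
`∫_{M} G dmuS = ∫ 1_M G dmuS = ∫_{univ × Ioc} ofReal(dt w.1) 1_M G ≤ ∫_{Psi '' S} ofReal (dt w.1) * G w dw`
(`muS_lintegral` needs `M` measurable: hypothesis `hM`; `lintegral_mono_set`)
`≤ ∫_{y ∈ S} ofReal |det L y| * (ofReal (dt (Psi y).1) * G (Psi y)) dy` (`lintegral_image_le`)
`= ∫_y ofReal |sin (y.2 - (φ (y.1 0) z).2)| * G (Psi y) * 1_Ioc ((Psi y).2) dy` (`Psi_deriv`, `dt > 0`)
`= ∫_{y ∈ univ × Ioc} ofReal |sin (y.2 - (φ (y.1 0) z).2)| * G (Psi y) dy` by `fold_St` with `B y = (Psi φ z y).2`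
(`Psi` commutes with the shift of the angle: `IsFlow.add_two_pi`; `|sin|` is `2π`-periodic; `G` is periodic).
Then Tonelli (`Measure.volume_eq_prod`, `Measure.prod_restrict`, `lintegral_prod`, swap) and `lintegral_E`:
`= ∫_t ∫_s ∫_{b ∈ Ioc}`, reorder the integrals over `s` and `b`, and pull the factor out of the integral over `s`.
-/

set_option autoImplicit false

open MeasureTheory Set Filter Topology Real

noncomputable section

namespace PPF

variable {g : E → E →L[ℝ] E →L[ℝ] ℝ} {φ : ℝ → St → St}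

theorem scross_cont (hφ : IsFlow g φ) (z : St) : Continuous (Psi φ z) := by
  have h0 : Continuous (fun y : St => y.1 0) := (EuclideanSpace.proj (𝕜 := ℝ) (0 : Fin 2)).continuous.comp continuous_fst
  have h1 : Continuous (fun y : St => y.1 1) := (EuclideanSpace.proj (𝕜 := ℝ) (1 : Fin 2)).continuous.comp continuous_fst
  have h2 : Continuous (fun y : St => φ (y.1 0) z) :=
    hφ.continuous.comp (h0.prodMk continuous_const)
  exact hφ.continuous.comp (h1.prodMk ((continuous_fst.comp h2).prodMk continuous_snd))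

theorem scross_sub (hg : Met g) (hφ : IsFlow g φ) (z : St) :
    {w : St | (line φ w ∩ line φ z).Nonempty} ∩ ((Set.univ : Set E) ×ˢ Ioc 0 (2 * π)) ⊆
      Psi φ z '' {y : St | (Psi φ z y).2 ∈ Ioc 0 (2 * π)} := by
  rintro w ⟨⟨x, ⟨s, hs⟩, ⟨t, ht⟩⟩, hw⟩
  have hw2 : w.2 ∈ Ioc 0 (2 * π) := hw.2
  have h1 : Psi φ z (!₂[t, -s], (φ s w).2) = w := by
    show φ ((!₂[t, -s] : E) 1) ((φ ((!₂[t, -s] : E) 0) z).1, (φ s w).2) = w
    have h2 : (!₂[t, -s] : E) 1 = -s := by simp
    have h3 : (!₂[t, -s] : E) 0 = t := by simp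
    rw [h2, h3]
    have h4 : (φ t z).1 = (φ s w).1 := by
      rw [show (φ t z).1 = x from ht, show (φ s w).1 = x from hs]
    rw [h4]
    exact hφ.neg_left hg s w
  refine ⟨(!₂[t, -s], (φ s w).2), ?_, h1⟩
  show (Psi φ z (!₂[t, -s], (φ s w).2)).2 ∈ Ioc 0 (2 * π)
  rw [h1]
  exact hw2

theorem scross_tonelli (hφ : IsFlow g φ) (z : St) {G : St → ENNReal} (hG : Measurable G) :
    ∫⁻ y in (Set.univ : Set E) ×ˢ Ioc 0 (2 * π),
      ENNReal.ofReal |Real.sin (y.2 - (φ (y.1 0) z).2)| * G (Psi φ z y) =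
      ∫⁻ t : ℝ, ∫⁻ b in Ioc 0 (2 * π), ENNReal.ofReal |Real.sin (b - (φ t z).2)| *
        ∫⁻ s : ℝ, G (φ s ((φ t z).1, b)) := by
  have hc := scross_cont hφ z
  have h0 : Continuous (fun y : St => y.1 0) := (EuclideanSpace.proj (𝕜 := ℝ) (0 : Fin 2)).continuous.comp continuous_fst
  have h2 : Continuous (fun y : St => φ (y.1 0) z) :=
    hφ.continuous.comp (h0.prodMk continuous_const)
  have hK : Measurable (fun y : St =>
      ENNReal.ofReal |Real.sin (y.2 - (φ (y.1 0) z).2)| * G (Psi φ z y)) := by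
    apply Measurable.mul
    · apply Measurable.ennreal_ofReal
      exact ((Real.continuous_sin.comp (continuous_snd.sub (continuous_snd.comp h2))).abs).measurable
    · exact hG.comp hc.measurable
  -- joint function of (t, s, b)
  have hF : Measurable (fun q : (ℝ × ℝ) × ℝ =>
      ENNReal.ofReal |Real.sin (q.2 - (φ q.1.1 z).2)| * G (φ q.1.2 ((φ q.1.1 z).1, q.2))) := by
    have h3 : Continuous (fun q : (ℝ × ℝ) × ℝ => φ q.1.1 z) :=
      hφ.continuous.comp ((continuous_fst.comp continuous_fst).prodMk continuous_const)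
    apply Measurable.mul
    · apply Measurable.ennreal_ofReal
      exact ((Real.continuous_sin.comp (continuous_snd.sub (continuous_snd.comp h3))).abs).measurable
    · apply hG.comp
      apply Continuous.measurable
      exact hφ.continuous.comp ((continuous_snd.comp continuous_fst).prodMk
        ((continuous_fst.comp h3).prodMk continuous_snd))
  have hf : Measurable (Function.uncurry (fun t s : ℝ => ∫⁻ b in Ioc 0 (2 * π),
      ENNReal.ofReal |Real.sin (b - (φ t z).2)| * G (φ s ((φ t z).1, b)))) :=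
    hF.lintegral_prod_right'
  rw [Measure.volume_eq_prod, ← Measure.prod_restrict, Measure.restrict_univ,
    lintegral_prod _ hK.aemeasurable]
  have h4 := lintegral_E hf
  refine Eq.trans ?_ (h4.trans ?_)
  · rfl
  · refine lintegral_congr fun t => ?_
    have h5 : Measurable (Function.uncurry (fun s b : ℝ =>
        ENNReal.ofReal |Real.sin (b - (φ t z).2)| * G (φ s ((φ t z).1, b)))) := by
      apply Measurable.mul
      · apply Measurable.ennreal_ofReal
        exact ((Real.continuous_sin.comp (continuous_snd.sub continuous_const)).abs).measurable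
      · apply hG.comp
        apply Continuous.measurable
        exact hφ.continuous.comp (continuous_fst.prodMk (continuous_const.prodMk continuous_snd))
    rw [lintegral_lintegral_swap h5.aemeasurable]
    refine lintegral_congr fun b => ?_
    rw [lintegral_const_mul]
    apply hG.comp
    apply Continuous.measurable
    exact hφ.continuous.comp (continuous_id.prodMk continuous_const)

theorem cross_le (hg : Met g) (hφ : IsFlow g φ) (z : St)
    (hM : MeasurableSet {w : St | (line φ w ∩ line φ z).Nonempty})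
    {G : St → ENNReal} (hG : Measurable G) (hGp : Per G) :
    ∫⁻ w in {w : St | (line φ w ∩ line φ z).Nonempty}, G w ∂muS g ≤
      ∫⁻ t : ℝ, ∫⁻ b in Ioc 0 (2 * π), ENNReal.ofReal |Real.sin (b - (φ t z).2)| *
        ∫⁻ s : ℝ, G (φ s ((φ t z).1, b)) := by
  obtain ⟨L, hL, hdet⟩ := Psi_deriv hg hφ z
  have hc := scross_cont hφ z
  set M := {w : St | (line φ w ∩ line φ z).Nonempty} with hMdef
  set S := {y : St | (Psi φ z y).2 ∈ Ioc 0 (2 * π)} with hS
  have hSm : MeasurableSet S := (measurable_snd.comp hc.measurable) measurableSet_Ioc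
  have hdm : Measurable (fun w : St => ENNReal.ofReal (dt g w.1)) :=
    ((measurable_dt hg).comp measurable_fst).ennreal_ofReal
  have hdG : Measurable (fun w : St => ENNReal.ofReal (dt g w.1) * G w) := hdm.mul hG
  -- step 1
  have h1 : ∫⁻ w in M, G w ∂muS g ≤ ∫⁻ w in Psi φ z '' S, ENNReal.ofReal (dt g w.1) * G w := by
    rw [← lintegral_indicator hM, muS_lintegral hg (hG.indicator hM)]
    have h2 : ∀ w : St, ENNReal.ofReal (dt g w.1) * M.indicator G w =
        M.indicator (fun w => ENNReal.ofReal (dt g w.1) * G w) w := by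
      intro w
      by_cases hw : w ∈ M
      · rw [indicator_of_mem hw, indicator_of_mem hw]
      · rw [indicator_of_notMem hw, indicator_of_notMem hw, mul_zero]
    rw [lintegral_congr h2, setLIntegral_indicator hM]
    exact lintegral_mono_set (scross_sub hg hφ z)
  -- step 2
  haveI hHaar : (volume : Measure St).IsAddHaarMeasure :=
    Measure.prod.instIsAddHaarMeasure (volume : Measure E) (volume : Measure ℝ)
  have h2 : ∫⁻ w in Psi φ z '' S, ENNReal.ofReal (dt g w.1) * G w ≤
      ∫⁻ y in S, ENNReal.ofReal |(L y).det| *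
        (ENNReal.ofReal (dt g (Psi φ z y).1) * G (Psi φ z y)) :=
    lintegral_image_le volume hL hSm hdG
  -- step 3
  have h3 : ∫⁻ y in S, ENNReal.ofReal |(L y).det| *
        (ENNReal.ofReal (dt g (Psi φ z y).1) * G (Psi φ z y)) =
      ∫⁻ y, (ENNReal.ofReal |Real.sin (y.2 - (φ (y.1 0) z).2)| * G (Psi φ z y)) *
        (Ioc 0 (2 * π)).indicator (1 : ℝ → ENNReal) ((Psi φ z y).2) := by
    rw [← lintegral_indicator hSm]
    refine lintegral_congr fun y => ?_
    by_cases hy : (Psi φ z y).2 ∈ Ioc 0 (2 * π)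
    · have hy' : y ∈ S := hy
      rw [indicator_of_mem hy', indicator_of_mem hy, Pi.one_apply, mul_one, ← mul_assoc,
        ← ENNReal.ofReal_mul (abs_nonneg _), ← hdet y, abs_mul, abs_of_pos (dt_pos hg _), mul_comm
        (dt g (Psi φ z y).1)]
    · have hy' : y ∉ S := hy
      rw [indicator_of_notMem hy', indicator_of_notMem hy, mul_zero]
  -- step 4
  have h0 : Continuous (fun y : St => y.1 0) := (EuclideanSpace.proj (𝕜 := ℝ) (0 : Fin 2)).continuous.comp continuous_fst
  have h0' : Continuous (fun y : St => φ (y.1 0) z) :=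
    hφ.continuous.comp (h0.prodMk continuous_const)
  have hK : Measurable (fun y : St =>
      ENNReal.ofReal |Real.sin (y.2 - (φ (y.1 0) z).2)| * G (Psi φ z y)) := by
    apply Measurable.mul
    · apply Measurable.ennreal_ofReal
      exact ((Real.continuous_sin.comp (continuous_snd.sub (continuous_snd.comp h0'))).abs).measurable
    · exact hG.comp hc.measurable
  have hPsi : ∀ (x : E) (α : ℝ), Psi φ z (x, α + 2 * π) =
      ((Psi φ z (x, α)).1, (Psi φ z (x, α)).2 + 2 * π) := by
    intro x α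
    exact hφ.add_two_pi hg (x 1) ((φ (x 0) z).1) α
  have hKp : Per (fun y : St =>
      ENNReal.ofReal |Real.sin (y.2 - (φ (y.1 0) z).2)| * G (Psi φ z y)) := by
    intro x α
    show ENNReal.ofReal |Real.sin (α + 2 * π - (φ (x 0) z).2)| * G (Psi φ z (x, α + 2 * π)) =
      ENNReal.ofReal |Real.sin (α - (φ (x 0) z).2)| * G (Psi φ z (x, α))
    rw [hPsi, hGp, show α + 2 * π - (φ (x 0) z).2 = α - (φ (x 0) z).2 + 2 * π by ring,
      Real.sin_add_two_pi]
  have h4 := fold_St hK hKp (B := fun y => (Psi φ z y).2) (measurable_snd.comp hc.measurable)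
    (fun x α => by
      show (Psi φ z (x, α + 2 * π)).2 = (Psi φ z (x, α)).2 + 2 * π
      rw [hPsi])
  calc ∫⁻ w in M, G w ∂muS g ≤ _ := h1
    _ ≤ _ := h2
    _ = _ := h3
    _ = _ := h4
    _ = _ := scross_tonelli hφ z hG

end PPF
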