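import Pool.Agent.Lib.MP_a4f5e0_gt.SKap

/-!
JOB SLR. The set of lines which meet a ball.

`LR g φ o R = {z | ∃ t, dg o (φ t z).1 ≤ R}`.

* measurable: it is the union over `n : ℕ` of `{z | ∃ t ∈ Icc (-n) n, dg o (φ t z).1 ≤ R}`, and each of these sets is
  closed: projection of the closed set `{(t, z) | t ∈ Icc (-n) n, dg … ≤ R}` along a compact factor
  (sequences: `IsSeqClosed`, `isCompact_Icc.tendsto_subseq`; or `IsCompact` + `isClosedMap_snd_of_compactSpace`).
* `LR_flow`: `φ t (φ s z) = φ (t + s) z`.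
* `LR_per`, `LR_pi`: `IsFlow.add_two_pi`, `IsFlow.add_pi`.
* `Theta` measurable: `Measurable.lintegral_prod_right'`; periodic: in the second variable only through
  `sin (b - w.2)`.
-/

set_option autoImplicit false

open MeasureTheory Set Filter Topology Real

noncomputable section

namespace PPF

variable {g : E → E →L[ℝ] E →L[ℝ] ℝ} {φ : ℝ → St → St}

variable (g φ) in
def LR (o : E) (R : ℝ) : Set St := {z | ∃ t, dg g o (φ t z).1 ≤ R}

theorem LR_measurable (hg : Met g) (hφ : IsFlow g φ) (o : E) (R : ℝ) :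
    MeasurableSet (LR g φ o R) := by
  have h1 : LR g φ o R = ⋃ n : ℕ, Prod.snd '' {p : (Icc (-(n : ℝ)) (n : ℝ)) × St |
      dg g o (φ (p.1 : ℝ) p.2).1 ≤ R} := by
    ext z
    rw [mem_iUnion]
    constructor
    · rintro ⟨t, ht⟩
      obtain ⟨n, hn⟩ := exists_nat_ge |t|
      exact ⟨n, (⟨t, abs_le.1 hn⟩, z), ht, rfl⟩
    · rintro ⟨n, ⟨⟨t, _⟩, z'⟩, ht, rfl⟩
      exact ⟨t, ht⟩
  rw [h1]
  refine MeasurableSet.iUnion fun n => ?_
  have h2 : Continuous (fun p : (Icc (-(n : ℝ)) (n : ℝ)) × St => ((p.1 : ℝ), p.2)) :=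
    (continuous_subtype_val.comp continuous_fst).prodMk continuous_snd
  have h3 : Continuous (fun p : (Icc (-(n : ℝ)) (n : ℝ)) × St => dg g o (φ (p.1 : ℝ) p.2).1) :=
    (continuous_r hg hφ o).comp h2
  have h4 : IsClosed {p : (Icc (-(n : ℝ)) (n : ℝ)) × St | dg g o (φ (p.1 : ℝ) p.2).1 ≤ R} :=
    isClosed_le h3 continuous_const
  exact (isClosedMap_snd_of_compactSpace _ h4).measurableSet

theorem LR_flow (hg : Met g) (hφ : IsFlow g φ) (o : E) (R : ℝ) (s : ℝ) (z : St) :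
    φ s z ∈ LR g φ o R ↔ z ∈ LR g φ o R := by
  simp only [LR, mem_ofPred_eq]
  constructor
  · rintro ⟨t, ht⟩
    refine ⟨t + s, ?_⟩
    rw [IsFlow.add hg hφ]
    exact ht
  · rintro ⟨t, ht⟩
    refine ⟨t - s, ?_⟩
    rw [← IsFlow.add hg hφ, sub_add_cancel]
    exact ht

theorem LR_per (hg : Met g) (hφ : IsFlow g φ) (o : E) (R : ℝ) (x : E) (α : ℝ) :
    (x, α + 2 * π) ∈ LR g φ o R ↔ (x, α) ∈ LR g φ o R := by
  simp only [LR, mem_ofPred_eq, IsFlow.add_two_pi hg hφ]

theorem LR_pi (hg : Met g) (hφ : IsFlow g φ) (o : E) (R : ℝ) (x : E) (α : ℝ) :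
    (x, α + π) ∈ LR g φ o R ↔ (x, α) ∈ LR g φ o R := by
  simp only [LR, mem_ofPred_eq, IsFlow.add_pi hg hφ]
  constructor
  · rintro ⟨t, ht⟩
    exact ⟨-t, ht⟩
  · rintro ⟨t, ht⟩
    refine ⟨-t, ?_⟩
    rw [neg_neg]
    exact ht

/-- points of the ball: all directions -/
theorem mem_LR_of_le (hφ : IsFlow g φ) {o : E} {R : ℝ} {z : St} (h : dg g o z.1 ≤ R) :
    z ∈ LR g φ o R := by
  refine ⟨0, ?_⟩
  rw [hφ.zero]
  exact h

variable (g φ) in
def Theta (o : E) (R : ℝ) (w : St) : ENNReal :=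
  ∫⁻ b in Ioc 0 (2 * π), (LR g φ o R).indicator (1 : St → ENNReal) (w.1, b) *
    ENNReal.ofReal |Real.sin (b - w.2)|

theorem Theta_measurable (hg : Met g) (hφ : IsFlow g φ) (o : E) (R : ℝ) :
    Measurable (Theta g φ o R) := by
  have h1 : Measurable (fun p : St × ℝ => ((p.1.1, p.2) : St)) :=
    (measurable_fst.comp measurable_fst).prodMk measurable_snd
  have h2 : Measurable (fun p : St × ℝ =>
      (LR g φ o R).indicator (1 : St → ENNReal) (p.1.1, p.2)) :=
    (measurable_one.indicator (LR_measurable hg hφ o R)).comp h1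
  have h3 : Continuous (fun p : St × ℝ => |Real.sin (p.2 - p.1.2)|) := by fun_prop
  have h4 : Measurable (fun p : St × ℝ => ENNReal.ofReal |Real.sin (p.2 - p.1.2)|) :=
    ENNReal.measurable_ofReal.comp h3.measurable
  exact (h2.mul h4).lintegral_prod_right'

theorem Theta_per (o : E) (R : ℝ) : Per (Theta g φ o R) := by
  intro x α
  unfold Theta
  simp only
  have h1 : ∀ b : ℝ, Real.sin (b - (α + 2 * π)) = Real.sin (b - α) := by
    intro b
    rw [← sub_sub, Real.sin_sub_two_pi]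
  simp only [h1]

end PPF
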