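import Pool.Agent.Lib.MP_a4f5e0_gt.SKap

/-!
JOB SSan. Santaló's formula.

`∫ kap z (∫ F(φ t z) dt) dmuS = ∫ ∫ kap z F(φ t z) dmuS dt` (Tonelli `lintegral_lintegral_swap`, `muS_sfinite`)
`= ∫ (∫ kap (φ (-t) z) F z dmuS) dt` (`muS_invariant` for the periodic function `w ↦ kap (φ (-t) w) * F w`,
`φ (-t) (φ t z) = z`: `IsFlow.neg_left`) `= ∫ F z (∫ kap (φ (-t) z) dt) dmuS` (Tonelli) `= ∫ F z dmuS` (`kap_int`, reflection
`lintegral_neg_eq_self`/`integral_comp_neg`, e.g. `(Measure.measurePreserving_neg volume).lintegral_comp`).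
Joint measurability: `(t, z) ↦ φ t z` is continuous.
-/

set_option autoImplicit false

open MeasureTheory Set Filter Topology Real

noncomputable section

namespace PPF

variable {g : E → E →L[ℝ] E →L[ℝ] ℝ} {φ : ℝ → St → St}

theorem ssan_meas (hφ : IsFlow g φ) : Measurable (fun p : St × ℝ => φ p.2 p.1) := by
  have h1 : Continuous (fun p : St × ℝ => ((p.2, p.1) : ℝ × St)) :=
    continuous_snd.prodMk continuous_fst
  exact (hφ.continuous.comp h1).measurable

theorem ssan_meas' (hφ : IsFlow g φ) : Measurable (fun p : ℝ × St => φ (-p.1) p.2) := by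
  have h1 : Continuous (fun p : ℝ × St => ((-p.1, p.2) : ℝ × St)) :=
    continuous_fst.neg.prodMk continuous_snd
  exact (hφ.continuous.comp h1).measurable

theorem ssan_meas1 (hφ : IsFlow g φ) (z : St) : Measurable (fun t : ℝ => φ t z) := by
  have h1 : Continuous (fun t : ℝ => ((t, z) : ℝ × St)) :=
    continuous_id.prodMk continuous_const
  exact (hφ.continuous.comp h1).measurable

theorem santalo (hg : Met g) (hφ : IsFlow g φ)
    (hmin : ∀ z s t, dg g (φ s z).1 (φ t z).1 = |s - t|) (o : E)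
    {F : St → ENNReal} (hF : Measurable F) (hP : Per F) :
    ∫⁻ z, kap g φ o z * (∫⁻ t, F (φ t z)) ∂muS g = ∫⁻ z, F z ∂muS g := by
  have hs := muS_sfinite g
  have hk := kap_measurable hg hφ o
  have hm1 : Measurable (fun p : St × ℝ => kap g φ o p.1 * F (φ p.2 p.1)) :=
    (hk.comp measurable_fst).mul (hF.comp (ssan_meas hφ))
  have hm2 : Measurable (fun p : ℝ × St => kap g φ o (φ (-p.1) p.2) * F p.2) :=
    (hk.comp (ssan_meas' hφ)).mul (hF.comp measurable_snd)
  have e1 : ∀ z, kap g φ o z * (∫⁻ t, F (φ t z)) = ∫⁻ t, kap g φ o z * F (φ t z) := by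
    intro z
    have h5 : Measurable (fun t : ℝ => F (φ t z)) := hF.comp (ssan_meas1 hφ z)
    rw [lintegral_const_mul _ h5]
  simp only [e1]
  rw [lintegral_lintegral_swap hm1.aemeasurable]
  have e2 : ∀ t : ℝ, ∫⁻ z, kap g φ o z * F (φ t z) ∂muS g =
      ∫⁻ z, kap g φ o (φ (-t) z) * F z ∂muS g := by
    intro t
    have h1 : Measurable (fun z : St => kap g φ o (φ (-t) z) * F z) :=
      (hk.comp (measurable_flow hφ (-t))).mul hF
    have h2 : Per (fun z : St => kap g φ o (φ (-t) z) * F z) := by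
      intro x α
      show kap g φ o (φ (-t) (x, α + 2 * π)) * F (x, α + 2 * π) =
        kap g φ o (φ (-t) (x, α)) * F (x, α)
      rw [IsFlow.add_two_pi hg hφ, kap_per hg hφ, hP]
    rw [← muS_invariant hg hφ h1 h2 t]
    refine lintegral_congr fun z => ?_
    rw [IsFlow.neg_left hg hφ]
  simp only [e2]
  rw [lintegral_lintegral_swap hm2.aemeasurable]
  refine lintegral_congr fun z => ?_
  have h3 : Measurable (fun t : ℝ => kap g φ o (φ (-t) z)) :=
    hk.comp ((ssan_meas1 hφ z).comp measurable_neg)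
  rw [lintegral_mul_const _ h3]
  have h4 : ∫⁻ t : ℝ, kap g φ o (φ (-t) z) = ∫⁻ t : ℝ, kap g φ o (φ t z) :=
    lintegral_neg_eq_self (μ := volume) (fun t : ℝ => kap g φ o (φ t z))
  rw [h4, kap_int hg hφ hmin, one_mul]

/-- the version restricted to an invariant set -/
theorem santalo_set (hg : Met g) (hφ : IsFlow g φ)
    (hmin : ∀ z s t, dg g (φ s z).1 (φ t z).1 = |s - t|) (o : E)
    {F : St → ENNReal} (hF : Measurable F) (hP : Per F) {L : Set St} (hL : MeasurableSet L)
    (hLp : ∀ x α, (x, α + 2 * π) ∈ L ↔ (x, α) ∈ L) (hLf : ∀ t z, φ t z ∈ L ↔ z ∈ L) :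
    ∫⁻ z in L, kap g φ o z * (∫⁻ t, F (φ t z)) ∂muS g = ∫⁻ z in L, F z ∂muS g := by
  have hF' : Measurable (L.indicator F) := hF.indicator hL
  have hP' : Per (L.indicator F) := by
    intro x α
    by_cases h : (x, α) ∈ L
    · rw [indicator_of_mem ((hLp x α).2 h), indicator_of_mem h, hP]
    · rw [indicator_of_notMem (fun h' => h ((hLp x α).1 h')), indicator_of_notMem h]
  rw [← lintegral_indicator hL, ← lintegral_indicator hL, ← santalo hg hφ hmin o hF' hP']
  refine lintegral_congr fun z => ?_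
  by_cases h : z ∈ L
  · rw [indicator_of_mem h]
    congr 1
    refine lintegral_congr fun t => ?_
    rw [indicator_of_mem ((hLf t z).2 h)]
  · rw [indicator_of_notMem h]
    have h1 : ∀ t, L.indicator F (φ t z) = 0 := fun t =>
      indicator_of_notMem (fun h' => h ((hLf t z).1 h')) _
    simp only [h1, lintegral_zero, mul_zero]

end PPF
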