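import Pool.Agent.Lib.MP_a4f5e0_gt.K
import Pool.Agent.Lib.MP_a4f5e0_gt.SSan
import Pool.Agent.Lib.MP_a4f5e0_gt.SCross
import Pool.Agent.Lib.MP_a4f5e0_gt.SLR

/-!
JOB SPair. The pair inequality `N(R)² ≤ 8 ∫_{LR} (1 - C²)`.

* `pair_one`: `cross_le` for `G w = kap w * 1_{LR} w`. Left side: `∫_{M} G dmuS = ∫ G dmuS` as the complement of
  `M = {w | line w meets line z}` is null (`hnull`), `= ∫_{LR} kap`. Right side: for fixed `t, b` the inner integral is
  `∫ kap (φ s w) 1_{LR}(φ s w) ds = 1_{LR} w` by `LR_flow`, `kap_int` (`w = ((φ t z).1, b)`).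
* `pair_two`: multiply `pair_one` by `kap z` and integrate over `z ∈ LR`: `N * N ≤ ∫_{LR} kap z ∫ Theta (φ t z) dt dmuS`,
  `santalo_set` for `F = Theta` (`Theta_measurable`, `Theta_per`, `LR_per`, `LR_flow`).
* `pair_ineq`: write `∫_{LR} Theta dmuS` with `muS_iter` as `∫_x ∫_{a ∈ Ioc} ofReal(dt x) 1_{LR}(x,a) Theta(x,a)`; for
  almost every `x` let `H = {a | (x, a) ∈ LR}` (measurable, `π`-periodic by `LR_pi`); `kernel_set` (K.lean) with the `c = a0` of
  `hC` bounds the inner integral by `8 ofReal (dt x) ∫_{a ∈ Ioc} 1_H a * ofReal (sin (a - a0)^2)` and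
  `sin (a - a0)^2 = 1 - C (x, a)^2` (`sin_sq`, also `|sin (a - b)| = |sin (b - a)|`). Reassemble with `muS_iter`.
* `pair_final`: `santalo_set` for `F z = ofReal (1 - C z ^ 2)` gives the last form.
-/

set_option autoImplicit false

open MeasureTheory Set Filter Topology Real

noncomputable section

namespace PPF

variable {g : E → E →L[ℝ] E →L[ℝ] ℝ} {φ : ℝ → St → St}

theorem spair_ind (hg : Met g) (hφ : IsFlow g φ) (o : E) (R : ℝ) (s : ℝ) (w : St) :
    (LR g φ o R).indicator (kap g φ o) (φ s w) =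
      (LR g φ o R).indicator (1 : St → ENNReal) w * kap g φ o (φ s w) := by
  by_cases hw : w ∈ LR g φ o R
  · rw [indicator_of_mem hw, indicator_of_mem ((LR_flow hg hφ o R s w).2 hw), Pi.one_apply, one_mul]
  · rw [indicator_of_notMem hw,
      indicator_of_notMem (fun h => hw ((LR_flow hg hφ o R s w).1 h)), zero_mul]

theorem spair_per {X : Type*} [Zero X] (hg : Met g) (hφ : IsFlow g φ) (o : E) (R : ℝ) {F : St → X}
    (hF : Per F) : Per ((LR g φ o R).indicator F) := by
  intro x α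
  by_cases hw : (x, α) ∈ LR g φ o R
  · rw [indicator_of_mem hw, indicator_of_mem ((LR_per hg hφ o R x α).2 hw), hF]
  · rw [indicator_of_notMem hw,
      indicator_of_notMem (fun h => hw ((LR_per hg hφ o R x α).1 h))]

theorem pair_one (hg : Met g) (hφ : IsFlow g φ)
    (hmin : ∀ z s t, dg g (φ s z).1 (φ t z).1 = |s - t|) (o : E) (R : ℝ) (z : St)
    (hM : MeasurableSet {w : St | (line φ w ∩ line φ z).Nonempty})
    (hnull : muS g {w : St | ¬ (line φ w ∩ line φ z).Nonempty} = 0) :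
    ∫⁻ w in LR g φ o R, kap g φ o w ∂muS g ≤ ∫⁻ t : ℝ, Theta g φ o R (φ t z) := by
  have hLm := LR_measurable hg hφ o R
  have hkm := kap_measurable hg hφ o
  have hG : Measurable ((LR g φ o R).indicator (kap g φ o)) := hkm.indicator hLm
  have hae : ∀ᵐ w ∂(muS g), w ∈ {w : St | (line φ w ∩ line φ z).Nonempty} := by
    rw [ae_iff]
    exact hnull
  have h1 : ∫⁻ w in LR g φ o R, kap g φ o w ∂muS g =
      ∫⁻ w in {w : St | (line φ w ∩ line φ z).Nonempty},
        (LR g φ o R).indicator (kap g φ o) w ∂muS g := by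
    rw [Measure.restrict_eq_self_of_ae_mem hae, lintegral_indicator hLm]
  rw [h1]
  refine (cross_le hg hφ z hM hG (spair_per hg hφ o R (kap_per hg hφ o))).trans (le_of_eq ?_)
  refine lintegral_congr fun t => ?_
  show _ = ∫⁻ b in Ioc 0 (2 * π), (LR g φ o R).indicator (1 : St → ENNReal) ((φ t z).1, b) *
    ENNReal.ofReal |Real.sin (b - (φ t z).2)|
  refine lintegral_congr fun b => ?_
  have h2 : ∫⁻ s : ℝ, (LR g φ o R).indicator (kap g φ o) (φ s ((φ t z).1, b)) =
      (LR g φ o R).indicator (1 : St → ENNReal) ((φ t z).1, b) := by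
    rw [lintegral_congr (fun s => spair_ind hg hφ o R s ((φ t z).1, b)), lintegral_const_mul,
      kap_int hg hφ hmin, mul_one]
    apply hkm.comp
    apply Continuous.measurable
    exact hφ.continuous.comp (continuous_id.prodMk continuous_const)
  rw [h2, mul_comm]

theorem pair_two (hg : Met g) (hφ : IsFlow g φ)
    (hmin : ∀ z s t, dg g (φ s z).1 (φ t z).1 = |s - t|) (o : E) (R : ℝ)
    (hM : ∀ z, MeasurableSet {w : St | (line φ w ∩ line φ z).Nonempty})
    (hnull : ∀ z, muS g {w : St | ¬ (line φ w ∩ line φ z).Nonempty} = 0) :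
    (∫⁻ w in LR g φ o R, kap g φ o w ∂muS g) ^ 2 ≤
      ∫⁻ z in LR g φ o R, Theta g φ o R z ∂muS g := by
  rw [sq]
  calc (∫⁻ w in LR g φ o R, kap g φ o w ∂muS g) * (∫⁻ w in LR g φ o R, kap g φ o w ∂muS g)
      = ∫⁻ z in LR g φ o R, kap g φ o z * (∫⁻ w in LR g φ o R, kap g φ o w ∂muS g) ∂muS g := by
        rw [lintegral_mul_const _ (kap_measurable hg hφ o)]
    _ ≤ ∫⁻ z in LR g φ o R, kap g φ o z * (∫⁻ t : ℝ, Theta g φ o R (φ t z)) ∂muS g := by
        refine lintegral_mono fun z => ?_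
        exact mul_le_mul_right (pair_one hg hφ hmin o R z (hM z) (hnull z)) _
    _ = ∫⁻ z in LR g φ o R, Theta g φ o R z ∂muS g :=
        santalo_set hg hφ hmin o (Theta_measurable hg hφ o R) (Theta_per o R)
          (LR_measurable hg hφ o R) (LR_per hg hφ o R) (LR_flow hg hφ o R)

theorem spair_slice (hg : Met g) (hφ : IsFlow g φ) (o : E) (R : ℝ) {C : St → ℝ} {x : E} {a₀ : ℝ}
    (hC : ∀ a, C (x, a) = Real.cos (a - a₀)) :
    ∫⁻ α in Ioc 0 (2 * π), ENNReal.ofReal (dt g x) *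
        (LR g φ o R).indicator (Theta g φ o R) (x, α) ≤
      8 * ∫⁻ α in Ioc 0 (2 * π), ENNReal.ofReal (dt g x) *
        (LR g φ o R).indicator (fun z => ENNReal.ofReal (1 - C z ^ 2)) (x, α) := by
  have hLm := LR_measurable hg hφ o R
  set H : Set ℝ := {a | (x, a) ∈ LR g φ o R} with hH
  have hHm : MeasurableSet H := measurable_prodMk_left hLm
  have hHp : ∀ a, a + π ∈ H ↔ a ∈ H := fun a => LR_pi hg hφ o R x a
  have key := kernel_set hHm hHp a₀
  have hind : ∀ b, (LR g φ o R).indicator (1 : St → ENNReal) (x, b) = H.indicator 1 b := by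
    intro b
    by_cases hb : (x, b) ∈ LR g φ o R
    · rw [indicator_of_mem hb, indicator_of_mem (show b ∈ H from hb)]; rfl
    · rw [indicator_of_notMem hb, indicator_of_notMem (show b ∉ H from hb)]
  have hL : ∫⁻ α in Ioc 0 (2 * π), (LR g φ o R).indicator (Theta g φ o R) (x, α) =
      ∫⁻ a in Ioc 0 (2 * π), ∫⁻ b in Ioc 0 (2 * π),
        H.indicator 1 a * H.indicator 1 b * ENNReal.ofReal |Real.sin (a - b)| := by
    refine lintegral_congr fun a => ?_
    by_cases ha : (x, a) ∈ LR g φ o R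
    · rw [indicator_of_mem ha]
      show ∫⁻ b in Ioc 0 (2 * π), (LR g φ o R).indicator (1 : St → ENNReal) (x, b) *
        ENNReal.ofReal |Real.sin (b - a)| = _
      refine lintegral_congr fun b => ?_
      rw [hind, indicator_of_mem (show a ∈ H from ha), Pi.one_apply, one_mul,
        show a - b = -(b - a) by ring, Real.sin_neg, abs_neg]
    · rw [indicator_of_notMem ha]
      symm
      rw [lintegral_congr (g := fun _ => 0) (fun b => by
        rw [indicator_of_notMem (show a ∉ H from ha), zero_mul, zero_mul]), lintegral_zero]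
  have hR : ∫⁻ α in Ioc 0 (2 * π),
        (LR g φ o R).indicator (fun z => ENNReal.ofReal (1 - C z ^ 2)) (x, α) =
      ∫⁻ a in Ioc 0 (2 * π), H.indicator 1 a * ENNReal.ofReal (Real.sin (a - a₀) ^ 2) := by
    refine lintegral_congr fun a => ?_
    by_cases ha : (x, a) ∈ LR g φ o R
    · rw [indicator_of_mem ha, indicator_of_mem (show a ∈ H from ha), Pi.one_apply, one_mul, hC,
        Real.sin_sq]
    · rw [indicator_of_notMem ha, indicator_of_notMem (show a ∉ H from ha), zero_mul]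
  rw [lintegral_const_mul' _ _ ENNReal.ofReal_ne_top, lintegral_const_mul' _ _ ENNReal.ofReal_ne_top,
    hL, hR, mul_left_comm]
  exact mul_le_mul_right key _

theorem pair_ineq (hg : Met g) (hφ : IsFlow g φ)
    (hmin : ∀ z s t, dg g (φ s z).1 (φ t z).1 = |s - t|) (o : E) (R : ℝ)
    (hM : ∀ z, MeasurableSet {w : St | (line φ w ∩ line φ z).Nonempty})
    (hnull : ∀ z, muS g {w : St | ¬ (line φ w ∩ line φ z).Nonempty} = 0)
    {C : St → ℝ} (hCm : Measurable C)
    (hC : ∀ᵐ x : E, ∃ a₀, ∀ a, C (x, a) = Real.cos (a - a₀)) :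
    (∫⁻ w in LR g φ o R, kap g φ o w ∂muS g) ^ 2 ≤
      8 * ∫⁻ z in LR g φ o R, ENNReal.ofReal (1 - C z ^ 2) ∂muS g := by
  refine (pair_two hg hφ hmin o R hM hnull).trans ?_
  have hLm := LR_measurable hg hφ o R
  have hFm : Measurable (fun z : St => ENNReal.ofReal (1 - C z ^ 2)) :=
    (measurable_const.sub (hCm.pow_const 2)).ennreal_ofReal
  rw [← lintegral_indicator hLm, ← lintegral_indicator hLm,
    muS_iter hg ((Theta_measurable hg hφ o R).indicator hLm), muS_iter hg (hFm.indicator hLm),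
    ← lintegral_const_mul' _ _ (by norm_num : (8 : ENNReal) ≠ ⊤)]
  refine lintegral_mono_ae ?_
  filter_upwards [hC] with x hx
  obtain ⟨a₀, ha₀⟩ := hx
  exact spair_slice hg hφ o R ha₀

theorem pair_final (hg : Met g) (hφ : IsFlow g φ)
    (hmin : ∀ z s t, dg g (φ s z).1 (φ t z).1 = |s - t|) (o : E) (R : ℝ)
    (hM : ∀ z, MeasurableSet {w : St | (line φ w ∩ line φ z).Nonempty})
    (hnull : ∀ z, muS g {w : St | ¬ (line φ w ∩ line φ z).Nonempty} = 0)
    {C : St → ℝ} (hCm : Measurable C) (hCp : Per C)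
    (hC : ∀ᵐ x : E, ∃ a₀, ∀ a, C (x, a) = Real.cos (a - a₀)) :
    (∫⁻ w in LR g φ o R, kap g φ o w ∂muS g) ^ 2 ≤
      8 * ∫⁻ z in LR g φ o R, kap g φ o z *
        (∫⁻ t, ENNReal.ofReal (1 - C (φ t z) ^ 2)) ∂muS g := by
  have hFm : Measurable (fun z : St => ENNReal.ofReal (1 - C z ^ 2)) :=
    (measurable_const.sub (hCm.pow_const 2)).ennreal_ofReal
  have hFp : Per (fun z : St => ENNReal.ofReal (1 - C z ^ 2)) := by
    intro x α
    show ENNReal.ofReal (1 - C (x, α + 2 * π) ^ 2) = ENNReal.ofReal (1 - C (x, α) ^ 2)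
    rw [hCp]
  have h1 := santalo_set hg hφ hmin o hFm hFp (LR_measurable hg hφ o R) (LR_per hg hφ o R)
    (LR_flow hg hφ o R)
  rw [h1]
  exact pair_ineq hg hφ hmin o R hM hnull hCm hC

end PPF
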