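import Pool.Agent.Lib.MP_a4f5e0_gt.Defs

/-!
JOB T6. Lifting a line field on the plane (pure topology).

`F ⊆ E × ℝ` is closed and its fibre over every `x` is a coset `α + πℤ`. Then there is a continuous
`A : E → ℝ` with `(x, A x) ∈ F` for all `x`.

Proof. Let `q x : AddCircle π` be the class of any element of the fibre. Its graph
`{(x, [β]) | (x, β) ∈ F}` is closed in `E × AddCircle π`: the map `id × coe : E × ℝ → E × AddCircle π` is an
open surjection and `F` is saturated, so the complement of the graph is the image of the open set `Fᶜ`.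
A function with closed graph into a compact Hausdorff space is continuous (sequences: `x_n → x`,
`q x_n` has a convergent subsequence whose limit must be `q x`; or search `isClosed_graph`,
`IsClosedMap`, `isClosedMap_fst_of_compactSpace`-type lemmas: for closed `K ⊆ AddCircle π`, `q⁻¹ K` is the
projection of the closed set `graph ∩ (E × K)` along a compact factor, hence closed).
`(↑) : ℝ → AddCircle π` is a covering map (`AddCircle.isCoveringMap_coe`, file
Mathlib/Topology/Covering/AddCircle.lean), `E` is simply connected and locally path connected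
(contractible real vector space), so `q` lifts: `IsCoveringMap.existsUnique_continuousMap_lifts`
(Mathlib/Topology/Homotopy/Lifting.lean).

`const_of_int_pi`: a continuous function `ℝ → ℝ` with values in `πℤ` vanishing at `0` vanishes: its range is
connected and contained in the discrete set `πℤ` (or: IVT).
-/

set_option autoImplicit false

open MeasureTheory Set Filter Topology Real Metric

noncomputable section

namespace PPF

theorem exists_lift {F : Set (E × ℝ)} (hF : IsClosed F)
    (hf : ∀ x, ∃ α, ∀ β, (x, β) ∈ F ↔ ∃ k : ℤ, β = α + k * π) :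
    ∃ A : E → ℝ, Continuous A ∧ ∀ x, (x, A x) ∈ F := by
  have : Fact (0 < π) := ⟨Real.pi_pos⟩
  choose a ha using hf
  have hmem : ∀ x β, (x, β) ∈ F ↔ ((β : ℝ) : AddCircle π) = (a x : AddCircle π) := by
    intro x β
    rw [ha x β, QuotientAddGroup.eq, AddSubgroup.mem_zmultiples_iff]
    constructor
    · rintro ⟨k, rfl⟩
      refine ⟨-k, ?_⟩
      simp only [zsmul_eq_mul, Int.cast_neg]
      ring
    · rintro ⟨k, hk⟩
      refine ⟨-k, ?_⟩
      simp only [zsmul_eq_mul] at hk
      push_cast
      linarith
  let q : E → AddCircle π := fun x => (a x : AddCircle π)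
  let G : Set (E × AddCircle π) := {y | y.2 = q y.1}
  have hoq : IsOpenQuotientMap (Prod.map (id : E → E) ((↑) : ℝ → AddCircle π)) :=
    IsOpenQuotientMap.id.prodMap QuotientAddGroup.isOpenQuotientMap_mk
  have hG : IsClosed G := by
    rw [← hoq.isQuotientMap.isClosed_preimage]
    convert hF using 1
    ext ⟨x, β⟩
    exact (hmem x β).symm
  have hq : Continuous q := by
    rw [continuous_iff_isClosed]
    intro K hK
    have h1 : q ⁻¹' K = Prod.fst '' (G ∩ (univ ×ˢ K)) := by
      ext x
      constructor
      · intro hx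
        exact ⟨(x, q x), ⟨rfl, mem_univ _, hx⟩, rfl⟩
      · rintro ⟨⟨y, c⟩, ⟨hy, -, hc⟩, rfl⟩
        have hy' : c = q y := hy
        show q y ∈ K
        rw [← hy']
        exact hc
    rw [h1]
    exact isClosedMap_fst_of_compactSpace _ (hG.inter (isClosed_univ.prod hK))
  obtain ⟨A, ⟨-, hA⟩, -⟩ := (AddCircle.isCoveringMap_coe π).existsUnique_continuousMap_lifts
    (⟨q, hq⟩ : C(E, AddCircle π)) 0 (a 0) rfl
  refine ⟨A, A.continuous, fun x => ?_⟩
  rw [hmem]
  exact congrFun hA x

theorem const_of_int_pi {f : ℝ → ℝ} (hf : Continuous f) (h : ∀ t, ∃ k : ℤ, f t = k * π)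
    (h0 : f 0 = 0) (t : ℝ) : f t = 0 := by
  have hpi := Real.pi_pos
  by_contra hne
  obtain ⟨k, hk⟩ := h t
  have hk0 : k ≠ 0 := by
    rintro rfl
    apply hne
    rw [hk]
    simp
  have key : ∀ c ∈ uIcc (f 0) (f t), ∃ k : ℤ, c = k * π := by
    intro c hc
    obtain ⟨s, -, hs⟩ := intermediate_value_uIcc hf.continuousOn hc
    obtain ⟨m, hm⟩ := h s
    exact ⟨m, by rw [← hs, hm]⟩
  rw [h0, hk] at key
  rcases lt_or_gt_of_ne hk0 with hneg | hpos
  · have h1 : (k : ℝ) ≤ -1 := by exact_mod_cast Int.le_sub_one_of_lt hneg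
    obtain ⟨m, hm⟩ := key (-(π / 2)) (by
      rw [mem_uIcc]
      right
      constructor <;> nlinarith)
    have h2 : (m : ℝ) * 2 = -1 := by
      have h3 : π * ((m : ℝ) * 2 + 1) = 0 := by linarith
      rcases mul_eq_zero.1 h3 with h4 | h4
      · exact absurd h4 hpi.ne'
      · linarith
    have h3 : m * 2 = -1 := by exact_mod_cast h2
    omega
  · have h1 : (1 : ℝ) ≤ k := by exact_mod_cast hpos
    obtain ⟨m, hm⟩ := key (π / 2) (by
      rw [mem_uIcc]
      left
      constructor <;> nlinarith)
    have h2 : (m : ℝ) * 2 = 1 := by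
      have h3 : π * ((m : ℝ) * 2 - 1) = 0 := by linarith
      rcases mul_eq_zero.1 h3 with h4 | h4
      · exact absurd h4 hpi.ne'
      · linarith
    have h3 : m * 2 = 1 := by exact_mod_cast h2
    omega

end PPF
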