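import Pool.Agent.Lib.MP_a4f5e0_gt.IfL

/-!
JOB T8. A continuous invariant direction field is locally Lipschitz.

`A : E → ℝ` is continuous and its graph is invariant: the angle of `φ t (x, A x)` is `A` of its point.
(So two leaves which meet have the same direction at the common point.)

Proof. Fix `x₀`, `z₀ = (x₀, A x₀)`, and take `δ, ε, Cc, S, B` (called `S, A` there) from `local_foliation`
at `z₀`. For `x` near `x₀` put `z = (x, A x) ∈ ball z₀ ε`; `S z x = 0`, `B z x = A x` (item with `t = 0`).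
For `y` near `x₀` let `c t = (φ t (y, A y)).1`, `β t = (φ t (y, A y)).2 = A (c t)`; for `|t| < ε` the point
`c t` is in `ball x₀ δ` (the same item for the state `(y, A y)`). `B z`, `S z` are `Cc`-Lipschitz on the ball
(convex, mean value). Choose `τ ∈ (0, ε)` and `ρ > 0` such that for `x, y ∈ ball x₀ ρ` and `|t| ≤ τ`
`|A (c t) - A x| + Cc ‖c t - x‖ ≤ 1` (continuity of `A` at `x₀`, of the flow), so
`η t := β t - B z (c t)` satisfies `|η t| ≤ 1` on `[-τ, τ]`.
* `η' = an(c, β) - DB[u(c, β)]` and `an(c, B) = DB[u(c, B)]`, so `|η'| ≤ L |η|` where `L` comes from Lipschitz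
  constants of `an g (x, ·)`, `u g (x, ·)` (uniform for `x` in the closed ball and bounded angles) and `Cc`.
  Gronwall: `|η 0| ≤ |η t| e^{L|t|}`; so if `η 0 ≠ 0`, `η` has constant sign on `[-τ, τ]` and
  `|η t| ≥ e^{-Lτ} |η 0|`.
* `D t := S z (c t)`: `D' = DS[u(c, β)] = sin η · DS[u(c, B + π/2)]` by `u_rot` (`DS[u(c, B)] = 0`), and
  `DS[u(c, B+π/2)] ≥ 1/Cc`; `|sin η| ≥ |η|/2` for `|η| ≤ 1`. So, if `η 0 > 0`,
  `D' ≥ κ |η 0|` on `[-τ, τ]` with `κ = e^{-Lτ}/(2 Cc)` (if `η 0 < 0`: `D' ≤ -κ |η 0|`).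
* If `|D 0| < κ τ |η 0|`, then `D` changes sign on `[-τ, τ]`: `D t* = 0`, so by the last item of
  `local_foliation` `φ t'' z = (c t*, B z (c t*))` for some `t''`; by invariance
  `B z (c t*) = A (c t*) = β t*`, so `η t* = 0`, a contradiction. Hence
  `|η 0| ≤ |D 0|/(κτ) = |S z y - S z x|/(κτ) ≤ Cc ‖y - x‖/(κτ)`.
* `|A y - A x| ≤ |η 0| + |B z y - B z x| ≤ C' ‖y - x‖` for `x, y ∈ ball x₀ ρ`.
-/

set_option autoImplicit false

open MeasureTheory Set Filter Topology Real Metric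

noncomputable section

namespace PPF

/-- lower bound of Gronwall type, to the right -/
theorem t8_gron_right {η η' : ℝ → ℝ} {τ L : ℝ} (hL : 0 ≤ L)
    (hd : ∀ t ∈ Icc 0 τ, HasDerivAt η (η' t) t) (hb : ∀ t ∈ Icc 0 τ, |η' t| ≤ L * |η t|) :
    ∀ t ∈ Icc 0 τ, |η 0| * Real.exp (-(L * τ)) ≤ |η t| := by
  intro t ht
  have hτ : 0 ≤ τ := ht.1.trans ht.2
  have hf : ∀ s ∈ Icc 0 τ, HasDerivAt (fun s => η s ^ 2 * Real.exp (2 * L * s))
      ((2 * η s * η' s) * Real.exp (2 * L * s) + η s ^ 2 * (Real.exp (2 * L * s) * (2 * L))) s := by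
    intro s hs
    have h1 : HasDerivAt (fun s => η s ^ 2) (2 * η s * η' s) s := by
      have h := (hd s hs).pow 2
      have e : ((2 : ℕ) : ℝ) * η s ^ (2 - 1) * η' s = 2 * η s * η' s := by norm_num
      rw [e] at h
      exact h
    have h2 : HasDerivAt (fun s : ℝ => 2 * L * s) (2 * L) s := by
      simpa using (hasDerivAt_id s).const_mul (2 * L)
    exact h1.mul h2.exp
  have hmono : MonotoneOn (fun s => η s ^ 2 * Real.exp (2 * L * s)) (Icc 0 τ) := by
    apply monotoneOn_of_deriv_nonneg (convex_Icc 0 τ)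
    · intro s hs
      exact (hf s hs).continuousAt.continuousWithinAt
    · intro s hs
      exact (hf s (interior_subset hs)).differentiableAt.differentiableWithinAt
    · intro s hs
      rw [(hf s (interior_subset hs)).deriv]
      have h1 := hb s (interior_subset hs)
      have h2 : -(L * η s ^ 2) ≤ η s * η' s := by
        have h3 : |η s * η' s| ≤ L * η s ^ 2 := by
          rw [abs_mul, ← sq_abs (η s)]
          calc |η s| * |η' s| ≤ |η s| * (L * |η s|) :=
                mul_le_mul_of_nonneg_left h1 (abs_nonneg _)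
            _ = L * |η s| ^ 2 := by ring
        linarith [(abs_le.1 h3).1]
      have h4 : 0 < Real.exp (2 * L * s) := Real.exp_pos _
      have h5 : (2 * η s * η' s) * Real.exp (2 * L * s) +
          η s ^ 2 * (Real.exp (2 * L * s) * (2 * L)) =
          2 * Real.exp (2 * L * s) * (η s * η' s + L * η s ^ 2) := by ring
      rw [h5]
      apply mul_nonneg (by positivity)
      linarith
  have h6 := hmono ⟨le_refl 0, hτ⟩ ht ht.1
  simp only [mul_zero, Real.exp_zero, mul_one] at h6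
  have h7 : (|η 0| * Real.exp (-(L * τ))) ^ 2 ≤ |η t| ^ 2 := by
    rw [mul_pow, sq_abs, sq_abs, ← Real.exp_nat_mul]
    have h8 : Real.exp (2 * L * t) ≤ Real.exp (2 * L * τ) :=
      Real.exp_le_exp.2 (mul_le_mul_of_nonneg_left ht.2 (by positivity))
    have h9 : η 0 ^ 2 ≤ η t ^ 2 * Real.exp (2 * L * τ) :=
      h6.trans (mul_le_mul_of_nonneg_left h8 (sq_nonneg _))
    calc η 0 ^ 2 * Real.exp ((2 : ℕ) * -(L * τ))
        ≤ η t ^ 2 * Real.exp (2 * L * τ) * Real.exp ((2 : ℕ) * -(L * τ)) :=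
          mul_le_mul_of_nonneg_right h9 (Real.exp_pos _).le
      _ = η t ^ 2 := by
          rw [mul_assoc, ← Real.exp_add]
          have : 2 * L * τ + (2 : ℕ) * -(L * τ) = 0 := by push_cast; ring
          rw [this, Real.exp_zero, mul_one]
  exact (pow_le_pow_iff_left₀ (by positivity) (abs_nonneg _) (by norm_num)).1 h7

theorem t8_gron {η η' : ℝ → ℝ} {τ L : ℝ} (hL : 0 ≤ L)
    (hd : ∀ t ∈ Icc (-τ) τ, HasDerivAt η (η' t) t)
    (hb : ∀ t ∈ Icc (-τ) τ, |η' t| ≤ L * |η t|) :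
    ∀ t ∈ Icc (-τ) τ, |η 0| * Real.exp (-(L * τ)) ≤ |η t| := by
  intro t ht
  rcases le_total 0 t with h0 | h0
  · exact t8_gron_right hL (fun s hs => hd s ⟨by linarith [hs.1, hs.2], hs.2⟩)
      (fun s hs => hb s ⟨by linarith [hs.1, hs.2], hs.2⟩) t ⟨h0, ht.2⟩
  · have h1 := t8_gron_right (η := fun s => η (-s)) (η' := fun s => - η' (-s)) (τ := τ) hL
      (fun s hs => by
        have := (hd (-s) ⟨by linarith [hs.2], by linarith [hs.1, hs.2]⟩).scomp s (hasDerivAt_neg s)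
        rw [neg_one_smul] at this
        exact this)
      (fun s hs => by
        rw [abs_neg]
        exact hb (-s) ⟨by linarith [hs.2], by linarith [hs.1, hs.2]⟩)
      (-t) ⟨by linarith, by linarith [ht.1]⟩
    simpa using h1

theorem t8_zero_pos {η η' D D' : ℝ → ℝ} {τ L κ : ℝ} (hτ : 0 < τ) (hL : 0 ≤ L) (hκ : 0 < κ)
    (hη : ∀ t ∈ Icc (-τ) τ, HasDerivAt η (η' t) t)
    (hb : ∀ t ∈ Icc (-τ) τ, |η' t| ≤ L * |η t|) (h1 : ∀ t ∈ Icc (-τ) τ, |η t| ≤ 1)
    (hD : ∀ t ∈ Icc (-τ) τ, HasDerivAt D (D' t) t)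
    (hD' : ∀ t ∈ Icc (-τ) τ, ∃ s, κ ≤ s ∧ D' t = sin (η t) * s)
    (hz : ∀ t ∈ Icc (-τ) τ, D t = 0 → η t = 0) (hpos : 0 < η 0) :
    |η 0| * (Real.exp (-(L * τ)) * κ / 2 * τ) ≤ |D 0| := by
  by_contra hcon
  push Not at hcon
  have hg := t8_gron hL hη hb
  have h0 : (0 : ℝ) ∈ Icc (-τ) τ := ⟨by linarith, hτ.le⟩
  set m := |η 0| * Real.exp (-(L * τ)) with hm
  have hmpos : 0 < m := mul_pos (abs_pos.2 hpos.ne') (Real.exp_pos _)
  have hηc : ContinuousOn η (Icc (-τ) τ) := fun t ht => (hη t ht).continuousAt.continuousWithinAt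
  have hηpos : ∀ t ∈ Icc (-τ) τ, 0 < η t := by
    intro t ht
    by_contra hneg
    push Not at hneg
    have hsub : uIcc 0 t ⊆ Icc (-τ) τ := by
      rw [← uIcc_of_le (show -τ ≤ τ by linarith)]
      apply uIcc_subset_uIcc
      · rwa [uIcc_of_le (show -τ ≤ τ by linarith)]
      · rwa [uIcc_of_le (show -τ ≤ τ by linarith)]
    obtain ⟨s, hs, hs0⟩ := intermediate_value_uIcc (hηc.mono hsub)
      (show (0 : ℝ) ∈ uIcc (η 0) (η t) from by
        rw [uIcc_of_ge (by linarith)]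
        exact ⟨hneg, hpos.le⟩)
    have h2 := hg s (hsub hs)
    rw [hs0, abs_zero] at h2
    linarith
  have hDc : ContinuousOn D (Icc (-τ) τ) := fun t ht => (hD t ht).continuousAt.continuousWithinAt
  have hderiv : ∀ t ∈ interior (Icc (-τ) τ), m * κ / 2 ≤ deriv D t := by
    intro t ht
    have ht' := interior_subset ht
    rw [(hD t ht').deriv]
    obtain ⟨s, hs, he⟩ := hD' t ht'
    rw [he]
    have h2 := hηpos t ht'
    have h3 : η t ≤ 1 := (le_abs_self _).trans (h1 t ht')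
    have h4 : η t / 2 ≤ sin (η t) := by
      have h5 := Real.mul_le_sin h2.le (h3.trans (by linarith [Real.pi_gt_three]))
      have h6 : (1 : ℝ) / 2 ≤ 2 / π := by
        rw [div_le_div_iff₀ (by norm_num) Real.pi_pos]
        linarith [Real.pi_le_four]
      nlinarith
    have h7 := hg t ht'
    rw [abs_of_pos h2] at h7
    calc m * κ / 2 ≤ (η t / 2) * κ := by nlinarith
      _ ≤ sin (η t) * s := mul_le_mul h4 hs hκ.le (by linarith)
  have hconv := (convex_Icc (-τ) τ).mul_sub_le_image_sub_of_le_deriv hDc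
    (fun t ht => (hD t (interior_subset ht)).differentiableAt.differentiableWithinAt) hderiv
  have e1 := hconv 0 h0 τ ⟨by linarith, le_refl _⟩ hτ.le
  have e2 := hconv (-τ) ⟨le_refl _, by linarith⟩ 0 h0 (by linarith)
  have hc2 : |D 0| < m * κ / 2 * τ := by
    calc |D 0| < |η 0| * (Real.exp (-(L * τ)) * κ / 2 * τ) := hcon
      _ = m * κ / 2 * τ := by rw [hm]; ring
  have h8 := abs_lt.1 hc2
  have h9 : (0 : ℝ) ∈ Icc (D (-τ)) (D τ) := ⟨by linarith [h8.2], by linarith [h8.1]⟩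
  obtain ⟨s, hs, hs0⟩ := intermediate_value_Icc (show -τ ≤ τ by linarith) hDc h9
  have := hηpos s hs
  rw [hz s hs hs0] at this
  exact lt_irrefl _ this

theorem t8_zero {η η' D D' : ℝ → ℝ} {τ L κ : ℝ} (hτ : 0 < τ) (hL : 0 ≤ L) (hκ : 0 < κ)
    (hη : ∀ t ∈ Icc (-τ) τ, HasDerivAt η (η' t) t)
    (hb : ∀ t ∈ Icc (-τ) τ, |η' t| ≤ L * |η t|) (h1 : ∀ t ∈ Icc (-τ) τ, |η t| ≤ 1)
    (hD : ∀ t ∈ Icc (-τ) τ, HasDerivAt D (D' t) t)
    (hD' : ∀ t ∈ Icc (-τ) τ, ∃ s, κ ≤ s ∧ D' t = sin (η t) * s)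
    (hz : ∀ t ∈ Icc (-τ) τ, D t = 0 → η t = 0) :
    |η 0| * (Real.exp (-(L * τ)) * κ / 2 * τ) ≤ |D 0| := by
  rcases lt_trichotomy (η 0) 0 with h | h | h
  · have := t8_zero_pos (η := fun t => - η t) (η' := fun t => - η' t) (D := fun t => - D t)
      (D' := fun t => - D' t) hτ hL hκ (fun t ht => (hη t ht).neg)
      (fun t ht => by rw [abs_neg, abs_neg]; exact hb t ht)
      (fun t ht => by rw [abs_neg]; exact h1 t ht) (fun t ht => (hD t ht).neg)
      (fun t ht => by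
        obtain ⟨s, hs, he⟩ := hD' t ht
        exact ⟨s, hs, by rw [he, Real.sin_neg]; ring⟩)
      (fun t ht h0 => by
        have : D t = 0 := by linarith
        rw [hz t ht this, neg_zero]) (by linarith)
    simpa using this
  · rw [h, abs_zero, zero_mul]
    exact abs_nonneg _
  · exact t8_zero_pos hτ hL hκ hη hb h1 hD hD' hz h

variable {g : E → E →L[ℝ] E →L[ℝ] ℝ} {φ : ℝ → St → St}

theorem locLip_of_inv (hg : Met g) (hφ : IsFlow g φ) {A : E → ℝ} (hA : Continuous A)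
    (hinv : ∀ x t, (φ t (x, A x)).2 = A (φ t (x, A x)).1) : LocallyLipschitz A := by
  intro x₀
  set z₀ : St := (x₀, A x₀) with hz₀
  obtain ⟨δ, hδ, ε, hε, Cc, hCc, S, B, hF⟩ := local_foliation hg hφ z₀
  have hw : Continuous (fun y : E => ((y, A y) : St)) := continuous_id.prodMk hA
  -- the curves
  have hΦ : Continuous (fun q : ℝ × E => (φ q.1 (q.2, A q.2)).1) :=
    continuous_fst.comp (hφ.continuous.comp (continuous_fst.prodMk (hw.comp continuous_snd)))
  -- the radius r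
  obtain ⟨r₀, hr₀, hAr⟩ := Metric.continuousAt_iff.1 (hA.continuousAt (x := x₀)) (1 / 4)
    (by norm_num)
  set r : ℝ := min r₀ (1 / (4 * Cc)) with hr
  have hrpos : 0 < r := lt_min hr₀ (by positivity)
  have hclose : ∀ p ∈ ball x₀ r, ∀ q ∈ ball x₀ r, |A p - A q| + Cc * ‖p - q‖ ≤ 1 := by
    intro p hp q hq
    have hp1 := hAr (lt_of_lt_of_le (mem_ball.1 hp) (min_le_left _ _))
    have hq1 := hAr (lt_of_lt_of_le (mem_ball.1 hq) (min_le_left _ _))
    rw [Real.dist_eq] at hp1 hq1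
    have h1 : |A p - A q| ≤ |A p - A x₀| + |A q - A x₀| := by
      have := abs_sub_le (A p) (A x₀) (A q)
      rwa [abs_sub_comm (A x₀) (A q)] at this
    have h2 : ‖p - q‖ ≤ 2 * r := by
      have h3 : dist p q ≤ dist p x₀ + dist q x₀ := dist_triangle_right p q x₀
      rw [dist_eq_norm] at h3
      linarith [mem_ball.1 hp, mem_ball.1 hq]
    have h4 : r ≤ 1 / (4 * Cc) := min_le_right _ _
    have h5 : Cc * ‖p - q‖ ≤ 1 / 2 := by
      calc Cc * ‖p - q‖ ≤ Cc * (2 * (1 / (4 * Cc))) :=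
            mul_le_mul_of_nonneg_left (h2.trans (by linarith)) hCc.le
        _ = 1 / 2 := by field_simp; norm_num
    linarith
  have hAbd : ∀ p ∈ ball x₀ r, |A p| ≤ |A x₀| + 1 := by
    intro p hp
    have hp1 := hAr (lt_of_lt_of_le (mem_ball.1 hp) (min_le_left _ _))
    rw [Real.dist_eq] at hp1
    have := abs_sub_abs_le_abs_sub (A p) (A x₀)
    linarith
  -- the time and the radius rho
  have hΦ0 : (φ 0 (x₀, A x₀)).1 = x₀ := by rw [hφ.zero]
  have hnhds : (fun q : ℝ × E => (φ q.1 (q.2, A q.2)).1) ⁻¹' (ball x₀ r) ∈ 𝓝 ((0 : ℝ), x₀) := by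
    apply hΦ.continuousAt
    show ball x₀ r ∈ 𝓝 (φ 0 (x₀, A x₀)).1
    rw [hΦ0]
    exact ball_mem_nhds x₀ hrpos
  obtain ⟨ρ₀, hρ₀, hsub⟩ := Metric.mem_nhds_iff.1 hnhds
  have hnhds2 : (fun y : E => ((y, A y) : St)) ⁻¹' (ball z₀ ε) ∈ 𝓝 x₀ :=
    hw.continuousAt (ball_mem_nhds _ hε)
  obtain ⟨ρ₁, hρ₁, hsub1⟩ := Metric.mem_nhds_iff.1 hnhds2
  set τ : ℝ := min (ρ₀ / 2) (ε / 2) with hτdef
  have hτ : 0 < τ := lt_min (by linarith) (by linarith)
  have hτε : τ < ε := lt_of_le_of_lt (min_le_right _ _) (by linarith)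
  set ρ : ℝ := min ρ₀ ρ₁ with hρdef
  have hρ : 0 < ρ := lt_min hρ₀ hρ₁
  have hcr : ∀ t, |t| ≤ τ → ∀ y ∈ ball x₀ ρ, (φ t (y, A y)).1 ∈ ball x₀ r := by
    intro t ht y hy
    have h1 : ((t, y) : ℝ × E) ∈ ball ((0 : ℝ), x₀) ρ₀ := by
      rw [mem_ball, Prod.dist_eq]
      apply max_lt
      · show dist t 0 < ρ₀
        rw [Real.dist_eq, sub_zero]
        exact lt_of_le_of_lt (ht.trans (min_le_left _ _)) (by linarith)
      · exact lt_of_lt_of_le (mem_ball.1 hy) (min_le_left _ _)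
    have h2 := hsub h1
    rw [mem_preimage] at h2
    exact h2
  have hwε : ∀ y ∈ ball x₀ ρ, ((y, A y) : St) ∈ ball z₀ ε := by
    intro y hy
    have h2 := hsub1 (ball_subset_ball (min_le_right _ _) hy)
    rw [mem_preimage] at h2
    exact h2
  -- Lipschitz constant of the field
  have hV : ContDiff ℝ 1 (V g) := by
    have := contDiff_V hg 1
    simpa using this
  set M : ℝ := |A x₀| + 2 with hM
  obtain ⟨K, hK⟩ := (hV.locallyLipschitz.locallyLipschitzOn
    (s := closedBall x₀ δ ×ˢ Icc (-M) M)).exists_lipschitzOnWith_of_compact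
    ((isCompact_closedBall _ _).prod isCompact_Icc)
  set L : ℝ := K + Cc * K with hLdef
  have hL : 0 ≤ L := by positivity
  set C₁ : ℝ := Real.exp (-(L * τ)) * Cc⁻¹ / 2 * τ with hC₁
  have hC₁pos : 0 < C₁ := by positivity
  have key : ∀ x ∈ ball x₀ ρ, ∀ y ∈ ball x₀ ρ, |A y - A x| ≤ (Cc / C₁ + Cc) * ‖y - x‖ := by
    intro x hx y hy
    obtain ⟨hS, hB, hB1, hS1, hbd, horb, hzero⟩ := hF (x, A x) (hwε x hx)
    obtain ⟨-, -, -, -, -, horby, -⟩ := hF (y, A y) (hwε y hy)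
    set z : St := (x, A x) with hz
    have hSd : ∀ p ∈ ball x₀ δ, DifferentiableAt ℝ (S z) p := fun p hp =>
      (hS.differentiableOn (by norm_num)).differentiableAt (isOpen_ball.mem_nhds hp)
    have hBd : ∀ p ∈ ball x₀ δ, DifferentiableAt ℝ (B z) p := fun p hp =>
      (hB.differentiableOn (by norm_num)).differentiableAt (isOpen_ball.mem_nhds hp)
    have hcδ : ∀ t ∈ Icc (-τ) τ, (φ t (y, A y)).1 ∈ ball x₀ δ := fun t ht =>
      (horby t (lt_of_le_of_lt (abs_le.2 ht) hτε)).1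
    have h0δ : (0 : ℝ) ∈ Icc (-τ) τ := ⟨by linarith, hτ.le⟩
    have hyδ : y ∈ ball x₀ δ := by
      have := hcδ 0 h0δ
      rwa [hφ.zero] at this
    have hx0 := horb 0 (by rwa [abs_zero])
    rw [hφ.zero] at hx0
    obtain ⟨hxδ, hSx, hBx⟩ := hx0
    -- comparison of angles
    have hηle : ∀ t ∈ Icc (-τ) τ, |(φ t (y, A y)).2 - B z (φ t (y, A y)).1| ≤ 1 := by
      intro t ht
      have h1 := hcr t (abs_le.2 ht) y hy
      have h2 : x ∈ ball x₀ r := by
        have := hcr 0 (by rw [abs_zero]; exact hτ.le) x hx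
        rwa [hφ.zero] at this
      have h3 := hclose _ h1 _ h2
      have h4 : ‖B z (φ t (y, A y)).1 - B z x‖ ≤ Cc * ‖(φ t (y, A y)).1 - x‖ :=
        (convex_ball x₀ δ).norm_image_sub_le_of_norm_fderiv_le hBd (fun p hp => (hbd p hp).1)
          hxδ (hcδ t ht)
      rw [Real.norm_eq_abs] at h4
      rw [hinv y t]
      have h5 : A (φ t (y, A y)).1 - B z (φ t (y, A y)).1 =
          (A (φ t (y, A y)).1 - A x) - (B z (φ t (y, A y)).1 - B z x) := by
        have : B z x = A x := hBx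
        rw [this]
        ring
      rw [h5]
      have h6 := abs_sub (A (φ t (y, A y)).1 - A x) (B z (φ t (y, A y)).1 - B z x)
      linarith
    have hβM : ∀ t ∈ Icc (-τ) τ, (φ t (y, A y)).2 ∈ Icc (-M) M ∧
        B z (φ t (y, A y)).1 ∈ Icc (-M) M := by
      intro t ht
      have h1 := hAbd _ (hcr t (abs_le.2 ht) y hy)
      rw [← hinv y t] at h1
      have h2 := hηle t ht
      have h3 := abs_le.1 h1
      have h4 := abs_le.1 h2
      exact ⟨⟨by linarith [h3.1], by linarith [h3.2]⟩,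
        ⟨by linarith [h3.1, h4.2], by linarith [h3.2, h4.1]⟩⟩
    have hVd : ∀ t ∈ Icc (-τ) τ, ‖V g (φ t (y, A y)) -
        V g ((φ t (y, A y)).1, B z (φ t (y, A y)).1)‖ ≤
        K * |(φ t (y, A y)).2 - B z (φ t (y, A y)).1| := by
      intro t ht
      have h1 : (φ t (y, A y)) ∈ closedBall x₀ δ ×ˢ Icc (-M) M :=
        ⟨ball_subset_closedBall (hcδ t ht), (hβM t ht).1⟩
      have h2 : (((φ t (y, A y)).1, B z (φ t (y, A y)).1) : St) ∈
          closedBall x₀ δ ×ˢ Icc (-M) M :=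
        ⟨ball_subset_closedBall (hcδ t ht), (hβM t ht).2⟩
      have h3 := hK.norm_sub_le h1 h2
      have h4 : ‖φ t (y, A y) - ((φ t (y, A y)).1, B z (φ t (y, A y)).1)‖ =
          |(φ t (y, A y)).2 - B z (φ t (y, A y)).1| := by
        rw [Prod.norm_def]
        simp
      rwa [h4] at h3
    have hud : ∀ t ∈ Icc (-τ) τ, ‖u g (φ t (y, A y)) -
        u g ((φ t (y, A y)).1, B z (φ t (y, A y)).1)‖ ≤
        K * |(φ t (y, A y)).2 - B z (φ t (y, A y)).1| := fun t ht =>
      (norm_fst_le (V g (φ t (y, A y)) - V g ((φ t (y, A y)).1, B z (φ t (y, A y)).1))).trans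
        (hVd t ht)
    have hand : ∀ t ∈ Icc (-τ) τ, |an g (φ t (y, A y)) -
        an g ((φ t (y, A y)).1, B z (φ t (y, A y)).1)| ≤
        K * |(φ t (y, A y)).2 - B z (φ t (y, A y)).1| := fun t ht =>
      (norm_snd_le (V g (φ t (y, A y)) - V g ((φ t (y, A y)).1, B z (φ t (y, A y)).1))).trans
        (hVd t ht)
    have hfin := t8_zero (τ := τ) (L := L) (κ := Cc⁻¹)
      (η := fun t => (φ t (y, A y)).2 - B z (φ t (y, A y)).1)
      (η' := fun t => an g (φ t (y, A y)) -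
        fderiv ℝ (B z) (φ t (y, A y)).1 (u g (φ t (y, A y))))
      (D := fun t => S z (φ t (y, A y)).1)
      (D' := fun t => fderiv ℝ (S z) (φ t (y, A y)).1 (u g (φ t (y, A y))))
      hτ hL (inv_pos.2 hCc)
      (fun t ht => (hφ.hasDerivAt_snd t (y, A y)).sub
        (((hBd _ (hcδ t ht)).hasFDerivAt).comp_hasDerivAt t (hφ.hasDerivAt_fst t (y, A y))))
      (fun t ht => by
        have h1 := hB1 _ (hcδ t ht)
        have h2 : an g (φ t (y, A y)) - fderiv ℝ (B z) (φ t (y, A y)).1 (u g (φ t (y, A y))) =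
            (an g (φ t (y, A y)) - an g ((φ t (y, A y)).1, B z (φ t (y, A y)).1)) -
            fderiv ℝ (B z) (φ t (y, A y)).1 (u g (φ t (y, A y)) -
              u g ((φ t (y, A y)).1, B z (φ t (y, A y)).1)) := by
          rw [map_sub, h1]
          ring
        rw [h2]
        have h3 := abs_sub
          (an g (φ t (y, A y)) - an g ((φ t (y, A y)).1, B z (φ t (y, A y)).1))
          (fderiv ℝ (B z) (φ t (y, A y)).1 (u g (φ t (y, A y)) -
              u g ((φ t (y, A y)).1, B z (φ t (y, A y)).1)))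
        have h4 : |fderiv ℝ (B z) (φ t (y, A y)).1 (u g (φ t (y, A y)) -
              u g ((φ t (y, A y)).1, B z (φ t (y, A y)).1))| ≤
            Cc * (K * |(φ t (y, A y)).2 - B z (φ t (y, A y)).1|) := by
          rw [← Real.norm_eq_abs]
          exact ((fderiv ℝ (B z) (φ t (y, A y)).1).le_opNorm _).trans
            (mul_le_mul (hbd _ (hcδ t ht)).1 (hud t ht) (norm_nonneg _) hCc.le)
        have h5 := hand t ht
        calc _ ≤ _ := h3
          _ ≤ K * |(φ t (y, A y)).2 - B z (φ t (y, A y)).1| +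
              Cc * (K * |(φ t (y, A y)).2 - B z (φ t (y, A y)).1|) := add_le_add h5 h4
          _ = L * |(φ t (y, A y)).2 - B z (φ t (y, A y)).1| := by rw [hLdef]; ring)
      hηle
      (fun t ht => ((hSd _ (hcδ t ht)).hasFDerivAt).comp_hasDerivAt t
        (hφ.hasDerivAt_fst t (y, A y)))
      (fun t ht => by
        refine ⟨fderiv ℝ (S z) (φ t (y, A y)).1
          (u g ((φ t (y, A y)).1, B z (φ t (y, A y)).1 + π / 2)), ?_, ?_⟩
        · rw [inv_le_iff_one_le_mul₀' hCc]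
          exact (hbd _ (hcδ t ht)).2.2
        · have h1 : u g (φ t (y, A y)) =
              cos ((φ t (y, A y)).2 - B z (φ t (y, A y)).1) •
                u g ((φ t (y, A y)).1, B z (φ t (y, A y)).1) +
              sin ((φ t (y, A y)).2 - B z (φ t (y, A y)).1) •
                u g ((φ t (y, A y)).1, B z (φ t (y, A y)).1 + π / 2) :=
            u_rot (g := g) (φ t (y, A y)).1 (B z (φ t (y, A y)).1) (φ t (y, A y)).2
          rw [h1, map_add, map_smul, map_smul, hS1 _ (hcδ t ht), smul_zero, zero_add,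
            smul_eq_mul])
      (fun t ht h0 => by
        obtain ⟨t', ht'⟩ := hzero _ (hcδ t ht) h0
        have h1 := hinv x t'
        rw [ht'] at h1
        have h2 : B z (φ t (y, A y)).1 = A (φ t (y, A y)).1 := h1
        show (φ t (y, A y)).2 - B z (φ t (y, A y)).1 = 0
        rw [h2, hinv y t, sub_self])
    simp only [hφ.zero] at hfin
    have hη0 : |A y - B z y| * C₁ ≤ |S z y| := hfin
    have hSy : |S z y| ≤ Cc * ‖y - x‖ := by
      have h1 : ‖S z y - S z x‖ ≤ Cc * ‖y - x‖ :=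
        (convex_ball x₀ δ).norm_image_sub_le_of_norm_fderiv_le hSd (fun p hp => (hbd p hp).2.1)
          hxδ hyδ
      have h2 : S z x = 0 := hSx
      rwa [h2, sub_zero, Real.norm_eq_abs] at h1
    have hBy : |B z y - B z x| ≤ Cc * ‖y - x‖ := by
      have h1 : ‖B z y - B z x‖ ≤ Cc * ‖y - x‖ :=
        (convex_ball x₀ δ).norm_image_sub_le_of_norm_fderiv_le hBd (fun p hp => (hbd p hp).1)
          hxδ hyδ
      rwa [Real.norm_eq_abs] at h1
    have hBx' : B z x = A x := hBx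
    have h1 : |A y - B z y| ≤ Cc / C₁ * ‖y - x‖ := by
      rw [div_mul_eq_mul_div, le_div_iff₀ hC₁pos]
      exact hη0.trans hSy
    have h2 : A y - A x = (A y - B z y) + (B z y - B z x) := by rw [hBx']; ring
    rw [h2]
    have h3 := abs_add_le (A y - B z y) (B z y - B z x)
    linarith
  refine ⟨Real.toNNReal (Cc / C₁ + Cc), ball x₀ ρ, ball_mem_nhds x₀ hρ, ?_⟩
  apply LipschitzOnWith.of_dist_le_mul
  intro y hy x hx
  rw [Real.coe_toNNReal _ (by positivity), Real.dist_eq, dist_eq_norm]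
  exact key x hx y hy

end PPF
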