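import Pool.Agent.Lib.MP_a4f5e0_gt.T9b
import Pool.Agent.Lib.MP_a4f5e0_gt.G1

/-!
JOB T9c. Exactness of the calibration form of an invariant locally Lipschitz direction field.

`θ x = p g (x, A x)`. `P x = θ x b1`, `Q x = θ x b2` are locally Lipschitz (`p g` is `C¹` on `St`, hence
locally Lipschitz: `ContDiff.locallyLipschitz`, composed with the locally Lipschitz `x ↦ (x, A x)`).
At almost every `x`, `A` is differentiable (`locLip_ae_diff`); there the chain rule for
`A (φ t (x, A x)).1 = (φ t (x, A x)).2` at `t = 0` (derivative of `(φ t z).1` is `u`, of `(φ t z).2` is `an`: G1)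
gives `fderiv A x (u g (x, A x)) = an g (x, A x)`, so `closed_of_inv` (F4) shows that `θ` is differentiable at `x`
with symmetric derivative. As `fderiv Q x b1 = (fderiv θ x b1) b2` and `fderiv P x b2 = (fderiv θ x b2) b1` (chain
rule with the evaluation map), `lip_poincare` applies; finally
`P x • proj 0 + Q x • proj 1 = θ x` (`vec_eq`, linearity).
-/

set_option autoImplicit false

open MeasureTheory Set Filter Topology Real Metric

noncomputable section

namespace PPF

variable {g : E → E →L[ℝ] E →L[ℝ] ℝ} {φ : ℝ → St → St}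

theorem exists_calib (hg : Met g) (hφ : IsFlow g φ) {A : E → ℝ} (hA : LocallyLipschitz A)
    (hinv : ∀ x t, (φ t (x, A x)).2 = A (φ t (x, A x)).1) :
    ∃ f : E → ℝ, ∀ x, HasFDerivAt f (p g (x, A x)) x := by
  have hpair : LocallyLipschitz (fun x : E => (x, A x)) := LocallyLipschitz.id.prodMk hA
  have hloc : ∀ b : E, LocallyLipschitz (fun x : E => p g (x, A x) b) := by
    intro b
    have h1 : ContDiff ℝ 1 (fun w : St => p g w b) := (contDiff_p hg 1).clm_apply contDiff_const
    exact h1.locallyLipschitz.comp hpair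
  have hae : ∀ᵐ x : E, fderiv ℝ (fun x : E => p g (x, A x) b2) x b1 =
      fderiv ℝ (fun x : E => p g (x, A x) b1) x b2 := by
    filter_upwards [locLip_ae_diff hA] with x hx
    have h0 : φ 0 (x, A x) = (x, A x) := hφ.zero _
    have h1 : HasDerivAt (fun t => A (φ t (x, A x)).1) (fderiv ℝ A x (u g (x, A x))) 0 := by
      have h2 := hφ.hasDerivAt_fst 0 (x, A x)
      rw [h0] at h2
      have h3 : HasFDerivAt A (fderiv ℝ A x) ((fun s => (φ s (x, A x)).1) 0) := by
        show HasFDerivAt A (fderiv ℝ A x) (φ 0 (x, A x)).1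
        rw [h0]
        exact hx.hasFDerivAt
      exact h3.comp_hasDerivAt 0 h2
    have h4 : HasDerivAt (fun t => (φ t (x, A x)).2) (an g (x, A x)) 0 := by
      have h2 := hφ.hasDerivAt_snd 0 (x, A x)
      rwa [h0] at h2
    have h5 : (fun t => (φ t (x, A x)).2) = fun t => A (φ t (x, A x)).1 := by
      funext t
      exact hinv x t
    rw [h5] at h4
    obtain ⟨hd, hsym⟩ := closed_of_inv hg hx (h1.unique h4)
    have hev : ∀ b v : E, fderiv ℝ (fun x : E => p g (x, A x) b) x v =
        fderiv ℝ (fun y => p g (y, A y)) x v b := by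
      intro b v
      have := hd.hasFDerivAt.clm_apply (hasFDerivAt_const b x)
      rw [this.fderiv]
      simp
    rw [hev, hev]
    exact hsym b1 b2
  obtain ⟨f, hf⟩ := lip_poincare (hloc b1) (hloc b2) hae
  refine ⟨f, fun x => ?_⟩
  have h6 : p g (x, A x) b1 • (EuclideanSpace.proj 0 : E →L[ℝ] ℝ) +
      p g (x, A x) b2 • (EuclideanSpace.proj 1 : E →L[ℝ] ℝ) = p g (x, A x) := by
    ext v
    conv_rhs => rw [vec_eq v]
    rw [map_add, map_smul, map_smul]
    simp only [add_apply, smul_apply, smul_eq_mul]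
    show p g (x, A x) b1 * v 0 + p g (x, A x) b2 * v 1 = _
    ring
  rw [← h6]
  exact hf x

end PPF
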