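import Pool.Agent.Lib.MP_a4f5e0_gt.T3
import Pool.Agent.Lib.MP_a4f5e0_gt.T6
import Pool.Agent.Lib.MP_a4f5e0_gt.T8
import Pool.Agent.Lib.MP_a4f5e0_gt.T9c

/-!
JOB T10. The parallel postulate implies that every geodesic is minimising; almost every line meets
a given line.

* `exists_field`: `exists_lift` for `FF φ w` (`FF_closed`, `FF_fiber`) gives a continuous `A` with
  `(x, A x) ∈ FF φ w`. Invariance: fix `x`; `f t = (φ t (x, A x)).2 - A (φ t (x, A x)).1` is continuous,
  `f 0 = 0`; both `φ t (x, A x)` and `((φ t (x, A x)).1, A (φ t (x, A x)).1)` are in `FF φ w` over the same point, so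
  `f t ∈ πℤ` (`FF_fiber`); `const_of_int_pi`.
* `min_of_PP`: take `w = z` and `A` as above, `f` with `Df x = p g (x, A x)` from `locLip_of_inv`, `exists_calib`.
  `calib_global` with `abs_p_le`: `|f x - f y| ≤ dg g x y`. Since `(z.1, z.2) ∈ FF φ z` (`Tang` with `t = 0`) and
  `(z.1, A z.1) ∈ FF φ z`, `A z.1 = z.2 + kπ`. Let `z' = (z.1, A z.1)`: `f (φ t z').1` has derivative
  `p g (φ t z') (u g (φ t z')) = 1` (invariance; `p_u`), so `f (φ t z').1 - f (φ s z').1 = t - s`, so
  `dg g (φ s z').1 (φ t z').1 ≥ |s - t|`. By `flow_int_pi`, `(φ t z').1 = (φ (σ t) z).1` with `σ = ±1`, so the same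
  holds for `z`. The upper bound is `IsFlow.dg_le`.
* `meet_measurable`: `{w | (line φ w ∩ line φ z).Nonempty} = ⋃_n {w | ∃ s t ∈ [-n, n], (φ s w).1 = (φ t z).1}`, and each
  of these sets is closed (projection of a closed set along a compact factor: `isClosedMap_…`,
  `IsCompact` sequences).
* `null_disjoint`: for every `x` the angles `β` with `Disjoint (line φ (x,β)) (line φ z)` are contained in
  `α + πℤ` (`FF_fiber`), a countable set, hence null. Fubini for the measurable set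
  (`Measure.measure_prod_null`, `muS` is `withDensity` of a restriction of the product measure).
-/

set_option autoImplicit false

open MeasureTheory Set Filter Topology Real Metric

noncomputable section

namespace PPF

variable {g : E → E →L[ℝ] E →L[ℝ] ℝ} {φ : ℝ → St → St}

theorem exists_field (hg : Met g) (hφ : IsFlow g φ) (hP : PP φ) (w : St) :
    ∃ A : E → ℝ, Continuous A ∧ (∀ x, (x, A x) ∈ FF φ w) ∧
      ∀ x t, (φ t (x, A x)).2 = A (φ t (x, A x)).1 := by
  obtain ⟨A, hA, hF⟩ := exists_lift (FF_closed hg hφ hP w) (FF_fiber hg hφ hP w)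
  refine ⟨A, hA, hF, fun x t => ?_⟩
  have hc : Continuous (fun t => φ t (x, A x)) :=
    hφ.continuous.comp (Continuous.prodMk continuous_id continuous_const)
  have h := const_of_int_pi (f := fun t => (φ t (x, A x)).2 - A (φ t (x, A x)).1) ?_ ?_ ?_ t
  · have h' : (φ t (x, A x)).2 - A (φ t (x, A x)).1 = 0 := h
    linarith
  · exact hc.snd.sub (hA.comp hc.fst)
  · intro t
    have h1 : ((φ t (x, A x)).1, (φ t (x, A x)).2) ∈ FF φ w := FF_flow hg hφ (hF x) t
    have h2 := hF (φ t (x, A x)).1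
    obtain ⟨α, hα⟩ := FF_fiber hg hφ hP w (φ t (x, A x)).1
    obtain ⟨k, hk⟩ := (hα _).1 h1
    obtain ⟨l, hl⟩ := (hα _).1 h2
    refine ⟨k - l, ?_⟩
    show (φ t (x, A x)).2 - A (φ t (x, A x)).1 = _
    rw [hk, hl]
    push_cast
    ring
  · show (φ 0 (x, A x)).2 - A (φ 0 (x, A x)).1 = 0
    rw [hφ.zero]
    exact sub_self _

private theorem t10_field_min (hg : Met g) (hφ : IsFlow g φ) {A : E → ℝ} (hA : Continuous A)
    (hinv : ∀ x t, (φ t (x, A x)).2 = A (φ t (x, A x)).1) (x : E) (s t : ℝ) :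
    dg g (φ s (x, A x)).1 (φ t (x, A x)).1 = |s - t| := by
  apply le_antisymm (IsFlow.dg_le hg hφ _ s t)
  have hL := locLip_of_inv hg hφ hA hinv
  obtain ⟨f, hf⟩ := exists_calib hg hφ hL hinv
  have hθ : Continuous (fun y => p g (y, A y)) :=
    (contDiff_p hg 1).continuous.comp (Continuous.prodMk continuous_id hA)
  have hcal := calib_global hg hθ hf (fun y v => abs_p_le hg (y, A y) v)
    (φ s (x, A x)).1 (φ t (x, A x)).1
  have hd : ∀ τ, HasDerivAt (fun τ => f (φ τ (x, A x)).1 - τ) 0 τ := by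
    intro τ
    have h1 := (hf (φ τ (x, A x)).1).comp_hasDerivAt τ (hφ.hasDerivAt_fst τ (x, A x))
    have h2 : p g ((φ τ (x, A x)).1, A (φ τ (x, A x)).1) (u g (φ τ (x, A x))) = 1 := by
      rw [← hinv x τ]
      have h3 : u g (φ τ (x, A x)) = u g ((φ τ (x, A x)).1, (φ τ (x, A x)).2) := rfl
      rw [h3, p_u hg, sub_self, cos_zero]
    rw [h2] at h1
    have h4 := h1.sub (hasDerivAt_id τ)
    rw [sub_self] at h4
    exact h4
  have hconst : f (φ s (x, A x)).1 - s = f (φ t (x, A x)).1 - t :=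
    is_const_of_deriv_eq_zero (fun τ => (hd τ).differentiableAt) (fun τ => (hd τ).deriv) s t
  have h5 : f (φ s (x, A x)).1 - f (φ t (x, A x)).1 = s - t := by linarith
  rw [h5] at hcal
  exact hcal

theorem min_of_PP (hg : Met g) (hφ : IsFlow g φ) (hP : PP φ) (z : St) (s t : ℝ) :
    dg g (φ s z).1 (φ t z).1 = |s - t| := by
  obtain ⟨A, hA, hF, hinv⟩ := exists_field hg hφ hP z
  obtain ⟨α, hα⟩ := FF_fiber hg hφ hP z z.1
  have hz : (z.1, z.2) ∈ FF φ z := Or.inr ⟨0, by rw [hφ.zero], by rw [hφ.zero]; simp⟩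
  obtain ⟨k, hk⟩ := (hα _).1 hz
  obtain ⟨l, hl⟩ := (hα _).1 (hF z.1)
  have hAz : A z.1 = z.2 + ((l - k : ℤ) : ℝ) * π := by
    rw [hl, hk]
    push_cast
    ring
  obtain ⟨σ, hσ, h⟩ := flow_int_pi hg hφ z.1 z.2 (l - k)
  rw [← hAz] at h
  have hσ2 : σ * σ = 1 := by rcases hσ with rfl | rfl <;> norm_num
  have hσa : |σ| = 1 := by rcases hσ with rfl | rfl <;> norm_num
  have key : ∀ τ, (φ τ z).1 = (φ (σ * τ) (z.1, A z.1)).1 := by
    intro τ
    rw [h (σ * τ)]
    have h1 : σ * (σ * τ) = τ := by rw [← mul_assoc, hσ2, one_mul]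
    rw [h1]
  rw [key s, key t, t10_field_min hg hφ hA hinv, ← mul_sub, abs_mul, hσa, one_mul]

theorem meet_measurable (hφ : IsFlow g φ) (z : St) :
    MeasurableSet {w : St | (line φ w ∩ line φ z).Nonempty} := by
  have hEq : {w : St | (line φ w ∩ line φ z).Nonempty} =
      ⋃ n : ℕ, Prod.fst '' {q : St × ((Icc (-(n : ℝ)) n ×ˢ Icc (-(n : ℝ)) n : Set (ℝ × ℝ))) |
        (φ q.2.1.1 q.1).1 = (φ q.2.1.2 z).1} := by
    ext w
    simp only [mem_iUnion, mem_image]
    constructor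
    · rintro ⟨y, ⟨s, hs⟩, ⟨t, ht⟩⟩
      obtain ⟨n, hn⟩ := exists_nat_ge (max |s| |t|)
      have h1 := abs_le.1 ((le_max_left _ _).trans hn)
      have h2 := abs_le.1 ((le_max_right _ _).trans hn)
      refine ⟨n, (w, ⟨(s, t), ⟨⟨h1.1, h1.2⟩, ⟨h2.1, h2.2⟩⟩⟩), ?_, rfl⟩
      show (φ s w).1 = (φ t z).1
      exact hs.trans ht.symm
    · rintro ⟨n, ⟨w', q⟩, hq, rfl⟩
      exact ⟨(φ q.1.1 w').1, ⟨q.1.1, rfl⟩, ⟨q.1.2, hq.symm⟩⟩
  rw [hEq]
  apply MeasurableSet.iUnion
  intro n
  apply IsClosed.measurableSet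
  have : CompactSpace ((Icc (-(n : ℝ)) n ×ˢ Icc (-(n : ℝ)) n : Set (ℝ × ℝ))) :=
    isCompact_iff_compactSpace.1 (isCompact_Icc.prod isCompact_Icc)
  apply isClosedMap_fst_of_compactSpace
  apply isClosed_eq
  · apply Continuous.fst
    apply hφ.continuous.comp (f := fun q : St × ((Icc (-(n : ℝ)) n ×ˢ Icc (-(n : ℝ)) n :
      Set (ℝ × ℝ))) => (q.2.1.1, q.1))
    fun_prop
  · apply Continuous.fst
    apply hφ.continuous.comp (f := fun q : St × ((Icc (-(n : ℝ)) n ×ˢ Icc (-(n : ℝ)) n :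
      Set (ℝ × ℝ))) => (q.2.1.2, z))
    fun_prop

theorem null_disjoint (hg : Met g) (hφ : IsFlow g φ) (hP : PP φ) (z : St) :
    muS g {w : St | ¬ (line φ w ∩ line φ z).Nonempty} = 0 := by
  have hm : MeasurableSet {w : St | ¬ (line φ w ∩ line φ z).Nonempty} :=
    (meet_measurable hφ z).compl
  have h0 : (volume : Measure St) {w : St | ¬ (line φ w ∩ line φ z).Nonempty} = 0 := by
    show ((volume : Measure E).prod (volume : Measure ℝ)) _ = 0
    rw [Measure.measure_prod_null hm]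
    refine Filter.Eventually.of_forall fun x => ?_
    obtain ⟨α, hα⟩ := FF_fiber hg hφ hP z x
    have hsub : Prod.mk x ⁻¹' {w : St | ¬ (line φ w ∩ line φ z).Nonempty} ⊆
        range (fun k : ℤ => α + k * π) := by
      intro β hβ
      have h1 : (x, β) ∈ FF φ z := by
        left
        rw [Set.disjoint_iff_inter_eq_empty]
        exact Set.not_nonempty_iff_eq_empty.1 hβ
      obtain ⟨k, hk⟩ := (hα β).1 h1
      exact ⟨k, hk.symm⟩
    exact ((Set.countable_range _).mono hsub).measure_zero volume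
  unfold muS
  apply withDensity_absolutelyContinuous
  apply Measure.restrict_apply_eq_zero'  ?_ |>.2
  · exact measure_mono_null Set.inter_subset_left h0
  · exact MeasurableSet.univ.prod measurableSet_Ioc

end PPF
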