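import Pool.Agent.Lib.MP_a4f5e0_gt.IfL
import Pool.Agent.Lib.MP_a4f5e0_gt.T10
import Pool.Agent.Lib.MP_a4f5e0_gt.SPair

/-!
# Interface S: Liouville measure, Santaló formula, crossing inequality (stream S)

`muS_invariant` (SInv), `kap`, `kap_measurable`, `kap_per`, `kap_pos` (SKap), `santalo` (SSan),
`LR`, `LR_measurable` (SLR), `pair_ineq` (SPair).
-/

set_option autoImplicit false

open MeasureTheory Set Filter Topology Real Metric
open scoped ENNReal

noncomputable section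

namespace PPF

variable {g : E → E →L[ℝ] E →L[ℝ] ℝ} {φ : ℝ → St → St}

/-- all geodesics are minimising -/
def Mini (g : E → E →L[ℝ] E →L[ℝ] ℝ) (φ : ℝ → St → St) : Prop :=
  ∀ z s t, dg g (φ s z).1 (φ t z).1 = |s - t|

/-- almost every line meets a given line -/
def Meets (g : E → E →L[ℝ] E →L[ℝ] ℝ) (φ : ℝ → St → St) : Prop :=
  ∀ z, muS g {w : St | ¬ (line φ w ∩ line φ z).Nonempty} = 0

/-- the pair inequality: `N(R)² ≤ 8 ∫_{L_R} (1 - C²) dμ` for every function `C` which is, over almost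
every point, the cosine of a shifted angle -/
theorem pair_ineq_main (hg : Met g) (hφ : IsFlow g φ) (hm : Mini g φ) (hn : Meets g φ) (o : E)
    (R : ℝ) {C : St → ℝ} (hC : Measurable C)
    (hcos : ∀ᵐ x : E, ∃ a₀, ∀ a, C (x, a) = cos (a - a₀)) :
    (∫⁻ z in LR g φ o R, kap g φ o z ∂(muS g)) ^ 2 ≤
      8 * ∫⁻ z in LR g φ o R, ENNReal.ofReal (1 - C z ^ 2) ∂(muS g) :=
  pair_ineq hg hφ hm o R (fun z => meet_measurable hφ z) hn hC hcos

end PPF
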