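import Mathlib

set_option autoImplicit false

open MeasureTheory Set Filter Topology Real

noncomputable section

namespace PPF

/-- the kernel `sin max cos min` -/
def kS (s t : ℝ) : ℝ := Real.sin (max s t) * Real.cos (min s t)
/-- the kernel `cos max sin min` -/
def kC (s t : ℝ) : ℝ := Real.cos (max s t) * Real.sin (min s t)

theorem kS_add_kC (s t : ℝ) : kS s t + kC s t = Real.sin (s + t) := by
  unfold kS kC
  rcases le_total s t with h | h
  · rw [max_eq_right h, min_eq_left h, Real.sin_add]; ring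
  · rw [max_eq_left h, min_eq_right h, Real.sin_add]

theorem kS_sub_kC {s t : ℝ} (hs : s ∈ Icc 0 (π / 2)) (ht : t ∈ Icc 0 (π / 2)) :
    kS s t - kC s t = |Real.sin (s - t)| := by
  unfold kS kC
  rcases le_total s t with h | h
  · rw [max_eq_right h, min_eq_left h, abs_of_nonpos, Real.sin_sub]
    · ring
    · apply Real.sin_nonpos_of_nonpos_of_neg_pi_le <;> linarith [hs.1, ht.2, Real.pi_pos]
  · rw [max_eq_left h, min_eq_right h, abs_of_nonneg, Real.sin_sub]
    apply Real.sin_nonneg_of_nonneg_of_le_pi <;> linarith [hs.2, ht.1, Real.pi_pos]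

/-- the four sign combinations -/
theorem four_terms (f : ℝ → ℝ) {s t : ℝ} (hs : s ∈ Icc 0 (π / 2)) (ht : t ∈ Icc 0 (π / 2)) :
    f s * f t * |Real.sin (s - t)| + f s * f (-t) * |Real.sin (s - -t)|
      + (f (-s) * f t * |Real.sin (-s - t)| + f (-s) * f (-t) * |Real.sin (-s - -t)|)
    = (f s + f (-s)) * (f t + f (-t)) * kS s t - (f s - f (-s)) * (f t - f (-t)) * kC s t := by
  have h1 := kS_sub_kC hs ht
  have h2 := kS_add_kC s t
  have h3 : |Real.sin (s - -t)| = Real.sin (s + t) := by
    rw [sub_neg_eq_add, abs_of_nonneg]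
    apply Real.sin_nonneg_of_nonneg_of_le_pi <;> linarith [hs.1, ht.1, hs.2, ht.2]
  have h4 : |Real.sin (-s - t)| = Real.sin (s + t) := by
    rw [show -s - t = -(s + t) by ring, Real.sin_neg, abs_neg, abs_of_nonneg]
    apply Real.sin_nonneg_of_nonneg_of_le_pi <;> linarith [hs.1, ht.1, hs.2, ht.2]
  have h5 : |Real.sin (-s - -t)| = |Real.sin (s - t)| := by
    rw [show -s - -t = -(s - t) by ring, Real.sin_neg, abs_neg]
  rw [h3, h4, h5, ← h1, ← h2]
  ring

/-- the factor of the kernel `kC` -/
def kA (τ s : ℝ) : ℝ := if τ < s then Real.cos s / Real.cos τ else 0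

theorem kA_meas : Measurable (Function.uncurry kA) := by
  unfold Function.uncurry kA
  refine Measurable.ite (measurableSet_lt measurable_fst measurable_snd) ?_ measurable_const
  exact (Real.measurable_cos.comp measurable_snd).div (Real.measurable_cos.comp measurable_fst)

theorem kA_bound {τ s : ℝ} (hτ : τ ∈ Ioo 0 (π / 2)) (hs : s ∈ Ioo 0 (π / 2)) : |kA τ s| ≤ 1 := by
  unfold kA
  split_ifs with h
  · have h1 : 0 < Real.cos τ := Real.cos_pos_of_mem_Ioo ⟨by linarith [hτ.1, Real.pi_pos], hτ.2⟩
    have h2 : 0 < Real.cos s := Real.cos_pos_of_mem_Ioo ⟨by linarith [hs.1, Real.pi_pos], hs.2⟩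
    rw [abs_of_nonneg (by positivity), div_le_one h1]
    exact Real.cos_le_cos_of_nonneg_of_le_pi hτ.1.le (by linarith [hs.2, Real.pi_pos]) h.le
  · simp

/-- the measure on the quarter circle -/
abbrev mq : Measure ℝ := volume.restrict (Ioo 0 (π / 2))

instance : IsFiniteMeasure mq := ⟨by simp [mq]⟩

theorem kA_int {s t : ℝ} (hs : s ∈ Ioo 0 (π / 2)) (ht : t ∈ Ioo 0 (π / 2)) :
    ∫ τ, kA τ s * kA τ t ∂mq = kC s t := by
  have hm : min s t ∈ Ioo 0 (π / 2) := ⟨lt_min hs.1 ht.1, (min_le_left _ _).trans_lt hs.2⟩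
  have e1 : ∀ τ, kA τ s * kA τ t =
      (Ioo 0 (min s t)).indicator (fun τ => (Real.cos s * Real.cos t) * (1 / Real.cos τ ^ 2)) τ
        ∨ τ ≤ 0 := by
    intro τ
    by_cases h0 : τ ≤ 0
    · exact Or.inr h0
    · left
      push Not at h0
      unfold kA
      by_cases h : τ < min s t
      · rw [indicator_of_mem (show τ ∈ Ioo 0 (min s t) from ⟨h0, h⟩),
          if_pos (h.trans_le (min_le_left _ _)), if_pos (h.trans_le (min_le_right _ _))]
        rw [div_mul_div_comm, pow_two]; ring
      · rw [indicator_of_notMem (fun hh => h hh.2)]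
        push Not at h
        rcases min_le_iff.1 h with h | h
        · rw [if_neg (not_lt.2 h)]; simp
        · rw [if_neg (not_lt.2 h)]; simp
  have e2 : ∫ τ, kA τ s * kA τ t ∂mq = ∫ τ in Ioo 0 (π / 2), (Ioo 0 (min s t)).indicator
      (fun τ => (Real.cos s * Real.cos t) * (1 / Real.cos τ ^ 2)) τ := by
    apply setIntegral_congr_fun measurableSet_Ioo
    intro τ hτ
    rcases e1 τ with h | h
    · exact h
    · exact absurd hτ.1 (not_lt.2 h)
  rw [e2, setIntegral_indicator measurableSet_Ioo,
    show Ioo 0 (π / 2) ∩ Ioo 0 (min s t) = Ioo 0 (min s t) from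
      inter_eq_right.2 (Ioo_subset_Ioo le_rfl hm.2.le), integral_const_mul,
    ← integral_Ioc_eq_integral_Ioo, ← intervalIntegral.integral_of_le hm.1.le]
  have hcos : ∀ x ∈ uIcc 0 (min s t), 0 < Real.cos x := by
    intro x hx
    rw [uIcc_of_le hm.1.le] at hx
    exact Real.cos_pos_of_mem_Ioo ⟨by linarith [hx.1, Real.pi_pos], hx.2.trans_lt hm.2⟩
  have e3 : ∫ τ in (0:ℝ)..(min s t), 1 / Real.cos τ ^ 2 = Real.tan (min s t) := by
    rw [intervalIntegral.integral_eq_sub_of_hasDerivAt (f := Real.tan)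
      (fun x hx => Real.hasDerivAt_tan (hcos x hx).ne'), Real.tan_zero, sub_zero]
    apply ContinuousOn.intervalIntegrable
    intro x hx
    apply ContinuousAt.continuousWithinAt
    exact continuousAt_const.div (Real.continuous_cos.continuousAt.pow 2)
      (pow_ne_zero 2 (hcos x hx).ne')
  rw [e3]
  unfold kC
  rw [Real.tan_eq_sin_div_cos]
  rcases le_total s t with h | h
  · rw [max_eq_right h, min_eq_left h]
    have := hcos s (by rw [min_eq_left h]; exact right_mem_uIcc)
    field_simp
  · rw [max_eq_left h, min_eq_right h]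
    have := hcos t (by rw [min_eq_right h]; exact right_mem_uIcc)
    field_simp

/-- positive definiteness of `kC` -/
theorem kC_posdef (k : ℝ → ℝ) (hk : Measurable k) (hk1 : ∀ x, |k x| ≤ 1) :
    0 ≤ ∫ q, k q.1 * k q.2 * kC q.1 q.2 ∂(mq.prod mq) := by
  have e1 : ∫ q, k q.1 * k q.2 * kC q.1 q.2 ∂(mq.prod mq) =
      ∫ q, (∫ τ, (k q.1 * kA τ q.1) * (k q.2 * kA τ q.2) ∂mq) ∂(mq.prod mq) := by
    have : ∀ᵐ q ∂(mq.prod mq), q ∈ Ioo 0 (π / 2) ×ˢ Ioo 0 (π / 2) := by
      rw [Measure.prod_restrict]
      exact ae_restrict_mem (measurableSet_Ioo.prod measurableSet_Ioo)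
    apply integral_congr_ae
    filter_upwards [this] with q hq
    rw [← kA_int hq.1 hq.2, ← integral_const_mul]
    congr 1
    ext τ
    ring
  have hint : Integrable (Function.uncurry fun (q : ℝ × ℝ) (τ : ℝ) =>
      (k q.1 * kA τ q.1) * (k q.2 * kA τ q.2)) ((mq.prod mq).prod mq) := by
    have hmeas : Measurable (Function.uncurry fun (q : ℝ × ℝ) (τ : ℝ) =>
      (k q.1 * kA τ q.1) * (k q.2 * kA τ q.2)) := by
      unfold Function.uncurry
      refine Measurable.mul (Measurable.mul ?_ ?_) (Measurable.mul ?_ ?_)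
      · exact hk.comp (measurable_fst.comp measurable_fst)
      · exact kA_meas.comp (measurable_snd.prodMk (measurable_fst.comp measurable_fst))
      · exact hk.comp (measurable_snd.comp measurable_fst)
      · exact kA_meas.comp (measurable_snd.prodMk (measurable_snd.comp measurable_fst))
    refine Integrable.of_bound hmeas.aestronglyMeasurable 1 ?_
    have : ∀ᵐ q ∂((mq.prod mq).prod mq), q ∈ (Ioo 0 (π / 2) ×ˢ Ioo 0 (π / 2)) ×ˢ Ioo 0 (π / 2) := by
      rw [Measure.prod_restrict, Measure.prod_restrict]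
      exact ae_restrict_mem ((measurableSet_Ioo.prod measurableSet_Ioo).prod measurableSet_Ioo)
    filter_upwards [this] with q hq
    unfold Function.uncurry
    rw [Real.norm_eq_abs, abs_mul, abs_mul, abs_mul]
    have h1 := hk1 q.1.1
    have h2 := hk1 q.1.2
    have h3 := kA_bound hq.2 hq.1.1
    have h4 := kA_bound hq.2 hq.1.2
    have h5 : |k q.1.1| * |kA q.2 q.1.1| ≤ 1 := mul_le_one₀ h1 (abs_nonneg _) h3
    have h6 : |k q.1.2| * |kA q.2 q.1.2| ≤ 1 := mul_le_one₀ h2 (abs_nonneg _) h4
    exact mul_le_one₀ h5 (by positivity) h6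
  rw [e1, integral_integral_swap hint]
  apply integral_nonneg
  intro τ
  show 0 ≤ ∫ q, (k q.1 * kA τ q.1) * (k q.2 * kA τ q.2) ∂(mq.prod mq)
  rw [integral_prod_mul (fun s => k s * kA τ s) (fun s => k s * kA τ s)]
  exact mul_self_nonneg _

theorem kS_meas : Measurable (Function.uncurry kS) := by
  unfold Function.uncurry kS
  exact (Real.measurable_sin.comp (measurable_fst.max measurable_snd)).mul
    (Real.measurable_cos.comp (measurable_fst.min measurable_snd))

theorem kC_meas : Measurable (Function.uncurry kC) := by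
  unfold Function.uncurry kC
  exact (Real.measurable_cos.comp (measurable_fst.max measurable_snd)).mul
    (Real.measurable_sin.comp (measurable_fst.min measurable_snd))

theorem kS_bound (s t : ℝ) : |kS s t| ≤ 1 := by
  unfold kS
  rw [abs_mul]
  exact mul_le_one₀ (Real.abs_sin_le_one _) (abs_nonneg _) (Real.abs_cos_le_one _)

theorem kC_bound (s t : ℝ) : |kC s t| ≤ 1 := by
  unfold kC
  rw [abs_mul]
  exact mul_le_one₀ (Real.abs_cos_le_one _) (abs_nonneg _) (Real.abs_sin_le_one _)

theorem ae_quarter : ∀ᵐ q ∂(mq.prod mq), q ∈ Ioo 0 (π / 2) ×ˢ Ioo 0 (π / 2) := by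
  rw [Measure.prod_restrict]
  exact ae_restrict_mem (measurableSet_Ioo.prod measurableSet_Ioo)

/-- the upper bound for the kernel `kS` -/
theorem kS_le (h : ℝ → ℝ) (hh : Measurable h) (h0 : ∀ x, 0 ≤ h x) (h2 : ∀ x, h x ≤ 2) :
    ∫ q, h q.1 * h q.2 * kS q.1 q.2 ∂(mq.prod mq) ≤ 4 * ∫ s, h s * Real.sin s ^ 2 ∂mq := by
  let G : ℝ × ℝ → ℝ := fun q => if q.2 ≤ q.1 then 2 * h q.1 * Real.sin q.1 * Real.cos q.2 else 0
  have hGm : Measurable G := by
    refine Measurable.ite (measurableSet_le measurable_snd measurable_fst) ?_ measurable_const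
    exact (((measurable_const.mul (hh.comp measurable_fst)).mul
      (Real.measurable_sin.comp measurable_fst))).mul (Real.measurable_cos.comp measurable_snd)
  have hGb : ∀ q, ‖G q‖ ≤ 4 := by
    intro q
    simp only [G]
    split_ifs
    · rw [Real.norm_eq_abs, abs_mul, abs_mul, abs_mul, abs_of_nonneg (h0 _), abs_two]
      have e1 := Real.abs_sin_le_one q.1
      have e2 := Real.abs_cos_le_one q.2
      calc 2 * h q.1 * |Real.sin q.1| * |Real.cos q.2| ≤ 2 * 2 * 1 * 1 := by
            gcongr
            exact h2 _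
        _ = 4 := by norm_num
    · simp
  have hGi : Integrable G (mq.prod mq) := Integrable.of_bound hGm.aestronglyMeasurable 4
    (Eventually.of_forall hGb)
  have hGi' : Integrable (fun q : ℝ × ℝ => G q.swap) (mq.prod mq) :=
    Integrable.of_bound (hGm.comp measurable_swap).aestronglyMeasurable 4
    (Eventually.of_forall fun q => hGb q.swap)
  have hG1 : ∫ q, G q ∂(mq.prod mq) = 2 * ∫ s, h s * Real.sin s ^ 2 ∂mq := by
    rw [integral_prod _ hGi, ← integral_const_mul]
    apply setIntegral_congr_fun measurableSet_Ioo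
    intro s hs
    show ∫ t, G (s, t) ∂mq = _
    have e1 : ∫ t, G (s, t) ∂mq = ∫ t in Ioo 0 (π / 2), (Iic s).indicator
        (fun t => 2 * h s * Real.sin s * Real.cos t) t := by
      apply setIntegral_congr_fun measurableSet_Ioo
      intro t ht
      by_cases hts : t ≤ s
      · simp [G, hts]
      · simp [G, hts]
    rw [e1, setIntegral_indicator measurableSet_Iic]
    have e2 : Ioo 0 (π / 2) ∩ Iic s = Ioc 0 s := by
      ext t
      simp only [mem_inter_iff, mem_Ioo, mem_Iic, mem_Ioc]
      constructor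
      · rintro ⟨⟨a, b⟩, c⟩; exact ⟨a, c⟩
      · rintro ⟨a, b⟩; exact ⟨⟨a, b.trans_lt hs.2⟩, b⟩
    rw [e2, integral_const_mul, ← intervalIntegral.integral_of_le hs.1.le, integral_cos,
      Real.sin_zero, sub_zero]
    ring
  have hG2 : ∫ q : ℝ × ℝ, G q.swap ∂(mq.prod mq) = 2 * ∫ s, h s * Real.sin s ^ 2 ∂mq := by
    rw [integral_prod_swap G, hG1]
  have hle : ∫ q, h q.1 * h q.2 * kS q.1 q.2 ∂(mq.prod mq) ≤
      ∫ q, (G q + G q.swap) ∂(mq.prod mq) := by
    apply integral_mono_ae
    · refine Integrable.of_bound (C := 4) ?_ (Eventually.of_forall fun q => ?_)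
      · exact (((hh.comp measurable_fst).mul (hh.comp measurable_snd)).mul
          kS_meas).aestronglyMeasurable
      · rw [Real.norm_eq_abs, abs_mul, abs_mul, abs_of_nonneg (h0 _), abs_of_nonneg (h0 _)]
        calc h q.1 * h q.2 * |kS q.1 q.2| ≤ 2 * 2 * 1 := by
              gcongr
              · exact h0 _
              · exact h2 _
              · exact h2 _
              · exact kS_bound _ _
          _ = 4 := by norm_num
    · exact hGi.add hGi'
    · filter_upwards [ae_quarter] with q hq
      have c1 : 0 ≤ Real.sin q.1 := Real.sin_nonneg_of_nonneg_of_le_pi hq.1.1.le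
        (by linarith [hq.1.2, Real.pi_pos])
      have c2 : 0 ≤ Real.sin q.2 := Real.sin_nonneg_of_nonneg_of_le_pi hq.2.1.le
        (by linarith [hq.2.2, Real.pi_pos])
      have c3 : 0 ≤ Real.cos q.1 := Real.cos_nonneg_of_mem_Icc ⟨by linarith [hq.1.1, Real.pi_pos], hq.1.2.le⟩
      have c4 : 0 ≤ Real.cos q.2 := Real.cos_nonneg_of_mem_Icc ⟨by linarith [hq.2.1, Real.pi_pos], hq.2.2.le⟩
      have g1 : 0 ≤ G q := by
        simp only [G]; split_ifs
        · have := h0 q.1; positivity
        · exact le_rfl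
      have g2 : 0 ≤ G q.swap := by
        simp only [G, Prod.fst_swap, Prod.snd_swap]; split_ifs
        · have := h0 q.2; positivity
        · exact le_rfl
      rcases le_total q.2 q.1 with hle | hle
      · have : h q.1 * h q.2 * kS q.1 q.2 ≤ G q := by
          simp only [G, if_pos hle, kS, max_eq_left hle, min_eq_right hle]
          have e : h q.1 * h q.2 * (Real.sin q.1 * Real.cos q.2)
              = h q.2 * (h q.1 * Real.sin q.1 * Real.cos q.2) := by ring
          have e' : 2 * h q.1 * Real.sin q.1 * Real.cos q.2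
              = 2 * (h q.1 * Real.sin q.1 * Real.cos q.2) := by ring
          rw [e, e']
          have := h0 q.1
          exact mul_le_mul_of_nonneg_right (h2 _) (by positivity)
        linarith
      · have : h q.1 * h q.2 * kS q.1 q.2 ≤ G q.swap := by
          simp only [G, Prod.fst_swap, Prod.snd_swap, if_pos hle, kS, max_eq_right hle,
            min_eq_left hle]
          have e : h q.1 * h q.2 * (Real.sin q.2 * Real.cos q.1)
              = h q.1 * (h q.2 * Real.sin q.2 * Real.cos q.1) := by ring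
          have e' : 2 * h q.2 * Real.sin q.2 * Real.cos q.1
              = 2 * (h q.2 * Real.sin q.2 * Real.cos q.1) := by ring
          rw [e, e']
          have := h0 q.2
          exact mul_le_mul_of_nonneg_right (h2 _) (by positivity)
        linarith
  rw [integral_add hGi hGi', hG1, hG2] at hle
  linarith

theorem fold_half {g : ℝ → ℝ} (hg : IntervalIntegrable g volume (-(π / 2)) (π / 2)) :
    ∫ a in (-(π / 2))..(π / 2), g a = ∫ t, (g t + g (-t)) ∂mq := by
  have hp := Real.pi_pos
  have h1 : IntervalIntegrable g volume (-(π / 2)) 0 := hg.mono_set (by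
    rw [uIcc_of_le (by linarith), uIcc_of_le (by linarith)]
    exact Icc_subset_Icc le_rfl (by linarith))
  have h2 : IntervalIntegrable g volume 0 (π / 2) := hg.mono_set (by
    rw [uIcc_of_le (by linarith), uIcc_of_le (by linarith)]
    exact Icc_subset_Icc (by linarith) le_rfl)
  have h3 : IntervalIntegrable (fun t => g (-t)) volume 0 (π / 2) := by
    have := h1.comp_sub_left 0
    simp only [zero_sub, neg_neg] at this
    simpa using this.symm
  rw [← intervalIntegral.integral_add_adjacent_intervals h1 h2]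
  have e : ∫ t in (0:ℝ)..(π / 2), g (-t) = ∫ a in (-(π / 2))..0, g a := by
    rw [intervalIntegral.integral_comp_neg (fun a => g a)]
    simp
  rw [← e, add_comm, ← intervalIntegral.integral_add h2 h3,
    intervalIntegral.integral_of_le (by linarith), integral_Ioc_eq_integral_Ioo]

theorem bdd_ii {g : ℝ → ℝ} (hg : Measurable g) {C : ℝ} (hC : ∀ x, |g x| ≤ C) (a b : ℝ) :
    IntervalIntegrable g volume a b := by
  rw [intervalIntegrable_iff]
  have : IsFiniteMeasure (volume.restrict (uIoc a b)) := by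
    rw [uIoc]; infer_instance
  exact Integrable.of_bound hg.aestronglyMeasurable C (Eventually.of_forall hC)

theorem J_meas {f : ℝ → ℝ} (hf : Measurable f) (x y : ℝ) :
    Measurable fun a => ∫ b in x..y, f a * f b * |Real.sin (a - b)| := by
  have hm : StronglyMeasurable (Function.uncurry fun (a b : ℝ) => f a * f b * |Real.sin (a - b)|) := by
    apply Measurable.stronglyMeasurable
    unfold Function.uncurry
    exact ((hf.comp measurable_fst).mul (hf.comp measurable_snd)).mul
      ((Real.measurable_sin.comp (measurable_fst.sub measurable_snd)).abs)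
  simp only [intervalIntegral]
  exact (hm.integral_prod_right (ν := volume.restrict (Ioc x y))).measurable.sub
    (hm.integral_prod_right (ν := volume.restrict (Ioc y x))).measurable

theorem F_meas {f : ℝ → ℝ} (hf : Measurable f) (a : ℝ) :
    Measurable fun b => f a * f b * |Real.sin (a - b)| :=
  (measurable_const.mul hf).mul ((Real.measurable_sin.comp (measurable_const.sub measurable_id)).abs)

theorem F_bound {f : ℝ → ℝ} (h0 : ∀ x, 0 ≤ f x) (h1 : ∀ x, f x ≤ 1) (a b : ℝ) :
    abs (f a * f b * |Real.sin (a - b)|) ≤ 1 := by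
  rw [abs_mul, abs_mul, abs_abs, abs_of_nonneg (h0 a), abs_of_nonneg (h0 b)]
  exact mul_le_one₀ (mul_le_one₀ (h1 a) (h0 b) (h1 b)) (abs_nonneg _) (Real.abs_sin_le_one _)

theorem J_bound {f : ℝ → ℝ} (h0 : ∀ x, 0 ≤ f x) (h1 : ∀ x, f x ≤ 1)
    (x y a : ℝ) : abs (∫ b in x..y, f a * f b * |Real.sin (a - b)|) ≤ 1 * |y - x| := by
  have := intervalIntegral.norm_integral_le_of_norm_le_const (a := x) (b := y)
    (f := fun b => f a * f b * |Real.sin (a - b)|) (C := 1) (fun b _ => F_bound h0 h1 a b)
  exact this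

/-- the pair inequality on the half circle -/
theorem kernel_half {f : ℝ → ℝ} (hf : Measurable f) (h0 : ∀ x, 0 ≤ f x) (h1 : ∀ x, f x ≤ 1) :
    ∫ a in (-(π / 2))..(π / 2), ∫ b in (-(π / 2))..(π / 2), f a * f b * |Real.sin (a - b)| ≤
      4 * ∫ a in (-(π / 2))..(π / 2), f a * Real.sin a ^ 2 := by
  set J : ℝ → ℝ := fun a => ∫ b in (-(π / 2))..(π / 2), f a * f b * |Real.sin (a - b)| with hJ
  have hJi : IntervalIntegrable J volume (-(π / 2)) (π / 2) :=
    bdd_ii (J_meas hf _ _) (J_bound h0 h1 _ _) _ _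
  have hJe : ∀ a, J a = ∫ t, (f a * f t * |Real.sin (a - t)| + f a * f (-t) * |Real.sin (a - -t)|) ∂mq :=
    fun a => fold_half (bdd_ii (F_meas hf a) (F_bound h0 h1 a) _ _)
  rw [fold_half hJi]
  set h : ℝ → ℝ := fun s => f s + f (-s) with hh
  set k : ℝ → ℝ := fun s => f s - f (-s) with hk
  have hhm : Measurable h := hf.add (hf.comp measurable_neg)
  have hkm : Measurable k := hf.sub (hf.comp measurable_neg)
  have hh0 : ∀ x, 0 ≤ h x := fun x => add_nonneg (h0 _) (h0 _)
  have hh2 : ∀ x, h x ≤ 2 := fun x => by have := h1 x; have := h1 (-x); simp only [hh]; linarith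
  have hk1 : ∀ x, |k x| ≤ 1 := fun x => by
    have := h1 x; have := h1 (-x); have := h0 x; have := h0 (-x)
    simp only [hk]; rw [abs_le]; constructor <;> linarith
  have hSi : Integrable (fun q : ℝ × ℝ => h q.1 * h q.2 * kS q.1 q.2) (mq.prod mq) := by
    refine Integrable.of_bound (C := 4) ?_ (Eventually.of_forall fun q => ?_)
    · exact (((hhm.comp measurable_fst).mul (hhm.comp measurable_snd)).mul
        kS_meas).aestronglyMeasurable
    · rw [Real.norm_eq_abs, abs_mul, abs_mul, abs_of_nonneg (hh0 _), abs_of_nonneg (hh0 _)]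
      calc h q.1 * h q.2 * |kS q.1 q.2| ≤ 2 * 2 * 1 := by
            gcongr
            · exact hh0 _
            · exact hh2 _
            · exact hh2 _
            · exact kS_bound _ _
        _ = 4 := by norm_num
  have hCi : Integrable (fun q : ℝ × ℝ => k q.1 * k q.2 * kC q.1 q.2) (mq.prod mq) := by
    refine Integrable.of_bound (C := 1) ?_ (Eventually.of_forall fun q => ?_)
    · exact (((hkm.comp measurable_fst).mul (hkm.comp measurable_snd)).mul
        kC_meas).aestronglyMeasurable
    · rw [Real.norm_eq_abs, abs_mul, abs_mul]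
      exact mul_le_one₀ (mul_le_one₀ (hk1 _) (abs_nonneg _) (hk1 _)) (abs_nonneg _) (kC_bound _ _)
  have e1 : ∫ s, (J s + J (-s)) ∂mq =
      ∫ q, (h q.1 * h q.2 * kS q.1 q.2 - k q.1 * k q.2 * kC q.1 q.2) ∂(mq.prod mq) := by
    have hSC : Integrable (fun q : ℝ × ℝ =>
        h q.1 * h q.2 * kS q.1 q.2 - k q.1 * k q.2 * kC q.1 q.2) (mq.prod mq) := hSi.sub hCi
    rw [integral_prod _ hSC]
    apply setIntegral_congr_fun measurableSet_Ioo
    intro s hs
    show J s + J (-s) = ∫ t, (h s * h t * kS s t - k s * k t * kC s t) ∂mq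
    rw [hJe, hJe, ← integral_add]
    · apply setIntegral_congr_fun measurableSet_Ioo
      intro t ht
      exact four_terms f (Ioo_subset_Icc_self hs) (Ioo_subset_Icc_self ht)
    · refine Integrable.of_bound (C := 2) ?_ (Eventually.of_forall fun t => ?_)
      · exact ((F_meas hf s).add ((F_meas hf s).comp measurable_neg)).aestronglyMeasurable
      · have a1 := F_bound h0 h1 s t
        have a2 := F_bound h0 h1 s (-t)
        rw [Real.norm_eq_abs]
        exact (abs_add_le _ _).trans (by linarith)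
    · refine Integrable.of_bound (C := 2) ?_ (Eventually.of_forall fun t => ?_)
      · exact ((F_meas hf (-s)).add ((F_meas hf (-s)).comp measurable_neg)).aestronglyMeasurable
      · have a1 := F_bound h0 h1 (-s) t
        have a2 := F_bound h0 h1 (-s) (-t)
        rw [Real.norm_eq_abs]
        exact (abs_add_le _ _).trans (by linarith)
  rw [e1, integral_sub hSi hCi]
  have p1 := kS_le h hhm hh0 hh2
  have p2 := kC_posdef k hkm hk1
  have e2 : ∫ a in (-(π / 2))..(π / 2), f a * Real.sin a ^ 2 = ∫ s, h s * Real.sin s ^ 2 ∂mq := by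
    rw [fold_half]
    · congr 1
      ext t
      rw [Real.sin_neg]; simp only [hh]; ring
    · apply bdd_ii (C := 1) (hf.mul (Real.measurable_sin.pow_const 2))
      intro x
      show abs (f x * Real.sin x ^ 2) ≤ 1
      rw [abs_mul, abs_of_nonneg (h0 x), abs_of_nonneg (sq_nonneg _)]
      exact mul_le_one₀ (h1 x) (sq_nonneg _) (Real.sin_sq_le_one x)
  rw [e2]
  linarith

/-- the integral of a `π`-periodic function over a full turn -/
theorem full_turn {g : ℝ → ℝ} (hg : Function.Periodic g π) (hi : ∀ a b, IntervalIntegrable g volume a b)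
    (c : ℝ) : ∫ a in (0:ℝ)..(2 * π), g a = 2 * ∫ a in (-(π / 2))..(π / 2), g (a + c) := by
  have h1 : ∫ a in (0:ℝ)..(2 * π), g a = (∫ a in (0:ℝ)..π, g a) + ∫ a in π..(2 * π), g a :=
    (intervalIntegral.integral_add_adjacent_intervals (hi _ _) (hi _ _)).symm
  have h2 : ∫ a in π..(2 * π), g a = ∫ a in (0:ℝ)..π, g a := by
    have := hg.intervalIntegral_add_eq π 0
    rw [zero_add] at this
    rw [← this]; congr 1; ring
  have h3 : ∫ a in (-(π / 2))..(π / 2), g (a + c) = ∫ a in (0:ℝ)..π, g a := by
    rw [intervalIntegral.integral_comp_add_right (fun a => g a)]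
    have := hg.intervalIntegral_add_eq (-(π / 2) + c) 0
    rw [zero_add] at this
    rw [← this]; congr 1; ring
  rw [h1, h2, h3]; ring

/-- **kernel lemma**, Bochner form -/
theorem kernel_full {f : ℝ → ℝ} (hf : Measurable f) (h0 : ∀ x, 0 ≤ f x) (h1 : ∀ x, f x ≤ 1)
    (hp : Function.Periodic f π) (c : ℝ) :
    ∫ a in (0:ℝ)..(2 * π), ∫ b in (0:ℝ)..(2 * π), f a * f b * |Real.sin (a - b)| ≤
      8 * ∫ a in (0:ℝ)..(2 * π), f a * Real.sin (a - c) ^ 2 := by
  have hin : ∀ a, ∫ b in (0:ℝ)..(2 * π), f a * f b * |Real.sin (a - b)| =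
      2 * ∫ b in (-(π / 2))..(π / 2), f a * f (b + c) * |Real.sin (a - (b + c))| := by
    intro a
    apply full_turn (g := fun b => f a * f b * |Real.sin (a - b)|)
    · intro b
      simp only
      rw [hp b, show a - (b + π) = (a - b) - π by ring, Real.sin_sub_pi, abs_neg]
    · exact fun x y => bdd_ii (F_meas hf a) (F_bound h0 h1 a) x y
  have hout : ∫ a in (0:ℝ)..(2 * π), ∫ b in (0:ℝ)..(2 * π), f a * f b * |Real.sin (a - b)| =
      2 * ∫ a in (-(π / 2))..(π / 2),
        ∫ b in (0:ℝ)..(2 * π), f (a + c) * f b * |Real.sin ((a + c) - b)| := by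
    apply full_turn (g := fun a => ∫ b in (0:ℝ)..(2 * π), f a * f b * |Real.sin (a - b)|)
    · intro a
      simp only
      congr 1
      ext b
      rw [hp a, show a + π - b = (a - b) + π by ring, Real.sin_add_pi, abs_neg]
    · exact fun x y => bdd_ii (J_meas hf _ _) (J_bound h0 h1 _ _) x y
  have hr : ∫ a in (0:ℝ)..(2 * π), f a * Real.sin (a - c) ^ 2 =
      2 * ∫ a in (-(π / 2))..(π / 2), f (a + c) * Real.sin (a + c - c) ^ 2 := by
    apply full_turn (g := fun a => f a * Real.sin (a - c) ^ 2)
    · intro a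
      simp only
      rw [hp a, show a + π - c = (a - c) + π by ring, Real.sin_add_pi, neg_sq]
    · intro x y
      apply bdd_ii (C := 1) (hf.mul ((Real.measurable_sin.comp (measurable_id.sub_const c)).pow_const 2))
      intro x
      show abs (f x * Real.sin (x - c) ^ 2) ≤ 1
      rw [abs_mul, abs_of_nonneg (h0 x), abs_of_nonneg (sq_nonneg _)]
      exact mul_le_one₀ (h1 x) (sq_nonneg _) (Real.sin_sq_le_one _)
  rw [hout, hr]
  have e : ∀ a, ∫ b in (0:ℝ)..(2 * π), f (a + c) * f b * |Real.sin ((a + c) - b)| =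
      2 * ∫ b in (-(π / 2))..(π / 2), f (a + c) * f (b + c) * |Real.sin (a - b)| := by
    intro a
    rw [hin (a + c)]
    congr 2
    ext b
    rw [show a + c - (b + c) = a - b by ring]
  simp_rw [e]
  rw [intervalIntegral.integral_const_mul]
  have := kernel_half (f := fun a => f (a + c)) (hf.comp (measurable_id.add_const c))
    (fun x => h0 _) (fun x => h1 _)
  simp only [add_sub_cancel_right]
  linarith

/-- **kernel lemma**, `lintegral` form for a set of angles -/
theorem kernel_set {H : Set ℝ} (hH : MeasurableSet H) (hp : ∀ a, a + π ∈ H ↔ a ∈ H) (c : ℝ) :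
    ∫⁻ a in Ioc 0 (2 * π), ∫⁻ b in Ioc 0 (2 * π),
        H.indicator 1 a * H.indicator 1 b * ENNReal.ofReal |Real.sin (a - b)| ≤
      8 * ∫⁻ a in Ioc 0 (2 * π), H.indicator 1 a * ENNReal.ofReal (Real.sin (a - c) ^ 2) := by
  have h2 : (0:ℝ) ≤ 2 * π := by positivity
  set f : ℝ → ℝ := H.indicator 1 with hf
  have hfm : Measurable f := measurable_one.indicator hH
  have h0 : ∀ x, 0 ≤ f x := fun x => indicator_nonneg (fun _ _ => zero_le_one) x
  have h1 : ∀ x, f x ≤ 1 := fun x => by
    rw [hf]; by_cases hx : x ∈ H <;> simp [hx]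
  have hfp : Function.Periodic f π := by
    intro x
    rw [hf]
    by_cases hx : x ∈ H
    · rw [indicator_of_mem hx, indicator_of_mem ((hp x).2 hx)]; rfl
    · rw [indicator_of_notMem hx, indicator_of_notMem (fun hh => hx ((hp x).1 hh))]
  have hfe : ∀ x, (H.indicator (1 : ℝ → ENNReal) x) = ENNReal.ofReal (f x) := by
    intro x
    rw [hf]
    by_cases hx : x ∈ H <;> simp [hx]
  have key := kernel_full hfm h0 h1 hfp c
  have hin : ∀ a, ∫⁻ b in Ioc 0 (2 * π),
        H.indicator 1 a * H.indicator 1 b * ENNReal.ofReal |Real.sin (a - b)| =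
      ENNReal.ofReal (∫ b in (0:ℝ)..(2 * π), f a * f b * |Real.sin (a - b)|) := by
    intro a
    rw [intervalIntegral.integral_of_le h2, ofReal_integral_eq_lintegral_ofReal]
    · congr 1
      ext b
      rw [hfe, hfe, ← ENNReal.ofReal_mul (h0 a),
        ← ENNReal.ofReal_mul (mul_nonneg (h0 a) (h0 b))]
    · have := bdd_ii (F_meas hfm a) (F_bound h0 h1 a) 0 (2 * π)
      rwa [intervalIntegrable_iff_integrableOn_Ioc_of_le h2] at this
    · exact Eventually.of_forall fun b =>
        mul_nonneg (mul_nonneg (h0 a) (h0 b)) (abs_nonneg _)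
  simp_rw [hin]
  rw [← ofReal_integral_eq_lintegral_ofReal]
  · have e8 : (8 : ENNReal) = ENNReal.ofReal 8 := by norm_num
    have hr : ∫⁻ a in Ioc 0 (2 * π), H.indicator 1 a * ENNReal.ofReal (Real.sin (a - c) ^ 2) =
        ENNReal.ofReal (∫ a in (0:ℝ)..(2 * π), f a * Real.sin (a - c) ^ 2) := by
      rw [intervalIntegral.integral_of_le h2, ofReal_integral_eq_lintegral_ofReal]
      · congr 1
        ext a
        rw [hfe, ← ENNReal.ofReal_mul (h0 a)]
      · have : IntervalIntegrable (fun a => f a * Real.sin (a - c) ^ 2) volume 0 (2 * π) := by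
          apply bdd_ii (C := 1)
            (hfm.mul ((Real.measurable_sin.comp (measurable_id.sub_const c)).pow_const 2))
          intro x
          show abs (f x * Real.sin (x - c) ^ 2) ≤ 1
          rw [abs_mul, abs_of_nonneg (h0 x), abs_of_nonneg (sq_nonneg _)]
          exact mul_le_one₀ (h1 x) (sq_nonneg _) (Real.sin_sq_le_one _)
        rwa [intervalIntegrable_iff_integrableOn_Ioc_of_le h2] at this
      · exact Eventually.of_forall fun a => mul_nonneg (h0 a) (sq_nonneg _)
    rw [hr, e8, ← ENNReal.ofReal_mul (by norm_num)]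
    apply ENNReal.ofReal_le_ofReal
    rw [← intervalIntegral.integral_of_le h2]
    exact key
  · have := bdd_ii (J_meas hfm 0 (2 * π)) (J_bound h0 h1 0 (2 * π)) 0 (2 * π)
    rwa [intervalIntegrable_iff_integrableOn_Ioc_of_le h2] at this
  · exact Eventually.of_forall fun a => intervalIntegral.integral_nonneg h2 fun b _ =>
        mul_nonneg (mul_nonneg (h0 a) (h0 b)) (abs_nonneg _)

end PPF
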