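import Pool.Agent.Lib.MP_a4f5e0_gt.IfD

/-!
JOB L1a. Local inversion for the foliation (inverse function theorem with parameters).

Let `n = u g (z₀.1, z₀.2 + π / 2)` (a constant vector), `Phi q = φ q.2.2 (q.1.1 + q.2.1 • n, q.1.2)` for
`q = (z, s, t) : St × ℝ × ℝ`, and `Θ q = (q.1, (Phi q).1) : St × E`.

* `contDiff_Phi`: `hφ.C1` composed with the smooth map `q ↦ (q.2.2, (q.1.1 + q.2.1 • n, q.1.2))`.
* `hasFDerivAt_Phi`: the derivative of `q ↦ (Phi q).1` at `(z₀, 0, 0)` is `(δz, δs, δt) ↦ δz.1 + δs • n + δt • u g z₀`. Proof: it is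
  differentiable; the partial derivatives: on the slice `t = 0` the map is `q.1.1 + q.2.1 • n` because `φ 0 = id`, on the slice
  `(z₀, 0, t)` it is `(φ t z₀).1` with derivative `u g z₀` (`IsFlow.hasDerivAt_fst`). A linear map is determined by its values on
  `(δz, δs, 0)` and `(0, 0, δt)`.
* `Θ` has derivative `(δz, δs, δt) ↦ (δz, δz.1 + δs • n + δt • u g z₀)`, which is injective because `n` and `u g z₀` are linearly
  independent (`wd_u`: `wd (u g z₀) n = 1 / dt ≠ 0`), hence bijective between the spaces `St × ℝ × ℝ` and `St × E` of the same finite dimension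
  (`LinearEquiv.ofInjectiveOfFinrankEq`-like, `ContinuousLinearEquiv`), or give the inverse explicitly: `v = δs n + δt u` with
  `δt = g z₀.1 v (u g z₀)`, `δs = g z₀.1 v n` (orthonormal pair, `g_u_u`, `u_rot`/`frame_expand`).
* `fol_inv`: inverse function theorem: `ContDiffAt.toOpenPartialHomeomorph` (or `HasStrictFDerivAt.toOpenPartialHomeomorph`),
  `ContDiffAt.to_localInverse`, `HasStrictFDerivAt.eventually_right_inverse`, `…eventually_left_inverse`.
-/

set_option autoImplicit false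

open MeasureTheory Set Filter Topology Real Metric

noncomputable section

namespace PPF

variable {g : E → E →L[ℝ] E →L[ℝ] ℝ} {φ : ℝ → St → St}

/-- the geodesics starting on the transversal through `z.1` in the direction `n`, with the angle `z.2` -/
def Phi (φ : ℝ → St → St) (n : E) (q : St × ℝ × ℝ) : St :=
  φ q.2.2 (q.1.1 + q.2.1 • n, q.1.2)

theorem contDiff_Phi (hφ : IsFlow g φ) (n : E) : ContDiff ℝ 1 (Phi φ n) := by
  have h : ContDiff ℝ 1 (fun q : St × ℝ × ℝ => ((q.2.2, (q.1.1 + q.2.1 • n, q.1.2)) : ℝ × St)) := by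
    fun_prop
  exact hφ.C1.comp h

theorem hasFDerivAt_Phi (hφ : IsFlow g φ) (n : E) (z₀ : St) (v : St × ℝ × ℝ) :
    fderiv ℝ (fun q => (Phi φ n q).1) (z₀, 0, 0) v = v.1.1 + v.2.1 • n + v.2.2 • u g z₀ := by
  have hC : ContDiff ℝ 1 (fun q => (Phi φ n q).1) := contDiff_fst.comp (contDiff_Phi hφ n)
  have hd : HasFDerivAt (fun q => (Phi φ n q).1) (fderiv ℝ (fun q => (Phi φ n q).1) (z₀, 0, 0))
      (z₀, 0, 0) := ((hC.differentiable (by norm_num)) _).hasFDerivAt
  set L := fderiv ℝ (fun q => (Phi φ n q).1) (z₀, 0, 0) with hL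
  have hv : v = (v.1, v.2.1, 0) + v.2.2 • ((0, 0, 1) : St × ℝ × ℝ) := by
    obtain ⟨v1, v2, v3⟩ := v
    simp
  have h1 : L (v.1, v.2.1, 0) = v.1.1 + v.2.1 • n := by
    have hc : HasDerivAt (fun r : ℝ => ((z₀ + r • v.1, r * v.2.1, 0) : St × ℝ × ℝ))
        (v.1, v.2.1, 0) 0 := by
      have e1 : HasDerivAt (fun r : ℝ => z₀ + r • v.1) v.1 0 := by
        have := ((hasDerivAt_id (0:ℝ)).smul_const v.1).const_add z₀
        simpa using this
      have e2 : HasDerivAt (fun r : ℝ => r * v.2.1) v.2.1 0 := by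
        have := (hasDerivAt_id (0:ℝ)).mul_const v.2.1
        simpa using this
      exact e1.prodMk (e2.prodMk (hasDerivAt_const (0:ℝ) (0:ℝ)))
    have hd' : HasFDerivAt (fun q => (Phi φ n q).1) L
        ((fun r : ℝ => ((z₀ + r • v.1, r * v.2.1, 0) : St × ℝ × ℝ)) 0) := by
      simpa using hd
    have h2 := hd'.comp_hasDerivAt (0:ℝ) hc
    have h3 : ((fun q => (Phi φ n q).1) ∘ fun r : ℝ => ((z₀ + r • v.1, r * v.2.1, 0) : St × ℝ × ℝ)) =
        fun r : ℝ => z₀.1 + r • (v.1.1 + v.2.1 • n) := by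
      funext r
      simp only [Function.comp_apply, Phi, hφ.zero, Prod.fst_add, Prod.smul_fst, smul_add, smul_smul]
      rw [add_assoc]
    rw [h3] at h2
    have h4 : HasDerivAt (fun r : ℝ => z₀.1 + r • (v.1.1 + v.2.1 • n)) (v.1.1 + v.2.1 • n) 0 := by
      have := ((hasDerivAt_id (0:ℝ)).smul_const (v.1.1 + v.2.1 • n)).const_add z₀.1
      simpa using this
    exact h2.unique h4
  have h2 : L (0, 0, 1) = u g z₀ := by
    have hc : HasDerivAt (fun r : ℝ => ((z₀, 0, r) : St × ℝ × ℝ)) (0, 0, 1) 0 :=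
      (hasDerivAt_const (0:ℝ) z₀).prodMk ((hasDerivAt_const (0:ℝ) (0:ℝ)).prodMk (hasDerivAt_id 0))
    have h2 := HasFDerivAt.comp_hasDerivAt (0:ℝ) (l := fun q => (Phi φ n q).1) (l' := L)
      (f := fun r : ℝ => ((z₀, 0, r) : St × ℝ × ℝ)) (by simpa using hd) hc
    have h3 : ((fun q => (Phi φ n q).1) ∘ fun r : ℝ => ((z₀, 0, r) : St × ℝ × ℝ)) =
        fun r : ℝ => (φ r z₀).1 := by
      funext r
      simp [Phi]
    rw [h3] at h2
    have h4 := hφ.hasDerivAt_fst 0 z₀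
    rw [hφ.zero] at h4
    exact h2.unique h4
  conv_lhs => rw [hv]
  rw [map_add, map_smul, h1, h2]

theorem fol_inv (hg : Met g) (hφ : IsFlow g φ) (z₀ : St) :
    ∃ Ψ : St × E → St × ℝ × ℝ, ContDiffAt ℝ 1 Ψ (z₀, z₀.1) ∧ Ψ (z₀, z₀.1) = (z₀, 0, 0) ∧
      (∀ᶠ w in 𝓝 (z₀, z₀.1), (Ψ w).1 = w.1 ∧
        (Phi φ (u g (z₀.1, z₀.2 + π / 2)) (Ψ w)).1 = w.2) ∧
      (∀ᶠ q in 𝓝 (z₀, (0:ℝ), (0:ℝ)),
        Ψ (q.1, (Phi φ (u g (z₀.1, z₀.2 + π / 2)) q).1) = q) := by
  set n : E := u g (z₀.1, z₀.2 + π / 2) with hn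
  set Th : St × ℝ × ℝ → St × E := fun q => (q.1, (Phi φ n q).1) with hTh
  have hTC : ContDiff ℝ 1 Th := by
    have h1 : ContDiff ℝ 1 (fun q => (Phi φ n q).1) := contDiff_fst.comp (contDiff_Phi hφ n)
    exact contDiff_fst.prodMk h1
  set q₀ : St × ℝ × ℝ := (z₀, 0, 0) with hq₀
  have hTq : Th q₀ = (z₀, z₀.1) := by
    simp [hTh, hq₀, Phi, hφ.zero]
  have hC : ContDiff ℝ 1 (fun q => (Phi φ n q).1) := contDiff_fst.comp (contDiff_Phi hφ n)
  have hd0 : HasFDerivAt (fun q => (Phi φ n q).1) (fderiv ℝ (fun q => (Phi φ n q).1) q₀) q₀ :=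
    ((hC.differentiable (by norm_num)) _).hasFDerivAt
  set M := fderiv ℝ (fun q => (Phi φ n q).1) q₀ with hM
  have hMv : ∀ v, M v = v.1.1 + v.2.1 • n + v.2.2 • u g z₀ := fun v => hasFDerivAt_Phi hφ n z₀ v
  set L : (St × ℝ × ℝ) →L[ℝ] (St × E) := (ContinuousLinearMap.fst ℝ St (ℝ × ℝ)).prod M with hLd
  have hd : HasFDerivAt Th L q₀ := (hasFDerivAt_fst).prodMk hd0
  have hinj : Function.Injective L := by
    rw [injective_iff_map_eq_zero]
    intro v hv
    have hv' : (v.1, M v) = 0 := hv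
    rw [Prod.mk_eq_zero, hMv] at hv'
    obtain ⟨h1, h2⟩ := hv'
    rw [h1] at h2
    have hz : z₀ = (z₀.1, z₀.2) := rfl
    simp only [Prod.fst_zero, zero_add] at h2
    have h3 : g z₀.1 (u g z₀) (v.2.1 • n + v.2.2 • u g z₀) = 0 := by rw [h2, map_zero]
    have h4 : g z₀.1 n (v.2.1 • n + v.2.2 • u g z₀) = 0 := by rw [h2, map_zero]
    have g1 : g z₀.1 (u g z₀) (u g z₀) = 1 := g_u_self hg z₀
    have g2 : g z₀.1 (u g z₀) n = 0 := by
      have := g_u_u hg z₀.1 z₀.2 (z₀.2 + π / 2)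
      rw [show z₀.2 - (z₀.2 + π / 2) = -(π / 2) by ring, cos_neg, cos_pi_div_two] at this
      exact this
    have g3 : g z₀.1 n (u g z₀) = 0 := by rw [hg.symm]; exact g2
    have g4 : g z₀.1 n n = 1 := g_u_self hg (z₀.1, z₀.2 + π / 2)
    simp only [map_add, map_smul, smul_eq_mul, g1, g2, g3, g4] at h3 h4
    have h5 : v.2.2 = 0 := by linarith
    have h6 : v.2.1 = 0 := by linarith
    ext1
    · exact h1
    · exact Prod.ext h6 h5
  have hfin : Module.finrank ℝ (St × ℝ × ℝ) = Module.finrank ℝ (St × E) := by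
    simp
  have hbij : Function.Bijective (L : (St × ℝ × ℝ) →ₗ[ℝ] (St × E)) := by
    have hi : Function.Injective (L : (St × ℝ × ℝ) →ₗ[ℝ] (St × E)) := hinj
    exact ⟨hi, (LinearMap.injective_iff_surjective_of_finrank_eq_finrank hfin).mp hi⟩
  let e : (St × ℝ × ℝ) ≃L[ℝ] (St × E) :=
    (LinearEquiv.ofBijective (L : (St × ℝ × ℝ) →ₗ[ℝ] (St × E)) hbij).toContinuousLinearEquiv
  have he : (e : (St × ℝ × ℝ) →L[ℝ] (St × E)) = L := by
    refine ContinuousLinearMap.ext fun v => ?_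
    rfl
  have hd' : HasFDerivAt Th (e : (St × ℝ × ℝ) →L[ℝ] (St × E)) q₀ := by rw [he]; exact hd
  have hCa : ContDiffAt ℝ 1 Th q₀ := hTC.contDiffAt
  have hst := hCa.hasStrictFDerivAt' hd' (by norm_num)
  refine ⟨hCa.localInverse hd' (by norm_num), ?_, ?_, ?_, ?_⟩
  · have := hCa.to_localInverse hd' (by norm_num)
    rwa [hTq] at this
  · have := hCa.localInverse_apply_image hd' (by norm_num)
    rwa [hTq] at this
  · have := hst.eventually_right_inverse
    rw [hTq] at this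
    filter_upwards [this] with w hw
    have hw' : Th (hCa.localInverse hd' (by norm_num) w) = w := hw
    constructor
    · exact congrArg Prod.fst hw'
    · exact congrArg Prod.snd hw'
  · have := hst.eventually_left_inverse
    filter_upwards [this] with q hq
    exact hq

end PPF
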