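import Pool.Agent.Lib.MP_a4f5e0_gt.L1a

/-!
JOB L1b. The local foliation by geodesics.

Take `n = u g (z₀.1, z₀.2 + π / 2)`, `Ψ` from `fol_inv` (L1a), `S z x = (Ψ (z, x)).2.1`, `A z x = (Phi φ n (Ψ (z, x))).2`.
As `Ψ` is `C¹` at `(z₀, z₀.1)`, it is `C¹` at all points near (`ContDiffAt.eventually`), continuous there, and the identities of `fol_inv`
hold in open neighbourhoods (`Filter.Eventually.eventually_nhds`). Choose `δ, ε` so small that for `(z, x) ∈ ball z₀ ε ×ˢ ball z₀.1 δ`: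
`Ψ` is `C¹` at `(z, x)`; `(Ψ (z,x)).1 = z`; `(Phi φ n (Ψ (z,x))).1 = x`; and the left inverse identity holds in a neighbourhood of `Ψ (z,x)`; and for
`z ∈ ball z₀ ε'`, `|t| < ε'`: `(φ t z).1 ∈ ball z₀.1 δ` and the left inverse identity holds at `(z, 0, t)`
(note `Phi φ n (z, 0, t) = φ t z`).

Facts at `(z, x)` in this product, with `q = Ψ (z, x) = (z, s, t)`, `Phi φ n q = (x, A z x)`: for `t'` near `t` the left inverse identity at
`(z, s, t')` gives `S z (Phi φ n (z,s,t')).1 = s` and `A z (Phi φ n (z,s,t')).1 = (Phi φ n (z,s,t')).2`. Differentiate in `t'` at `t`: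
`(Phi φ n (z,s,·)).1` has derivative `u g (x, A z x)`, `(Phi φ n (z,s,·)).2` has derivative `an g (x, A z x)` (`IsFlow.hasDerivAt_fst/snd`). So
`fderiv (S z) x (u g (x, A z x)) = 0` and `fderiv (A z) x (u g (x, A z x)) = an g (x, A z x)`.

Bounds: `w ↦ fderiv ℝ (A w.1) w.2 = (fderiv ℝ (fun w => (Phi φ n (Ψ w)).2) w).comp (inr)` is continuous near `(z₀, z₀.1)`, hence bounded near it; the same for
`S`. The function `w ↦ fderiv ℝ (S w.1) w.2 (u g (w.2, A w.1 w.2 + π / 2))` is continuous at `(z₀, z₀.1)` and has there the value `1`, because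
`A z₀ z₀.1 = z₀.2` and `S z₀ (z₀.1 + s • n) = s` for small `s` (left inverse identity at `(z₀, s, 0)`, `φ 0 = id`). So it is `≥ 1/2` near.

Last two clauses: `Ψ (z, (φ t z).1) = (z, 0, t)`; and if `S z x = 0` then `Ψ (z, x) = (z, 0, t)` and `φ t z = Phi φ n (z, 0, t) = (x, A z x)`.
-/

set_option autoImplicit false

open MeasureTheory Set Filter Topology Real Metric

noncomputable section

namespace PPF

variable {g : E → E →L[ℝ] E →L[ℝ] ℝ} {φ : ℝ → St → St}

/-- chain rule for a slice -/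
theorem L1b_slice {X : Type*} [NormedAddCommGroup X] [NormedSpace ℝ X] {F : X × E → ℝ} {z : X} {x : E}
    (h : DifferentiableAt ℝ F (z, x)) :
    HasFDerivAt (fun y => F (z, y)) ((fderiv ℝ F (z, x)).comp (ContinuousLinearMap.inr ℝ X E)) x := by
  have h1 : HasFDerivAt (fun y : E => (z, y)) (ContinuousLinearMap.inr ℝ X E) x :=
    hasFDerivAt_prodMk_right z x
  exact h.hasFDerivAt.comp x h1

/-- A local foliation by geodesics around the geodesic of `z`, for all `z` near `z₀`, with uniform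
constants. `A z x` is the angle of the leaf through `x`, `S z x` its label, `S z = 0` is the leaf of `z`. -/
theorem local_foliation (hg : Met g) (hφ : IsFlow g φ) (z₀ : St) :
    ∃ δ > 0, ∃ ε > 0, ∃ Cc > 0, ∃ S A : St → E → ℝ, ∀ z ∈ ball z₀ ε,
      ContDiffOn ℝ 1 (S z) (ball z₀.1 δ) ∧ ContDiffOn ℝ 1 (A z) (ball z₀.1 δ) ∧
      (∀ x ∈ ball z₀.1 δ, fderiv ℝ (A z) x (u g (x, A z x)) = an g (x, A z x)) ∧
      (∀ x ∈ ball z₀.1 δ, fderiv ℝ (S z) x (u g (x, A z x)) = 0) ∧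
      (∀ x ∈ ball z₀.1 δ, ‖fderiv ℝ (A z) x‖ ≤ Cc ∧ ‖fderiv ℝ (S z) x‖ ≤ Cc ∧
        1 ≤ Cc * fderiv ℝ (S z) x (u g (x, A z x + π / 2))) ∧
      (∀ t, |t| < ε → (φ t z).1 ∈ ball z₀.1 δ ∧ S z (φ t z).1 = 0 ∧
        A z (φ t z).1 = (φ t z).2) ∧
      (∀ x ∈ ball z₀.1 δ, S z x = 0 → ∃ t, φ t z = (x, A z x)) := by
  obtain ⟨Ψ, hΨC, hΨ0, hR, hL⟩ := fol_inv hg hφ z₀
  set n : E := u g (z₀.1, z₀.2 + π / 2) with hn
  set SS : St × E → ℝ := fun w => (Ψ w).2.1 with hSS
  set AA : St × E → ℝ := fun w => (Phi φ n (Ψ w)).2 with hAA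
  have hSC : ContDiffAt ℝ 1 SS (z₀, z₀.1) := by
    have h1 : ContDiff ℝ 1 (fun q : St × ℝ × ℝ => q.2.1) := by fun_prop
    exact h1.contDiffAt.comp (z₀, z₀.1) hΨC
  have hAC : ContDiffAt ℝ 1 AA (z₀, z₀.1) := by
    have h1 : ContDiff ℝ 1 (fun q : St × ℝ × ℝ => (Phi φ n q).2) :=
      contDiff_snd.comp (contDiff_Phi hφ n)
    exact h1.contDiffAt.comp (z₀, z₀.1) hΨC
  have hP0 : ∀ (z : St) (t : ℝ), Phi φ n (z, 0, t) = φ t z := by
    intro z t
    simp [Phi]
  have hP00 : ∀ (z : St) (s : ℝ), Phi φ n (z, s, 0) = (z.1 + s • n, z.2) := by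
    intro z s
    simp [Phi, hφ.zero]
  have hA0 : AA (z₀, z₀.1) = z₀.2 := by
    simp only [hAA, hΨ0, hP00]
  have hS0 : SS (z₀, z₀.1) = 0 := by
    simp only [hSS, hΨ0]
  -- the derivative of the label in the direction `n`
  have hder : fderiv ℝ SS (z₀, z₀.1) (0, n) = 1 := by
    have hc : HasDerivAt (fun s : ℝ => ((z₀, z₀.1 + s • n) : St × E)) (0, n) 0 := by
      have h1 : HasDerivAt (fun s : ℝ => z₀.1 + s • n) n 0 := by
        have := ((hasDerivAt_id (0:ℝ)).smul_const n).const_add z₀.1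
        simpa using this
      exact (hasDerivAt_const (0:ℝ) z₀).prodMk h1
    have hd : HasFDerivAt SS (fderiv ℝ SS (z₀, z₀.1)) ((fun s : ℝ => ((z₀, z₀.1 + s • n) : St × E)) 0) := by
      have := (hSC.differentiableAt (by norm_num)).hasFDerivAt
      simpa using this
    have h2 := hd.comp_hasDerivAt (0:ℝ) hc
    have hev : ∀ᶠ s : ℝ in 𝓝 0, (SS ∘ fun s : ℝ => ((z₀, z₀.1 + s • n) : St × E)) s = s := by
      have hcont : Continuous (fun s : ℝ => ((z₀, s, 0) : St × ℝ × ℝ)) := by fun_prop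
      have h3 := (hcont.tendsto 0).eventually (hL)
      filter_upwards [h3] with s hs
      simp only [hP00] at hs
      simp only [Function.comp_apply, hSS, hs]
    have h4 : HasDerivAt (fun s : ℝ => s) (fderiv ℝ SS (z₀, z₀.1) (0, n)) 0 :=
      h2.congr_of_eventuallyEq (hev.mono fun s hs => hs.symm)
    exact h4.unique (hasDerivAt_id 0)
  -- continuity of the derivatives
  have hSf : ContinuousAt (fderiv ℝ SS) (z₀, z₀.1) :=
    (hSC.fderiv_right (m := 0) (by norm_num)).continuousAt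
  have hAf : ContinuousAt (fderiv ℝ AA) (z₀, z₀.1) :=
    (hAC.fderiv_right (m := 0) (by norm_num)).continuousAt
  have hcross : ContinuousAt (fun w : St × E => fderiv ℝ SS w (0, u g (w.2, AA w + π / 2)))
      (z₀, z₀.1) := by
    apply hSf.clm_apply
    have hu : Continuous (u g) := (contDiff_u hg 0).continuous
    have h1 : ContinuousAt (fun w : St × E => u g (w.2, AA w + π / 2)) (z₀, z₀.1) := by
      apply hu.continuousAt.comp
      exact continuousAt_snd.prodMk (hAC.continuousAt.add continuousAt_const)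
    exact continuousAt_const.prodMk h1
  -- the eventual conditions
  have e1 : ∀ᶠ w in 𝓝 (z₀, z₀.1), ContDiffAt ℝ 1 SS w := hSC.eventually (by norm_num)
  have e2 : ∀ᶠ w in 𝓝 (z₀, z₀.1), ContDiffAt ℝ 1 AA w := hAC.eventually (by norm_num)
  have e3 : ∀ᶠ w in 𝓝 (z₀, z₀.1), ∀ᶠ q in 𝓝 (Ψ w), Ψ (q.1, (Phi φ n q).1) = q := by
    have h1 : ∀ᶠ q in 𝓝 (Ψ (z₀, z₀.1)), ∀ᶠ q' in 𝓝 q, Ψ (q'.1, (Phi φ n q').1) = q' := by
      rw [hΨ0]; exact hL.eventually_nhds
    exact hΨC.continuousAt.eventually h1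
  have e4 : ∀ᶠ w in 𝓝 (z₀, z₀.1), ‖fderiv ℝ SS w‖ < ‖fderiv ℝ SS (z₀, z₀.1)‖ + 1 :=
    hSf.norm.eventually_lt continuousAt_const (by simp)
  have e5 : ∀ᶠ w in 𝓝 (z₀, z₀.1), ‖fderiv ℝ AA w‖ < ‖fderiv ℝ AA (z₀, z₀.1)‖ + 1 :=
    hAf.norm.eventually_lt continuousAt_const (by simp)
  have e6 : ∀ᶠ w in 𝓝 (z₀, z₀.1), (1:ℝ) / 2 < fderiv ℝ SS w (0, u g (w.2, AA w + π / 2)) := by
    apply (continuousAt_const (y := (1:ℝ) / 2)).eventually_lt hcross
    simp only [hA0, ← hn, hder]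
    norm_num
  obtain ⟨δ, hδ, hball⟩ := Metric.eventually_nhds_iff_ball.mp
    (hR.and (e1.and (e2.and (e3.and (e4.and (e5.and e6))))))
  -- the smaller neighbourhood of `z₀`
  have hφc : Continuous (fun q : St × ℝ => (φ q.2 q.1).1) := by
    have := hφ.C1.continuous
    have h2 : Continuous (fun q : St × ℝ => ((q.2, q.1) : ℝ × St)) := by fun_prop
    exact continuous_fst.comp (this.comp h2)
  have f1 : ∀ᶠ q in 𝓝 ((z₀, 0) : St × ℝ), (φ q.2 q.1).1 ∈ ball z₀.1 δ := by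
    have h1 : (fun q : St × ℝ => (φ q.2 q.1).1) (z₀, 0) ∈ ball z₀.1 δ := by
      simp only [hφ.zero]
      exact mem_ball_self hδ
    exact hφc.continuousAt.eventually (isOpen_ball.mem_nhds h1)
  have f2 : ∀ᶠ q in 𝓝 ((z₀, 0) : St × ℝ),
      Ψ (q.1, (φ q.2 q.1).1) = (q.1, 0, q.2) := by
    have hcont : Continuous (fun q : St × ℝ => ((q.1, 0, q.2) : St × ℝ × ℝ)) := by fun_prop
    have h3 := (hcont.tendsto (z₀, 0)).eventually hL
    filter_upwards [h3] with q hq
    simp only [hP0] at hq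
    exact hq
  obtain ⟨ε', hε', hball'⟩ := Metric.eventually_nhds_iff_ball.mp (f1.and f2)
  set C1 := ‖fderiv ℝ SS (z₀, z₀.1)‖ + 1 with hC1
  set C2 := ‖fderiv ℝ AA (z₀, z₀.1)‖ + 1 with hC2
  have hC1p : 0 < C1 := by positivity
  have hC2p : 0 < C2 := by positivity
  refine ⟨δ, hδ, min ε' δ, lt_min hε' hδ, C1 + C2 + 2, by positivity,
    fun z x => SS (z, x), fun z x => AA (z, x), ?_⟩
  intro z hz
  have hzδ : z ∈ ball z₀ δ := ball_subset_ball (min_le_right _ _) hz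
  have hzε : z ∈ ball z₀ ε' := ball_subset_ball (min_le_left _ _) hz
  have hmem : ∀ x ∈ ball z₀.1 δ, ((z, x) : St × E) ∈ ball ((z₀, z₀.1) : St × E) δ := by
    intro x hx
    rw [← ball_prod_same]
    exact ⟨hzδ, hx⟩
  have hzx : Continuous (fun x : E => ((z, x) : St × E)) := by fun_prop
  have hzxC : ContDiff ℝ 1 (fun x : E => ((z, x) : St × E)) := by fun_prop
  -- derivatives of the slices
  have hdS : ∀ x ∈ ball z₀.1 δ, HasFDerivAt (fun y => SS (z, y))
      ((fderiv ℝ SS (z, x)).comp (ContinuousLinearMap.inr ℝ St E)) x := fun x hx =>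
    L1b_slice ((hball _ (hmem x hx)).2.1.differentiableAt (by norm_num))
  have hdA : ∀ x ∈ ball z₀.1 δ, HasFDerivAt (fun y => AA (z, y))
      ((fderiv ℝ AA (z, x)).comp (ContinuousLinearMap.inr ℝ St E)) x := fun x hx =>
    L1b_slice ((hball _ (hmem x hx)).2.2.1.differentiableAt (by norm_num))
  -- the leaf through a point
  have hleaf : ∀ x ∈ ball z₀.1 δ, ∃ s t : ℝ, Ψ (z, x) = (z, s, t) ∧
      Phi φ n (z, s, t) = (x, AA (z, x)) ∧
      ∀ᶠ t' in 𝓝 t, Ψ (z, (Phi φ n (z, s, t')).1) = (z, s, t') := by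
    intro x hx
    obtain ⟨⟨h1, h2⟩, -, -, h3, -⟩ := hball _ (hmem x hx)
    have hq : Ψ (z, x) = (z, (Ψ (z, x)).2.1, (Ψ (z, x)).2.2) := by
      ext1
      · exact h1
      · rfl
    refine ⟨(Ψ (z, x)).2.1, (Ψ (z, x)).2.2, hq, ?_, ?_⟩
    · rw [← hq]
      ext1
      · exact h2
      · rfl
    · have hcont : Continuous (fun t' : ℝ => ((z, (Ψ (z, x)).2.1, t') : St × ℝ × ℝ)) := by fun_prop
      rw [hq] at h3
      exact (hcont.tendsto _).eventually h3
  have hcurve : ∀ (s t : ℝ), HasDerivAt (fun t' => (Phi φ n (z, s, t')).1)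
      (u g (Phi φ n (z, s, t))) t ∧ HasDerivAt (fun t' => (Phi φ n (z, s, t')).2)
      (an g (Phi φ n (z, s, t))) t := fun s t =>
    ⟨hφ.hasDerivAt_fst t (z.1 + s • n, z.2), hφ.hasDerivAt_snd t (z.1 + s • n, z.2)⟩
  refine ⟨?_, ?_, ?_, ?_, ?_, ?_, ?_⟩
  · intro x hx
    exact ((hball _ (hmem x hx)).2.1.comp x hzxC.contDiffAt).contDiffWithinAt
  · intro x hx
    exact ((hball _ (hmem x hx)).2.2.1.comp x hzxC.contDiffAt).contDiffWithinAt
  · intro x hx
    obtain ⟨s, t, h1, h2, h3⟩ := hleaf x hx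
    have hd := hdA x hx
    have hc := hcurve s t
    have hd' : HasFDerivAt (fun y => AA (z, y))
        ((fderiv ℝ AA (z, x)).comp (ContinuousLinearMap.inr ℝ St E))
        ((fun t' => (Phi φ n (z, s, t')).1) t) := by
      simp only [h2]; exact hd
    have h4 := hd'.comp_hasDerivAt t hc.1
    have h5 : ∀ᶠ t' in 𝓝 t, ((fun y => AA (z, y)) ∘ fun t' => (Phi φ n (z, s, t')).1) t' =
        (Phi φ n (z, s, t')).2 := by
      filter_upwards [h3] with t' ht'
      simp only [Function.comp_apply, hAA, ht']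
    have h6 := (h4.congr_of_eventuallyEq (h5.mono fun t' ht' => ht'.symm)).unique hc.2
    rw [h2] at h6
    rw [hd.fderiv]
    exact h6
  · intro x hx
    obtain ⟨s, t, h1, h2, h3⟩ := hleaf x hx
    have hd := hdS x hx
    have hc := hcurve s t
    have hd' : HasFDerivAt (fun y => SS (z, y))
        ((fderiv ℝ SS (z, x)).comp (ContinuousLinearMap.inr ℝ St E))
        ((fun t' => (Phi φ n (z, s, t')).1) t) := by
      simp only [h2]; exact hd
    have h4 := hd'.comp_hasDerivAt t hc.1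
    have h5 : ∀ᶠ t' in 𝓝 t, ((fun y => SS (z, y)) ∘ fun t' => (Phi φ n (z, s, t')).1) t' = s := by
      filter_upwards [h3] with t' ht'
      simp only [Function.comp_apply, hSS, ht']
    have h6 := (h4.congr_of_eventuallyEq (h5.mono fun t' ht' => ht'.symm)).unique
      (hasDerivAt_const t s)
    rw [h2] at h6
    rw [hd.fderiv]
    exact h6
  · intro x hx
    obtain ⟨-, -, -, -, h4, h5, h6⟩ := hball _ (hmem x hx)
    have hbd : ∀ L : St × E →L[ℝ] ℝ, ‖L.comp (ContinuousLinearMap.inr ℝ St E)‖ ≤ ‖L‖ := by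
      intro L
      apply ContinuousLinearMap.opNorm_le_bound _ (norm_nonneg _)
      intro v
      have := L.le_opNorm ((0, v) : St × E)
      have h7 : ‖((0, v) : St × E)‖ = ‖v‖ := by simp [Prod.norm_def]
      rw [h7] at this
      simpa using this
    rw [(hdA x hx).fderiv, (hdS x hx).fderiv]
    refine ⟨?_, ?_, ?_⟩
    · have := hbd (fderiv ℝ AA (z, x)); linarith
    · have := hbd (fderiv ℝ SS (z, x)); linarith
    · have h8 : ((fderiv ℝ SS (z, x)).comp (ContinuousLinearMap.inr ℝ St E))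
          (u g (x, AA (z, x) + π / 2)) = fderiv ℝ SS (z, x) (0, u g (x, AA (z, x) + π / 2)) := by
        simp
      rw [h8]
      have h9 : (1:ℝ) / 2 < fderiv ℝ SS (z, x) (0, u g (x, AA (z, x) + π / 2)) := h6
      nlinarith
  · intro t ht
    have hmem' : ((z, t) : St × ℝ) ∈ ball ((z₀, 0) : St × ℝ) ε' := by
      rw [← ball_prod_same]
      refine ⟨hzε, ?_⟩
      rw [mem_ball, dist_zero_right, Real.norm_eq_abs]
      exact lt_of_lt_of_le ht (min_le_left _ _)
    obtain ⟨h1, h2⟩ := hball' _ hmem'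
    refine ⟨h1, ?_, ?_⟩
    · simp only [hSS]
      rw [h2]
    · simp only [hAA]
      rw [h2, hP0]
  · intro x hx hS
    obtain ⟨s, t, h1, h2, h3⟩ := hleaf x hx
    have hs : s = 0 := by
      have : SS (z, x) = s := by simp only [hSS, h1]
      rw [← this]; exact hS
    subst hs
    exact ⟨t, by rw [← hP0, h2]⟩

end PPF
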