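import Pool.Agent.Lib.MP_a4f5e0_gt.L1b

/-!
JOB L2. Geodesics are local isometries.

* `loc_iso`: take `δ, ε, S, A` from `local_foliation` at `z₀`, and `ρ` from `calib_local` (D5) for `x₀ = z₀.1` and `δ`. Let `z ∈ ball z₀ ε`.
  The 1-form `θ x = p g (x, A z x)` has on `ball z₀.1 δ` a symmetric derivative (`closed_of_inv`, F4), so by the Poincaré lemma
  (Mathlib: `Convex.exists_forall_hasFDerivAt_of_fderiv_symmetric` or similar, search for `fderiv_symmetric`) there is `f` with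
  `HasFDerivAt f (θ x) x` on the ball. `|θ x v| ≤ √(g x v v)` is `abs_p_le` (F2). Along the geodesic of `z`, for `|t| < ε`:
  `d/dt f (φ t z).1 = p g (φ t z) (u g (φ t z)) = 1` (`p_u` with equal angles, `A z (φ t z).1 = (φ t z).2`). So
  `f (φ s z).1 - f (φ t z).1 = s - t` for `|s|, |t| < ε` (the interval is convex: `(-ε, ε)`), and for `z` near `z₀` and small `s, t` both points are in
  `ball z₀.1 ρ` (continuity of `φ`), hence `|s - t| ≤ dg g (φ s z).1 (φ t z).1`. The other inequality is `IsFlow.dg_le` (D6).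
* `loc_iso_compact`: `K ×ˢ Icc 0 (2π)` is compact; cover it by finitely many balls `ball z₀ (ε z₀)` of `loc_iso`
  (`IsCompact.elim_nhds_subcover`), take the minimum of the `ε`; a general angle is reduced to `[0, 2π)` by `IsFlow.int_two_pi`
  (points do not change).
-/

set_option autoImplicit false

open MeasureTheory Set Filter Topology Real Metric

noncomputable section

namespace PPF

variable {g : E → E →L[ℝ] E →L[ℝ] ℝ} {φ : ℝ → St → St}

/-- geodesics are local isometries, uniformly near every state -/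
theorem loc_iso (hg : Met g) (hφ : IsFlow g φ) (z₀ : St) :
    ∃ ε > 0, ∀ z ∈ ball z₀ ε, ∀ s t, |s| < ε → |t| < ε →
      dg g (φ s z).1 (φ t z).1 = |s - t| := by
  obtain ⟨δ, hδ, ε, hε, Cc, hCc, S, A, hfol⟩ := local_foliation hg hφ z₀
  obtain ⟨ρ, hρ, hcal⟩ := calib_local hg z₀.1 hδ
  have hcont : ContinuousAt (fun q : ℝ × St => (φ q.1 q.2).1) (0, z₀) :=
    (continuous_fst.comp hφ.continuous).continuousAt
  rw [Metric.continuousAt_iff] at hcont
  obtain ⟨η, hη, hcl⟩ := hcont ρ hρ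
  refine ⟨min ε η, lt_min hε hη, ?_⟩
  intro z hz s t hs ht
  have hzε : z ∈ ball z₀ ε := ball_subset_ball (min_le_left _ _) hz
  have hzη : dist z z₀ < η := lt_of_lt_of_le hz (min_le_right _ _)
  obtain ⟨_, hA, hAinv, _, _, hleaf, _⟩ := hfol z hzε
  have hdiff : ∀ x ∈ ball z₀.1 δ, DifferentiableAt ℝ (A z) x := fun x hx =>
    (hA.differentiableOn (by norm_num)).differentiableAt (isOpen_ball.mem_nhds hx)
  have hcl1 : ∀ x ∈ ball z₀.1 δ, DifferentiableAt ℝ (fun y => p g (y, A z y)) x ∧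
      ∀ v w, fderiv ℝ (fun y => p g (y, A z y)) x v w =
        fderiv ℝ (fun y => p g (y, A z y)) x w v := fun x hx =>
    closed_of_inv hg (hdiff x hx) (hAinv x hx)
  obtain ⟨f, hf⟩ := (convex_ball z₀.1 δ).exists_forall_hasFDerivAt_of_fderiv_symmetric
    isOpen_ball (fun x hx => (hcl1 x hx).1.differentiableWithinAt) (fun x hx => (hcl1 x hx).2)
  have hdist := hcal f (fun y => p g (y, A z y))
    (fun x hx => (hcl1 x hx).1.continuousAt.continuousWithinAt) hf
    (fun x _ v => abs_p_le hg (x, A z x) v)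
  have hder : ∀ r ∈ Ioo (-ε) ε, HasDerivWithinAt (fun r => f (φ r z).1 - r) 0 (Ioo (-ε) ε) r := by
    intro r hr
    obtain ⟨h1, _, h3⟩ := hleaf r (abs_lt.2 hr)
    have h4 := (hf (φ r z).1 h1).comp_hasDerivAt r (hφ.hasDerivAt_fst r z)
    have h5 : p g ((φ r z).1, A z (φ r z).1) (u g (φ r z)) = 1 := by
      rw [h3]
      have := p_u hg (φ r z).1 (φ r z).2 (φ r z).2
      rw [sub_self, Real.cos_zero] at this
      exact this
    rw [h5] at h4
    have h6 := (h4.sub (hasDerivAt_id r)).hasDerivWithinAt (s := Ioo (-ε) ε)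
    rw [sub_self] at h6
    exact h6
  have hconst : ∀ a ∈ Ioo (-ε) ε, ∀ b ∈ Ioo (-ε) ε, f (φ a z).1 - f (φ b z).1 = a - b := by
    intro a ha b hb
    have h1 := Convex.norm_image_sub_le_of_norm_hasDerivWithin_le (C := 0) hder
      (fun r _ => by simp) (convex_Ioo _ _) hb ha
    rw [zero_mul] at h1
    have h2 := norm_le_zero_iff.1 h1
    linarith
  have hsε : s ∈ Ioo (-ε) ε := abs_lt.1 (lt_of_lt_of_le hs (min_le_left _ _))
  have htε : t ∈ Ioo (-ε) ε := abs_lt.1 (lt_of_lt_of_le ht (min_le_left _ _))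
  have hball : ∀ r, |r| < min ε η → (φ r z).1 ∈ ball z₀.1 ρ := by
    intro r hr
    have h1 : dist ((r, z) : ℝ × St) (0, z₀) < η := by
      rw [Prod.dist_eq, max_lt_iff]
      refine ⟨?_, hzη⟩
      rw [Real.dist_eq, sub_zero]
      exact lt_of_lt_of_le hr (min_le_right _ _)
    have h2 := hcl h1
    simp only [hφ.zero] at h2
    exact h2
  refine le_antisymm (hφ.dg_le hg z s t) ?_
  rw [← hconst s hsε t htε]
  exact hdist _ (hball s hs) _ (hball t ht)

/-- uniformly over all angles and a compact set of points (periodicity in the angle) -/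
theorem loc_iso_compact (hg : Met g) (hφ : IsFlow g φ) {K : Set E} (hK : IsCompact K) :
    ∃ ε > 0, ∀ z : St, z.1 ∈ K → ∀ s t, |s| < ε → |t| < ε →
      dg g (φ s z).1 (φ t z).1 = |s - t| := by
  have hcomp : IsCompact (K ×ˢ Icc (0:ℝ) (2 * π)) := hK.prod isCompact_Icc
  have key : ∃ ε > 0, ∀ z ∈ K ×ˢ Icc (0:ℝ) (2 * π), ∀ s t, |s| < ε → |t| < ε →
      dg g (φ s z).1 (φ t z).1 = |s - t| := by
    refine hcomp.induction_on
      (p := fun Q => ∃ ε > 0, ∀ z ∈ Q, ∀ s t, |s| < ε → |t| < ε →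
        dg g (φ s z).1 (φ t z).1 = |s - t|) ?_ ?_ ?_ ?_
    · exact ⟨1, one_pos, fun z hz => absurd hz (notMem_empty z)⟩
    · rintro Q Q' hQ ⟨ε, hε, h⟩
      exact ⟨ε, hε, fun z hz => h z (hQ hz)⟩
    · rintro Q Q' ⟨ε, hε, h⟩ ⟨ε', hε', h'⟩
      refine ⟨min ε ε', lt_min hε hε', fun z hz s t hs ht => ?_⟩
      rcases hz with hz | hz
      · exact h z hz s t (lt_of_lt_of_le hs (min_le_left _ _)) (lt_of_lt_of_le ht (min_le_left _ _))
      · exact h' z hz s t (lt_of_lt_of_le hs (min_le_right _ _))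
          (lt_of_lt_of_le ht (min_le_right _ _))
    · intro z₀ _
      obtain ⟨ε, hε, h⟩ := loc_iso hg hφ z₀
      exact ⟨ball z₀ ε, mem_nhdsWithin_of_mem_nhds (ball_mem_nhds z₀ hε), ε, hε, h⟩
  obtain ⟨ε, hε, h⟩ := key
  refine ⟨ε, hε, ?_⟩
  rintro ⟨x, α⟩ hx s t hs ht
  obtain ⟨k, hk, _⟩ := existsUnique_add_zsmul_mem_Ico Real.two_pi_pos α 0
  simp only [zero_add, zsmul_eq_mul] at hk
  have h1 := h (x, α + 2 * π * k) ⟨hx, by
    rw [mul_comm (2 * π) (k : ℝ)]
    exact Ico_subset_Icc_self hk⟩ s t hs ht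
  rwa [hφ.int_two_pi hg s x α k, hφ.int_two_pi hg t x α k] at h1

end PPF
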