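import Pool.Agent.Lib.MP_a4f5e0_gt.IfD

/-!
JOB L3a. A `C¹` exponential map (removing the singularity of polar coordinates).

On `F = E × ℝ × ℝ`, `w = (x, a, b)`, consider the vector field
`Vh (x, a, b) = (a • e1 g x + b • e2 g x, -b * k, a * k)`, `k = a * an g (x, 0) + b * an g (x, π / 2)`.

* `an_lin`: `an g (x, α) = cos α * an g (x, 0) + sin α * an g (x, π / 2)`, because `u g (x, α) = cos α • u g (x, 0) + sin α • u g (x, π / 2)` for ALL
  `x`, so `p g (x, α) b = cos α * p g (x, 0) b + sin α * p g (x, π / 2) b` (linearity of `g x`), and `fderiv` is linear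
  (differentiability from `contDiff_p`, F3), `curl`, `an` are linear in `p`.
* `contDiff_Vh`: sums and products of smooth functions (`contDiff_an hg n` composed with `w ↦ (w.1, 0)` etc.; smoothness of `e1 g`, `e2 g`:
  `e1 g x = u g (x, 0)`, `e2 g x = u g (x, π / 2)`, `contDiff_u`).
* `Vh_sol`: with `(y, β) = φ (ρ t) (x, α)`, the curve `t ↦ (y, ρ cos β, ρ sin β)` solves `c' = Vh c`: `y' = ρ u(y,β)`, `β' = ρ an(y, β)` and
  `k = ρ an(y, β)` by `an_lin`. At `t = 0` it is `(x, ρ cos α, ρ sin α)`.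
* `exists_exp`: every `(x, a, b)` is of the form `(x, ρ cos α, ρ sin α)` (polar coordinates, `Complex.arg` or F2 style), so `Vh` has global
  solutions; `exists_flow` (IfO) for `Vh` (`ContDiff ℝ 2`) gives a `C¹` flow `ψ`; by uniqueness (`sol_unique_univ`) `ψ t (x, ρ cos α, ρ sin α)` is the curve
  above. Put `ex w = (ψ 1 w).1`; with `ρ = t` and time `1`: `ex (x, t cos α, t sin α) = (φ t (x, α)).1` (also for negative `t`).
-/

set_option autoImplicit false

open MeasureTheory Set Filter Topology Real Metric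

noncomputable section

namespace PPF

variable {g : E → E →L[ℝ] E →L[ℝ] ℝ} {φ : ℝ → St → St}

theorem L3a_u_lin (x : E) (α : ℝ) :
    u g (x, α) = cos α • u g (x, 0) + sin α • u g (x, π / 2) := by
  simp [u]

theorem an_lin (hg : Met g) (x : E) (α : ℝ) :
    an g (x, α) = cos α * an g (x, 0) + sin α * an g (x, π / 2) := by
  have hp : ∀ (b : E) (y : E),
      p g (y, α) b = cos α * p g (y, 0) b + sin α * p g (y, π / 2) b := by
    intro b y
    simp only [p]
    rw [L3a_u_lin y α]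
    simp
  have hd : ∀ (b : E) (β : ℝ), DifferentiableAt ℝ (fun y => p g (y, β) b) x := by
    intro b β
    have h1 : ContDiff ℝ 1 (fun y => p g (y, β) b) :=
      ((contDiff_p hg 1).comp (contDiff_id.prodMk contDiff_const)).clm_apply contDiff_const
    exact (h1.differentiable (by norm_num)).differentiableAt
  have hfd : ∀ (b w : E), fderiv ℝ (fun y => p g (y, α) b) x w =
      cos α * fderiv ℝ (fun y => p g (y, 0) b) x w +
        sin α * fderiv ℝ (fun y => p g (y, π / 2) b) x w := by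
    intro b w
    have h1 : (fun y => p g (y, α) b) =
        fun y => cos α * p g (y, 0) b + sin α * p g (y, π / 2) b := funext (hp b)
    rw [h1]
    have h2 := ((hd b 0).hasFDerivAt.const_mul (cos α)).fun_add
      ((hd b (π / 2)).hasFDerivAt.const_mul (sin α))
    rw [h2.fderiv]
    simp
  simp only [an, curl]
  rw [hfd, hfd]
  ring

/-- the geodesic field in cartesian fibre coordinates -/
def Vh (g : E → E →L[ℝ] E →L[ℝ] ℝ) (w : E × ℝ × ℝ) : E × ℝ × ℝ :=
  (w.2.1 • u g (w.1, 0) + w.2.2 • u g (w.1, π / 2),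
    -(w.2.2 * (w.2.1 * an g (w.1, 0) + w.2.2 * an g (w.1, π / 2))),
    w.2.1 * (w.2.1 * an g (w.1, 0) + w.2.2 * an g (w.1, π / 2)))

theorem contDiff_Vh (hg : Met g) (n : ℕ) : ContDiff ℝ n (Vh g) := by
  have hu : ∀ β : ℝ, ContDiff ℝ n (fun w : E × ℝ × ℝ => u g (w.1, β)) := fun β =>
    (contDiff_u hg n).comp (contDiff_fst.prodMk contDiff_const)
  have ha : ∀ β : ℝ, ContDiff ℝ n (fun w : E × ℝ × ℝ => an g (w.1, β)) := fun β =>
    (contDiff_an hg n).comp (contDiff_fst.prodMk contDiff_const)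
  have h1 : ContDiff ℝ n (fun w : E × ℝ × ℝ => w.2.1) := contDiff_fst.comp contDiff_snd
  have h2 : ContDiff ℝ n (fun w : E × ℝ × ℝ => w.2.2) := contDiff_snd.comp contDiff_snd
  have h3 := (h1.mul (ha 0)).add (h2.mul (ha (π / 2)))
  exact ((h1.smul (hu 0)).add (h2.smul (hu (π / 2)))).prodMk ((h2.mul h3).neg.prodMk (h1.mul h3))

theorem Vh_sol (hg : Met g) (hφ : IsFlow g φ) (z : St) (ρ t : ℝ) :
    HasDerivAt (fun t => (((φ (ρ * t) z).1, ρ * cos (φ (ρ * t) z).2, ρ * sin (φ (ρ * t) z).2) :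
      E × ℝ × ℝ))
      (Vh g ((φ (ρ * t) z).1, ρ * cos (φ (ρ * t) z).2, ρ * sin (φ (ρ * t) z).2)) t := by
  have hlin : HasDerivAt (fun t : ℝ => ρ * t) ρ t := by
    simpa using (hasDerivAt_id t).const_mul ρ
  have h1 : HasDerivAt (fun t => (φ (ρ * t) z).1) (ρ • u g (φ (ρ * t) z)) t :=
    (hφ.hasDerivAt_fst (ρ * t) z).scomp t hlin
  have h2 : HasDerivAt (fun t => (φ (ρ * t) z).2) (ρ * an g (φ (ρ * t) z)) t :=
    (hφ.hasDerivAt_snd (ρ * t) z).scomp t hlin
  have h3 := (h1.prodMk ((h2.cos.const_mul ρ).prodMk (h2.sin.const_mul ρ)))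
  refine h3.congr_deriv ?_
  have e1 : an g (φ (ρ * t) z) = cos (φ (ρ * t) z).2 * an g ((φ (ρ * t) z).1, 0) +
      sin (φ (ρ * t) z).2 * an g ((φ (ρ * t) z).1, π / 2) := an_lin hg _ _
  have e2 : u g (φ (ρ * t) z) = cos (φ (ρ * t) z).2 • u g ((φ (ρ * t) z).1, 0) +
      sin (φ (ρ * t) z).2 • u g ((φ (ρ * t) z).1, π / 2) := L3a_u_lin _ _
  rw [e1, e2]
  simp only [Vh]
  refine Prod.ext ?_ (Prod.ext ?_ ?_)
  · simp only [smul_add, smul_smul]
  · simp only
    ring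
  · simp only
    ring

theorem exists_polar_pair (a b : ℝ) : ∃ ρ α, 0 ≤ ρ ∧ a = ρ * cos α ∧ b = ρ * sin α := by
  refine ⟨‖(⟨a, b⟩ : ℂ)‖, Complex.arg ⟨a, b⟩, norm_nonneg _, ?_, ?_⟩
  · rw [Complex.norm_mul_cos_arg]
  · rw [Complex.norm_mul_sin_arg]

theorem exists_exp (hg : Met g) (hφ : IsFlow g φ) :
    ∃ ex : E × ℝ × ℝ → E, ContDiff ℝ 1 ex ∧
      ∀ x α t, ex (x, t * cos α, t * sin α) = (φ t (x, α)).1 := by
  have hV2 : ContDiff ℝ 2 (Vh g) := contDiff_Vh hg 2
  have hV1 : ContDiff ℝ 1 (Vh g) := contDiff_Vh hg 1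
  have hc : ∀ w : E × ℝ × ℝ, ∃ c : ℝ → E × ℝ × ℝ, c 0 = w ∧
      ∀ t, HasDerivAt c (Vh g (c t)) t := by
    rintro ⟨x, a, b⟩
    obtain ⟨ρ, α, -, rfl, rfl⟩ := exists_polar_pair a b
    refine ⟨_, ?_, Vh_sol hg hφ (x, α) ρ⟩
    simp [hφ.zero]
  obtain ⟨ψ, h0, h1, h2, -⟩ := exists_flow (Vh g) hV2 hc
  refine ⟨fun w => (ψ 1 w).1, ?_, ?_⟩
  · exact contDiff_fst.comp (h2.comp (contDiff_const.prodMk contDiff_id))
  · intro x α t
    have h3 := sol_unique_univ hV1 (t₀ := 0) (fun s => h1 s (x, t * cos α, t * sin α))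
      (Vh_sol hg hφ (x, α) t) (by simp [h0, hφ.zero])
    have h4 := congrFun h3 1
    simp only [mul_one] at h4
    exact congrArg Prod.fst h4

end PPF
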