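import Pool.Agent.Lib.MP_a4f5e0_gt.L3a

/-!
JOB L3b. Surjectivity of the exponential map near a point.

Let `ex` be the `C¹` map of `exists_exp` (L3a) and `Θ (x, a, b) = (x, ex (x, a, b))`, `Θ : E × ℝ × ℝ → E × E`, a `C¹` map.

* `fderiv_ex`: at `(x₀, 0, 0)` the derivative of `ex` is `(δx, δa, δb) ↦ δx + δa • u g (x₀, 0) + δb • u g (x₀, π / 2)`: `ex (x, 0, 0) = (φ 0 (x, 0)).1 = x`
  (slice), `ex (x₀, t, 0) = ex (x₀, t cos 0, t sin 0) = (φ t (x₀, 0)).1` has derivative `u g (x₀, 0)` at `t = 0`,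
  `ex (x₀, 0, t) = (φ t (x₀, π / 2)).1` has derivative `u g (x₀, π / 2)`.
* So `DΘ(x₀, 0, 0)` is injective (`wd_u`: `u g (x₀, 0)`, `u g (x₀, π/2)` are linearly independent), hence invertible (same finite dimension), and the inverse
  function theorem (`ContDiffAt.toOpenPartialHomeomorph`, `ContDiffAt.to_localInverse`, `HasStrictFDerivAt.to_localInverse`) gives a local inverse
  `Ψ`, defined and `C¹` near `(x₀, x₀)`, with `Θ (Ψ (x, y)) = (x, y)`, i.e. `Ψ (x, y) = (x, a, b)`, `ex (x, a, b) = y`, and `Ψ (x, x) = (x, 0, 0)`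
  (left inverse at `(x, 0, 0)`, as `Θ (x, 0, 0) = (x, x)`).
* `Ψ` is Lipschitz on a ball around `(x₀, x₀)` (`ContDiffAt.exists_lipschitzOnWith`): `‖(a, b)‖ ≤ ‖Ψ (x, y) - Ψ (x, x)‖ ≤ C ‖y - x‖`.
* `exists_polar_pair`: `(a, b) = (t cos α, t sin α)`, `t ≥ 0`, `t² = a² + b²`, so `t ≤ |a| + |b| ≤ 2 C ‖y - x‖`, and `(φ t (x, α)).1 = ex (x, a, b) = y`.
-/

set_option autoImplicit false

open MeasureTheory Set Filter Topology Real Metric

noncomputable section

namespace PPF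

variable {g : E → E →L[ℝ] E →L[ℝ] ℝ} {φ : ℝ → St → St}

theorem fderiv_ex (hφ : IsFlow g φ) {ex : E × ℝ × ℝ → E} (h1 : ContDiff ℝ 1 ex)
    (h2 : ∀ x α t, ex (x, t * cos α, t * sin α) = (φ t (x, α)).1) (x₀ : E) (v : E × ℝ × ℝ) :
    fderiv ℝ ex (x₀, 0, 0) v = v.1 + v.2.1 • u g (x₀, 0) + v.2.2 • u g (x₀, π / 2) := by
  have hd : HasFDerivAt ex (fderiv ℝ ex (x₀, 0, 0)) (x₀, 0, 0) :=
    ((h1.differentiable (by norm_num)).differentiableAt).hasFDerivAt
  set D := fderiv ℝ ex (x₀, 0, 0) with hD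
  have e1 : ∀ w : E, D (w, 0, 0) = w := by
    intro w
    have hi : HasFDerivAt (fun y : E => ((y, 0, 0) : E × ℝ × ℝ))
        (ContinuousLinearMap.inl ℝ E (ℝ × ℝ)) x₀ := (ContinuousLinearMap.inl ℝ E (ℝ × ℝ)).hasFDerivAt
    have hc : HasFDerivAt (fun y : E => ex (y, 0, 0))
        (D.comp (ContinuousLinearMap.inl ℝ E (ℝ × ℝ))) x₀ :=
      HasFDerivAt.comp (g := ex) x₀ hd hi
    have hid : (fun y : E => ex (y, 0, 0)) = id := by
      funext y
      have := h2 y 0 0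
      rw [hφ.zero] at this
      simpa using this
    rw [hid] at hc
    have h3 := hc.unique (hasFDerivAt_id x₀)
    exact congrArg (fun L : E →L[ℝ] E => L w) h3
  have e2 : D (0, 1, 0) = u g (x₀, 0) := by
    have hi : HasDerivAt (fun t : ℝ => ((x₀, t, 0) : E × ℝ × ℝ)) (0, 1, 0) 0 :=
      (hasDerivAt_const 0 x₀).prodMk ((hasDerivAt_id (0:ℝ)).prodMk (hasDerivAt_const 0 0))
    have hc : HasDerivAt (fun t : ℝ => ex (x₀, t, 0)) (D (0, 1, 0)) 0 :=
      HasFDerivAt.comp_hasDerivAt (f := fun t : ℝ => ((x₀, t, 0) : E × ℝ × ℝ)) 0 hd hi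
    have hid : (fun t : ℝ => ex (x₀, t, 0)) = fun t => (φ t (x₀, 0)).1 := by
      funext t
      have := h2 x₀ 0 t
      simpa using this
    rw [hid] at hc
    have h3 := hφ.hasDerivAt_fst 0 (x₀, 0)
    rw [hφ.zero] at h3
    exact hc.unique h3
  have e3 : D (0, 0, 1) = u g (x₀, π / 2) := by
    have hi : HasDerivAt (fun t : ℝ => ((x₀, 0, t) : E × ℝ × ℝ)) (0, 0, 1) 0 :=
      (hasDerivAt_const 0 x₀).prodMk ((hasDerivAt_const 0 0).prodMk (hasDerivAt_id (0:ℝ)))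
    have hc : HasDerivAt (fun t : ℝ => ex (x₀, 0, t)) (D (0, 0, 1)) 0 :=
      HasFDerivAt.comp_hasDerivAt (f := fun t : ℝ => ((x₀, 0, t) : E × ℝ × ℝ)) 0 hd hi
    have hid : (fun t : ℝ => ex (x₀, 0, t)) = fun t => (φ t (x₀, π / 2)).1 := by
      funext t
      have := h2 x₀ (π / 2) t
      simpa using this
    rw [hid] at hc
    have h3 := hφ.hasDerivAt_fst 0 (x₀, π / 2)
    rw [hφ.zero] at h3
    exact hc.unique h3
  have hv : v = (v.1, 0, 0) + (v.2.1 • (0, 1, 0) + v.2.2 • (0, 0, 1)) := by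
    ext <;> simp
  calc D v = D ((v.1, 0, 0) + (v.2.1 • (0, 1, 0) + v.2.2 • (0, 0, 1))) := by rw [← hv]
    _ = v.1 + v.2.1 • u g (x₀, 0) + v.2.2 • u g (x₀, π / 2) := by
      rw [map_add, map_add, map_smul, map_smul, e1, e2, e3, add_assoc]

/-- linear independence of `u g (x₀, 0)` and `u g (x₀, π / 2)` -/
theorem L3b_indep (hg : Met g) (x₀ : E) {a b : ℝ}
    (h : a • u g (x₀, 0) + b • u g (x₀, π / 2) = 0) : a = 0 ∧ b = 0 := by
  have h0 := congrArg (g x₀ (u g (x₀, 0))) h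
  have h1 := congrArg (g x₀ (u g (x₀, π / 2))) h
  rw [map_add, map_smul, map_smul, map_zero, g_u_u hg, g_u_u hg] at h0 h1
  constructor
  · simpa using h0
  · simpa using h1

/-- surjectivity of the exponential map near a point -/
theorem exp_surj (hg : Met g) (hφ : IsFlow g φ) (x₀ : E) :
    ∃ δ > 0, ∃ C > 0, ∀ x ∈ ball x₀ δ, ∀ y ∈ ball x δ,
      ∃ α t, 0 ≤ t ∧ t ≤ C * ‖y - x‖ ∧ (φ t (x, α)).1 = y := by
  obtain ⟨ex, h1, h2⟩ := exists_exp hg hφ
  have hx0 : ∀ x, ex (x, 0, 0) = x := by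
    intro x
    have := h2 x 0 0
    rw [hφ.zero] at this
    simpa using this
  -- the map and its derivative
  set Θ : E × ℝ × ℝ → E × E := fun w => (w.1, ex w) with hΘ
  set L : E × ℝ × ℝ →L[ℝ] E × E :=
    (ContinuousLinearMap.fst ℝ E (ℝ × ℝ)).prod (fderiv ℝ ex (x₀, 0, 0)) with hL
  have hinj : Function.Injective (L : E × ℝ × ℝ →ₗ[ℝ] E × E) := by
    rw [injective_iff_map_eq_zero]
    intro v hv
    have hv1 : v.1 = 0 := congrArg Prod.fst hv
    have hv2 : fderiv ℝ ex (x₀, 0, 0) v = 0 := congrArg Prod.snd hv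
    rw [fderiv_ex hφ h1 h2, hv1, zero_add] at hv2
    obtain ⟨ha, hb⟩ := L3b_indep hg x₀ hv2
    exact Prod.ext hv1 (Prod.ext ha hb)
  have hdim : Module.finrank ℝ (E × ℝ × ℝ) = Module.finrank ℝ (E × E) := by
    simp
  let e : (E × ℝ × ℝ) ≃L[ℝ] (E × E) :=
    (LinearMap.linearEquivOfInjective (L : E × ℝ × ℝ →ₗ[ℝ] E × E) hinj hdim).toContinuousLinearEquiv
  have he : (e : E × ℝ × ℝ →L[ℝ] E × E) = L := by
    ext v <;> rfl
  have hs : HasStrictFDerivAt Θ (e : E × ℝ × ℝ →L[ℝ] E × E) (x₀, 0, 0) := by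
    rw [he]
    exact (ContinuousLinearMap.fst ℝ E (ℝ × ℝ)).hasStrictFDerivAt.prodMk
      (h1.contDiffAt.hasStrictFDerivAt (by norm_num))
  have hΘ0 : Θ (x₀, 0, 0) = (x₀, x₀) := by
    simp only [hΘ, hx0]
  -- the local inverse
  have hr := hs.eventually_right_inverse
  have hl := hs.eventually_left_inverse
  obtain ⟨K, T, hT, hK⟩ := hs.to_localInverse.exists_lipschitzOnWith
  rw [hΘ0] at hr hT
  set Ψ := hs.localInverse Θ e (x₀, 0, 0) with hΨ
  have hcont : ContinuousAt (fun x : E => ((x, 0, 0) : E × ℝ × ℝ)) x₀ :=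
    (Continuous.prodMk continuous_id continuous_const).continuousAt
  have hl' : ∀ᶠ x in 𝓝 x₀, Ψ (x, x) = (x, 0, 0) := by
    filter_upwards [hcont.eventually hl] with x hx
    simpa only [hΘ, hx0] using hx
  obtain ⟨r1, hr1, hr1'⟩ := Metric.eventually_nhds_iff_ball.1 hl'
  obtain ⟨r2, hr2, hr2'⟩ := Metric.eventually_nhds_iff_ball.1 (hr.and hT)
  refine ⟨min r1 (r2 / 2), lt_min hr1 (half_pos hr2), 2 * K + 1, by positivity, ?_⟩
  intro x hx y hy
  rw [mem_ball] at hx hy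
  have hx1 : dist x x₀ < r1 := hx.trans_le (min_le_left _ _)
  have hx2 : dist x x₀ < r2 / 2 := hx.trans_le (min_le_right _ _)
  have hy2 : dist y x < r2 / 2 := hy.trans_le (min_le_right _ _)
  have hy3 : dist y x₀ < r2 := by
    have := dist_triangle y x x₀
    linarith
  have hxx : ((x, x) : E × E) ∈ ball (x₀, x₀) r2 := by
    rw [mem_ball, Prod.dist_eq]
    exact max_lt (by linarith) (by linarith)
  have hxy : ((x, y) : E × E) ∈ ball (x₀, x₀) r2 := by
    rw [mem_ball, Prod.dist_eq]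
    exact max_lt (by linarith) hy3
  have k1 : Ψ (x, x) = (x, 0, 0) := hr1' x hx1
  have k2 := (hr2' _ hxy).1
  have k3 : dist (Ψ (x, y)) (Ψ (x, x)) ≤ K * dist ((x, y) : E × E) (x, x) :=
    hK.dist_le_mul _ (hr2' _ hxy).2 _ (hr2' _ hxx).2
  have k4 : dist ((x, y) : E × E) (x, x) = ‖y - x‖ := by
    rw [Prod.dist_eq, dist_self, dist_eq_norm]
    exact max_eq_right (norm_nonneg _)
  obtain ⟨x', a, b, hab⟩ : ∃ x' a b, Ψ (x, y) = (x', a, b) := ⟨_, _, _, rfl⟩
  rw [hab] at k2 k3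
  have k5 : x' = x := congrArg Prod.fst k2
  have k6 : ex (x', a, b) = y := congrArg Prod.snd k2
  subst k5
  rw [k1, k4, Prod.dist_eq, Prod.dist_eq] at k3
  have ka : |a| ≤ K * ‖y - x'‖ := by
    have h3 : dist a 0 ≤ K * ‖y - x'‖ :=
      (le_max_left _ _).trans ((le_max_right _ _).trans k3)
    simpa [Real.dist_eq] using h3
  have kb : |b| ≤ K * ‖y - x'‖ := by
    have h3 : dist b 0 ≤ K * ‖y - x'‖ :=
      (le_max_right _ _).trans ((le_max_right _ _).trans k3)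
    simpa [Real.dist_eq] using h3
  obtain ⟨ρ, α, hρ, ha, hb⟩ := exists_polar_pair a b
  refine ⟨α, ρ, hρ, ?_, ?_⟩
  · have h3 : ρ = a * cos α + b * sin α := by
      rw [ha, hb]
      have := Real.sin_sq_add_cos_sq α
      nlinarith
    have h4 : a * cos α ≤ |a| := by
      calc a * cos α ≤ |a * cos α| := le_abs_self _
        _ = |a| * |cos α| := abs_mul _ _
        _ ≤ |a| * 1 := by gcongr; exact Real.abs_cos_le_one α
        _ = |a| := mul_one _
    have h5 : b * sin α ≤ |b| := by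
      calc b * sin α ≤ |b * sin α| := le_abs_self _
        _ = |b| * |sin α| := abs_mul _ _
        _ ≤ |b| * 1 := by gcongr; exact Real.abs_sin_le_one α
        _ = |b| := mul_one _
    have h6 := norm_nonneg (y - x')
    nlinarith
  · rw [← h2, ← ha, ← hb]
    exact k6

end PPF
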