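import Pool.Agent.Lib.MP_a4f5e0_gt.L2
import Pool.Agent.Lib.MP_a4f5e0_gt.L3b

/-!
JOB L4. Near points are joined by a minimising geodesic, uniformly on compact sets.

* `exp_surj_compact`: cover the compact set `K` by finitely many of the balls `ball x₀ δ(x₀)` of `exp_surj`; `δ` = minimum, `C` = maximum.
* `loc_min`: `ε` from `loc_iso_compact` (L2), `δ', C` from `exp_surj_compact`; by `dg_ball_subset` (D4) there is `δ` with
  `dg g x y < δ → ‖y - x‖ < min δ' (ε / C)` for `x ∈ K`. Then `y = (φ t (x, α)).1` with `0 ≤ t ≤ C ‖y - x‖ < ε`, and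
  `dg g x y = dg g (φ 0 (x, α)).1 (φ t (x, α)).1 = |0 - t| = t`.
-/

set_option autoImplicit false

open MeasureTheory Set Filter Topology Real Metric

noncomputable section

namespace PPF

variable {g : E → E →L[ℝ] E →L[ℝ] ℝ} {φ : ℝ → St → St}

theorem exp_surj_compact (hg : Met g) (hφ : IsFlow g φ) {K : Set E} (hK : IsCompact K) :
    ∃ δ > 0, ∃ C > 0, ∀ x ∈ K, ∀ y ∈ ball x δ,
      ∃ α t, 0 ≤ t ∧ t ≤ C * ‖y - x‖ ∧ (φ t (x, α)).1 = y := by
  refine hK.induction_on (p := fun s => ∃ δ > 0, ∃ C > 0, ∀ x ∈ s, ∀ y ∈ ball x δ,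
      ∃ α t, 0 ≤ t ∧ t ≤ C * ‖y - x‖ ∧ (φ t (x, α)).1 = y) ?_ ?_ ?_ ?_
  · exact ⟨1, one_pos, 1, one_pos, fun x hx => absurd hx (Set.notMem_empty x)⟩
  · rintro s t hst ⟨δ, hδ, C, hC, h⟩
    exact ⟨δ, hδ, C, hC, fun x hx => h x (hst hx)⟩
  · rintro s t ⟨δ, hδ, C, hC, h⟩ ⟨δ', hδ', C', hC', h'⟩
    refine ⟨min δ δ', lt_min hδ hδ', max C C', lt_max_of_lt_left hC, ?_⟩
    rintro x (hx | hx) y hy
    · obtain ⟨α, τ, h1, h2, h3⟩ := h x hx y (ball_subset_ball (min_le_left _ _) hy)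
      exact ⟨α, τ, h1, h2.trans (mul_le_mul_of_nonneg_right (le_max_left _ _) (norm_nonneg _)), h3⟩
    · obtain ⟨α, τ, h1, h2, h3⟩ := h' x hx y (ball_subset_ball (min_le_right _ _) hy)
      exact ⟨α, τ, h1, h2.trans (mul_le_mul_of_nonneg_right (le_max_right _ _) (norm_nonneg _)), h3⟩
  · intro x _
    obtain ⟨δ, hδ, C, hC, h⟩ := exp_surj hg hφ x
    exact ⟨ball x δ, mem_nhdsWithin_of_mem_nhds (ball_mem_nhds x hδ), δ, hδ, C, hC, h⟩

/-- near points are joined by a minimising geodesic, uniformly on compact sets -/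
theorem loc_min (hg : Met g) (hφ : IsFlow g φ) {K : Set E} (hK : IsCompact K) :
    ∃ δ > 0, ∀ x ∈ K, ∀ y, dg g x y < δ → ∃ α, (φ (dg g x y) (x, α)).1 = y := by
  obtain ⟨ε, hε, hiso⟩ := loc_iso_compact hg hφ hK
  obtain ⟨δ', hδ', C, hC, hex⟩ := exp_surj_compact hg hφ hK
  obtain ⟨δ, hδ, hball⟩ := dg_ball_subset hg hK (lt_min hδ' (div_pos hε hC))
  refine ⟨δ, hδ, fun x hx y hxy => ?_⟩
  have h1 := hball x hx y hxy
  obtain ⟨α, t, ht0, ht, hy⟩ := hex x hx y (by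
    rw [mem_ball, dist_eq_norm]
    exact h1.trans_le (min_le_left _ _))
  have h2 : t < ε := by
    have h3 : ‖y - x‖ < ε / C := h1.trans_le (min_le_right _ _)
    have h4 : C * ‖y - x‖ < ε := by
      rw [lt_div_iff₀ hC] at h3
      linarith [mul_comm C ‖y - x‖]
    exact ht.trans_lt h4
  have h5 := hiso (x, α) hx 0 t (by simpa using hε) (by rwa [abs_of_nonneg ht0])
  rw [hφ.zero, hy, zero_sub, abs_neg, abs_of_nonneg ht0] at h5
  exact ⟨α, by rw [h5, hy]⟩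

end PPF
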