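import Pool.Agent.Lib.MP_a4f5e0_gt.IfD

/-!
JOB L5. Minimising broken geodesics have no corner.

Let `z.1 = w.1 = x₀`. Step 1: for `0 < s ≤ min a b`: `dg (φ (-s) z).1 (φ s w).1 = 2 s`. Indeed
`a + b = dg (φ (-a) z).1 (φ b w).1 ≤ dg (φ (-a) z).1 (φ (-s) z).1 + dg (φ (-s) z).1 (φ s w).1 + dg (φ s w).1 (φ b w).1
≤ (a - s) + dg (φ (-s) z).1 (φ s w).1 + (b - s)` (`dg_triangle`, `IsFlow.dg_le`).
Step 2: for every `η > 0` and all small `s > 0`, `dg_le_infinitesimal` gives
`2 s ≤ (1 + η) √(g x₀ (D s) (D s))`, `D s = (φ s w).1 - (φ (-s) z).1`, and `s⁻¹ • D s → u g w + u g z` as `s ↓ 0` (`IsFlow.hasDerivAt_fst`, `φ 0 = id`;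
`HasDerivAt` of `s ↦ D s` at `0` with value `u g w + u g z`, `D 0 = 0`, `hasDerivAt_iff_tendsto_slope`). Divide by `s` (`speed_smul`) and let `s ↓ 0`
(`continuous_speed`): `2 ≤ (1 + η) √(g x₀ (u g w + u g z) (u g w + u g z))`, for every `η > 0`, so `4 ≤ g x₀ (u w + u z) (u w + u z) = 2 + 2 cos (w.2 - z.2)`
(`g_u_u`; note `u g z = u g (x₀, z.2)`). Hence `cos (w.2 - z.2) = 1`, `Real.cos_eq_one_iff`.
-/

set_option autoImplicit false

open MeasureTheory Set Filter Topology Real Metric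

noncomputable section

namespace PPF

variable {g : E → E →L[ℝ] E →L[ℝ] ℝ} {φ : ℝ → St → St}

/-- no corners -/
theorem no_corner (hg : Met g) (hφ : IsFlow g φ) {z w : St} {a b : ℝ} (ha : 0 < a) (hb : 0 < b)
    (h0 : z.1 = w.1) (h : dg g (φ (-a) z).1 (φ b w).1 = a + b) :
    ∃ k : ℤ, w.2 = z.2 + 2 * π * k := by
  have h1 : ∀ s, 0 < s → s ≤ a → s ≤ b → 2 * s ≤ dg g (φ (-s) z).1 (φ s w).1 := by
    intro s hs hsa hsb
    have t1 := dg_triangle hg (φ (-a) z).1 (φ (-s) z).1 (φ b w).1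
    have t2 := dg_triangle hg (φ (-s) z).1 (φ s w).1 (φ b w).1
    have t3 := hφ.dg_le hg z (-a) (-s)
    have t4 := hφ.dg_le hg w s b
    rw [abs_of_nonpos (by linarith)] at t3
    rw [abs_of_nonpos (by linarith)] at t4
    linarith
  set D : ℝ → E := fun s => (φ s w).1 - (φ (-s) z).1 with hDdef
  have hD0 : D 0 = 0 := by
    simp [hDdef, hφ.zero, h0]
  have hD : HasDerivAt D (u g w + u g z) 0 := by
    have e1 : HasDerivAt (fun s => (φ s w).1) (u g w) 0 := by
      have := hφ.hasDerivAt_fst 0 w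
      rwa [hφ.zero] at this
    have e2 : HasDerivAt (fun s => (φ (-s) z).1) (-(u g z)) 0 := by
      have e3 : HasDerivAt (fun s => (φ s z).1) (u g z) (-(0:ℝ)) := by
        have := hφ.hasDerivAt_fst (-0) z
        rw [neg_zero, hφ.zero] at this
        rwa [neg_zero]
      have := e3.scomp (0:ℝ) (hasDerivAt_neg (0:ℝ))
      rw [neg_one_smul] at this
      exact this
    have := e1.sub e2
    rwa [sub_neg_eq_add] at this
  have hslope : Tendsto (fun s : ℝ => s⁻¹ • D s) (𝓝[>] 0) (𝓝 (u g w + u g z)) := by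
    have := hasDerivAt_iff_tendsto_slope_zero.mp hD
    simp only [zero_add, hD0, sub_zero] at this
    exact this.mono_left (nhdsWithin_mono _ (fun s hs => ne_of_gt hs))
  have key : ∀ η > 0, 2 ≤ (1 + η) * Real.sqrt (g w.1 (u g w + u g z) (u g w + u g z)) := by
    intro η hη
    obtain ⟨δ, hδ, hbd⟩ := dg_le_infinitesimal hg w.1 hη
    have c1 : ∀ᶠ s in 𝓝[>] (0:ℝ), (φ (-s) z).1 ∈ ball w.1 δ := by
      have hc : Continuous (fun s : ℝ => (φ (-s) z).1) :=
        (hφ.contDiff_fst z).continuous.comp continuous_neg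
      have : (fun s : ℝ => (φ (-s) z).1) 0 ∈ ball w.1 δ := by
        simp only [neg_zero, hφ.zero, h0]
        exact mem_ball_self hδ
      exact (hc.continuousAt.eventually (isOpen_ball.mem_nhds this)).filter_mono nhdsWithin_le_nhds
    have c2 : ∀ᶠ s in 𝓝[>] (0:ℝ), (φ s w).1 ∈ ball w.1 δ := by
      have hc : Continuous (fun s : ℝ => (φ s w).1) := (hφ.contDiff_fst w).continuous
      have : (fun s : ℝ => (φ s w).1) 0 ∈ ball w.1 δ := by
        simp only [hφ.zero]
        exact mem_ball_self hδ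
      exact (hc.continuousAt.eventually (isOpen_ball.mem_nhds this)).filter_mono nhdsWithin_le_nhds
    have c3 : ∀ᶠ s in 𝓝[>] (0:ℝ), s < min a b :=
      (gt_mem_nhds (lt_min ha hb)).filter_mono nhdsWithin_le_nhds
    have ev : ∀ᶠ s in 𝓝[>] (0:ℝ),
        2 ≤ (1 + η) * Real.sqrt (g w.1 (s⁻¹ • D s) (s⁻¹ • D s)) := by
      filter_upwards [c1, c2, c3, self_mem_nhdsWithin] with s s1 s2 s3 s4
      have s4' : 0 < s := s4
      have e1 := h1 s s4' (s3.le.trans (min_le_left _ _)) (s3.le.trans (min_le_right _ _))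
      have e2 := hbd _ s1 _ s2
      have e3 : Real.sqrt (g w.1 (s⁻¹ • D s) (s⁻¹ • D s)) =
          s⁻¹ * Real.sqrt (g w.1 (D s) (D s)) := by
        rw [speed_smul, abs_of_pos (inv_pos.mpr s4')]
      rw [e3]
      have e4 : 2 * s ≤ (1 + η) * Real.sqrt (g w.1 (D s) (D s)) := e1.trans e2
      have e5 : (1 + η) * (s⁻¹ * Real.sqrt (g w.1 (D s) (D s))) =
          ((1 + η) * Real.sqrt (g w.1 (D s) (D s))) / s := by
        field_simp
      rw [e5, le_div_iff₀ s4']
      exact e4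
    have hlim : Tendsto (fun s : ℝ => (1 + η) * Real.sqrt (g w.1 (s⁻¹ • D s) (s⁻¹ • D s)))
        (𝓝[>] 0) (𝓝 ((1 + η) * Real.sqrt (g w.1 (u g w + u g z) (u g w + u g z)))) := by
      have hc : Continuous (fun v : E => (1 + η) * Real.sqrt (g w.1 v v)) := by
        have h2 : Continuous (fun v : E => ((w.1, v) : E × E)) := by fun_prop
        exact continuous_const.mul ((continuous_speed hg).comp h2)
      exact (hc.tendsto _).comp hslope
    exact ge_of_tendsto hlim ev
  set q := Real.sqrt (g w.1 (u g w + u g z) (u g w + u g z)) with hq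
  have hq0 : 0 ≤ q := Real.sqrt_nonneg _
  have hq2 : 2 ≤ q := by
    apply le_of_forall_pos_le_add
    intro ε hε
    have h2 := key (ε / (q + 1)) (by positivity)
    have h3 : ε / (q + 1) * q ≤ ε := by
      rw [div_mul_eq_mul_div, div_le_iff₀ (by positivity)]
      nlinarith
    linarith
  have hgz : u g z = u g (w.1, z.2) := by rw [← h0]
  have hval : g w.1 (u g w + u g z) (u g w + u g z) = 2 + 2 * cos (w.2 - z.2) := by
    have g1 : g w.1 (u g w) (u g w) = 1 := g_u_self hg w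
    have g2 : g w.1 (u g w) (u g z) = cos (w.2 - z.2) := by
      rw [hgz]; exact g_u_u hg w.1 w.2 z.2
    have g3 : g w.1 (u g z) (u g w) = cos (w.2 - z.2) := by rw [hg.symm]; exact g2
    have g4 : g w.1 (u g z) (u g z) = 1 := by rw [← h0]; exact g_u_self hg z
    simp only [map_add, add_apply, g1, g2, g3, g4]
    ring
  have hcos : cos (w.2 - z.2) = 1 := by
    have h4 : (4:ℝ) ≤ g w.1 (u g w + u g z) (u g w + u g z) := by
      have h5 : q ^ 2 = g w.1 (u g w + u g z) (u g w + u g z) := by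
        rw [hq]; exact Real.sq_sqrt (g_nonneg hg _ _)
      nlinarith
    have h6 := cos_le_one (w.2 - z.2)
    rw [hval] at h4
    linarith
  obtain ⟨k, hk⟩ := (Real.cos_eq_one_iff _).mp hcos
  exact ⟨k, by linarith⟩

end PPF
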