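import Pool.Agent.Lib.MP_a4f5e0_gt.IfD

/-!
JOB L6a. Small spheres: the point of a small sphere nearest to `y`.

By `dg_lower` (D3) with `K = {x}`: `c * min ‖p - x‖ 1 ≤ dg g x p`. Let `δ₀ = c`. For `0 < δ < δ₀` the sphere `Sp = {p | dg g x p = δ}` is closed (`dg_continuous`) and
contained in `closedBall x 1` (if `‖p - x‖ ≥ 1` then `dg g x p ≥ c > δ`), hence compact. Let `dg g x y ≥ δ`. For every `C¹` curve `γ` from `x` to `y`
the continuous function `t ↦ dg g x (γ t)` goes from `0` to `≥ δ` on `[0, 1]`, so `dg g x (γ t) = δ` for some `t ∈ [0, 1]` (`intermediate_value_Icc`); in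
particular `Sp` is nonempty, and `dg g · y` attains its minimum on `Sp` at `p` (`IsCompact.exists_isMinOn`).
By `dg_add_le_len` (D2): `len g γ ≥ dg g x (γ t) + dg g (γ t) y ≥ δ + dg g p y`. With `exists_curve`: `dg g x y ≥ δ + dg g p y`; the
other inequality is the triangle inequality.
-/

set_option autoImplicit false

open MeasureTheory Set Filter Topology Real Metric

noncomputable section

namespace PPF

variable {g : E → E →L[ℝ] E →L[ℝ] ℝ} {φ : ℝ → St → St}

theorem sphere_point (hg : Met g) (x : E) : ∃ δ₀ > 0, ∀ δ, 0 < δ → δ < δ₀ → ∀ y, δ ≤ dg g x y →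
    ∃ p, dg g x p = δ ∧ dg g x y = δ + dg g p y := by
  obtain ⟨c, hc, hlow⟩ := dg_lower hg (isCompact_singleton (x := x))
  refine ⟨c, hc, fun δ hδ hδc y hy => ?_⟩
  have hcont : Continuous fun q : E => dg g x q :=
    (dg_continuous hg).comp (continuous_const.prodMk continuous_id)
  have hcont' : Continuous fun q : E => dg g q y :=
    (dg_continuous hg).comp (continuous_id.prodMk continuous_const)
  have hclosed : IsClosed {q : E | dg g x q = δ} := isClosed_eq hcont continuous_const
  have hsub : {q : E | dg g x q = δ} ⊆ closedBall x 1 := by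
    intro q hq
    rw [mem_closedBall, dist_eq_norm]
    by_contra hcon
    have h1 : min ‖q - x‖ 1 = 1 := min_eq_right (le_of_lt (not_le.1 hcon))
    have h2 := hlow x rfl q
    rw [h1, mul_one] at h2
    have h3 : dg g x q = δ := hq
    linarith
  have hcomp : IsCompact {q : E | dg g x q = δ} :=
    (isCompact_closedBall x 1).of_isClosed_subset hclosed hsub
  have hcross : ∀ γ : ℝ → E, ContDiff ℝ 1 γ → γ 0 = x → γ 1 = y →
      ∃ t ∈ Icc (0:ℝ) 1, dg g x (γ t) = δ := by
    intro γ hγ h0 h1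
    have hf : ContinuousOn (fun t : ℝ => dg g x (γ t)) (Icc 0 1) :=
      (hcont.comp hγ.continuous).continuousOn
    have h2 := intermediate_value_Icc (zero_le_one' ℝ) hf
    have h3 : δ ∈ Icc (dg g x (γ 0)) (dg g x (γ 1)) := by
      rw [h0, h1, dg_self hg]
      exact ⟨hδ.le, hy⟩
    obtain ⟨t, ht, ht2⟩ := h2 h3
    exact ⟨t, ht, ht2⟩
  have hne : {q : E | dg g x q = δ}.Nonempty := by
    obtain ⟨γ, hγ, h0, h1, _⟩ := exists_curve hg x y one_pos
    obtain ⟨t, _, ht⟩ := hcross γ hγ h0 h1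
    exact ⟨γ t, ht⟩
  obtain ⟨q, hq, hmin⟩ := hcomp.exists_isMinOn hne hcont'.continuousOn
  have hq' : dg g x q = δ := hq
  refine ⟨q, hq', le_antisymm ?_ ?_⟩
  · have := dg_triangle hg x q y
    rw [hq'] at this
    exact this
  · refine le_of_forall_pos_le_add fun ε hε => ?_
    obtain ⟨γ, hγ, h0, h1, h2⟩ := exists_curve hg x y hε
    obtain ⟨t, ht, ht2⟩ := hcross γ hγ h0 h1
    have h3 := dg_add_le_len hg hγ ht
    rw [h0, h1, ht2] at h3
    have h4 : dg g q y ≤ dg g (γ t) y := hmin ht2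
    linarith

end PPF
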