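import Pool.Agent.Lib.MP_a4f5e0_gt.L4
import Pool.Agent.Lib.MP_a4f5e0_gt.L5
import Pool.Agent.Lib.MP_a4f5e0_gt.L6a

/-!
JOB L6b. Hopf-Rinow.

* `hopf_step`: let `z` be a state and `0 < T`, with `dg g (φ (-T) z).1 y = T + dg g z.1 y` and `z.1 ≠ y`. Then there is `δ > 0` with
  `dg g (φ δ z).1 y = dg g z.1 y - δ`. Proof: let `δ` be small for `sphere_point` and `loc_min` (`K = {z.1}`) at `z.1` and `δ ≤ dg g z.1 y`; `p` with
  `dg g z.1 p = δ`, `dg g z.1 y = δ + dg g p y`; `p = (φ δ (z.1, α)).1`. Then `dg g (φ (-T) z).1 p ≥ dg g (φ (-T) z).1 y - dg g p y = T + δ`, and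
  `≤ T + δ` (triangle inequality, `IsFlow.dg_le`). `no_corner` (with `w = (z.1, α)`) gives `α = z.2 + 2πk`, so `p = (φ δ z).1` (`IsFlow.int_two_pi`).
* `hopf_rinow`: let `r = dg g x y`; if `r = 0` then `x = y` (`dg_eq_zero_iff`). Otherwise choose `δ` small for `sphere_point` and `loc_min` at `x`
  (`K = {x}`), `δ ≤ r`: `p = (φ δ (x, α)).1`, `r = δ + dg g p y`. Let `T` be the supremum of the set
  `{t ∈ Icc δ r | dg g (φ t (x, α)).1 y = r - t}`, closed (`dg_continuous`, `IsFlow.continuous`) and nonempty, so `T` belongs to it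
  (`IsCompact.sSup_mem`). If `T < r`, `hopf_step` for `z = φ T (x, α)` (`(φ (-T) z).1 = x` by `IsFlow.neg_left`; `dg g z.1 y = r - T > 0`) gives a larger element `T + δ'`
  (`T + δ' ≤ r` because `dg ≥ 0`; `IsFlow.add`), a contradiction. So `T = r` and `dg g (φ r (x, α)).1 y = 0`.
* `ball_compact`: closed by `dg_continuous`; contained in the image of the compact set `Icc 0 R ×ˢ Icc 0 (2π)` under the continuous map
  `(t, α) ↦ (φ t (x, α)).1` (`hopf_rinow`, reduce the angle by `IsFlow.int_two_pi`); `IsCompact.of_isClosed_subset`. (If `R < 0` the set is empty.)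
-/

set_option autoImplicit false

open MeasureTheory Set Filter Topology Real Metric

noncomputable section

namespace PPF

variable {g : E → E →L[ℝ] E →L[ℝ] ℝ} {φ : ℝ → St → St}

theorem hopf_step (hg : Met g) (hφ : IsFlow g φ) {z : St} {T : ℝ} {y : E} (hT : 0 < T)
    (h : dg g (φ (-T) z).1 y = T + dg g z.1 y) (hy : z.1 ≠ y) :
    ∃ δ > 0, dg g (φ δ z).1 y = dg g z.1 y - δ := by
  have hD : 0 < dg g z.1 y := dg_pos hg hy
  obtain ⟨δ₀, hδ₀, hsp⟩ := sphere_point hg z.1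
  obtain ⟨δ₁, hδ₁, hlm⟩ := loc_min hg hφ (isCompact_singleton (x := z.1))
  obtain ⟨δ, hδ⟩ : ∃ δ, δ = min (min (δ₀ / 2) (δ₁ / 2)) (dg g z.1 y) := ⟨_, rfl⟩
  have hpos : 0 < δ := by
    rw [hδ]
    exact lt_min (lt_min (half_pos hδ₀) (half_pos hδ₁)) hD
  have hl0 : δ < δ₀ := by
    have h1 : δ ≤ δ₀ / 2 := by
      rw [hδ]
      exact (min_le_left _ _).trans (min_le_left _ _)
    linarith
  have hl1 : δ < δ₁ := by
    have h1 : δ ≤ δ₁ / 2 := by
      rw [hδ]
      exact (min_le_left _ _).trans (min_le_right _ _)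
    linarith
  have hlD : δ ≤ dg g z.1 y := by
    rw [hδ]
    exact min_le_right _ _
  obtain ⟨p, hp1, hp2⟩ := hsp δ hpos hl0 y hlD
  obtain ⟨α, hα⟩ := hlm z.1 rfl p (by rw [hp1]; exact hl1)
  rw [hp1] at hα
  have h1 : dg g (φ (-T) z).1 z.1 ≤ T := by
    have h2 := IsFlow.dg_le hg hφ z (-T) 0
    rw [hφ.zero, sub_zero, abs_neg, abs_of_pos hT] at h2
    exact h2
  have h2 := dg_triangle hg (φ (-T) z).1 z.1 p
  have h3 := dg_triangle hg (φ (-T) z).1 p y
  have h4 : dg g (φ (-T) z).1 (φ δ (z.1, α)).1 = T + δ := by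
    rw [hα]
    linarith
  obtain ⟨k, hk⟩ := no_corner hg hφ hT hpos (z := z) (w := (z.1, α)) rfl h4
  have hk' : α = z.2 + 2 * π * k := hk
  have h5 : (φ δ z).1 = p := by
    rw [← hα, hk', IsFlow.int_two_pi hg hφ]
  refine ⟨δ, hpos, ?_⟩
  rw [h5]
  linarith

/-- Hopf-Rinow: any two points are joined by a minimising geodesic -/
theorem hopf_rinow (hg : Met g) (hφ : IsFlow g φ) (x y : E) :
    ∃ α, (φ (dg g x y) (x, α)).1 = y := by
  rcases eq_or_ne x y with hxy | hxy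
  · refine ⟨0, ?_⟩
    rw [← hxy, dg_self hg, hφ.zero]
  have hD : 0 < dg g x y := dg_pos hg hxy
  obtain ⟨δ₀, hδ₀, hsp⟩ := sphere_point hg x
  obtain ⟨δ₁, hδ₁, hlm⟩ := loc_min hg hφ (isCompact_singleton (x := x))
  obtain ⟨δ, hδ⟩ : ∃ δ, δ = min (min (δ₀ / 2) (δ₁ / 2)) (dg g x y) := ⟨_, rfl⟩
  have hpos : 0 < δ := by
    rw [hδ]
    exact lt_min (lt_min (half_pos hδ₀) (half_pos hδ₁)) hD
  have hl0 : δ < δ₀ := by
    have h1 : δ ≤ δ₀ / 2 := by
      rw [hδ]
      exact (min_le_left _ _).trans (min_le_left _ _)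
    linarith
  have hl1 : δ < δ₁ := by
    have h1 : δ ≤ δ₁ / 2 := by
      rw [hδ]
      exact (min_le_left _ _).trans (min_le_right _ _)
    linarith
  have hlD : δ ≤ dg g x y := by
    rw [hδ]
    exact min_le_right _ _
  obtain ⟨p, hp1, hp2⟩ := hsp δ hpos hl0 y hlD
  obtain ⟨α, hα⟩ := hlm x rfl p (by rw [hp1]; exact hl1)
  rw [hp1] at hα
  refine ⟨α, ?_⟩
  have hcont : Continuous fun t : ℝ => dg g (φ t (x, α)).1 y := by
    have h1 : Continuous fun t : ℝ => φ t (x, α) :=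
      hφ.continuous.comp (continuous_id.prodMk continuous_const)
    exact (dg_continuous hg).comp (h1.fst.prodMk continuous_const)
  obtain ⟨S, hS⟩ : ∃ S : Set ℝ, S = {t | t ∈ Icc δ (dg g x y) ∧
      dg g (φ t (x, α)).1 y = dg g x y - t} := ⟨_, rfl⟩
  have hmem : ∀ t, t ∈ S ↔ t ∈ Icc δ (dg g x y) ∧ dg g (φ t (x, α)).1 y = dg g x y - t := by
    intro t
    rw [hS]
    exact Iff.rfl
  have hScl : IsClosed S := by
    rw [hS]
    exact isClosed_Icc.inter (isClosed_eq hcont (continuous_const.sub continuous_id))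
  have hScpt : IsCompact S :=
    isCompact_Icc.of_isClosed_subset hScl (fun t ht => ((hmem t).1 ht).1)
  have hSne : S.Nonempty := by
    refine ⟨δ, (hmem δ).2 ⟨⟨le_rfl, hlD⟩, ?_⟩⟩
    rw [hα]
    linarith
  have hT := (hmem _).1 (hScpt.sSup_mem hSne)
  obtain ⟨T, hTdef⟩ : ∃ T, T = sSup S := ⟨_, rfl⟩
  rw [← hTdef] at hT
  have hTpos : 0 < T := hpos.trans_le hT.1.1
  have hTr : T = dg g x y := by
    by_contra hne
    have hlt : T < dg g x y := lt_of_le_of_ne hT.1.2 hne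
    have hz : (φ (-T) (φ T (x, α))).1 = x := by
      rw [IsFlow.neg_left hg hφ]
    have hstep : dg g (φ (-T) (φ T (x, α))).1 y = T + dg g (φ T (x, α)).1 y := by
      rw [hz, hT.2]
      ring
    have hney : (φ T (x, α)).1 ≠ y := by
      intro h
      have h1 := hT.2
      rw [h, dg_self hg] at h1
      linarith
    obtain ⟨δ', hδ', h'⟩ := hopf_step hg hφ hTpos hstep hney
    rw [← IsFlow.add hg hφ, hT.2] at h'
    have hnn := dg_nonneg (g := g) (φ (δ' + T) (x, α)).1 y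
    have hin : δ' + T ∈ S := by
      refine (hmem _).2 ⟨⟨?_, ?_⟩, ?_⟩
      · have := hT.1.1
        linarith
      · linarith
      · rw [h']
        ring
    have hle := le_csSup hScpt.bddAbove hin
    rw [← hTdef] at hle
    linarith
  have hfin := hT.2
  rw [hTr, sub_self] at hfin
  exact (dg_eq_zero_iff hg).1 hfin

theorem ball_compact (hg : Met g) (hφ : IsFlow g φ) (x : E) (R : ℝ) :
    IsCompact {y | dg g x y ≤ R} := by
  have hcl : IsClosed {y | dg g x y ≤ R} := by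
    have h1 : Continuous fun y : E => dg g x y :=
      (dg_continuous hg).comp (continuous_const.prodMk continuous_id)
    exact isClosed_le h1 continuous_const
  have hcont : Continuous fun q : ℝ × ℝ => (φ q.1 (x, q.2)).1 := by
    have h1 : Continuous fun q : ℝ × ℝ => φ q.1 (x, q.2) :=
      hφ.continuous.comp (continuous_fst.prodMk (continuous_const.prodMk continuous_snd))
    exact h1.fst
  have hcpt : IsCompact ((fun q : ℝ × ℝ => (φ q.1 (x, q.2)).1) ''
      (Icc (0:ℝ) R ×ˢ Icc (0:ℝ) (2 * π))) :=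
    (isCompact_Icc.prod isCompact_Icc).image hcont
  refine hcpt.of_isClosed_subset hcl ?_
  intro y hy
  obtain ⟨α, hα⟩ := hopf_rinow hg hφ x y
  obtain ⟨k, hk, -⟩ := existsUnique_add_zsmul_mem_Ico Real.two_pi_pos α 0
  have hk' : α + (k : ℝ) * (2 * π) ∈ Ico (0:ℝ) (2 * π) := by
    have h1 : α + k • (2 * π) ∈ Ico (0:ℝ) (0 + 2 * π) := hk
    rw [zero_add, zsmul_eq_mul] at h1
    exact h1
  refine ⟨(dg g x y, α + (k : ℝ) * (2 * π)), ⟨⟨dg_nonneg _ _, hy⟩, ⟨hk'.1, hk'.2.le⟩⟩, ?_⟩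
  show (φ (dg g x y) (x, α + (k : ℝ) * (2 * π))).1 = y
  rw [mul_comm (k : ℝ) (2 * π), IsFlow.int_two_pi hg hφ]
  exact hα

end PPF
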