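import Pool.Agent.Lib.MP_a4f5e0_gt.L6b

/-!
JOB L7a. Local isometries are locally orbits.

* `no_corner_point`: from `hopf_rinow` and `no_corner`: let `dg g x y = a > 0`, `dg g y w = b > 0`, `dg g x w = a + b`, and `(φ b (y, β)).1 = w`. Then
  `(φ (-a) (y, β)).1 = x`. Proof: `hopf_rinow x y` gives `α` with `(φ a (x, α)).1 = y`; put `z = φ a (x, α)`, so `z.1 = y`, `(φ (-a) z).1 = x`
  (`IsFlow.neg_left`). `no_corner` (for `z` and `(y, β)`): `β = z.2 + 2πk`; so `(φ (-a) (y, β)).1 = (φ (-a) z).1 = x` (`IsFlow.int_two_pi`).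
* `no_corner_point'`: mirror image: `(φ (-a) (y, β)).1 = x` and `dg g x w = a + b` give `(φ b (y, β)).1 = w`. Proof: `hopf_rinow y w` gives `β'` with
  `(φ b (y, β')).1 = w`, and `no_corner` for `z = (y, β)`, `w = (y, β')`.
* `locGeo_local`: let `γ` be isometric on `(t₀ - ε, t₀ + ε)`. `s₁ = t₀ + ε / 2`: `hopf_rinow (γ t₀) (γ s₁)` gives `β` with
  `(φ (ε / 2) (γ t₀, β)).1 = γ s₁`. For `s ∈ (t₀ - ε, t₀)`: `no_corner_point` with `x = γ s`, `y = γ t₀`, `w = γ s₁` gives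
  `γ s = (φ (s - t₀) (γ t₀, β)).1`. For `s ∈ (t₀, t₀ + ε)`: `no_corner_point'` with `x = γ (t₀ - ε / 2)`, `y = γ t₀`, `w = γ s`. For `s = t₀` trivial.
-/

set_option autoImplicit false

open MeasureTheory Set Filter Topology Real Metric

noncomputable section

namespace PPF

variable {g : E → E →L[ℝ] E →L[ℝ] ℝ} {φ : ℝ → St → St}

theorem no_corner_point (hg : Met g) (hφ : IsFlow g φ) {x y w : E} {a b β : ℝ} (ha : 0 < a)
    (hb : 0 < b) (hxy : dg g x y = a) (hxw : dg g x w = a + b) (h : (φ b (y, β)).1 = w) :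
    (φ (-a) (y, β)).1 = x := by
  obtain ⟨α, hα⟩ := hopf_rinow hg hφ x y
  rw [hxy] at hα
  have hz : φ (-a) (φ a (x, α)) = (x, α) := IsFlow.neg_left hg hφ a (x, α)
  obtain ⟨k, hk⟩ := no_corner hg hφ (z := φ a (x, α)) (w := (y, β)) ha hb hα
    (by rw [hz, h]; exact hxw)
  have hk' : β = (φ a (x, α)).2 + 2 * π * k := hk
  have h1 : φ a (x, α) = (y, (φ a (x, α)).2) := Prod.ext hα rfl
  rw [hk', IsFlow.int_two_pi hg hφ, ← h1, hz]

theorem no_corner_point' (hg : Met g) (hφ : IsFlow g φ) {x y w : E} {a b β : ℝ} (ha : 0 < a)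
    (hb : 0 < b) (hyw : dg g y w = b) (hxw : dg g x w = a + b) (h : (φ (-a) (y, β)).1 = x) :
    (φ b (y, β)).1 = w := by
  obtain ⟨β', hβ'⟩ := hopf_rinow hg hφ y w
  rw [hyw] at hβ'
  obtain ⟨k, hk⟩ := no_corner hg hφ (z := (y, β)) (w := (y, β')) ha hb rfl
    (by rw [h, hβ']; exact hxw)
  have hk' : β' = β + 2 * π * k := hk
  rw [hk', IsFlow.int_two_pi hg hφ] at hβ'
  exact hβ'

theorem locGeo_local (hg : Met g) (hφ : IsFlow g φ) {γ : ℝ → E} {t₀ ε : ℝ} (hε : 0 < ε)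
    (h : ∀ s s' : ℝ, |s - t₀| < ε → |s' - t₀| < ε → dg g (γ s) (γ s') = |s - s'|) :
    ∃ z : St, ∀ s, |s - t₀| < ε → γ s = (φ (s - t₀) z).1 := by
  have h0 : |t₀ - t₀| < ε := by rw [sub_self, abs_zero]; exact hε
  have hp : |t₀ + ε / 2 - t₀| < ε := by
    rw [add_sub_cancel_left, abs_of_pos (by linarith)]; linarith
  have hm : |t₀ - ε / 2 - t₀| < ε := by
    rw [abs_lt]; constructor <;> linarith
  obtain ⟨β, hβ⟩ := hopf_rinow hg hφ (γ t₀) (γ (t₀ + ε / 2))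
  have h1 : dg g (γ t₀) (γ (t₀ + ε / 2)) = ε / 2 := by
    rw [h _ _ h0 hp, abs_sub_comm, add_sub_cancel_left, abs_of_pos (by linarith)]
  rw [h1] at hβ
  have hneg : ∀ s, |s - t₀| < ε → s < t₀ → (φ (s - t₀) (γ t₀, β)).1 = γ s := by
    intro s hs hlt
    have h2 := no_corner_point hg hφ (x := γ s) (y := γ t₀) (w := γ (t₀ + ε / 2)) (a := t₀ - s)
      (b := ε / 2) (β := β) (by linarith) (by linarith)
      (by rw [h _ _ hs h0, abs_sub_comm, abs_of_pos (by linarith)])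
      (by rw [h _ _ hs hp, abs_sub_comm, abs_of_pos (by linarith)]; ring) hβ
    rw [neg_sub] at h2
    exact h2
  refine ⟨(γ t₀, β), fun s hs => ?_⟩
  rcases lt_trichotomy s t₀ with hlt | heq | hgt
  · exact (hneg s hs hlt).symm
  · rw [heq, sub_self, hφ.zero]
  · have h3 := hneg (t₀ - ε / 2) hm (by linarith)
    have h4 := no_corner_point' hg hφ (x := γ (t₀ - ε / 2)) (y := γ t₀) (w := γ s) (a := ε / 2)
      (b := s - t₀) (β := β) (by linarith) (by linarith)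
      (by rw [h _ _ h0 hs, abs_sub_comm, abs_of_pos (by linarith)])
      (by rw [h _ _ hm hs, abs_sub_comm, abs_of_pos (by linarith)]; ring)
      (by rw [← h3]; congr 2; ring)
    exact h4.symm

end PPF
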