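import Pool.Agent.Lib.MP_a4f5e0_gt.L7a

/-!
JOB L7b. Local `d`-geodesics are exactly the orbits of the flow.

* `orbit_eq_of_eqOn`: if `(φ s z).1 = (φ s w).1` for all `s` in an open interval around `t₀`, then `(φ s z).1 = (φ s w).1` for all `s`. Proof: the
  derivatives at `t₀` agree (`IsFlow.hasDerivAt_fst`, `HasDerivAt.unique` after `congr_of_eventuallyEq`): `u g (φ t₀ z) = u g (φ t₀ w)`, the same point, so the
  angles differ by `2πk` (`u_eq_iff`): `φ t₀ w = ((φ t₀ z).1, (φ t₀ z).2 + 2πk)`; then `φ s w = φ (s - t₀) (φ t₀ w)` and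
  `IsFlow.int_two_pi`.
* `locGeo_iff`, `⇒`: `locGeo_local` at `t = 0` gives `z` with `γ s = (φ s z).1` for `|s| < ε`. Let
  `G = {t | ∃ η > 0, ∀ s, |s - t| < η → γ s = (φ s z).1}`. `G` is open, contains `0`. It is closed: let `t` be a limit of `G`, `w, η` from
  `locGeo_local` at `t` (`γ s = (φ (s - t) w).1 = (φ s (φ (-t) w)).1` for `|s - t| < η`); some `t' ∈ G` has `|t' - t| < η`, so on an open interval around `t'`
  both formulas hold; by `orbit_eq_of_eqOn` `(φ s (φ (-t) w)).1 = (φ s z).1` for all `s`, hence `t ∈ G`. So `G = univ` (`IsClopen.eq_univ`).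
* `⇐`: `loc_iso` (L2) at the state `φ t z`: `φ s z = φ (s - t) (φ t z)`.
-/

set_option autoImplicit false

open MeasureTheory Set Filter Topology Real Metric

noncomputable section

namespace PPF

variable {g : E → E →L[ℝ] E →L[ℝ] ℝ} {φ : ℝ → St → St}

theorem orbit_eq_of_eqOn (hg : Met g) (hφ : IsFlow g φ) {z w : St} {t₀ η : ℝ} (hη : 0 < η)
    (h : ∀ s, |s - t₀| < η → (φ s z).1 = (φ s w).1) (s : ℝ) : (φ s z).1 = (φ s w).1 := by
  have h0 : (φ t₀ z).1 = (φ t₀ w).1 := h t₀ (by simpa using hη)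
  have hev : (fun s => (φ s z).1) =ᶠ[𝓝 t₀] (fun s => (φ s w).1) := by
    filter_upwards [Metric.ball_mem_nhds t₀ hη] with s hs
    rw [Metric.mem_ball, Real.dist_eq] at hs
    exact h s hs
  have hd1 := hφ.hasDerivAt_fst t₀ z
  have hd2 := (hφ.hasDerivAt_fst t₀ w).congr_of_eventuallyEq hev
  have hu : u g (φ t₀ z) = u g (φ t₀ w) := hd1.unique hd2
  have hu' : u g ((φ t₀ z).1, (φ t₀ z).2) = u g ((φ t₀ z).1, (φ t₀ w).2) := by
    have e : ((φ t₀ z).1, (φ t₀ w).2) = φ t₀ w := Prod.ext h0 rfl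
    rw [e]
    exact hu
  obtain ⟨k, hk⟩ := (u_eq_iff hg _ _ _).1 hu'
  have hw : φ t₀ w = ((φ t₀ z).1, (φ t₀ z).2 + 2 * π * k) := Prod.ext h0.symm hk
  have e1 : φ s w = φ (s - t₀) (φ t₀ w) := by
    rw [← IsFlow.add hg hφ, sub_add_cancel]
  have e2 : φ s z = φ (s - t₀) (φ t₀ z) := by
    rw [← IsFlow.add hg hφ, sub_add_cancel]
  rw [e1, e2, hw, IsFlow.int_two_pi hg hφ]

/-- local `d`-geodesics are exactly the orbits of the flow -/
theorem locGeo_iff (hg : Met g) (hφ : IsFlow g φ) (γ : ℝ → E) :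
    LocGeo (dg g) γ ↔ ∃ z, ∀ t, γ t = (φ t z).1 := by
  constructor
  · intro hγ
    obtain ⟨ε, hε, h⟩ := hγ 0
    obtain ⟨z, hz⟩ := locGeo_local hg hφ hε h
    have hz' : ∀ s, |s - 0| < ε → γ s = (φ s z).1 := by
      intro s hs
      have := hz s hs
      rwa [sub_zero] at this
    set G : Set ℝ := {t | ∃ η > 0, ∀ s, |s - t| < η → γ s = (φ s z).1} with hG
    have hopen : IsOpen G := by
      rw [Metric.isOpen_iff]
      rintro t ⟨η, hη, ht⟩
      refine ⟨η / 2, by linarith, fun t' ht' => ⟨η / 2, by linarith, fun s hs => ht s ?_⟩⟩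
      rw [Metric.mem_ball, Real.dist_eq] at ht'
      have h3 : |s - t| ≤ |s - t'| + |t' - t| := abs_sub_le s t' t
      linarith
    have hclosed : IsClosed G := by
      apply isClosed_of_closure_subset
      intro t ht
      obtain ⟨η, hη, h1⟩ := hγ t
      obtain ⟨w, hw⟩ := locGeo_local hg hφ hη h1
      have hw' : ∀ s, |s - t| < η → γ s = (φ s (φ (-t) w)).1 := by
        intro s hs
        rw [hw s hs, ← IsFlow.add hg hφ, sub_eq_add_neg]
      obtain ⟨t', ht', hd⟩ := Metric.mem_closure_iff.1 ht η hη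
      obtain ⟨η', hη', h2⟩ := ht'
      rw [Real.dist_eq, abs_sub_comm] at hd
      have hpos : 0 < min η' (η - |t' - t|) := lt_min hη' (by linarith)
      have hall := orbit_eq_of_eqOn hg hφ (z := φ (-t) w) (w := z) (t₀ := t') hpos (by
        intro s hs
        have h3 := lt_of_lt_of_le hs (min_le_left _ _)
        have h4 := lt_of_lt_of_le hs (min_le_right _ _)
        have h5 : |s - t| ≤ |s - t'| + |t' - t| := abs_sub_le s t' t
        rw [← hw' s (by linarith), ← h2 s h3])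
      exact ⟨η, hη, fun s hs => (hw' s hs).trans (hall s)⟩
    have huniv : G = univ := IsClopen.eq_univ ⟨hclosed, hopen⟩ ⟨0, ε, hε, hz'⟩
    refine ⟨z, fun t => ?_⟩
    have ht : t ∈ G := by
      rw [huniv]
      exact mem_univ t
    obtain ⟨η, hη, h1⟩ := ht
    exact h1 t (by simpa using hη)
  · rintro ⟨z, hz⟩ t
    obtain ⟨ε, hε, h⟩ := loc_iso hg hφ (φ t z)
    refine ⟨ε, hε, fun s s' hs hs' => ?_⟩
    have h1 := h (φ t z) (mem_ball_self hε) (s - t) (s' - t) hs hs'
    rw [← IsFlow.add hg hφ, ← IsFlow.add hg hφ, sub_add_cancel, sub_add_cancel] at h1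
    rw [hz s, hz s', h1]
    congr 1
    ring

end PPF
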