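import Pool.Agent.Lib.MP_a4f5e0_gt.OTube

/-!
# ODiff: the flow is differentiable in the initial value

JOB ODiff.
-/

set_option autoImplicit false

open MeasureTheory Set Filter Topology Real

noncomputable section

namespace PPF

variable {F : Type*} [NormedAddCommGroup F] [NormedSpace ℝ F]

/-- PROOF for `t ≥ 0`. Let `δ, L` be given by `Fl.close` (`T = t`), `B` by `Fl.tube_bound`. Given `ε > 0`
let `η` be given by `Fl.tube_linear`. For `‖y‖ < δ`, `L * ‖y‖ ≤ η` put
`r s = φ s (z + y) - φ s z - M s y`. Then `r 0 = 0` and, for `s ∈ Icc 0 t`,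
`r' s = (V (φ s (z+y)) - V (φ s z) - DV(φ s z) (φ s (z+y) - φ s z)) + DV(φ s z) (r s)`, so
`‖r' s‖ ≤ B * ‖r s‖ + ε * L * ‖y‖`. `norm_le_gronwallBound_of_norm_deriv_right_le` gives
`‖r t‖ ≤ gronwallBound 0 B (ε L ‖y‖) t ≤ ε * L * ‖y‖ * K` with `K` depending only on `B, t` (if `B = 0` use
`B + 1`: take `B > 0` from the start; `gronwallBound_of_K_ne_0`). Conclude with
`hasFDerivAt_iff_isLittleO_nhds_zero` / `Asymptotics.isLittleO_iff` (ε arbitrary). -/
theorem Fl.hasFDerivAt_right [FiniteDimensional ℝ F] {V : F → F} {φ : ℝ → F → F} (h : Fl V φ)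
    (hV : ContDiff ℝ 1 V) {z : F} {M : ℝ → (F →L[ℝ] F)} (h0 : M 0 = ContinuousLinearMap.id ℝ F)
    (hM : ∀ t, HasDerivAt M ((fderiv ℝ V (φ t z)).comp (M t)) t) {t : ℝ} (ht : 0 ≤ t) :
    HasFDerivAt (φ t) (M t) z := by
  obtain ⟨B0, hB0, hBt⟩ := h.tube_bound hV z t
  obtain ⟨δ, hδ, L, hL, hcl⟩ := h.close hV z t
  obtain ⟨B, hBdef⟩ : ∃ B, B = B0 + 1 := ⟨_, rfl⟩
  have hBpos : 0 < B := by rw [hBdef]; positivity
  obtain ⟨K, hKdef⟩ : ∃ K, K = exp (B * t) / B := ⟨_, rfl⟩
  have hK : 0 ≤ K := by rw [hKdef]; positivity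
  rw [hasFDerivAt_iff_isLittleO_nhds_zero, Asymptotics.isLittleO_iff]
  intro c hc
  obtain ⟨ε, hεdef⟩ : ∃ ε, ε = c / ((L + 1) * (K + 1)) := ⟨_, rfl⟩
  have hε : 0 < ε := by rw [hεdef]; positivity
  have hεLK : ε * L * K ≤ c := by
    have h1 : ε * ((L + 1) * (K + 1)) = c := by
      rw [hεdef]; field_simp
    have h2 : ε * L * K ≤ ε * ((L + 1) * (K + 1)) := by
      rw [mul_assoc]
      apply mul_le_mul_of_nonneg_left _ hε.le
      nlinarith
    linarith
  obtain ⟨η, hη, hη1, hlin⟩ := h.tube_linear hV z t hε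
  have hmin : 0 < min δ (η / (L + 1)) := lt_min hδ (by positivity)
  filter_upwards [Metric.ball_mem_nhds (0 : F) hmin] with y hy
  rw [mem_ball_zero_iff] at hy
  have hy1 : ‖y‖ < δ := lt_of_lt_of_le hy (min_le_left _ _)
  have hy2 : L * ‖y‖ ≤ η := by
    have h1 : ‖y‖ < η / (L + 1) := lt_of_lt_of_le hy (min_le_right _ _)
    have h2 : ‖y‖ * (L + 1) < η := by rwa [lt_div_iff₀ (by positivity)] at h1
    nlinarith [norm_nonneg y]
  have hzy : z + y ∈ Metric.ball z δ := by
    rw [Metric.mem_ball, dist_eq_norm, add_sub_cancel_left]; exact hy1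
  have hzz : z ∈ Metric.ball z δ := Metric.mem_ball_self hδ
  have he : ∀ s ∈ Icc (-t) t, ‖φ s (z + y) - φ s z‖ ≤ L * ‖y‖ := by
    intro s hs
    have := (hcl (z + y) hzy s hs).2 z hzz
    rwa [add_sub_cancel_left] at this
  have hr : ∀ s, HasDerivAt (fun s => φ s (z + y) - φ s z - M s y)
      (V (φ s (z + y)) - V (φ s z) - ((fderiv ℝ V (φ s z)).comp (M s)) y) s := by
    intro s
    have h1 := h.deriv s (z + y)
    have h2 := h.deriv s z
    have h3 : HasDerivAt (fun s => M s y) (((fderiv ℝ V (φ s z)).comp (M s)) y) s := by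
      have := (hM s).clm_apply (hasDerivAt_const s y)
      simpa using this
    exact (h1.sub h2).sub h3
  have hg := norm_le_gronwallBound_of_norm_deriv_right_le
    (f := fun s => φ s (z + y) - φ s z - M s y)
    (f' := fun s => V (φ s (z + y)) - V (φ s z) - ((fderiv ℝ V (φ s z)).comp (M s)) y)
    (δ := 0) (K := B) (ε := ε * (L * ‖y‖)) (a := 0) (b := t)
    (fun s _ => (hr s).continuousAt.continuousWithinAt)
    (fun s _ => (hr s).hasDerivWithinAt)
    (by simp [h.zero, h0])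
    (by
      intro s hs
      have hsI : s ∈ Icc (-t) t := ⟨by linarith [hs.1], hs.2.le⟩
      have hes := he s hsI
      have hb : ‖fderiv ℝ V (φ s z)‖ ≤ B0 :=
        hBt s hsI (φ s z) (Metric.mem_closedBall_self (by norm_num))
      have hl := hlin s hsI (φ s (z + y)) (by
        rw [Metric.mem_closedBall, dist_eq_norm]; exact hes.trans hy2)
      have hsplit : V (φ s (z + y)) - V (φ s z) - ((fderiv ℝ V (φ s z)).comp (M s)) y =
          (V (φ s (z + y)) - V (φ s z) - fderiv ℝ V (φ s z) (φ s (z + y) - φ s z)) +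
          fderiv ℝ V (φ s z) (φ s (z + y) - φ s z - M s y) := by
        rw [ContinuousLinearMap.comp_apply, map_sub (fderiv ℝ V (φ s z)) (φ s (z + y) - φ s z)]
        abel
      show ‖V (φ s (z + y)) - V (φ s z) - ((fderiv ℝ V (φ s z)).comp (M s)) y‖ ≤
        B * ‖φ s (z + y) - φ s z - M s y‖ + ε * (L * ‖y‖)
      rw [hsplit]
      refine (norm_add_le _ _).trans ?_
      have h1 : ‖V (φ s (z + y)) - V (φ s z) - fderiv ℝ V (φ s z) (φ s (z + y) - φ s z)‖ ≤
          ε * (L * ‖y‖) := hl.trans (mul_le_mul_of_nonneg_left hes hε.le)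
      have h2 : ‖fderiv ℝ V (φ s z) (φ s (z + y) - φ s z - M s y)‖ ≤
          B * ‖φ s (z + y) - φ s z - M s y‖ :=
        (ContinuousLinearMap.le_opNorm _ _).trans
          (mul_le_mul_of_nonneg_right (hb.trans (by rw [hBdef]; linarith)) (norm_nonneg _))
      linarith)
    t ⟨ht, le_rfl⟩
  refine hg.trans ?_
  rw [gronwallBound_of_K_ne_0 hBpos.ne', sub_zero]
  show 0 * exp (B * t) + ε * (L * ‖y‖) / B * (exp (B * t) - 1) ≤ c * ‖y‖
  rw [zero_mul, zero_add]
  have h5 : ε * (L * ‖y‖) / B * (exp (B * t) - 1) ≤ ε * (L * ‖y‖) / B * exp (B * t) := by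
    apply mul_le_mul_of_nonneg_left (by linarith)
    positivity
  have h6 : ε * (L * ‖y‖) / B * exp (B * t) = (ε * L * K) * ‖y‖ := by
    rw [hKdef]; ring
  rw [h6] at h5
  exact h5.trans (mul_le_mul_of_nonneg_right hεLK (norm_nonneg _))

/-- for negative times apply `Fl.hasFDerivAt_right` to `Fl.reverse` and `fun s => M (-s)` -/
theorem Fl.hasFDerivAt [FiniteDimensional ℝ F] {V : F → F} {φ : ℝ → F → F} (h : Fl V φ)
    (hV : ContDiff ℝ 1 V) {z : F} {M : ℝ → (F →L[ℝ] F)} (h0 : M 0 = ContinuousLinearMap.id ℝ F)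
    (hM : ∀ t, HasDerivAt M ((fderiv ℝ V (φ t z)).comp (M t)) t) (t : ℝ) :
    HasFDerivAt (φ t) (M t) z := by
  rcases le_total 0 t with ht | ht
  · exact h.hasFDerivAt_right hV h0 hM ht
  · have hrev := h.reverse
    have hMr : ∀ s, HasDerivAt (fun s => M (-s))
        ((fderiv ℝ (fun w => - V w) (φ (-s) z)).comp (M (-s))) s := by
      intro s
      have h1 := (hM (-s)).scomp s (hasDerivAt_neg s)
      have h2 : fderiv ℝ (fun w => - V w) (φ (-s) z) = - fderiv ℝ V (φ (-s) z) := fderiv_fun_neg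
      rw [h2, ContinuousLinearMap.neg_comp]
      simpa [Function.comp_def] using h1
    have h3 := hrev.hasFDerivAt_right (z := z) (M := fun s => M (-s)) hV.neg
      (by simpa using h0) hMr (t := -t) (by linarith)
    simpa using h3

end PPF
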