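import Pool.Agent.Lib.MP_a4f5e0_gt.OVar
import Pool.Agent.Lib.MP_a4f5e0_gt.ODiff

/-!
# OFlow: existence of the `C¹` flow

JOB OFlow.
-/

set_option autoImplicit false

open MeasureTheory Set Filter Topology Real

noncomputable section

namespace PPF

/-- continuity of `coprod` -/
theorem oflow_coprod_cont {X F : Type*} [TopologicalSpace X] [NormedAddCommGroup F]
    [NormedSpace ℝ F] {f : X → (ℝ →L[ℝ] F)} {g : X → (F →L[ℝ] F)} (hf : Continuous f)
    (hg : Continuous g) : Continuous fun x => (f x).coprod (g x) := by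
  have h : (fun x => (f x).coprod (g x)) = fun x =>
      (f x).comp (ContinuousLinearMap.fst ℝ ℝ F) + (g x).comp (ContinuousLinearMap.snd ℝ ℝ F) := by
    funext x
    ext y <;> simp
  rw [h]
  exact (hf.clm_comp continuous_const).add (hg.clm_comp continuous_const)

/-- the flow of a complete `C²` vector field is `C¹` and its derivative solves the linearised
equation. PROOF: choose `φ t z = c z t`; this is an `Fl V φ`. `exists_var` gives `M`, `Fl.hasFDerivAt` gives
`HasFDerivAt (φ t) (M t z) z`, so `fderiv ℝ (φ s) z = M s z`. Joint `C¹`: Mathlib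
`hasStrictFDerivAt_uncurry_coprod` with `f t z = φ t z`, `f₁ t z = ContinuousLinearMap.toSpanSingleton ℝ
(V (φ t z))` (continuous, by `Fl.cont`), `f₂ t z = M t z` (continuous); then `contDiff_one_iff_fderiv`
(or `contDiff_one_iff_hasFDerivAt`): the derivative `(f₁ t z).coprod (f₂ t z)` is continuous. -/
theorem exists_flow {F : Type*} [NormedAddCommGroup F] [NormedSpace ℝ F] [FiniteDimensional ℝ F]
    (V : F → F) (hV : ContDiff ℝ 2 V)
    (hc : ∀ z, ∃ c : ℝ → F, c 0 = z ∧ ∀ t, HasDerivAt c (V (c t)) t) :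
    ∃ φ : ℝ → F → F, (∀ z, φ 0 z = z) ∧
      (∀ t z, HasDerivAt (fun s => φ s z) (V (φ t z)) t) ∧
      ContDiff ℝ 1 (fun q : ℝ × F => φ q.1 q.2) ∧
      (∀ t z, HasDerivAt (fun s => fderiv ℝ (φ s) z)
        ((fderiv ℝ V (φ t z)).comp (fderiv ℝ (φ t) z)) t) := by
  choose c hc0 hcd using hc
  have hV1 : ContDiff ℝ 1 V := hV.of_le (by norm_num)
  have hfl : Fl V (fun t z => c z t) := ⟨hc0, fun t z => hcd z t⟩
  obtain ⟨M, hM0, hMd, hMc⟩ := exists_var hfl hV
  have hMz : ∀ z, (fun t => M t z) 0 = ContinuousLinearMap.id ℝ F := fun z => hM0 z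
  have hfd : ∀ t z, HasFDerivAt (fun z => c z t) (M t z) z := fun t z =>
    Fl.hasFDerivAt hfl hV1 (M := fun t => M t z) (hMz z) (fun t => hMd t z) t
  have hcont := hfl.cont hV1
  refine ⟨fun t z => c z t, hc0, fun t z => hcd z t, ?_, ?_⟩
  · rw [contDiff_one_iff_hasFDerivAt]
    refine ⟨fun q : ℝ × F => (ContinuousLinearMap.toSpanSingleton ℝ (V (c q.2 q.1))).coprod
      (M q.1 q.2), ?_, ?_⟩
    · have h1 : Continuous fun q : ℝ × F => ContinuousLinearMap.toSpanSingleton ℝ
          (V (c q.2 q.1)) :=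
        (ContinuousLinearMap.toSpanSingletonCLE.continuous).comp (hV1.continuous.comp hcont)
      exact oflow_coprod_cont h1 hMc
    · intro q
      have h1 : Continuous fun q : ℝ × F => ContinuousLinearMap.toSpanSingleton ℝ
          (V (c q.2 q.1)) :=
        (ContinuousLinearMap.toSpanSingletonCLE.continuous).comp (hV1.continuous.comp hcont)
      have h2 := hasStrictFDerivAt_uncurry_coprod (𝕜 := ℝ) (u := q) (f := fun t z => c z t)
        (f₁ := fun t z => ContinuousLinearMap.toSpanSingleton ℝ (V (c z t)))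
        (f₂ := fun t z => M t z)
        (Filter.Eventually.of_forall fun v => (hcd v.2 v.1).hasFDerivAt)
        (Filter.Eventually.of_forall fun v => hfd v.1 v.2) h1.continuousAt hMc.continuousAt
      exact h2.hasFDerivAt
  · intro t z
    have h1 : (fun s => fderiv ℝ ((fun t z => c z t) s) z) = fun s => M s z := by
      funext s
      exact (hfd s z).fderiv
    have h2 : fderiv ℝ ((fun t z => c z t) t) z = M t z := (hfd t z).fderiv
    rw [h1, h2]
    exact hMd t z

end PPF
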