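import Pool.Agent.Lib.MP_a4f5e0_gt.Defs

/-!
JOB T9a. Green's theorem on rectangles for locally Lipschitz functions.

`P, Q : E → ℝ` locally Lipschitz with `∂₁ Q = ∂₂ P` almost everywhere. Then for all reals
`∫_c^d (Q(b,y) - Q(a,y)) dy = ∫_a^b (P(x,d) - P(x,c)) dx`.

Proof. `P, Q` are differentiable almost everywhere (Rademacher `LipschitzOnWith.ae_differentiableWithinAt…`
on balls: a locally Lipschitz function is Lipschitz on every closed ball, countable union of balls).
`s ↦ Q(s, y)` is Lipschitz on `[a, b]`, hence absolutely continuous, so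
`Q(b,y) - Q(a,y) = ∫_a^b deriv (fun s => Q(s,y)) s ds`
(`LipschitzOnWith.absolutelyContinuousOnInterval`, `AbsolutelyContinuousOnInterval.integral_deriv_eq_sub`).
By Fubini (`volume` on `E` is the image of the product measure, `EuclideanSpace.volume_preserving_…`,
`MeasureTheory.Measure.ae_prod…`, `ae_ae_of_ae_prod`) for almost every `y` the function `Q` is differentiable at
`(s, y)` for almost every `s`, where `deriv (fun s => Q(s,y)) s = fderiv ℝ Q (s,y) b1`. Integrate over `y`:
`∫_c^d (Q(b,y)-Q(a,y)) dy = ∫∫ fderiv Q b1`. The derivative is bounded and measurable on the rectangle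
(`measurable_fderiv_apply_const`), so the order can be exchanged
(`MeasureTheory.intervalIntegral_integral_swap`-type lemma / `integral_prod`). In the same way
`∫_a^b (P(x,d) - P(x,c)) dx = ∫∫ fderiv P b2`. It suffices to treat `a ≤ b`, `c ≤ d`
(both sides are antisymmetric in `(a,b)` and in `(c,d)`).
-/

set_option autoImplicit false

open MeasureTheory Set Filter Topology Real Metric

noncomputable section

namespace PPF

theorem locLip_ae_diff {P : E → ℝ} (hP : LocallyLipschitz P) :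
    ∀ᵐ x : E, DifferentiableAt ℝ P x := by
  have h1 : ∀ x : E, ∃ K : NNReal, ∃ t ∈ 𝓝 x, LipschitzOnWith K P t := hP
  choose K t ht hK using h1
  obtain ⟨s, hs, hcov⟩ := TopologicalSpace.countable_cover_nhds
    (f := fun x => interior (t x)) (fun x => interior_mem_nhds.2 (ht x))
  have h2 : ∀ x : E, ∀ᵐ y : E, y ∈ interior (t x) → DifferentiableWithinAt ℝ P (interior (t x)) y :=
    fun x => ((hK x).mono interior_subset).ae_differentiableWithinAt_of_mem
  have h3 : ∀ᵐ y : E, ∀ x ∈ s, y ∈ interior (t x) →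
      DifferentiableWithinAt ℝ P (interior (t x)) y :=
    (ae_ball_iff hs).2 fun x _ => h2 x
  filter_upwards [h3] with y hy
  have hmem : y ∈ ⋃ x ∈ s, interior (t x) := by
    rw [hcov]
    exact mem_univ y
  rw [mem_iUnion₂] at hmem
  obtain ⟨x, hx, hyx⟩ := hmem
  exact (hy x hx hyx).differentiableAt (isOpen_interior.mem_nhds hyx)

/-- the coordinate map -/
def t9a_i (z : ℝ × ℝ) : E := !₂[z.1, z.2]

theorem t9a_i_eq (x y : ℝ) : (!₂[x, y] : E) = x • b1 + y • b2 := by
  ext i
  fin_cases i <;> simp [b1, b2]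

theorem t9a_i_mp : MeasurePreserving t9a_i volume volume := by
  have h1 := (volume_preserving_finTwoArrow ℝ).symm
  have h2 := PiLp.volume_preserving_toLp (Fin 2)
  have h3 := h2.comp h1
  exact h3

theorem t9a_i_cont : Continuous t9a_i := by
  have : t9a_i = fun z : ℝ × ℝ => z.1 • b1 + z.2 • b2 := by
    funext z
    exact t9a_i_eq z.1 z.2
  rw [this]
  fun_prop

/-- a locally Lipschitz function is Lipschitz on horizontal and vertical segments, so the
fundamental theorem of calculus holds -/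
theorem t9a_ftc1 {P : E → ℝ} (hP : LocallyLipschitz P) (a b y : ℝ) :
    ∫ x in a..b, deriv (fun s => P !₂[s, y]) x = P !₂[b, y] - P !₂[a, y] := by
  have h1 : ContDiff ℝ 1 (fun s : ℝ => (!₂[s, y] : E)) := by
    have : (fun s : ℝ => (!₂[s, y] : E)) = fun s => s • b1 + y • b2 := by
      funext s
      exact t9a_i_eq s y
    rw [this]
    fun_prop
  have h2 : LocallyLipschitz (fun s : ℝ => P !₂[s, y]) := hP.comp h1.locallyLipschitz
  obtain ⟨K, hK⟩ := (h2.locallyLipschitzOn (s := uIcc a b)).exists_lipschitzOnWith_of_compact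
    isCompact_uIcc
  exact hK.absolutelyContinuousOnInterval.integral_deriv_eq_sub

theorem t9a_ftc2 {P : E → ℝ} (hP : LocallyLipschitz P) (c d x : ℝ) :
    ∫ y in c..d, deriv (fun s => P !₂[x, s]) y = P !₂[x, d] - P !₂[x, c] := by
  have h1 : ContDiff ℝ 1 (fun s : ℝ => (!₂[x, s] : E)) := by
    have : (fun s : ℝ => (!₂[x, s] : E)) = fun s => x • b1 + s • b2 := by
      funext s
      exact t9a_i_eq x s
    rw [this]
    fun_prop
  have h2 : LocallyLipschitz (fun s : ℝ => P !₂[x, s]) := hP.comp h1.locallyLipschitz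
  obtain ⟨K, hK⟩ := (h2.locallyLipschitzOn (s := uIcc c d)).exists_lipschitzOnWith_of_compact
    isCompact_uIcc
  exact hK.absolutelyContinuousOnInterval.integral_deriv_eq_sub

theorem t9a_deriv1 {P : E → ℝ} {x y : ℝ} (h : DifferentiableAt ℝ P (t9a_i (x, y))) :
    deriv (fun s => P !₂[s, y]) x = fderiv ℝ P (t9a_i (x, y)) b1 := by
  have h1 : HasDerivAt (fun s : ℝ => (!₂[s, y] : E)) b1 x := by
    have : (fun s : ℝ => (!₂[s, y] : E)) = fun s => s • b1 + y • b2 := by
      funext s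
      exact t9a_i_eq s y
    rw [this]
    have := ((hasDerivAt_id x).smul_const b1).add_const (y • b2)
    simpa using this
  exact (HasFDerivAt.comp_hasDerivAt x (f := fun s : ℝ => (!₂[s, y] : E)) h.hasFDerivAt h1).deriv

theorem t9a_deriv2 {P : E → ℝ} {x y : ℝ} (h : DifferentiableAt ℝ P (t9a_i (x, y))) :
    deriv (fun s => P !₂[x, s]) y = fderiv ℝ P (t9a_i (x, y)) b2 := by
  have h1 : HasDerivAt (fun s : ℝ => (!₂[x, s] : E)) b2 y := by
    have : (fun s : ℝ => (!₂[x, s] : E)) = fun s => x • b1 + s • b2 := by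
      funext s
      exact t9a_i_eq x s
    rw [this]
    have := ((hasDerivAt_id y).smul_const b2).const_add (x • b1)
    simpa using this
  exact (HasFDerivAt.comp_hasDerivAt y (f := fun s : ℝ => (!₂[x, s] : E)) h.hasFDerivAt h1).deriv

theorem t9a_integrable {Q : E → ℝ} (hQ : LocallyLipschitz Q) (v : E) (a b c d : ℝ) :
    IntegrableOn (Function.uncurry (fun x y : ℝ => fderiv ℝ Q (t9a_i (x, y)) v))
      (uIoc a b ×ˢ uIoc c d) := by
  have hcpt : IsCompact (t9a_i '' (uIcc a b ×ˢ uIcc c d)) :=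
    (isCompact_uIcc.prod isCompact_uIcc).image t9a_i_cont
  obtain ⟨R, hR⟩ := hcpt.isBounded.subset_ball (0 : E)
  obtain ⟨K, hK⟩ := (hQ.locallyLipschitzOn (s := closedBall (0 : E) R)).exists_lipschitzOnWith_of_compact
    (isCompact_closedBall _ _)
  have hmeas : Measurable (Function.uncurry (fun x y : ℝ => fderiv ℝ Q (t9a_i (x, y)) v)) :=
    (measurable_fderiv_apply_const ℝ Q v).comp t9a_i_cont.measurable
  apply IntegrableOn.of_bound _ hmeas.aestronglyMeasurable (K * ‖v‖)
  · refine (ae_restrict_iff' (measurableSet_uIoc.prod measurableSet_uIoc)).2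
      (Eventually.of_forall fun z hz => ?_)
    have h1 : t9a_i z ∈ ball (0 : E) R := by
      apply hR
      exact ⟨z, ⟨uIoc_subset_uIcc hz.1, uIoc_subset_uIcc hz.2⟩, rfl⟩
    have h2 : ‖fderiv ℝ Q (t9a_i z)‖ ≤ K :=
      norm_fderiv_le_of_lipschitzOn ℝ (mem_of_superset (isOpen_ball.mem_nhds h1) ball_subset_closedBall) hK
    exact ((fderiv ℝ Q (t9a_i z)).le_opNorm v).trans
      (mul_le_mul_of_nonneg_right h2 (norm_nonneg v))
  · have h3 : (uIoc a b ×ˢ uIoc c d) ⊆ (uIcc a b ×ˢ uIcc c d) :=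
      prod_mono uIoc_subset_uIcc uIoc_subset_uIcc
    exact lt_of_le_of_lt (measure_mono h3) (isCompact_uIcc.prod isCompact_uIcc).measure_lt_top

theorem rect_identity {P Q : E → ℝ} (hP : LocallyLipschitz P) (hQ : LocallyLipschitz Q)
    (h : ∀ᵐ x : E, fderiv ℝ Q x b1 = fderiv ℝ P x b2) (a b c d : ℝ) :
    ∫ y in c..d, (Q !₂[b, y] - Q !₂[a, y]) = ∫ x in a..b, (P !₂[x, d] - P !₂[x, c]) := by
  have hae : ∀ᵐ z : ℝ × ℝ, DifferentiableAt ℝ Q (t9a_i z) ∧ DifferentiableAt ℝ P (t9a_i z) ∧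
      fderiv ℝ Q (t9a_i z) b1 = fderiv ℝ P (t9a_i z) b2 := by
    have h1 : ∀ᵐ x : E, DifferentiableAt ℝ Q x ∧ DifferentiableAt ℝ P x ∧
        fderiv ℝ Q x b1 = fderiv ℝ P x b2 := by
      filter_upwards [locLip_ae_diff hQ, locLip_ae_diff hP, h] with x h2 h3 h4
      exact ⟨h2, h3, h4⟩
    exact t9a_i_mp.quasiMeasurePreserving.ae h1
  have hae1 : ∀ᵐ x : ℝ, ∀ᵐ y : ℝ, DifferentiableAt ℝ Q (t9a_i (x, y)) ∧
      DifferentiableAt ℝ P (t9a_i (x, y)) ∧
      fderiv ℝ Q (t9a_i (x, y)) b1 = fderiv ℝ P (t9a_i (x, y)) b2 := by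
    rw [Measure.volume_eq_prod] at hae
    exact Measure.ae_ae_of_ae_prod hae
  have hae2 : ∀ᵐ y : ℝ, ∀ᵐ x : ℝ, DifferentiableAt ℝ Q (t9a_i (x, y)) ∧
      DifferentiableAt ℝ P (t9a_i (x, y)) ∧
      fderiv ℝ Q (t9a_i (x, y)) b1 = fderiv ℝ P (t9a_i (x, y)) b2 := by
    have h5 : MeasurePreserving (Prod.swap : ℝ × ℝ → ℝ × ℝ)
        ((volume : Measure ℝ).prod (volume : Measure ℝ))
        ((volume : Measure ℝ).prod (volume : Measure ℝ)) := Measure.measurePreserving_swap
    rw [Measure.volume_eq_prod] at hae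
    exact Measure.ae_ae_of_ae_prod (h5.quasiMeasurePreserving.ae hae)
  have hL : ∫ y in c..d, (Q !₂[b, y] - Q !₂[a, y]) =
      ∫ y in c..d, ∫ x in a..b, fderiv ℝ Q (t9a_i (x, y)) b1 := by
    apply intervalIntegral.integral_congr_ae
    filter_upwards [hae2] with y hy _
    rw [← t9a_ftc1 hQ a b y]
    apply intervalIntegral.integral_congr_ae
    filter_upwards [hy] with x hx _
    exact t9a_deriv1 hx.1
  have hR : ∫ x in a..b, (P !₂[x, d] - P !₂[x, c]) =
      ∫ x in a..b, ∫ y in c..d, fderiv ℝ Q (t9a_i (x, y)) b1 := by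
    apply intervalIntegral.integral_congr_ae
    filter_upwards [hae1] with x hx _
    rw [← t9a_ftc2 hP c d x]
    apply intervalIntegral.integral_congr_ae
    filter_upwards [hx] with y hy _
    rw [hy.2.2]
    exact t9a_deriv2 hy.2.1
  rw [hL, hR]
  exact (intervalIntegral_intervalIntegral_swap (t9a_integrable hQ b1 a b c d)).symm

end PPF
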