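import Pool.Agent.Lib.MP_a4f5e0_gt.IfL
import Pool.Agent.Lib.MP_a4f5e0_gt.T9a

/-!
JOB R1. The distance from a centre `o`: differentiable almost everywhere with gradient of norm one.

* `dist_locLip`: `|dg o x - dg o y| ≤ dg x y ≤ C ‖x - y‖` on balls (`dg_triangle`, `dg_comm`, `dg_upper`).
* `fderiv_dist_le`: if `r = dg g o` is differentiable at `x` then `|Dr(v)| ≤ √(g x v v)`:
  `|r (x + t v) - r x| ≤ dg x (x + t v) ≤ (1 + ε) |t| √(g x v v)` for small `t`
  (`dg_le_infinitesimal` at `x`), divide by `t`, let `t → 0`, then `ε → 0`.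
* `grad_cos`: let `x ≠ o`, `ℓ = dg g o x > 0` (`dg_pos`), `(φ ℓ (o, α)).1 = x` (`hopf_rinow`), `β = (φ ℓ (o, α)).2`.
  For `t ∈ [0, ℓ]`: `dg o (φ t (o,α)).1 = t` (it is `≤ t`, and `≥ ℓ - dg (φ t ..).1 x ≥ ℓ - (ℓ - t)`, by `IsFlow.dg_le`
  and the triangle inequality). The function `t ↦ r (φ t (o,α)).1` is differentiable at `ℓ` with derivative
  `Dr(u(x, β))` (chain rule) and equals `t` on `[0, ℓ]`, so `Dr(u(x, β)) = 1`. Let
  `k = Dr(u(x, β + π/2))`. By `u_rot`, `Dr(u(x, α')) = cos (α' - β) + sin (α' - β) k` and this is `≤ 1` for all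
  `α'` by `fderiv_dist_le` (`g_u_self`), so `k = 0` (e.g. `√(1 + k²) ≤ 1`).
* `Cf g o z = Dr(u z)`.
-/

set_option autoImplicit false

open MeasureTheory Set Filter Topology Real Metric

noncomputable section

namespace PPF

variable {g : E → E →L[ℝ] E →L[ℝ] ℝ} {φ : ℝ → St → St}

/-- the cosine of the angle with the radial direction -/
def Cf (g : E → E →L[ℝ] E →L[ℝ] ℝ) (o : E) (z : St) : ℝ :=
  fderiv ℝ (fun x => dg g o x) z.1 (u g z)

theorem dist_locLip (hg : Met g) (o : E) : LocallyLipschitz (fun x => dg g o x) := by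
  intro x
  obtain ⟨C, hC, h⟩ := dg_upper hg (‖x‖ + 1)
  refine ⟨⟨C, hC.le⟩, closedBall (0 : E) (‖x‖ + 1), ?_, ?_⟩
  · refine mem_of_superset (ball_mem_nhds x one_pos) ?_
    intro y hy
    rw [mem_closedBall_zero_iff]
    have h1 : ‖y - x‖ < 1 := by
      rw [← dist_eq_norm]
      exact hy
    have h2 : ‖y‖ ≤ ‖y - x‖ + ‖x‖ := by
      have := norm_add_le (y - x) x
      rwa [sub_add_cancel] at this
    linarith
  · refine LipschitzOnWith.of_dist_le_mul ?_
    intro y hy z hz
    rw [Real.dist_eq, dist_eq_norm]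
    have h1 := dg_abs_sub_le hg o y o z
    rw [dg_self hg, zero_add] at h1
    exact h1.trans (h y hy z hz)

theorem dist_ae_diff (hg : Met g) (o : E) :
    ∀ᵐ x : E, DifferentiableAt ℝ (fun x => dg g o x) x := by
  exact locLip_ae_diff (dist_locLip hg o)

theorem fderiv_dist_le (hg : Met g) (o x v : E) :
    |fderiv ℝ (fun x => dg g o x) x v| ≤ Real.sqrt (g x v v) := by
  by_cases hd : DifferentiableAt ℝ (fun x => dg g o x) x
  swap
  · rw [fderiv_zero_of_not_differentiableAt hd]
    simp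
  have hline : HasDerivAt (fun t : ℝ => x + t • v) v 0 := by
    have h1 := ((hasDerivAt_id (0 : ℝ)).smul_const v).const_add x
    rw [one_smul] at h1
    exact h1
  have hder : HasDerivAt (fun t : ℝ => dg g o (x + t • v))
      (fderiv ℝ (fun x => dg g o x) x v) 0 := by
    have h2 : HasFDerivAt (fun x => dg g o x) (fderiv ℝ (fun x => dg g o x) x)
        (x + (0 : ℝ) • v) := by
      rw [zero_smul, add_zero]
      exact hd.hasFDerivAt
    exact h2.comp_hasDerivAt 0 hline
  have key : ∀ ε : ℝ, 0 < ε →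
      |fderiv ℝ (fun x => dg g o x) x v| ≤ (1 + ε) * Real.sqrt (g x v v) := by
    intro ε hε
    obtain ⟨δ, hδ, h⟩ := dg_le_infinitesimal hg x hε
    have hev : ∀ᶠ t : ℝ in 𝓝 0, x + t • v ∈ ball x δ := by
      have h3 : Tendsto (fun t : ℝ => x + t • v) (𝓝 0) (𝓝 (x + (0 : ℝ) • v)) :=
        hline.continuousAt
      rw [zero_smul, add_zero] at h3
      exact h3 (ball_mem_nhds x hδ)
    have h4 := hder.le_of_lip' (C := (1 + ε) * Real.sqrt (g x v v))
      (mul_nonneg (by linarith) (Real.sqrt_nonneg _)) (by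
        filter_upwards [hev] with t ht
        have h5 := h x (mem_ball_self hδ) (x + t • v) ht
        rw [add_sub_cancel_left, speed_smul] at h5
        have h6 := dg_abs_sub_le hg o (x + t • v) o x
        rw [dg_self hg, zero_add, dg_comm hg (x + t • v) x] at h6
        rw [zero_smul, add_zero, sub_zero, Real.norm_eq_abs, Real.norm_eq_abs]
        calc |dg g o (x + t • v) - dg g o x| ≤ dg g x (x + t • v) := h6
          _ ≤ (1 + ε) * (|t| * Real.sqrt (g x v v)) := h5
          _ = (1 + ε) * Real.sqrt (g x v v) * |t| := by ring)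
    exact h4
  by_contra hlt
  rw [not_le] at hlt
  have hs := Real.sqrt_nonneg (g x v v)
  have h7 := key ((|fderiv ℝ (fun x => dg g o x) x v| - Real.sqrt (g x v v)) /
    (2 * (Real.sqrt (g x v v) + 1))) (by apply div_pos <;> linarith)
  have h8 : (|fderiv ℝ (fun x => dg g o x) x v| - Real.sqrt (g x v v)) /
      (2 * (Real.sqrt (g x v v) + 1)) * Real.sqrt (g x v v) ≤
      (|fderiv ℝ (fun x => dg g o x) x v| - Real.sqrt (g x v v)) / 2 := by
    rw [div_mul_eq_mul_div, div_le_div_iff₀ (by linarith) (by norm_num)]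
    nlinarith
  nlinarith

theorem grad_cos (hg : Met g) (hφ : IsFlow g φ) {o x : E} (hx : x ≠ o)
    (hd : DifferentiableAt ℝ (fun x => dg g o x) x) :
    ∃ a₀, ∀ a, Cf g o (x, a) = cos (a - a₀) := by
  have hl : 0 < dg g o x := dg_pos hg hx.symm
  obtain ⟨α, hα⟩ := hopf_rinow hg hφ o x
  obtain ⟨l, hl'⟩ : ∃ l, l = dg g o x := ⟨_, rfl⟩
  rw [← hl'] at hl hα
  obtain ⟨β, hβ⟩ : ∃ β, β = (φ l (o, α)).2 := ⟨_, rfl⟩
  have hst : φ l (o, α) = (x, β) := by
    ext1
    · exact hα
    · exact hβ.symm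
  have hr : ∀ t ∈ Icc (0:ℝ) l, dg g o (φ t (o, α)).1 = t := by
    intro t ht
    have h1 := IsFlow.dg_le hg hφ (o, α) 0 t
    rw [hφ.zero, zero_sub, abs_neg, abs_of_nonneg ht.1] at h1
    have h2 := IsFlow.dg_le hg hφ (o, α) t l
    rw [hα, abs_sub_comm, abs_of_nonneg (by linarith [ht.2])] at h2
    have h3 := dg_triangle hg o (φ t (o, α)).1 x
    have h1' : dg g o (φ t (o, α)).1 ≤ t := h1
    linarith
  have hder : HasDerivAt (fun t => dg g o (φ t (o, α)).1)
      (fderiv ℝ (fun x => dg g o x) x (u g (x, β))) l := by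
    have h1 := IsFlow.hasDerivAt_fst hφ l (o, α)
    rw [hst] at h1
    have h2 : HasFDerivAt (fun x => dg g o x) (fderiv ℝ (fun x => dg g o x) x)
        ((fun s => (φ s (o, α)).1) l) := by
      show HasFDerivAt (fun x => dg g o x) (fderiv ℝ (fun x => dg g o x) x) (φ l (o, α)).1
      rw [hα]
      exact hd.hasFDerivAt
    exact h2.comp_hasDerivAt l h1
  have hone : fderiv ℝ (fun x => dg g o x) x (u g (x, β)) = 1 := by
    have h1 : HasDerivWithinAt (fun t => dg g o (φ t (o, α)).1) 1 (Icc 0 l) l :=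
      (hasDerivWithinAt_id l (Icc 0 l)).congr (fun t ht => hr t ht)
        (hr l ⟨hl.le, le_rfl⟩)
    exact UniqueDiffWithinAt.eq_deriv (Icc 0 l) (uniqueDiffOn_Icc hl l ⟨hl.le, le_rfl⟩)
      hder.hasDerivWithinAt h1
  obtain ⟨k, hk⟩ : ∃ k, k = fderiv ℝ (fun x => dg g o x) x (u g (x, β + π / 2)) := ⟨_, rfl⟩
  have hgen : ∀ a, fderiv ℝ (fun x => dg g o x) x (u g (x, a)) =
      Real.cos (a - β) + Real.sin (a - β) * k := by
    intro a
    rw [u_rot x β a, map_add, map_smul, map_smul, hone, ← hk, smul_eq_mul, smul_eq_mul, mul_one]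
  have hk0 : k = 0 := by
    have h1 := hgen (β + Real.arctan k)
    rw [add_sub_cancel_left, Real.cos_arctan, Real.sin_arctan] at h1
    have h2 := fderiv_dist_le hg o x (u g (x, β + Real.arctan k))
    have h3 : g x (u g (x, β + Real.arctan k)) (u g (x, β + Real.arctan k)) = 1 :=
      g_u_self hg (x, β + Real.arctan k)
    rw [h3, Real.sqrt_one, h1] at h2
    have h4 := (abs_le.1 h2).2
    have h5 : 0 < Real.sqrt (1 + k ^ 2) := Real.sqrt_pos.2 (by positivity)
    have h6 : Real.sqrt (1 + k ^ 2) ^ 2 = 1 + k ^ 2 := Real.sq_sqrt (by positivity)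
    have h7 : 1 / Real.sqrt (1 + k ^ 2) + k / Real.sqrt (1 + k ^ 2) * k =
        Real.sqrt (1 + k ^ 2) := by
      field_simp
      rw [h6]
    rw [h7] at h4
    have h8 : k ^ 2 ≤ 0 := by nlinarith
    nlinarith [sq_nonneg k, pow_eq_zero_iff (two_ne_zero) |>.1 (le_antisymm h8 (sq_nonneg k))]
  refine ⟨β, fun a => ?_⟩
  show fderiv ℝ (fun x => dg g o x) x (u g (x, a)) = Real.cos (a - β)
  rw [hgen a, hk0, mul_zero, add_zero]

theorem Cf_ae (hg : Met g) (hφ : IsFlow g φ) (o : E) :
    ∀ᵐ x : E, ∃ a₀, ∀ a, Cf g o (x, a) = cos (a - a₀) := by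
  filter_upwards [dist_ae_diff hg o, (Set.countable_singleton o).ae_notMem volume] with x h1 h2
  exact grad_cos hg hφ (fun h => h2 h) h1

theorem Cf_abs_le (hg : Met g) (o : E) (z : St) : |Cf g o z| ≤ 1 := by
  have h := fderiv_dist_le hg o z.1 (u g z)
  rw [g_u_self hg z, Real.sqrt_one] at h
  exact h

theorem Cf_measurable (hg : Met g) (o : E) : Measurable (Cf g o) := by
  have h1 : Measurable (fun z : St => fderiv ℝ (fun x => dg g o x) z.1 b1) :=
    (measurable_fderiv_apply_const ℝ (fun x => dg g o x) b1).comp measurable_fst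
  have h2 : Measurable (fun z : St => fderiv ℝ (fun x => dg g o x) z.1 b2) :=
    (measurable_fderiv_apply_const ℝ (fun x => dg g o x) b2).comp measurable_fst
  have hu : Continuous (u g) := by
    have h := contDiff_u hg 0
    exact h.continuous
  have h3 : Measurable (fun z : St => (u g z) 0) := by
    have : Continuous (fun z : St => (u g z) 0) := by fun_prop
    exact this.measurable
  have h4 : Measurable (fun z : St => (u g z) 1) := by
    have : Continuous (fun z : St => (u g z) 1) := by fun_prop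
    exact this.measurable
  have h5 : Cf g o = fun z : St => (u g z) 0 * fderiv ℝ (fun x => dg g o x) z.1 b1 +
      (u g z) 1 * fderiv ℝ (fun x => dg g o x) z.1 b2 := by
    funext z
    unfold Cf
    conv_lhs => rw [vec_eq (u g z)]
    rw [map_add, map_smul, map_smul, smul_eq_mul, smul_eq_mul]
  rw [h5]
  exact (h3.mul h1).add (h4.mul h2)

theorem Cf_per (o : E) : Per (Cf g o) := by
  intro x α
  unfold Cf
  show fderiv ℝ (fun x => dg g o x) x (u g (x, α + 2 * π)) =
    fderiv ℝ (fun x => dg g o x) x (u g (x, α))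
  rw [u_add_two_pi]

end PPF
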