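import Pool.Agent.Lib.MP_a4f5e0_gt.R1
import Pool.Agent.Lib.MP_a4f5e0_gt.IfS

/-!
JOB R2. The fundamental theorem of calculus along almost every line.

Let `B ⊆ E` be the set of points where `r = dg g o` is not differentiable: measurable
(`measurableSet_of_differentiableAt`) and null (`dist_ae_diff`). With `F z = indicator (z.1 ∈ B)` (periodic,
measurable) `∫⁻ z, ∫⁻ t, F (φ t z) ∂muS = ∫⁻ t, ∫⁻ z, F (φ t z) ∂muS = ∫⁻ t, ∫⁻ z, F z ∂muS = 0` (Tonelli
`lintegral_lintegral_swap`, `muS_invariant`; `muS g` is s-finite; `∫⁻ F ∂muS = 0` because `B × ℝ` is a null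
set of the product measure). So for `muS`-almost every `z`, for almost every `t`, `(φ t z).1 ∉ B`.
For such `z` the function `t ↦ r (φ t z).1` is 1-Lipschitz (triangle inequality and `IsFlow.dg_le`), hence
absolutely continuous (`LipschitzOnWith.absolutelyContinuousOnInterval`), with derivative
`Dr(u(φ t z)) = Cf g o (φ t z)` at almost every `t` (chain rule, `IsFlow.hasDerivAt_fst`), and
`AbsolutelyContinuousOnInterval.integral_deriv_eq_sub` gives the formula.
-/

set_option autoImplicit false

open MeasureTheory Set Filter Topology Real Metric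
open scoped ENNReal

noncomputable section

namespace PPF

variable {g : E → E →L[ℝ] E →L[ℝ] ℝ} {φ : ℝ → St → St}

private theorem R2_null {B : Set E} (hB : volume B = 0) :
    muS g (Prod.fst ⁻¹' B) = 0 := by
  have h1 : (volume : Measure St) (Prod.fst ⁻¹' B) = 0 := by
    rw [Measure.volume_eq_prod]
    exact Measure.quasiMeasurePreserving_fst.preimage_null hB
  unfold muS
  refine withDensity_absolutelyContinuous _ _ ?_
  exact Measure.absolutelyContinuous_of_le Measure.restrict_le_self h1

/-- null sets of points are avoided by almost all lines at almost all times -/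
private theorem R2_avoid (hg : Met g) (hφ : IsFlow g φ) {B : Set E} (hBm : MeasurableSet B)
    (hB : volume B = 0) : ∀ᵐ z ∂(muS g), ∀ᵐ t : ℝ, (φ t z).1 ∉ B := by
  have hF : Measurable (fun z : St => (Prod.fst ⁻¹' B : Set St).indicator (fun _ => (1 : ℝ≥0∞)) z) :=
    measurable_const.indicator (measurable_fst hBm)
  have hP : Per (fun z : St => (Prod.fst ⁻¹' B : Set St).indicator (fun _ => (1 : ℝ≥0∞)) z) := by
    intro x α
    rfl
  have hz : ∀ t : ℝ, ∫⁻ z, (Prod.fst ⁻¹' B : Set St).indicator (fun _ => (1 : ℝ≥0∞)) (φ t z)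
      ∂(muS g) = 0 := by
    intro t
    rw [muS_invariant hg hφ hF hP t, lintegral_indicator_const (measurable_fst hBm),
      R2_null hB, mul_zero]
  have : SFinite (muS g) := by
    unfold muS
    infer_instance
  have hm : Measurable (Function.uncurry fun (z : St) (t : ℝ) =>
      (Prod.fst ⁻¹' B : Set St).indicator (fun _ => (1 : ℝ≥0∞)) (φ t z)) := by
    have h1 : Measurable (fun q : St × ℝ => φ q.2 q.1) :=
      (hφ.continuous.comp (continuous_snd.prodMk continuous_fst)).measurable
    exact hF.comp h1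
  have hsw := lintegral_lintegral_swap (μ := muS g) (ν := (volume : Measure ℝ))
    (f := fun (z : St) (t : ℝ) => (Prod.fst ⁻¹' B : Set St).indicator (fun _ => (1 : ℝ≥0∞)) (φ t z))
    hm.aemeasurable
  simp only [hz, lintegral_zero] at hsw
  have hsw' := (lintegral_eq_zero_iff (μ := muS g) hm.lintegral_prod_right').1 hsw
  filter_upwards [hsw'] with z hz'
  have h2 : ∫⁻ t, (Prod.fst ⁻¹' B : Set St).indicator (fun _ => (1 : ℝ≥0∞)) (φ t z) = 0 := hz'
  have hm2 : Measurable (fun t : ℝ =>
      (Prod.fst ⁻¹' B : Set St).indicator (fun _ => (1 : ℝ≥0∞)) (φ t z)) :=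
    hm.comp (measurable_prodMk_left (x := z))
  have h2' := (lintegral_eq_zero_iff hm2).1 h2
  filter_upwards [h2'] with t ht hmem
  have h3 : (Prod.fst ⁻¹' B : Set St).indicator (fun _ => (1 : ℝ≥0∞)) (φ t z) = 0 := ht
  rw [indicator_of_mem (show φ t z ∈ Prod.fst ⁻¹' B from hmem)] at h3
  exact one_ne_zero h3

private theorem R2_lip (hg : Met g) (hφ : IsFlow g φ) (o : E) (z : St) :
    LipschitzWith 1 (fun t => dg g o (φ t z).1) := by
  refine LipschitzWith.of_dist_le_mul fun s t => ?_
  rw [Real.dist_eq, Real.dist_eq, NNReal.coe_one, one_mul, abs_le]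
  have h1 := dg_triangle hg o (φ s z).1 (φ t z).1
  have h2 := dg_triangle hg o (φ t z).1 (φ s z).1
  have h3 := hφ.dg_le hg z s t
  have h4 := dg_comm hg (φ t z).1 (φ s z).1
  constructor <;> linarith

theorem ftc_lines (hg : Met g) (hφ : IsFlow g φ) (o : E) :
    ∀ᵐ z ∂(muS g), ∀ a b, dg g o (φ b z).1 - dg g o (φ a z).1 =
      ∫ t in a..b, Cf g o (φ t z) := by
  have hBm : MeasurableSet {x : E | ¬ DifferentiableAt ℝ (fun x => dg g o x) x} :=
    (measurableSet_of_differentiableAt ℝ (fun x => dg g o x)).compl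
  have hB : volume {x : E | ¬ DifferentiableAt ℝ (fun x => dg g o x) x} = 0 := dist_ae_diff hg o
  filter_upwards [R2_avoid hg hφ hBm hB] with z hz a b
  have hac : AbsolutelyContinuousOnInterval (fun t => dg g o (φ t z).1) a b :=
    ((R2_lip hg hφ o z).lipschitzOnWith (s := uIcc a b)).absolutelyContinuousOnInterval
  rw [← hac.integral_deriv_eq_sub]
  refine intervalIntegral.integral_congr_ae ?_
  filter_upwards [hz] with t ht _
  have hd : DifferentiableAt ℝ (fun x => dg g o x) (φ t z).1 := by
    by_contra hcon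
    exact ht hcon
  have h1 := hd.hasFDerivAt.comp_hasDerivAt t (hφ.hasDerivAt_fst t z)
  exact h1.deriv

end PPF
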