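import Pool.Agent.Lib.MP_a4f5e0_gt.R1
import Pool.Agent.Lib.MP_a4f5e0_gt.IfS

/-!
JOB R3. Disintegration of the Liouville measure in polar form.

`mR g o` is the distribution of the distance from `o` with respect to the area `dt dx`.
`santalo` with `F' z = F (dg g o z.1, |Cf g o z|)` (measurable, periodic) gives
`∫⁻ kap z (∫⁻ t, F' (φ t z)) ∂muS = ∫⁻ F' ∂muS = ∫⁻ x, ofReal (dt x) * ∫⁻ α in Ioc 0 2π, F (dg o x, |Cf (x, α)|)`
(`muS` is `withDensity` of the product measure `volume × volume.restrict Ioc`; `lintegral_prod`), and for almost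
every `x` `|Cf (x, α)| = |cos (α - a₀)|` (`Cf_ae`), where the shift by `a₀` does not change the integral of a
`2π`-periodic function over `Ioc 0 2π` (`lintegral_cos_shift`: translation invariance of the Lebesgue
measure and periodicity, e.g. with `Ioc (-a₀) (2π - a₀)` and `Int` translates, or
`AddCircle.lintegral_preimage` on the additive circle `AddCircle (2π)`, or
`Function.Periodic`-lemmas). Exchange the order and use `lintegral_map`.
-/

set_option autoImplicit false

open MeasureTheory Set Filter Topology Real Metric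
open scoped ENNReal

noncomputable section

namespace PPF

variable {g : E → E →L[ℝ] E →L[ℝ] ℝ} {φ : ℝ → St → St}

/-- distribution of the distance from `o` with respect to area -/
def mR (g : E → E →L[ℝ] E →L[ℝ] ℝ) (o : E) : Measure ℝ :=
  Measure.map (fun x => dg g o x)
    ((volume : Measure E).withDensity (fun x => ENNReal.ofReal (dt g x)))

theorem lintegral_shift {f : ℝ → ℝ≥0∞} (hf : Measurable f) (hP : ∀ a, f (a + 2 * π) = f a)
    (a₀ : ℝ) : ∫⁻ a in Ioc 0 (2 * π), f (a - a₀) = ∫⁻ a in Ioc 0 (2 * π), f a := by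
  have : Fact (0 < 2 * π) := ⟨by positivity⟩
  have hper : Function.Periodic f (2 * π) := hP
  have h1 : ∀ t : ℝ, ∫⁻ a in Ioc t (t + 2 * π), f a =
      ∫⁻ b : AddCircle (2 * π), hper.lift b := by
    intro t
    rw [← AddCircle.lintegral_preimage (2 * π) t]
    simp [Function.Periodic.lift_coe]
  have h2 : ∫⁻ a in Ioc 0 (2 * π), f (a - a₀) = ∫⁻ a in Ioc (-a₀) (-a₀ + 2 * π), f a := by
    have h3 := (measurePreserving_sub_right (volume : Measure ℝ) a₀).setLIntegral_comp_preimage_emb
      (MeasurableEquiv.subRight a₀).measurableEmbedding f (Ioc (-a₀) (-a₀ + 2 * π))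
    rw [← h3]
    congr 2
    ext x
    simp only [mem_Ioc, mem_preimage]
    constructor <;> rintro ⟨h4, h5⟩ <;> constructor <;> linarith
  have h4 := h1 0
  rw [zero_add] at h4
  rw [h2, h1, h4]

theorem dis_lines (hg : Met g) (hφ : IsFlow g φ) (hm : Mini g φ) (o : E)
    {F : ℝ × ℝ → ℝ≥0∞} (hF : Measurable F) :
    ∫⁻ z, kap g φ o z * (∫⁻ t, F (dg g o (φ t z).1, |Cf g o (φ t z)|)) ∂(muS g) =
      ∫⁻ ψ in Ioc 0 (2 * π), (∫⁻ s, F (s, |cos ψ|) ∂(mR g o)) := by
  have hdc : Continuous (fun x => dg g o x) :=
    (dg_continuous hg).comp (continuous_const.prodMk continuous_id)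
  have hdt : Measurable (fun x => ENNReal.ofReal (dt g x)) :=
    (contDiff_dt hg 0).continuous.measurable.ennreal_ofReal
  have hF' : Measurable (fun z : St => F (dg g o z.1, |Cf g o z|)) := by
    apply hF.comp
    exact (hdc.measurable.comp measurable_fst).prodMk (continuous_abs.measurable.comp (Cf_measurable hg o))
  have hP' : Per (fun z : St => F (dg g o z.1, |Cf g o z|)) := by
    intro x α
    have := Cf_per (g := g) o x α
    simp only [this]
  have h1 := santalo hg hφ hm o hF' hP'
  rw [h1]
  have h2 : (volume : Measure St).restrict (Set.univ ×ˢ Set.Ioc 0 (2 * π)) =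
      (volume : Measure E).prod ((volume : Measure ℝ).restrict (Set.Ioc 0 (2 * π))) := by
    have := Measure.prod_restrict (μ := (volume : Measure E)) (ν := (volume : Measure ℝ))
      (Set.univ) (Set.Ioc 0 (2 * π))
    rw [Measure.restrict_univ] at this
    rw [this]
    rfl
  have hmul : Measurable (fun z : St => ENNReal.ofReal (dt g z.1)) := hdt.comp measurable_fst
  rw [muS, lintegral_withDensity_eq_lintegral_mul _ hmul hF', h2,
    lintegral_prod _ (hmul.mul hF').aemeasurable]
  have h3 : ∀ᵐ x : E, ∫⁻ α in Ioc 0 (2 * π), ((fun z : St => ENNReal.ofReal (dt g z.1)) *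
      fun z : St => F (dg g o z.1, |Cf g o z|)) (x, α) =
      ∫⁻ α in Ioc 0 (2 * π), ENNReal.ofReal (dt g x) * F (dg g o x, |cos α|) := by
    filter_upwards [Cf_ae hg hφ o] with x hx
    obtain ⟨a₀, ha⟩ := hx
    simp only [Pi.mul_apply, ha]
    refine lintegral_shift (f := fun α => ENNReal.ofReal (dt g x) * F (dg g o x, |cos α|)) ?_ ?_ a₀
    · refine Measurable.const_mul ?_ _
      exact hF.comp (measurable_const.prodMk (continuous_abs.comp continuous_cos).measurable)
    · intro a
      simp only [cos_add_two_pi]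
  rw [lintegral_congr_ae h3]
  have hmm : Measurable (Function.uncurry fun (x : E) (α : ℝ) =>
      ENNReal.ofReal (dt g x) * F (dg g o x, |cos α|)) := by
    refine (hdt.comp measurable_fst).mul (hF.comp ?_)
    exact (hdc.measurable.comp measurable_fst).prodMk
      ((continuous_abs.comp continuous_cos).measurable.comp measurable_snd)
  rw [lintegral_lintegral_swap hmm.aemeasurable]
  refine lintegral_congr fun α => ?_
  have hFa : Measurable (fun s : ℝ => F (s, |cos α|)) :=
    hF.comp (measurable_id.prodMk measurable_const)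
  rw [mR, lintegral_map hFa hdc.measurable]
  exact (lintegral_withDensity_eq_lintegral_mul _ hdt (hFa.comp hdc.measurable)).symm

theorem mR_neg (hg : Met g) (o : E) : mR g o (Iio 0) = 0 := by
  have hdc : Continuous (fun x => dg g o x) :=
    (dg_continuous hg).comp (continuous_const.prodMk continuous_id)
  rw [mR, Measure.map_apply hdc.measurable measurableSet_Iio]
  have : (fun x => dg g o x) ⁻¹' Iio 0 = ∅ := by
    ext x
    simp only [mem_preimage, mem_Iio, mem_empty_iff_false, iff_false, not_lt]
    exact dg_nonneg o x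
  rw [this, measure_empty]

theorem mR_finite (hg : Met g) (hφ : IsFlow g φ) (o : E) (R : ℝ) : mR g o (Iic R) < ⊤ := by
  have hdc : Continuous (fun x => dg g o x) :=
    (dg_continuous hg).comp (continuous_const.prodMk continuous_id)
  rw [mR, Measure.map_apply hdc.measurable measurableSet_Iic]
  have hK : IsCompact ((fun x => dg g o x) ⁻¹' Iic R) := ball_compact hg hφ o R
  rw [withDensity_apply _ hK.measurableSet]
  obtain ⟨C, hC⟩ := hK.bddAbove_image (f := dt g) (contDiff_dt hg 0).continuous.continuousOn
  calc ∫⁻ x in (fun x => dg g o x) ⁻¹' Iic R, ENNReal.ofReal (dt g x)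
      ≤ ∫⁻ x in (fun x => dg g o x) ⁻¹' Iic R, ENNReal.ofReal C := by
        refine setLIntegral_mono' hK.measurableSet fun x hx => ?_
        exact ENNReal.ofReal_le_ofReal (hC ⟨x, hx, rfl⟩)
    _ < ⊤ := by
        rw [setLIntegral_const]
        exact ENNReal.mul_lt_top ENNReal.ofReal_lt_top hK.measure_lt_top

end PPF
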