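import Pool.Agent.Lib.MP_a4f5e0_gt.R3

/-!
JOB R4. Area of small balls: `area(B_R(o)) ≥ (π - ε) R²` for small `R`.

Let `0 < η < 1`. By `dg_le_infinitesimal` at `o` and continuity of `dt` there is `δ₁ > 0` such that for `‖y - o‖ < δ₁`:
`dg g o y ≤ (1 + η) √(g o (y-o) (y-o))` and `dt g y ≥ (1 - η) dt g o`. The set
`Ell ρ = {y | g o (y-o) (y-o) ≤ ρ²}` is the image of the closed disc of radius `ρ` under
`(a, b) ↦ o + a • e1 g o + b • e2 g o`; this linear map has determinant `wd e1 e2 = 1/dt g o` in absolute value,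
so `volume (Ell ρ) = π ρ² / dt g o` (`EuclideanSpace.volume_closedBall_fin_two`-type lemma,
`addHaar_image_linearMap`; only `≥` is needed). For `ρ = R/(1+η)` and `R` small, `Ell ρ ⊆ ball o δ₁`
(`exists_bounds` for the compact set `{o}`) and `Ell ρ ⊆ {dg g o y ≤ R}`. Hence
`mR (Iic R) = ∫⁻ y in {dg g o y ≤ R}, ofReal (dt g y) ≥ (1-η) dt g o · π R²/((1+η)² dt g o) = π R² (1-η)/(1+η)²`, and
`π (1-η)/(1+η)² ≥ π - ε` for small `η`.
-/

set_option autoImplicit false

open MeasureTheory Set Filter Topology Real Metric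
open scoped ENNReal

noncomputable section

namespace PPF

variable {g : E → E →L[ℝ] E →L[ℝ] ℝ} {φ : ℝ → St → St}

/-- the linear map sending the standard basis to the orthonormal frame -/
private def r4_L (g : E → E →L[ℝ] E →L[ℝ] ℝ) (o : E) : E →ₗ[ℝ] E where
  toFun v := v 0 • e1 g o + v 1 • e2 g o
  map_add' v w := by
    simp only [PiLp.add_apply, add_smul]
    abel
  map_smul' a v := by
    simp only [PiLp.smul_apply, smul_eq_mul, RingHom.id_apply, smul_add, smul_smul]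

private theorem r4_L_apply (g : E → E →L[ℝ] E →L[ℝ] ℝ) (o v : E) :
    r4_L g o v = v 0 • e1 g o + v 1 • e2 g o := rfl

private theorem r4_det (hg : Met g) (o : E) : LinearMap.det (r4_L g o) = (dt g o)⁻¹ := by
  rw [← wd_e1_e2 hg o, ← LinearMap.det_toMatrix (EuclideanSpace.basisFun (Fin 2) ℝ).toBasis,
    Matrix.det_fin_two]
  simp only [LinearMap.toMatrix_apply, OrthonormalBasis.coe_toBasis, EuclideanSpace.basisFun_apply,
    OrthonormalBasis.coe_toBasis_repr_apply, EuclideanSpace.basisFun_repr, r4_L_apply,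
    PiLp.add_apply, PiLp.smul_apply, smul_eq_mul, PiLp.single_apply, wd]
  simp
  ring

private theorem r4_g (hg : Met g) (o v : E) : g o (r4_L g o v) (r4_L g o v) = ‖v‖ ^ 2 := by
  rw [r4_L_apply]
  simp only [map_add, map_smul, ContinuousLinearMap.add_apply, ContinuousLinearMap.smul_apply,
    smul_eq_mul, g_e1_e1 hg, g_e1_e2 hg, g_e2_e1 hg, g_e2_e2 hg]
  rw [EuclideanSpace.norm_sq_eq, Fin.sum_univ_two]
  simp only [Real.norm_eq_abs, sq_abs]
  ring

/-- the open ellipse -/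
private def r4_A (g : E → E →L[ℝ] E →L[ℝ] ℝ) (o : E) (ρ : ℝ) : Set E :=
  {y | g o (y - o) (y - o) < ρ ^ 2}

private theorem r4_A_meas (g : E → E →L[ℝ] E →L[ℝ] ℝ) (o : E) (ρ : ℝ) :
    MeasurableSet (r4_A g o ρ) := by
  have : Continuous fun y : E => g o (y - o) (y - o) := by fun_prop
  exact (isOpen_lt this continuous_const).measurableSet

private theorem r4_A_vol (hg : Met g) (o : E) {ρ : ℝ} (hρ : 0 < ρ) :
    ENNReal.ofReal ((dt g o)⁻¹ * (π * ρ ^ 2)) ≤ volume (r4_A g o ρ) := by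
  have h1 : volume ((fun y : E => y + (-o)) ⁻¹' (r4_L g o '' ball 0 ρ)) =
      ENNReal.ofReal ((dt g o)⁻¹ * (π * ρ ^ 2)) := by
    rw [measure_preimage_add_right, Measure.addHaar_image_linearMap, r4_det hg,
      EuclideanSpace.volume_ball_fin_two, abs_of_pos (inv_pos.2 (dt_pos hg o)),
      ENNReal.ofReal_mul (inv_pos.2 (dt_pos hg o)).le, ENNReal.ofReal_mul pi_pos.le,
      ENNReal.ofReal_pow hρ.le, mul_comm (ENNReal.ofReal π)]
  rw [← h1]
  refine measure_mono ?_
  rintro y ⟨v, hv, hvy⟩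
  have e : y - o = r4_L g o v := by rw [hvy, sub_eq_add_neg]
  simp only [r4_A, mem_ofPred_eq]
  rw [e, r4_g hg]
  rw [mem_ball_zero_iff] at hv
  have := norm_nonneg v
  nlinarith

theorem small_balls (hg : Met g) (o : E) : ∀ ε > 0, ∃ δ > 0, ∀ R, 0 < R → R < δ →
    ENNReal.ofReal ((π - ε) * R ^ 2) ≤ mR g o (Iic R) := by
  intro ε hε
  obtain ⟨η, hη0, hη1, hη2⟩ : ∃ η : ℝ, 0 < η ∧ η < 1 ∧ 3 * π * η ≤ ε := by
    refine ⟨min (1 / 2) (ε / (3 * π)), lt_min (by norm_num) (by positivity),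
      lt_of_le_of_lt (min_le_left _ _) (by norm_num), ?_⟩
    have h := min_le_right (1 / 2) (ε / (3 * π))
    rw [le_div_iff₀ (by positivity)] at h
    linarith
  have key : (π - ε) * (1 + η) ^ 2 ≤ π * (1 - η) := by
    have h1 : (π - ε) * (1 + η) ^ 2 ≤ (π - 3 * π * η) * (1 + η) ^ 2 :=
      mul_le_mul_of_nonneg_right (by linarith) (sq_nonneg _)
    have h2 : (π - 3 * π * η) * (1 + η) ^ 2 = π * (1 - η - 5 * η ^ 2 - 3 * η ^ 3) := by ring
    have h3 : π * (1 - η - 5 * η ^ 2 - 3 * η ^ 3) ≤ π * (1 - η) := by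
      apply mul_le_mul_of_nonneg_left _ pi_pos.le
      have : 0 ≤ η ^ 3 := by positivity
      nlinarith [sq_nonneg η]
    linarith
  obtain ⟨d1, hd1, h1⟩ := dg_le_infinitesimal hg o hη0
  have hdtc : Continuous (dt g) := (contDiff_dt hg 1).continuous
  have hdt := dt_pos hg o
  obtain ⟨d2, hd2, h2⟩ : ∃ d2 > 0, ∀ y, dist y o < d2 → (1 - η) * dt g o < dt g y := by
    have h : ∀ᶠ y in 𝓝 o, (1 - η) * dt g o < dt g y :=
      hdtc.continuousAt.eventually (lt_mem_nhds (by nlinarith))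
    obtain ⟨d2, hd2, h⟩ := Metric.eventually_nhds_iff.1 h
    exact ⟨d2, hd2, fun y hy => h hy⟩
  obtain ⟨c, hc, C, -, hb⟩ := exists_bounds hg (isCompact_singleton (x := o))
  have hmin : 0 < min d1 d2 := lt_min hd1 hd2
  refine ⟨c * min d1 d2, mul_pos hc hmin, fun R hR hRd => ?_⟩
  obtain ⟨ρ, hρ⟩ : ∃ ρ : ℝ, ρ = R / (1 + η) := ⟨_, rfl⟩
  have hη' : 0 < 1 + η := by linarith
  have hρ0 : 0 < ρ := by rw [hρ]; positivity
  have hρR : (1 + η) * ρ = R := by rw [hρ]; field_simp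
  have hρR' : ρ ≤ R := by nlinarith
  have hsub : ∀ y ∈ r4_A g o ρ, dg g o y ≤ R ∧ (1 - η) * dt g o < dt g y := by
    intro y hy
    have hy' : g o (y - o) (y - o) < ρ ^ 2 := hy
    have hs : Real.sqrt (g o (y - o) (y - o)) < ρ := by
      rw [Real.sqrt_lt' hρ0]
      exact hy'
    have hn : ‖y - o‖ < min d1 d2 := by
      have := (hb o rfl (y - o)).1
      by_contra hcon
      push Not at hcon
      have : c * min d1 d2 ≤ c * ‖y - o‖ := mul_le_mul_of_nonneg_left hcon hc.le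
      linarith
    refine ⟨?_, h2 y ?_⟩
    · have h3 := h1 o (mem_ball_self hd1) y (by
        rw [mem_ball, dist_eq_norm]
        exact lt_of_lt_of_le hn (min_le_left _ _))
      refine h3.trans ?_
      rw [← hρR]
      exact mul_le_mul_of_nonneg_left hs.le hη'.le
    · rw [dist_eq_norm]
      exact lt_of_lt_of_le hn (min_le_right _ _)
  have hcont : Continuous fun y => dg g o y :=
    (dg_continuous hg).comp (continuous_const.prodMk continuous_id)
  rw [mR, Measure.map_apply hcont.measurable measurableSet_Iic,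
    withDensity_apply _ (hcont.measurable measurableSet_Iic)]
  have hle : r4_A g o ρ ⊆ (fun y => dg g o y) ⁻¹' Iic R := fun y hy => (hsub y hy).1
  calc ENNReal.ofReal ((π - ε) * R ^ 2)
      ≤ ENNReal.ofReal ((1 - η) * dt g o * ((dt g o)⁻¹ * (π * ρ ^ 2))) := by
        apply ENNReal.ofReal_le_ofReal
        have e1 : (1 - η) * dt g o * ((dt g o)⁻¹ * (π * ρ ^ 2)) = π * (1 - η) * ρ ^ 2 := by
          field_simp
        rw [e1, ← hρR]
        have := mul_le_mul_of_nonneg_right key (sq_nonneg ρ)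
        nlinarith
    _ = ENNReal.ofReal ((1 - η) * dt g o) * ENNReal.ofReal ((dt g o)⁻¹ * (π * ρ ^ 2)) :=
        ENNReal.ofReal_mul (mul_nonneg (by linarith) hdt.le)
    _ ≤ ENNReal.ofReal ((1 - η) * dt g o) * volume (r4_A g o ρ) := by
        gcongr
        exact r4_A_vol hg o hρ0
    _ = ∫⁻ _ in r4_A g o ρ, ENNReal.ofReal ((1 - η) * dt g o) := by
        rw [setLIntegral_const]
    _ ≤ ∫⁻ y in r4_A g o ρ, ENNReal.ofReal (dt g y) :=
        setLIntegral_mono' (r4_A_meas g o ρ) fun y hy =>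
          ENNReal.ofReal_le_ofReal (hsub y hy).2.le
    _ ≤ _ := lintegral_mono_set hle

end PPF
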