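import Pool.Agent.Lib.MP_a4f5e0_gt.R2
import Pool.Agent.Lib.MP_a4f5e0_gt.R4
import Pool.Agent.Lib.MP_a4f5e0_gt.IfA

/-!
JOB R5. Application of the analytic theorem; the second difference identity.

Apply `analytic_main` (IfA.lean) with `Λ = St`, `lam = (muS g).withDensity (kap g φ o)`,
`r z t = dg g o (φ t z).1`, `C z t = Cf g o (φ t z)`, `m = mR g o`:
* measurability: `dg_continuous`, `IsFlow.continuous`, `Cf_measurable`;
* `0 ≤ dg`; `|r s - r t| ≤ dg (φ s z).1 (φ t z).1 ≤ |s - t|`; `|s - t| = dg .. ≤ r s + r t` (`Mini`);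
* `hFTC`: `ftc_lines` (`withDensity` is absolutely continuous);
* `hdis`: `dis_lines`, with `lintegral_withDensity_eq_lintegral_mul` (measurability of
  `z ↦ ∫⁻ t, …`: `Measurable.lintegral_prod_right'`);
* `hpair`: `lam (LR R) = ∫⁻ z in LR R, kap z ∂muS`; `pair_ineq` with `C = Cf g o`; and `santalo` with
  `F z = indicator (LR R) (ofReal (1 - Cf z ^ 2))` (`LR R` is flow invariant, `Per`):
  `∫⁻ z in LR R, ofReal (1 - Cf z²) ∂muS = ∫⁻ z in LR R, kap z * ∫⁻ t, ofReal (1 - Cf (φ t z)²) ∂muS`;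
* `small_balls`, `mR_neg`, `mR_finite`.

Conclusion: for `muS`-almost every `z` (`kap > 0`) `r(z,t)² = ρ² + (t - t₀)²` for all `t`, so
`D z t h := r(z,t+h)² + r(z,t-h)² - 2 r(z,t)² - 2h² = 0` for all `t, h`. `z ↦ D z t h` is continuous, and a property
closed in `z` which holds for almost every `z ∈ E × Ioc 0 2π` (density `dt > 0`) holds on `E × (0, 2π)`
(open sets have positive measure), so by `int_two_pi` (periodicity) and continuity for every `z`.
-/

set_option autoImplicit false

open MeasureTheory Set Filter Topology Real Metric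
open scoped ENNReal

noncomputable section

namespace PPF

variable {g : E → E →L[ℝ] E →L[ℝ] ℝ} {φ : ℝ → St → St}

private theorem r5_cont (hφ : IsFlow g φ) : Continuous (fun q : St × ℝ => φ q.2 q.1) :=
  hφ.continuous.comp (Continuous.prodMk continuous_snd continuous_fst)

private theorem r5_dist_cont (hg : Met g) (hφ : IsFlow g φ) (o : E) :
    Continuous (fun q : St × ℝ => dg g o (φ q.2 q.1).1) :=
  (dg_continuous hg).comp (Continuous.prodMk continuous_const (continuous_fst.comp (r5_cont hφ)))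

private theorem r5_LR_flow (hg : Met g) (hφ : IsFlow g φ) (o : E) (R : ℝ) (t : ℝ) (z : St) :
    φ t z ∈ LR g φ o R ↔ z ∈ LR g φ o R := by
  constructor
  · rintro ⟨s, hs⟩
    exact ⟨s + t, by rw [hφ.add hg]; exact hs⟩
  · rintro ⟨s, hs⟩
    refine ⟨s - t, ?_⟩
    rw [← hφ.add hg, sub_add_cancel]
    exact hs

private theorem r5_LR_per (hg : Met g) (hφ : IsFlow g φ) (o : E) (R : ℝ) (x : E) (α : ℝ) :
    (x, α + 2 * π) ∈ LR g φ o R ↔ (x, α) ∈ LR g φ o R := by
  constructor
  · rintro ⟨s, hs⟩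
    exact ⟨s, by rw [hφ.add_two_pi hg] at hs; exact hs⟩
  · rintro ⟨s, hs⟩
    exact ⟨s, by rw [hφ.add_two_pi hg]; exact hs⟩

private theorem r5_pair (hg : Met g) (hφ : IsFlow g φ) (hm : Mini g φ) (hn : Meets g φ) (o : E)
    {R : ℝ} (hR : 0 < R) :
    ((muS g).withDensity (kap g φ o) {z | ∃ t, dg g o (φ t z).1 ≤ R}) ^ 2 ≤
      8 * ∫⁻ z in {z | ∃ t, dg g o (φ t z).1 ≤ R},
        (∫⁻ t, ENNReal.ofReal (1 - (Cf g o (φ t z)) ^ 2)) ∂((muS g).withDensity (kap g φ o)) := by
  have hset : {z | ∃ t, dg g o (φ t z).1 ≤ R} = LR g φ o R := rfl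
  have hLR := LR_measurable hg hφ o R
  have hmeas : Measurable (fun z : St => ENNReal.ofReal (1 - (Cf g o z) ^ 2)) :=
    ENNReal.measurable_ofReal.comp (measurable_const.sub ((Cf_measurable hg o).pow_const 2))
  have hmeas2 : Measurable (fun z : St => ∫⁻ t, ENNReal.ofReal (1 - (Cf g o (φ t z)) ^ 2)) := by
    refine Measurable.lintegral_prod_right' (f := fun q : St × ℝ =>
      ENNReal.ofReal (1 - (Cf g o (φ q.2 q.1)) ^ 2)) ?_
    exact hmeas.comp (r5_cont hφ).measurable
  rw [hset, withDensity_apply _ hLR,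
    setLIntegral_withDensity_eq_setLIntegral_mul _ (kap_measurable hg hφ o) hmeas2 hLR]
  refine (pair_ineq_main hg hφ hm hn o R (Cf_measurable hg o) (Cf_ae hg hφ o)).trans_eq ?_
  congr 1
  have hF : Measurable ((LR g φ o R).indicator
      (fun z : St => ENNReal.ofReal (1 - (Cf g o z) ^ 2))) := hmeas.indicator hLR
  have hP : Per ((LR g φ o R).indicator
      (fun z : St => ENNReal.ofReal (1 - (Cf g o z) ^ 2))) := by
    intro x α
    by_cases h : (x, α) ∈ LR g φ o R
    · rw [indicator_of_mem h, indicator_of_mem ((r5_LR_per hg hφ o R x α).2 h), Cf_per o x α]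
    · rw [indicator_of_notMem h, indicator_of_notMem (fun h' => h ((r5_LR_per hg hφ o R x α).1 h'))]
  have hs := santalo hg hφ hm o hF hP
  rw [← lintegral_indicator hLR, ← hs, ← lintegral_indicator hLR]
  refine lintegral_congr fun z => ?_
  by_cases h : z ∈ LR g φ o R
  · rw [indicator_of_mem h, Pi.mul_apply]
    congr 1
    refine lintegral_congr fun t => ?_
    rw [indicator_of_mem ((r5_LR_flow hg hφ o R t z).2 h)]
  · rw [indicator_of_notMem h]
    have : ∀ t, (LR g φ o R).indicator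
        (fun z : St => ENNReal.ofReal (1 - (Cf g o z) ^ 2)) (φ t z) = 0 := fun t =>
      indicator_of_notMem (fun h' => h ((r5_LR_flow hg hφ o R t z).1 h')) _
    simp only [this, lintegral_zero, mul_zero]

theorem pythagoras_ae (hg : Met g) (hφ : IsFlow g φ) (hm : Mini g φ) (hn : Meets g φ) (o : E) :
    ∀ᵐ z ∂(muS g), ∃ t₀ ρ : ℝ, ∀ t, (dg g o (φ t z).1) ^ 2 = ρ ^ 2 + (t - t₀) ^ 2 := by
  have hsf : SFinite (muS g) := by unfold muS; infer_instance
  have hsf2 : SFinite ((muS g).withDensity (kap g φ o)) := inferInstance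
  have hkap := kap_measurable hg hφ o
  have hmain := analytic_main ((muS g).withDensity (kap g φ o))
    (fun z t => dg g o (φ t z).1) (fun z t => Cf g o (φ t z))
    (r5_dist_cont hg hφ o).measurable
    ((Cf_measurable hg o).comp (r5_cont hφ).measurable)
    (fun z t => dg_nonneg _ _)
    (fun z s t => by
      refine (dg_abs_sub_le hg o (φ s z).1 o (φ t z).1).trans ?_
      rw [dg_self hg, zero_add]
      exact hφ.dg_le hg z s t)
    (fun z s t => by
      rw [← hm z s t]
      refine (dg_triangle hg (φ s z).1 o (φ t z).1).trans ?_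
      rw [dg_comm hg (φ s z).1 o])
    (fun z t => Cf_abs_le hg o (φ t z))
    ((withDensity_absolutelyContinuous (muS g) (kap g φ o)).ae_le (ftc_lines hg hφ o))
    (mR g o) (mR_neg hg o) (mR_finite hg hφ o) (small_balls hg o)
    (fun F hF => by
      have hmeas : Measurable (fun z : St => ∫⁻ t, F (dg g o (φ t z).1, |Cf g o (φ t z)|)) := by
        refine Measurable.lintegral_prod_right' (f := fun q : St × ℝ =>
          F (dg g o (φ q.2 q.1).1, |Cf g o (φ q.2 q.1)|)) ?_
        refine hF.comp (Measurable.prodMk (r5_dist_cont hg hφ o).measurable ?_)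
        exact continuous_abs.measurable.comp ((Cf_measurable hg o).comp (r5_cont hφ).measurable)
      rw [lintegral_withDensity_eq_lintegral_mul _ hkap hmeas]
      exact dis_lines hg hφ hm o hF)
    (fun R hR => r5_pair hg hφ hm hn o hR)
  rw [ae_withDensity_iff hkap] at hmain
  filter_upwards [hmain] with z hz
  exact hz (kap_pos hg hφ hm o z).ne'

theorem second_diff (hg : Met g) (hφ : IsFlow g φ) (hm : Mini g φ) (hn : Meets g φ) (o : E)
    (z : St) (t h : ℝ) :
    (dg g o (φ (t + h) z).1) ^ 2 + (dg g o (φ (t - h) z).1) ^ 2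
      - 2 * (dg g o (φ t z).1) ^ 2 = 2 * h ^ 2 := by
  have hc : ∀ s : ℝ, Continuous (fun z : St => (dg g o (φ s z).1) ^ 2) := fun s =>
    ((r5_dist_cont hg hφ o).comp (Continuous.prodMk continuous_id continuous_const)).pow 2
  set D : St → ℝ := fun z => (dg g o (φ (t + h) z).1) ^ 2 + (dg g o (φ (t - h) z).1) ^ 2
      - 2 * (dg g o (φ t z).1) ^ 2 with hD
  have hDc : Continuous D := ((hc _).add (hc _)).sub (continuous_const.mul (hc _))
  have hae := pythagoras_ae hg hφ hm hn o
  have hdens : Measurable (fun z : St => ENNReal.ofReal (dt g z.1)) :=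
    ENNReal.measurable_ofReal.comp
      (((contDiff_dt hg 1).continuous.comp continuous_fst).measurable)
  unfold muS at hae
  rw [ae_withDensity_iff hdens, ae_restrict_iff' (MeasurableSet.univ.prod measurableSet_Ioc)] at hae
  have hopen : IsOpen ((univ ×ˢ Ioo 0 (2 * π) : Set St) ∩ {z | D z ≠ 2 * h ^ 2}) :=
    (isOpen_univ.prod isOpen_Ioo).inter (isOpen_ne_fun hDc continuous_const)
  have hzero : (volume : Measure St)
      ((univ ×ˢ Ioo 0 (2 * π) : Set St) ∩ {z | D z ≠ 2 * h ^ 2}) = 0 := by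
    refine measure_mono_null ?_ hae
    rintro z ⟨h1, h2⟩ h3
    apply h2
    obtain ⟨t₀, ρ, h4⟩ := h3 ⟨mem_univ _, Ioo_subset_Ioc_self h1.2⟩ (by
      rw [Ne, ENNReal.ofReal_eq_zero, not_le]
      exact dt_pos hg z.1)
    show D z = 2 * h ^ 2
    simp only [hD, h4]
    ring
  have hempty := (hopen.measure_eq_zero_iff (volume : Measure St)).1 hzero
  have hin : ∀ z : St, z.2 ∈ Ioo 0 (2 * π) → D z = 2 * h ^ 2 := by
    intro z hz
    by_contra hne
    have : z ∈ ((univ ×ˢ Ioo 0 (2 * π) : Set St) ∩ {z | D z ≠ 2 * h ^ 2}) :=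
      ⟨⟨mem_univ _, hz⟩, hne⟩
    rw [hempty] at this
    exact this
  have hcl : ∀ z : St, z.2 ∈ Icc 0 (2 * π) → D z = 2 * h ^ 2 := by
    intro z hz
    have h1 : IsClosed {α : ℝ | D (z.1, α) = 2 * h ^ 2} :=
      isClosed_eq (hDc.comp (Continuous.prodMk continuous_const continuous_id)) continuous_const
    have h2 : Ioo 0 (2 * π) ⊆ {α : ℝ | D (z.1, α) = 2 * h ^ 2} := fun α hα => hin (z.1, α) hα
    have h3 := closure_minimal h2 h1
    rw [closure_Ioo (by positivity : (0:ℝ) ≠ 2 * π)] at h3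
    exact h3 hz
  show D z = 2 * h ^ 2
  obtain ⟨k, hk, _⟩ := existsUnique_add_zsmul_mem_Ico Real.two_pi_pos z.2 0
  simp only [zero_add, zsmul_eq_mul] at hk
  have h5 := hcl (z.1, z.2 + 2 * π * k) (by
    show z.2 + 2 * π * k ∈ Icc 0 (2 * π)
    rw [mul_comm (2 * π) (k : ℝ)]
    exact Ico_subset_Icc_self hk)
  rw [← h5]
  simp only [hD, hφ.int_two_pi hg]

end PPF
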