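import Mathlib

/-!
JOB SArea (pure Mathlib). The area inequality for functions, without injectivity.
-/

set_option autoImplicit false

open MeasureTheory Set Filter Topology Real

noncomputable section

namespace PPF

theorem lintegral_image_le {F : Type*} [NormedAddCommGroup F] [NormedSpace ℝ F]
    [FiniteDimensional ℝ F] [MeasurableSpace F] [BorelSpace F] (μ : Measure F)
    [μ.IsAddHaarMeasure] {f : F → F} {f' : F → F →L[ℝ] F} (hf : ∀ x, HasFDerivAt f (f' x) x)
    {s : Set F} (hs : MeasurableSet s) {G : F → ENNReal} (hG : Measurable G) :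
    ∫⁻ y in f '' s, G y ∂μ ≤ ∫⁻ x in s, ENNReal.ofReal |(f' x).det| * G (f x) ∂μ := by
  have hfd : Differentiable ℝ f := fun x => (hf x).differentiableAt
  have hfm : Measurable f := hfd.continuous.measurable
  have hf'e : f' = fderiv ℝ f := by
    ext1 x
    exact (hf x).fderiv.symm
  have hdm : Measurable (fun x => ENNReal.ofReal |(f' x).det|) := by
    apply ENNReal.measurable_ofReal.comp
    refine continuous_abs.measurable.comp ?_
    refine ContinuousLinearMap.continuous_det.measurable.comp ?_
    rw [hf'e]
    exact measurable_fderiv ℝ f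
  have hle : μ.restrict (f '' s) ≤
      Measure.map f ((μ.restrict s).withDensity (fun x => ENNReal.ofReal |(f' x).det|)) := by
    rw [Measure.le_iff]
    intro B hB
    rw [Measure.restrict_apply hB, Measure.map_apply hfm hB,
      withDensity_apply _ (hfm hB), Measure.restrict_restrict (hfm hB)]
    have e : B ∩ f '' s = f '' (f ⁻¹' B ∩ s) := by
      ext y
      constructor
      · rintro ⟨h1, x, hx, rfl⟩
        exact ⟨x, ⟨h1, hx⟩, rfl⟩
      · rintro ⟨x, ⟨h1, h2⟩, rfl⟩
        exact ⟨h1, x, h2, rfl⟩
    rw [e]
    exact addHaar_image_le_lintegral_abs_det_fderiv μ ((hfm hB).inter hs)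
      (fun x _ => (hf x).hasFDerivWithinAt)
  calc ∫⁻ y in f '' s, G y ∂μ
      ≤ ∫⁻ y, G y ∂(Measure.map f ((μ.restrict s).withDensity
          (fun x => ENNReal.ofReal |(f' x).det|))) := lintegral_mono' hle le_rfl
    _ = ∫⁻ x in s, ENNReal.ofReal |(f' x).det| * G (f x) ∂μ := by
      rw [lintegral_map hG hfm]
      have h2 := lintegral_withDensity_eq_lintegral_mul (μ.restrict s) hdm (hG.comp hfm)
      exact h2

end PPF
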