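import Pool.Agent.Lib.MP_a4f5e0_gt.G1

/-!
JOB SFold. Folding integrals over the angle; the measure `muS` as an iterated integral.

`St = E × ℝ` (point, angle). `muS g` has density `dt g z.1` on `E × (0, 2π]`.

* `lintegral_fold`: `ℝ` is the disjoint union of the `Ioc (2πk) (2πk + 2π)`, `k : ℤ` (`iUnion_Ioc_add_zsmul`,
  `pairwise_disjoint_Ioc_add_zsmul`); `lintegral_iUnion`; translate each piece
  (`lintegral_add_right_eq_self` for the indicator, or `(measurePreserving_add_right volume _)`);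
  `lintegral_tsum`.
* `tsum_ind`: exactly one `k` has `β + 2πk ∈ Ioc 0 (2π)` (`existsUnique_add_zsmul_mem_Ioc`); `tsum_eq_single`.
* `fold_St`: `Measure.volume_eq_prod`, Tonelli (`lintegral_prod`), for fixed `x` `lintegral_fold` for
  `H α = K (x, α) * 1(B (x, α))`; the terms are `K (x, α) * 1(B (x, α) + 2πk)` by periodicity, sum by
  `ENNReal.tsum_mul_left`, `tsum_ind`; back with `Measure.prod_restrict`.
* `muS_lintegral`: `lintegral_withDensity_eq_lintegral_mul` (density measurable: `contDiff_dt`).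
* `muS_iter`: `muS_lintegral`, `Measure.prod_restrict` (with `Measure.restrict_univ`), `lintegral_prod`.
* `lintegral_E`: `EuclideanSpace.volume_preserving_…` (`E` to `Fin 2 → ℝ`), `MeasureTheory.volume_preserving_finTwoArrow`,
  Tonelli.
-/

set_option autoImplicit false

open MeasureTheory Set Filter Topology Real

noncomputable section

namespace PPF

variable {g : E → E →L[ℝ] E →L[ℝ] ℝ} {φ : ℝ → St → St}

theorem lintegral_fold {H : ℝ → ENNReal} (hH : Measurable H) :
    ∫⁻ α, H α = ∫⁻ α in Ioc 0 (2 * π), ∑' k : ℤ, H (α + 2 * π * k) := by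
  have hpi : (0 : ℝ) < 2 * π := by positivity
  have hU : (⋃ k : ℤ, Ioc ((0 : ℝ) + k • (2 * π)) (0 + (k + 1) • (2 * π))) = univ :=
    iUnion_Ioc_add_zsmul hpi 0
  have hd := pairwise_disjoint_Ioc_add_zsmul (0 : ℝ) (2 * π)
  have hm : ∀ k : ℤ, AEMeasurable (fun α : ℝ => H (α + 2 * π * (k : ℝ)))
      (volume.restrict (Ioc 0 (2 * π))) := fun k =>
    (hH.comp (measurable_id.add_const _)).aemeasurable
  rw [← setLIntegral_univ, ← hU, lintegral_iUnion (fun k => measurableSet_Ioc) hd,
    lintegral_tsum hm]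
  congr 1
  funext k
  rw [← lintegral_indicator measurableSet_Ioc, ← lintegral_indicator measurableSet_Ioc,
    ← lintegral_add_right_eq_self _ (2 * π * (k : ℝ))]
  congr 1
  funext α
  have hk : (k : ℤ) • (2 * π) = 2 * π * (k : ℝ) := by
    rw [zsmul_eq_mul, mul_comm]
  have hk1 : (k + 1 : ℤ) • (2 * π) = 2 * π * (k : ℝ) + 2 * π := by
    rw [zsmul_eq_mul]
    push_cast
    ring
  by_cases h : α ∈ Ioc 0 (2 * π)
  · rw [indicator_of_mem h, indicator_of_mem]
    rw [hk, hk1]
    exact ⟨by linarith [h.1], by linarith [h.2]⟩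
  · rw [indicator_of_notMem h, indicator_of_notMem]
    rw [hk, hk1]
    intro h'
    exact h ⟨by linarith [h'.1], by linarith [h'.2]⟩

theorem tsum_ind (β : ℝ) :
    ∑' k : ℤ, (Ioc 0 (2 * π)).indicator (1 : ℝ → ENNReal) (β + 2 * π * k) = 1 := by
  have hpi : (0 : ℝ) < 2 * π := by positivity
  obtain ⟨k, hk, huniq⟩ := existsUnique_add_zsmul_mem_Ioc hpi β 0
  have e : ∀ j : ℤ, β + 2 * π * (j : ℝ) = β + j • (2 * π) := by
    intro j
    rw [zsmul_eq_mul, mul_comm]
  simp only [zero_add] at hk huniq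
  rw [tsum_eq_single k, indicator_of_mem]
  · rfl
  · rw [e]
    exact hk
  · intro j hj
    refine indicator_of_notMem ?_ _
    rw [e]
    intro h'
    exact hj (huniq j h')

theorem Per.int {X : Type*} {F : St → X} (h : Per F) (x : E) (α : ℝ) (k : ℤ) :
    F (x, α + 2 * π * k) = F (x, α) := by
  induction k using Int.induction_on with
  | zero => simp
  | succ n ih =>
    have e : α + 2 * π * (((n : ℤ) + 1 : ℤ) : ℝ) = (α + 2 * π * ((n : ℤ) : ℝ)) + 2 * π := by
      push_cast
      ring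
    rw [e, h, ih]
  | pred n ih =>
    have e : α + 2 * π * ((-(n : ℤ) : ℤ) : ℝ) =
        (α + 2 * π * ((-(n : ℤ) - 1 : ℤ) : ℝ)) + 2 * π := by
      push_cast
      ring
    rw [e, h] at ih
    exact ih

theorem shift_int {B : St → ℝ} (h : ∀ x α, B (x, α + 2 * π) = B (x, α) + 2 * π) (x : E) (α : ℝ)
    (k : ℤ) : B (x, α + 2 * π * k) = B (x, α) + 2 * π * k := by
  induction k using Int.induction_on with
  | zero => simp
  | succ n ih =>
    have e : α + 2 * π * (((n : ℤ) + 1 : ℤ) : ℝ) = (α + 2 * π * ((n : ℤ) : ℝ)) + 2 * π := by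
      push_cast
      ring
    rw [e, h, ih]
    push_cast
    ring
  | pred n ih =>
    have e : α + 2 * π * ((-(n : ℤ) : ℤ) : ℝ) =
        (α + 2 * π * ((-(n : ℤ) - 1 : ℤ) : ℝ)) + 2 * π := by
      push_cast
      ring
    rw [e, h] at ih
    have e2 : 2 * π * ((-(n : ℤ) - 1 : ℤ) : ℝ) = 2 * π * ((-(n : ℤ) : ℤ) : ℝ) - 2 * π := by
      push_cast
      ring
    linarith

/-- folding: the angle may be restricted by any function `B` which is equivariant -/
theorem fold_St {K : St → ENNReal} (hK : Measurable K) (hKp : Per K) {B : St → ℝ}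
    (hB : Measurable B) (hBp : ∀ x α, B (x, α + 2 * π) = B (x, α) + 2 * π) :
    ∫⁻ z, K z * (Ioc 0 (2 * π)).indicator (1 : ℝ → ENNReal) (B z) =
      ∫⁻ z in (Set.univ : Set E) ×ˢ Ioc 0 (2 * π), K z := by
  have hI : Measurable ((Ioc 0 (2 * π)).indicator (1 : ℝ → ENNReal)) :=
    measurable_one.indicator measurableSet_Ioc
  have hm : Measurable (fun z : St => K z * (Ioc 0 (2 * π)).indicator (1 : ℝ → ENNReal) (B z)) :=
    hK.mul (hI.comp hB)
  rw [Measure.volume_eq_prod, lintegral_prod _ hm.aemeasurable,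
    ← Measure.prod_restrict, Measure.restrict_univ, lintegral_prod _ hK.aemeasurable]
  congr 1
  funext x
  have h1 : Measurable (fun α : ℝ => K (x, α) *
      (Ioc 0 (2 * π)).indicator (1 : ℝ → ENNReal) (B (x, α))) :=
    (hK.comp (measurable_const.prodMk measurable_id)).mul
      (hI.comp (hB.comp (measurable_const.prodMk measurable_id)))
  rw [lintegral_fold h1]
  congr 1
  funext α
  have h2 : ∀ k : ℤ, K (x, α + 2 * π * k) *
      (Ioc 0 (2 * π)).indicator (1 : ℝ → ENNReal) (B (x, α + 2 * π * k)) =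
      K (x, α) * (Ioc 0 (2 * π)).indicator (1 : ℝ → ENNReal) (B (x, α) + 2 * π * k) := by
    intro k
    rw [hKp.int, shift_int hBp]
  simp only [h2]
  rw [ENNReal.tsum_mul_left, tsum_ind, mul_one]

theorem measurable_dt (hg : Met g) : Measurable (dt g) := by
  exact (contDiff_dt hg 0).continuous.measurable

theorem muS_lintegral (hg : Met g) {F : St → ENNReal} (hF : Measurable F) :
    ∫⁻ z, F z ∂muS g =
      ∫⁻ z in (Set.univ : Set E) ×ˢ Ioc 0 (2 * π), ENNReal.ofReal (dt g z.1) * F z := by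
  have h1 : Measurable (fun z : St => ENNReal.ofReal (dt g z.1)) :=
    ENNReal.measurable_ofReal.comp ((measurable_dt hg).comp measurable_fst)
  unfold muS
  rw [lintegral_withDensity_eq_lintegral_mul _ h1 hF]
  rfl

theorem muS_iter (hg : Met g) {F : St → ENNReal} (hF : Measurable F) :
    ∫⁻ z, F z ∂muS g =
      ∫⁻ x : E, ∫⁻ α in Ioc 0 (2 * π), ENNReal.ofReal (dt g x) * F (x, α) := by
  have h1 : Measurable (fun z : St => ENNReal.ofReal (dt g z.1) * F z) :=
    (ENNReal.measurable_ofReal.comp ((measurable_dt hg).comp measurable_fst)).mul hF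
  rw [muS_lintegral hg hF, Measure.volume_eq_prod, ← Measure.prod_restrict,
    Measure.restrict_univ, lintegral_prod _ h1.aemeasurable]

/-- `muS g` is s-finite (needed for Tonelli) -/
theorem muS_sfinite (g : E → E →L[ℝ] E →L[ℝ] ℝ) : SFinite (muS g) := by
  unfold muS
  infer_instance

theorem lintegral_E {f : ℝ → ℝ → ENNReal} (hf : Measurable (Function.uncurry f)) :
    ∫⁻ τ : E, f (τ 0) (τ 1) = ∫⁻ t : ℝ, ∫⁻ s : ℝ, f t s := by
  have h1 := EuclideanSpace.volume_preserving_symm_measurableEquiv_toLp (Fin 2)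
  have h2 := volume_preserving_finTwoArrow ℝ
  have h3 := h2.comp h1
  have h4 := h3.lintegral_comp hf
  have h5 : ∫⁻ τ : E, f (τ 0) (τ 1) = ∫⁻ z : ℝ × ℝ, Function.uncurry f z := h4
  rw [h5, Measure.volume_eq_prod, lintegral_prod _ hf.aemeasurable]
  rfl

end PPF
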