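import Pool.Agent.Lib.MP_a4f5e0_gt.SFold

/-!
JOB SInv. Liouville: the flow preserves `muS` (on functions periodic in the angle).

* `flow_vol`: `flow_lintegral` (OLint.lean) with `F = St`, `μ = volume`, `V = V g`, `D z = dt g z.1`:
  `contDiff_V`, `contDiff_dt` composed with `fst` (casts of natural numbers to `WithTop ℕ∞`: use `hg`-lemmas with
  `n = 1`), `dt_pos`; `hdiv` from `trace_fderiv_smul` (ODet.lean) and `div_V` (F4.lean).
* `muS_invariant`: both sides by `muS_lintegral`. Let `K z = ofReal (dt g z.1) * F (φ t z)` (periodic, because of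
  `IsFlow.add_two_pi`; measurable, `φ t` is continuous). `fold_St` with `B z = (φ t z).2` gives
  `∫_{univ × Ioc} K = ∫ ofReal(dt z.1) * (F · 1_Ioc(·.2)) (φ t z)`; by `flow_vol` with `G w = F w * 1_Ioc(w.2)` this is
  `∫ ofReal(dt z.1) * F z * 1_Ioc(z.2)`, which is the right side (`fold_St` with `B z = z.2`, or the
  integral of an indicator).
-/

set_option autoImplicit false

open MeasureTheory Set Filter Topology Real

noncomputable section

namespace PPF

variable {g : E → E →L[ℝ] E →L[ℝ] ℝ} {φ : ℝ → St → St}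

private theorem sinv_V1 (hg : Met g) : ContDiff ℝ 1 (V g) := by
  have h := contDiff_V hg 1
  rwa [Nat.cast_one] at h

private theorem sinv_D1 (hg : Met g) : ContDiff ℝ 1 (fun z : St => dt g z.1) := by
  have h := contDiff_dt hg 1
  rw [Nat.cast_one] at h
  exact h.comp contDiff_fst

private theorem sinv_div (hg : Met g) (z : St) :
    LinearMap.trace ℝ St (fderiv ℝ (fun x : St => dt g x.1 • V g x) z : St →ₗ[ℝ] St) = 0 := by
  have h1 := div_V hg z
  rw [trace_fderiv_smul ((sinv_V1 hg).differentiable one_ne_zero z)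
    ((sinv_D1 hg).differentiable one_ne_zero z), mul_comm]
  exact h1

/-- Liouville's formula for the geodesic flow -/
theorem flow_det_St (hg : Met g) (hφ : IsFlow g φ) (t : ℝ) (z : St) :
    (fderiv ℝ (φ t) z).det * dt g (φ t z).1 = dt g z.1 := by
  exact flow_det (sinv_V1 hg) hφ.zero hφ.deriv hφ.var (sinv_D1 hg) (sinv_div hg) t z

theorem flow_vol (hg : Met g) (hφ : IsFlow g φ) (t : ℝ) (G : St → ENNReal) :
    ∫⁻ z : St, ENNReal.ofReal (dt g z.1) * G (φ t z) =
      ∫⁻ z : St, ENNReal.ofReal (dt g z.1) * G z := by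
  have hH : ((volume : Measure E).prod (volume : Measure ℝ)).IsAddHaarMeasure := inferInstance
  have hH' : (volume : Measure St).IsAddHaarMeasure := hH
  exact flow_lintegral (volume : Measure St) (sinv_V1 hg) hφ.zero hφ.deriv hφ.C1 hφ.var
    (sinv_D1 hg) (fun z => dt_pos hg z.1) (sinv_div hg) t G

theorem measurable_flow (hφ : IsFlow g φ) (t : ℝ) : Measurable (φ t) := by
  exact (hφ.continuous.comp (continuous_const.prodMk continuous_id)).measurable

theorem Per.flow {X : Type*} (hg : Met g) (hφ : IsFlow g φ) {F : St → X} (h : Per F) (t : ℝ) :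
    Per (fun z => F (φ t z)) := by
  intro x α
  show F (φ t (x, α + 2 * π)) = F (φ t (x, α))
  rw [IsFlow.add_two_pi hg hφ, h]

theorem muS_invariant (hg : Met g) (hφ : IsFlow g φ) {F : St → ENNReal} (hF : Measurable F)
    (hP : Per F) (t : ℝ) : ∫⁻ z, F (φ t z) ∂muS g = ∫⁻ z, F z ∂muS g := by
  have hm := measurable_flow hφ t
  have hd : Measurable (fun z : St => ENNReal.ofReal (dt g z.1)) :=
    ENNReal.measurable_ofReal.comp ((measurable_dt hg).comp measurable_fst)
  have hdp : Per (fun z : St => ENNReal.ofReal (dt g z.1)) := fun x α => rfl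
  have hFm : Measurable (fun z : St => F (φ t z)) := hF.comp hm
  have hFp := Per.flow hg hφ hP t
  rw [muS_lintegral hg hFm, muS_lintegral hg hF]
  have hK1 : Per (fun z : St => ENNReal.ofReal (dt g z.1) * F (φ t z)) := by
    intro x α
    show ENNReal.ofReal (dt g x) * F (φ t (x, α + 2 * π)) = ENNReal.ofReal (dt g x) * F (φ t (x, α))
    rw [IsFlow.add_two_pi hg hφ, hP]
  have hK2 : Per (fun z : St => ENNReal.ofReal (dt g z.1) * F z) := by
    intro x α
    show ENNReal.ofReal (dt g x) * F (x, α + 2 * π) = ENNReal.ofReal (dt g x) * F (x, α)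
    rw [hP]
  have e1 := fold_St (K := fun z : St => ENNReal.ofReal (dt g z.1) * F (φ t z)) (hd.mul hFm) hK1
    (B := fun z => (φ t z).2) (measurable_snd.comp hm)
    (fun x α => by simp only [IsFlow.add_two_pi hg hφ])
  have e2 := fold_St (K := fun z : St => ENNReal.ofReal (dt g z.1) * F z) (hd.mul hF) hK2
    (B := fun z => z.2) measurable_snd (fun x α => rfl)
  have e3 := flow_vol hg hφ t (fun w => F w * (Ioc 0 (2 * π)).indicator (1 : ℝ → ENNReal) w.2)
  rw [← e1, ← e2]
  simp only [mul_assoc]
  exact e3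

end PPF
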