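import Pool.Agent.Lib.MP_a4f5e0_gt.IfD
import Pool.Agent.Lib.MP_a4f5e0_gt.SInv

/-!
JOB SKap. The weight `kap` with integral `1` along every line.

`hmin`: every geodesic is minimising. `kapZ z = ∫ exp (-dg o (φ t z).1) dt`.

* `dg_o_lower`: `|t| = dg (φ 0 z).1 (φ t z).1 ≤ dg z.1 o + dg o (φ t z).1` (`dg_triangle`, `dg_comm`, `hφ.zero`).
* `kapZ_ne_top`: `exp (-dg o (φ t z).1) ≤ exp (dg o z.1) * exp (-|t|)`, integrable
  (`integrable_exp_neg_abs`-type lemma; or split at `0`, `integrableOn_exp_neg_Ioi`…).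
* `kapZ_ne_zero`: the integrand is positive everywhere (`lintegral_eq_zero_iff` / `lintegral_pos_iff_support`).
* `kapZ_flow`: `φ t (φ s z) = φ (t + s) z` (`IsFlow.add`), translation invariance of `volume`.
* measurability: `(t, z) ↦ dg o (φ t z).1` is continuous (`dg_continuous`, `hφ.continuous`);
  `Measurable.lintegral_prod_right'` (or `lintegral_prod_left'`).
* periodicity: `IsFlow.add_two_pi`.
* `kap_int`: `∫ e(φ t z) / kapZ (φ t z) dt = ∫ e(φ t z) dt / kapZ z = 1` (`ENNReal.div_self`, `lintegral_div`/`_mul_const`).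
-/

set_option autoImplicit false

open MeasureTheory Set Filter Topology Real

noncomputable section

namespace PPF

variable {g : E → E →L[ℝ] E →L[ℝ] ℝ} {φ : ℝ → St → St}

variable (g φ) in
def kapZ (o : E) (z : St) : ENNReal := ∫⁻ t : ℝ, ENNReal.ofReal (Real.exp (-dg g o (φ t z).1))

variable (g φ) in
def kap (o : E) (z : St) : ENNReal := ENNReal.ofReal (Real.exp (-dg g o z.1)) / kapZ g φ o z

theorem skap_int_exp : Integrable (fun t : ℝ => Real.exp (-|t|)) := by
  rw [← integrableOn_univ, ← Iic_union_Ioi (a := (0 : ℝ)), integrableOn_union]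
  constructor
  · refine (integrableOn_exp_Iic 0).congr_fun (fun t ht => ?_) measurableSet_Iic
    rw [abs_of_nonpos ht, neg_neg]
  · refine (exp_neg_integrableOn_Ioi 0 one_pos).congr_fun (fun t ht => ?_) measurableSet_Ioi
    have ht' : (0 : ℝ) < t := ht
    simp only
    rw [abs_of_pos ht', neg_one_mul]

theorem dg_o_lower (hg : Met g) (hφ : IsFlow g φ)
    (hmin : ∀ z s t, dg g (φ s z).1 (φ t z).1 = |s - t|) (o : E) (z : St) (t : ℝ) :
    |t| - dg g o z.1 ≤ dg g o (φ t z).1 := by
  have h1 := hmin z 0 t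
  rw [hφ.zero, zero_sub, abs_neg] at h1
  have h2 := dg_triangle hg z.1 o (φ t z).1
  have h3 := dg_comm hg z.1 o
  linarith

/-- `(t, z) ↦ dg o (φ t z).1` is continuous -/
theorem continuous_r (hg : Met g) (hφ : IsFlow g φ) (o : E) :
    Continuous (fun q : ℝ × St => dg g o (φ q.1 q.2).1) := by
  exact (dg_continuous hg).comp
    (continuous_const.prodMk (continuous_fst.comp hφ.continuous))

theorem skap_meas (hg : Met g) (hφ : IsFlow g φ) (o : E) :
    Measurable (fun q : ℝ × St => ENNReal.ofReal (Real.exp (-dg g o (φ q.1 q.2).1))) :=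
  ENNReal.measurable_ofReal.comp (Real.continuous_exp.comp (continuous_r hg hφ o).neg).measurable

theorem skap_meas1 (hg : Met g) (hφ : IsFlow g φ) (o : E) (z : St) :
    Measurable (fun t : ℝ => ENNReal.ofReal (Real.exp (-dg g o (φ t z).1))) := by
  have h2 : Continuous (fun t : ℝ => ((t, z) : ℝ × St)) := continuous_id.prodMk continuous_const
  have h3 : Continuous (fun t : ℝ => Real.exp (-dg g o (φ t z).1)) :=
    Real.continuous_exp.comp ((continuous_r hg hφ o).comp h2).neg
  exact ENNReal.measurable_ofReal.comp h3.measurable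

theorem kapZ_ne_top (hg : Met g) (hφ : IsFlow g φ)
    (hmin : ∀ z s t, dg g (φ s z).1 (φ t z).1 = |s - t|) (o : E) (z : St) :
    kapZ g φ o z ≠ ⊤ := by
  have h1 : ∀ t : ℝ, ENNReal.ofReal (Real.exp (-dg g o (φ t z).1)) ≤
      ENNReal.ofReal (Real.exp (dg g o z.1) * Real.exp (-|t|)) := by
    intro t
    refine ENNReal.ofReal_le_ofReal ?_
    rw [← Real.exp_add]
    refine Real.exp_le_exp.2 ?_
    have := dg_o_lower hg hφ hmin o z t
    linarith
  have h2 : Integrable (fun t : ℝ => Real.exp (dg g o z.1) * Real.exp (-|t|)) :=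
    skap_int_exp.const_mul _
  exact ((lintegral_mono h1).trans_lt h2.lintegral_lt_top).ne

theorem kapZ_ne_zero (hg : Met g) (hφ : IsFlow g φ) (o : E) (z : St) : kapZ g φ o z ≠ 0 := by
  have hm := skap_meas1 hg hφ o z
  refine ne_of_gt ?_
  unfold kapZ
  rw [lintegral_pos_iff_support hm]
  have h1 : Function.support (fun t : ℝ => ENNReal.ofReal (Real.exp (-dg g o (φ t z).1))) =
      univ := by
    rw [eq_univ_iff_forall]
    intro t
    rw [Function.mem_support]
    exact (ENNReal.ofReal_pos.2 (Real.exp_pos _)).ne'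
  rw [h1, Real.volume_univ]
  exact ENNReal.zero_lt_top

theorem kapZ_flow (hg : Met g) (hφ : IsFlow g φ) (o : E) (s : ℝ) (z : St) :
    kapZ g φ o (φ s z) = kapZ g φ o z := by
  unfold kapZ
  have h1 : ∀ t : ℝ, ENNReal.ofReal (Real.exp (-dg g o (φ t (φ s z)).1)) =
      ENNReal.ofReal (Real.exp (-dg g o (φ (t + s) z).1)) := by
    intro t
    rw [IsFlow.add hg hφ]
  simp only [h1]
  exact lintegral_add_right_eq_self
    (fun t : ℝ => ENNReal.ofReal (Real.exp (-dg g o (φ t z).1))) s

theorem kap_measurable (hg : Met g) (hφ : IsFlow g φ) (o : E) : Measurable (kap g φ o) := by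
  have h1 : Measurable (kapZ g φ o) := (skap_meas hg hφ o).lintegral_prod_left'
  have h2 : Measurable (fun z : St => ENNReal.ofReal (Real.exp (-dg g o z.1))) := by
    have h3 : Continuous (fun z : St => Real.exp (-dg g o z.1)) :=
      Real.continuous_exp.comp
        ((dg_continuous hg).comp (continuous_const.prodMk continuous_fst)).neg
    exact ENNReal.measurable_ofReal.comp h3.measurable
  exact h2.div h1

theorem kap_per (hg : Met g) (hφ : IsFlow g φ) (o : E) : Per (kap g φ o) := by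
  intro x α
  unfold kap kapZ
  simp only [IsFlow.add_two_pi hg hφ]

theorem kap_pos (hg : Met g) (hφ : IsFlow g φ)
    (hmin : ∀ z s t, dg g (φ s z).1 (φ t z).1 = |s - t|) (o : E) (z : St) : 0 < kap g φ o z := by
  exact ENNReal.div_pos (ENNReal.ofReal_pos.2 (Real.exp_pos _)).ne' (kapZ_ne_top hg hφ hmin o z)

theorem kap_lt_top (hg : Met g) (hφ : IsFlow g φ) (o : E) (z : St) : kap g φ o z < ⊤ := by
  exact ENNReal.div_lt_top ENNReal.ofReal_ne_top (kapZ_ne_zero hg hφ o z)

theorem kap_int (hg : Met g) (hφ : IsFlow g φ)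
    (hmin : ∀ z s t, dg g (φ s z).1 (φ t z).1 = |s - t|) (o : E) (z : St) :
    ∫⁻ t, kap g φ o (φ t z) = 1 := by
  have hm := skap_meas1 hg hφ o z
  have h1 : ∀ t : ℝ, kap g φ o (φ t z) =
      ENNReal.ofReal (Real.exp (-dg g o (φ t z).1)) * (kapZ g φ o z)⁻¹ := by
    intro t
    unfold kap
    rw [kapZ_flow hg hφ, div_eq_mul_inv]
  simp only [h1]
  rw [lintegral_mul_const _ hm]
  exact ENNReal.mul_inv_cancel (kapZ_ne_zero hg hφ o z) (kapZ_ne_top hg hφ hmin o z)

end PPF
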