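import Pool.Agent.Lib.MP_a4f5e0_gt.G1

/-!
JOB T1. Lines of the flow: elementary facts.

`line φ z = range (t ↦ (φ t z).1)`. Everything follows from G1:
* if `(φ s z).1 = (φ t w).1` and the angles differ by `kπ`, `k` even: `k = 2j`,
  `φ s z = ((φ t w).1, (φ t w).2 + 2πj)`, so `φ (τ+s) z = φ τ (φ s z)` and `φ (τ+t) w` have the same first
  component for every `τ` (`int_two_pi`). If `k` is odd use also `add_pi`: the first component of
  `φ τ (x, α + π)` is that of `φ (-τ) (x, α)`. `tangent_reparam` states this: there are `σ = ±1` and `c`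
  with `(φ τ z).1 = (φ (σ τ + c) w).1` and `sin ((φ τ z).2 - (φ (σ τ + c) w).2) = 0` for all `τ`.
* `sin x = 0 ↔ ∃ k : ℤ, k π = x`: `Real.sin_eq_zero_iff`.
* `Tang φ z w`: the orbit of `w` passes through `z.1` with angle `z.2` modulo `π`.
-/

set_option autoImplicit false

open MeasureTheory Set Filter Topology Real Metric

noncomputable section

namespace PPF

variable {g : E → E →L[ℝ] E →L[ℝ] ℝ} {φ : ℝ → St → St}

/-- the orbit of `w` passes through the point of `z` with the same direction up to sign -/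
def Tang (φ : ℝ → St → St) (z w : St) : Prop :=
  ∃ t, z.1 = (φ t w).1 ∧ sin (z.2 - (φ t w).2) = 0

theorem mem_line_self (hφ : IsFlow g φ) (z : St) : z.1 ∈ line φ z :=
  ⟨0, by show (φ 0 z).1 = z.1; rw [hφ.zero]⟩

theorem flow_int_pi (hg : Met g) (hφ : IsFlow g φ) (x : E) (α : ℝ) (k : ℤ) :
    ∃ σ : ℝ, (σ = 1 ∨ σ = -1) ∧ ∀ t, φ t (x, α + k * π) =
      ((φ (σ * t) (x, α)).1, (φ (σ * t) (x, α)).2 + k * π) := by
  rcases Int.even_or_odd' k with ⟨j, hj | hj⟩
  · refine ⟨1, Or.inl rfl, fun t => ?_⟩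
    have h1 : (k : ℝ) * π = 2 * π * j := by rw [hj]; push_cast; ring
    rw [h1, one_mul, hφ.int_two_pi hg]
  · refine ⟨-1, Or.inr rfl, fun t => ?_⟩
    have h1 : (k : ℝ) * π = 2 * π * j + π := by rw [hj]; push_cast; ring
    rw [h1, ← add_assoc, hφ.add_pi hg, hφ.int_two_pi hg, neg_one_mul, ← add_assoc]

/-- an affine reparametrisation does not change the range -/
theorem t1_range {X : Type*} (f : ℝ → X) {σ : ℝ} (hσ : σ = 1 ∨ σ = -1) (c : ℝ) :
    Set.range (fun τ => f (σ * τ + c)) = Set.range f := by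
  have hs : Function.Surjective (fun τ : ℝ => σ * τ + c) := by
    intro y
    rcases hσ with rfl | rfl
    · exact ⟨y - c, by ring⟩
    · exact ⟨c - y, by ring⟩
  exact hs.range_comp f

theorem line_int_pi (hg : Met g) (hφ : IsFlow g φ) (x : E) (α : ℝ) (k : ℤ) :
    line φ (x, α + k * π) = line φ (x, α) := by
  obtain ⟨σ, hσ, h⟩ := flow_int_pi hg hφ x α k
  have h1 : (fun t => (φ t (x, α + k * π)).1) = fun t => (φ (σ * t + 0) (x, α)).1 := by
    funext t
    rw [h, add_zero]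
  show Set.range (fun t => (φ t (x, α + k * π)).1) = Set.range (fun t => (φ t (x, α)).1)
  rw [h1]
  exact t1_range (fun t => (φ t (x, α)).1) hσ 0

theorem line_flow (hg : Met g) (hφ : IsFlow g φ) (t : ℝ) (z : St) :
    line φ (φ t z) = line φ z := by
  have h1 : (fun s => (φ s (φ t z)).1) = fun s => (φ (1 * s + t) z).1 := by
    funext s
    rw [one_mul, hφ.add hg]
  show Set.range (fun s => (φ s (φ t z)).1) = Set.range (fun s => (φ s z).1)
  rw [h1]
  exact t1_range (fun s => (φ s z).1) (Or.inl rfl) t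

/-- two orbits which are tangent at one point are reparametrisations of each other -/
theorem tangent_reparam (hg : Met g) (hφ : IsFlow g φ) {z w : St} {s t : ℝ}
    (h1 : (φ s z).1 = (φ t w).1) (h2 : sin ((φ s z).2 - (φ t w).2) = 0) :
    ∃ σ c : ℝ, (σ = 1 ∨ σ = -1) ∧ ∀ τ, (φ τ z).1 = (φ (σ * τ + c) w).1 ∧
      sin ((φ τ z).2 - (φ (σ * τ + c) w).2) = 0 := by
  obtain ⟨k, hk⟩ := Real.sin_eq_zero_iff.mp h2
  obtain ⟨σ, hσ, h⟩ := flow_int_pi hg hφ (φ t w).1 (φ t w).2 k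
  have h3 : φ s z = ((φ t w).1, (φ t w).2 + k * π) := by
    ext1
    · exact h1
    · show (φ s z).2 = (φ t w).2 + k * π
      linarith
  have h4 : ∀ τ, φ τ z = ((φ (σ * τ + (t - σ * s)) w).1,
      (φ (σ * τ + (t - σ * s)) w).2 + k * π) := by
    intro τ
    have h5 : φ τ z = φ (τ - s) (φ s z) := by rw [← hφ.add hg, sub_add_cancel]
    have h6 : σ * τ + (t - σ * s) = σ * (τ - s) + t := by ring
    rw [h5, h3, h, h6, hφ.add hg]
  refine ⟨σ, t - σ * s, hσ, fun τ => ⟨by rw [h4], ?_⟩⟩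
  have h7 : (φ τ z).2 - (φ (σ * τ + (t - σ * s)) w).2 = k * π := by rw [h4 τ]; ring
  rw [h7]
  exact Real.sin_int_mul_pi k

theorem line_eq_of_tangent (hg : Met g) (hφ : IsFlow g φ) {z w : St} {s t : ℝ}
    (h1 : (φ s z).1 = (φ t w).1) (h2 : sin ((φ s z).2 - (φ t w).2) = 0) :
    line φ z = line φ w := by
  obtain ⟨σ, c, hσ, h⟩ := tangent_reparam hg hφ h1 h2
  have h3 : (fun τ => (φ τ z).1) = fun τ => (φ (σ * τ + c) w).1 := by
    funext τ
    exact (h τ).1
  show Set.range (fun s => (φ s z).1) = Set.range (fun s => (φ s w).1)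
  rw [h3]
  exact t1_range (fun s => (φ s w).1) hσ c

/-- `Tang` is invariant under the flow -/
theorem Tang.flow (hg : Met g) (hφ : IsFlow g φ) {z w : St} (h : Tang φ z w) (t : ℝ) :
    Tang φ (φ t z) w := by
  obtain ⟨t₀, h1, h2⟩ := h
  obtain ⟨σ, c, _, h3⟩ := tangent_reparam hg hφ (z := z) (w := w) (s := 0) (t := t₀)
    (by rw [hφ.zero]; exact h1) (by rw [hφ.zero]; exact h2)
  exact ⟨σ * t + c, (h3 t).1, (h3 t).2⟩

/-- if the orbits of `z` and `w` are tangent somewhere then `Tang` -/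
theorem tang_of_meet (hg : Met g) (hφ : IsFlow g φ) {z w : St} {s t : ℝ}
    (h1 : (φ s z).1 = (φ t w).1) (h2 : sin ((φ s z).2 - (φ t w).2) = 0) :
    Tang φ z w := by
  obtain ⟨σ, c, _, h3⟩ := tangent_reparam hg hφ h1 h2
  have h4 := h3 0
  rw [hφ.zero] at h4
  exact ⟨σ * 0 + c, h4.1, h4.2⟩

end PPF
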