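import Pool.Agent.Lib.MP_a4f5e0_gt.T1

/-!
JOB T2. Transversal intersections are stable; lines which are equal as sets are tangent somewhere.

`stab`: consider `Θ (z', s', t') = (z', (φ s' z').1 - (φ t' w).1)`, `St × ℝ × ℝ → St × E`, of class `C¹`
(`hφ.C1`). Its strict derivative at `(z, s, t)` is
`(δz, δs, δt) ↦ (δz, D₁ δz + δs • u (φ s z) - δt • u (φ t w))`, which is surjective (bijective) because
`u (φ s z)` and `u (φ t w)` (unit vectors at the same point with `sin` of the angle difference `≠ 0`) are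
linearly independent (`wd_u`: `wd (u ..) (u ..) ≠ 0`). By
`HasStrictFDerivAt.map_nhds_eq_of_surj` the map `Θ` maps neighbourhoods of `(z, s, t)` onto neighbourhoods
of `(z, 0)`; the condition `sin ≠ 0` is open. So for `z'` near `z` the point `(z', 0)` is `Θ (z', s', t')`
with `(s', t')` near `(s, t)`.
(Alternatively: inverse function theorem only in `(s', t')` and a continuity/degree argument.)

`isolated`: with `z' = z` fixed, `(s', t') ↦ (φ s' z).1 - (φ t' w).1` is `C¹` with bijective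
derivative at `(s, t)`, so it is injective near `(s,t)` (`HasStrictFDerivAt.eventually_injective`-type
lemma or `ContDiffAt.toOpenPartialHomeomorph`): `(s, t)` is an isolated zero.

`tangent_of_line_eq`: suppose `line φ z ⊆ line φ w` and there is no tangential coincidence. Then
`Z = {(s,t) | (φ s z).1 = (φ t w).1}` is closed and every point of it is isolated, so
`Z ∩ [-n,n]²` is compact and discrete, hence finite (`IsCompact.finite`), `Z` is countable, but its
projection to the first coordinate is all of `ℝ`: contradiction (`Set.not_countable_univ` for `ℝ`,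
`Cardinal.not_countable_real`).
-/

set_option autoImplicit false

open MeasureTheory Set Filter Topology Real Metric

noncomputable section

namespace PPF

variable {g : E → E →L[ℝ] E →L[ℝ] ℝ} {φ : ℝ → St → St}

/-- Cramer's rule -/
theorem t2_cramer (a b v : E) : wd a b • v = wd v b • a + wd a v • b := by
  ext i
  fin_cases i
  · simp [wd]; ring
  · simp [wd]; ring

theorem t2_wd (hg : Met g) {z w : St} (h1 : z.1 = w.1) (h2 : sin (z.2 - w.2) ≠ 0) :
    wd (u g z) (u g w) ≠ 0 := by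
  have h3 : wd (u g z) (u g w) = sin (w.2 - z.2) / dt g z.1 := by
    have h4 := wd_u hg z.1 z.2 w.2
    have h5 : (z.1, w.2) = w := by rw [h1]
    rw [h5] at h4
    exact h4
  rw [h3]
  apply div_ne_zero _ (dt_pos hg z.1).ne'
  rw [← neg_sub, sin_neg]
  exact neg_ne_zero.mpr h2

theorem t2_surj {a b : E} (h : wd a b ≠ 0) (v : E) : ∃ α β : ℝ, v = α • a - β • b := by
  refine ⟨wd v b / wd a b, - (wd a v / wd a b), ?_⟩
  have h1 := t2_cramer a b v
  calc v = (wd a b)⁻¹ • (wd a b • v) := by rw [smul_smul, inv_mul_cancel₀ h, one_smul]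
    _ = _ := by
      rw [h1, smul_add, smul_smul, smul_smul, neg_smul, sub_neg_eq_add, div_eq_inv_mul,
        div_eq_inv_mul]

theorem t2_inj {a b : E} (h : wd a b ≠ 0) {α β : ℝ} (h0 : α • a - β • b = 0) : α = 0 ∧ β = 0 := by
  have h1 : wd (α • a - β • b) b = α * wd a b := by simp [wd]; ring
  have h2 : wd (α • a - β • b) a = β * wd a b := by simp [wd]; ring
  rw [h0] at h1 h2
  have h3 : ∀ c : E, wd 0 c = 0 := fun c => by simp [wd]
  rw [h3] at h1 h2
  constructor
  · rcases mul_eq_zero.mp h1.symm with h4 | h4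
    · exact h4
    · exact absurd h4 h
  · rcases mul_eq_zero.mp h2.symm with h4 | h4
    · exact h4
    · exact absurd h4 h

/-- transversal intersections are stable -/
theorem stab (hg : Met g) (hφ : IsFlow g φ) {z w : St} {s t : ℝ}
    (h1 : (φ s z).1 = (φ t w).1) (h2 : sin ((φ s z).2 - (φ t w).2) ≠ 0) :
    ∀ᶠ z' in 𝓝 z, ∃ s' t', (φ s' z').1 = (φ t' w).1 ∧
      sin ((φ s' z').2 - (φ t' w).2) ≠ 0 := by
  have hwd := t2_wd hg h1 h2
  obtain ⟨Θ, hΘ⟩ : ∃ Θ : St × ℝ × ℝ → St × E,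
      Θ = fun q => (q.1, (φ q.2.1 q.1).1 - (φ q.2.2 w).1) := ⟨_, rfl⟩
  have hC : ContDiff ℝ 1 Θ := by
    rw [hΘ]
    refine contDiff_fst.prodMk (ContDiff.sub ?_ ?_)
    · have h3 : ContDiff ℝ 1 (fun q : St × ℝ × ℝ => (q.2.1, q.1)) := by fun_prop
      exact (hφ.C1.comp h3).fst
    · have h3 : ContDiff ℝ 1 (fun q : St × ℝ × ℝ => (q.2.2, w)) := by fun_prop
      exact (hφ.C1.comp h3).fst
  have hs : HasStrictFDerivAt Θ (fderiv ℝ Θ (z, s, t)) (z, s, t) :=
    hC.contDiffAt.hasStrictFDerivAt (by norm_num)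
  have hd := hs.hasFDerivAt
  have e1 : fderiv ℝ Θ (z, s, t) (0, 1, 0) = (0, u g (φ s z)) := by
    have h3 : HasDerivAt (fun r : ℝ => ((z, r, t) : St × ℝ × ℝ)) (0, 1, 0) s :=
      (hasDerivAt_const s z).prodMk ((hasDerivAt_id s).prodMk (hasDerivAt_const s t))
    have h4 := HasFDerivAt.comp_hasDerivAt (f := fun r : ℝ => ((z, r, t) : St × ℝ × ℝ)) s hd h3
    have h5 : HasDerivAt (Θ ∘ fun r : ℝ => ((z, r, t) : St × ℝ × ℝ)) (0, u g (φ s z)) s := by
      rw [hΘ]
      show HasDerivAt (fun r : ℝ => (z, (φ r z).1 - (φ t w).1)) (0, u g (φ s z)) s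
      exact (hasDerivAt_const s z).prodMk ((hφ.hasDerivAt_fst s z).sub_const _)
    exact h4.unique h5
  have e2 : fderiv ℝ Θ (z, s, t) (0, 0, 1) = (0, - u g (φ t w)) := by
    have h3 : HasDerivAt (fun r : ℝ => ((z, s, r) : St × ℝ × ℝ)) (0, 0, 1) t :=
      (hasDerivAt_const t z).prodMk ((hasDerivAt_const t s).prodMk (hasDerivAt_id t))
    have h4 := HasFDerivAt.comp_hasDerivAt (f := fun r : ℝ => ((z, s, r) : St × ℝ × ℝ)) t hd h3
    have h5 : HasDerivAt (Θ ∘ fun r : ℝ => ((z, s, r) : St × ℝ × ℝ)) (0, - u g (φ t w)) t := by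
      rw [hΘ]
      show HasDerivAt (fun r : ℝ => (z, (φ s z).1 - (φ r w).1)) (0, - u g (φ t w)) t
      exact (hasDerivAt_const t z).prodMk ((hφ.hasDerivAt_fst t w).const_sub _)
    exact h4.unique h5
  have e3 : ∀ a : St, (fderiv ℝ Θ (z, s, t) (a, 0, 0)).1 = a := by
    intro a
    have h3 : HasFDerivAt (fun q => (Θ q).1)
        ((ContinuousLinearMap.fst ℝ St E).comp (fderiv ℝ Θ (z, s, t))) (z, s, t) :=
      (ContinuousLinearMap.fst ℝ St E).hasFDerivAt.comp (z, s, t) hd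
    have h4 : HasFDerivAt (fun q => (Θ q).1) (ContinuousLinearMap.fst ℝ St (ℝ × ℝ)) (z, s, t) := by
      rw [hΘ]
      exact hasFDerivAt_fst
    have h5 := congrArg (fun T : St × ℝ × ℝ →L[ℝ] St => T (a, 0, 0)) (h3.unique h4)
    exact h5
  have hrange : (fderiv ℝ Θ (z, s, t)).range = ⊤ := by
    rw [LinearMap.range_eq_top]
    rintro ⟨a, b⟩
    obtain ⟨α, β, hαβ⟩ := t2_surj hwd (b - (fderiv ℝ Θ (z, s, t) (a, 0, 0)).2)
    refine ⟨(a, α, β), ?_⟩
    have h3 : ((a, α, β) : St × ℝ × ℝ) = (a, 0, 0) + (α • (0, 1, 0) + β • (0, 0, 1)) := by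
      simp
    show fderiv ℝ Θ (z, s, t) (a, α, β) = (a, b)
    rw [h3, map_add, map_add, map_smul, map_smul, e1, e2]
    ext1
    · simp [e3]
    · have h4 : (fderiv ℝ Θ (z, s, t) (a, 0, 0)).2 + (α • u g (φ s z) + β • (- u g (φ t w))) = b := by
        rw [smul_neg, ← sub_eq_add_neg, ← hαβ]
        abel
      simpa using h4
  have hmap := hs.map_nhds_eq_of_surj hrange
  have hval : Θ (z, s, t) = (z, 0) := by
    rw [hΘ]
    show (z, (φ s z).1 - (φ t w).1) = (z, 0)
    rw [h1, sub_self]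
  have hU : {q : St × ℝ × ℝ | sin ((φ q.2.1 q.1).2 - (φ q.2.2 w).2) ≠ 0} ∈ 𝓝 (z, s, t) := by
    have hc : Continuous (fun q : St × ℝ × ℝ => sin ((φ q.2.1 q.1).2 - (φ q.2.2 w).2)) := by
      have h3 : Continuous (fun q : St × ℝ × ℝ => φ q.2.1 q.1) :=
        hφ.continuous.comp (by fun_prop : Continuous (fun q : St × ℝ × ℝ => (q.2.1, q.1)))
      have h4 : Continuous (fun q : St × ℝ × ℝ => φ q.2.2 w) :=
        hφ.continuous.comp (by fun_prop : Continuous (fun q : St × ℝ × ℝ => (q.2.2, w)))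
      exact continuous_sin.comp ((continuous_snd.comp h3).sub (continuous_snd.comp h4))
    obtain ⟨F, hF⟩ : ∃ F : St × ℝ × ℝ → ℝ,
      F = fun q : St × ℝ × ℝ => sin ((φ q.2.1 q.1).2 - (φ q.2.2 w).2) := ⟨_, rfl⟩
    have hFc : Continuous F := by rw [hF]; exact hc
    have hF0 : F (z, s, t) ≠ 0 := by rw [hF]; exact h2
    have h5 : ∀ᶠ q in 𝓝 (z, s, t), F q ≠ 0 := hFc.continuousAt.eventually_ne hF0
    rw [hF] at h5
    exact h5
  have himg := image_mem_map (m := Θ) hU
  rw [hmap, hval] at himg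
  have hin : Tendsto (fun z' : St => (z', (0 : E))) (𝓝 z) (𝓝 (z, 0)) :=
    (by fun_prop : Continuous (fun z' : St => (z', (0 : E)))).tendsto z
  filter_upwards [hin himg] with z' hz'
  obtain ⟨⟨z'', s', t'⟩, hq, hq2⟩ := hz'
  rw [hΘ] at hq2
  have h3 : z'' = z' := congrArg Prod.fst hq2
  have h4 : (φ s' z'').1 - (φ t' w).1 = 0 := congrArg Prod.snd hq2
  subst h3
  exact ⟨s', t', sub_eq_zero.mp h4, hq⟩

/-- transversal intersections are isolated -/
theorem isolated (hg : Met g) (hφ : IsFlow g φ) {z w : St} {s t : ℝ}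
    (h1 : (φ s z).1 = (φ t w).1) (h2 : sin ((φ s z).2 - (φ t w).2) ≠ 0) :
    ∀ᶠ q : ℝ × ℝ in 𝓝 (s, t), (φ q.1 z).1 = (φ q.2 w).1 → q = (s, t) := by
  have hwd := t2_wd hg h1 h2
  have hd : HasFDerivAt (fun q : ℝ × ℝ => (φ q.1 z).1 - (φ q.2 w).1)
      (((ContinuousLinearMap.toSpanSingleton ℝ (u g (φ s z))).comp
        (ContinuousLinearMap.fst ℝ ℝ ℝ)) -
      ((ContinuousLinearMap.toSpanSingleton ℝ (u g (φ t w))).comp
        (ContinuousLinearMap.snd ℝ ℝ ℝ))) (s, t) := by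
    have h3 : HasFDerivAt (fun r => (φ r z).1)
      (ContinuousLinearMap.toSpanSingleton ℝ (u g (φ s z))) (s, t).1 :=
      (hφ.hasDerivAt_fst s z).hasFDerivAt
    have h4 : HasFDerivAt (fun r => (φ r w).1)
      (ContinuousLinearMap.toSpanSingleton ℝ (u g (φ t w))) (s, t).2 :=
      (hφ.hasDerivAt_fst t w).hasFDerivAt
    exact (h3.comp (s, t) hasFDerivAt_fst).sub (h4.comp (s, t) hasFDerivAt_snd)
  have hinj : ∃ C, AntilipschitzWith C
      (((ContinuousLinearMap.toSpanSingleton ℝ (u g (φ s z))).comp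
        (ContinuousLinearMap.fst ℝ ℝ ℝ)) -
      ((ContinuousLinearMap.toSpanSingleton ℝ (u g (φ t w))).comp
        (ContinuousLinearMap.snd ℝ ℝ ℝ)) : ℝ × ℝ →L[ℝ] E) := by
    obtain ⟨K, _, hK⟩ := LinearMap.exists_antilipschitzWith
      ((((ContinuousLinearMap.toSpanSingleton ℝ (u g (φ s z))).comp
        (ContinuousLinearMap.fst ℝ ℝ ℝ)) -
      ((ContinuousLinearMap.toSpanSingleton ℝ (u g (φ t w))).comp
        (ContinuousLinearMap.snd ℝ ℝ ℝ)) : ℝ × ℝ →L[ℝ] E) : ℝ × ℝ →ₗ[ℝ] E) (by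
        rw [LinearMap.ker_eq_bot']
        rintro ⟨α, β⟩ h0
        have h5 : α • u g (φ s z) - β • u g (φ t w) = 0 := h0
        obtain ⟨h6, h7⟩ := t2_inj hwd h5
        rw [h6, h7]
        rfl)
    exact ⟨K, hK⟩
  have h8 := hd.eventually_ne (c := 0) hinj
  rw [eventually_nhdsWithin_iff] at h8
  filter_upwards [h8] with q hq heq
  by_contra hne
  exact hq hne (sub_eq_zero.mpr heq)

theorem tangent_of_line_sub (hg : Met g) (hφ : IsFlow g φ) {z w : St}
    (h : line φ z ⊆ line φ w) :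
    ∃ s t, (φ s z).1 = (φ t w).1 ∧ sin ((φ s z).2 - (φ t w).2) = 0 := by
  by_contra hcon
  push Not at hcon
  obtain ⟨Z, hZ⟩ : ∃ Z : Set (ℝ × ℝ), Z = {q | (φ q.1 z).1 = (φ q.2 w).1} := ⟨_, rfl⟩
  have hdisc : DiscreteTopology Z := by
    rw [discreteTopology_subtype_iff]
    rintro ⟨s, t⟩ hq
    rw [hZ] at hq
    have h1 : (φ s z).1 = (φ t w).1 := hq
    have h2 := isolated hg hφ h1 (hcon s t h1)
    rw [← Filter.empty_mem_iff_bot, Filter.mem_inf_iff]
    refine ⟨{(s, t)}ᶜ ∩ {q : ℝ × ℝ | (φ q.1 z).1 = (φ q.2 w).1 → q = (s, t)}, ?_, Z,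
      Filter.mem_principal_self Z, ?_⟩
    · exact Filter.inter_mem self_mem_nhdsWithin (mem_nhdsWithin_of_mem_nhds h2)
    · ext q
      simp only [mem_empty_iff_false, mem_inter_iff, mem_compl_iff, mem_singleton_iff,
        mem_ofPred_eq, false_iff, not_and, and_imp, hZ]
      intro h3 h4 h5
      exact h3 (h4 h5)
  have hcount : Countable Z := TopologicalSpace.separableSpace_iff_countable.mp inferInstance
  have hsurj : (Prod.fst '' Z) = (Set.univ : Set ℝ) := by
    ext s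
    simp only [mem_image, mem_univ, iff_true]
    have h3 : (φ s z).1 ∈ line φ z := ⟨s, rfl⟩
    obtain ⟨t, ht⟩ := h h3
    refine ⟨(s, t), ?_, rfl⟩
    rw [hZ]
    exact ht.symm
  have h4 : (Set.univ : Set ℝ).Countable := by
    rw [← hsurj]
    exact (Set.countable_coe_iff.mp hcount).image _
  exact Cardinal.not_countable_real h4

end PPF
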