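import Pool.Agent.Lib.MP_a4f5e0_gt.T2

/-!
JOB T3. The parallel postulate excludes transversal self-crossings; the closed set `FF`;
its fibres.

`FF φ w = {z | the line of z is disjoint from the line of w, or Tang φ z w}`.

* `line_compl_dense`: `t ↦ (φ t w).1` is `C¹` from `ℝ` to `E` (dimension 2), so the complement of its
  range is dense: `ContDiff.dense_compl_range_of_finrank_lt_finrank`.
* `exists_disjoint`: `x ∉ line φ w`: `PP` gives `S = line φ v ∋ x` disjoint from `line φ w`;
  `x = (φ τ v).1`; put `α = (φ τ v).2`, then `line φ (x, α) = line φ (φ τ v) = S`. By `line_int_pi` `α` may be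
  changed by a multiple of `π`, so `α ∈ [0, π]` can be required.
* `no_self_cross`: suppose `q = (φ s w).1 = (φ t w).1` and `sin ((φ s w).2 - (φ t w).2) ≠ 0`. Take
  `x_n → q`, `x_n ∉ line φ w` (density), `α_n ∈ [0, π]` with `line φ (x_n, α_n)` disjoint from `line φ w`,
  and a subsequence with `α_n → α`. At least one of `sin (α - (φ s w).2)`, `sin (α - (φ t w).2)`
  is nonzero (otherwise `(φ s w).2 - (φ t w).2 ∈ πℤ`). Say the first. `stab` with `z = (q, α)`, times `0`
  and `s` shows that `line φ (x_n, α_n)` meets `line φ w` for large `n`. Contradiction.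
* `FF_closed`: let `z_n ∈ FF`, `z_n → z`, `z ∉ FF`. The line of `z` meets that of `w`, at times `(s, t)`, and
  `sin ≠ 0` there (otherwise `Tang φ z w` by `tang_of_meet`). By `stab`, for large `n` the lines of `z_n` and `w`
  meet at times `(s', t')` with `sin ≠ 0`. So they are not disjoint, so `Tang φ z_n w`; by `tangent_reparam` the
  orbit of `w` passes at some time `t''` through `(φ s' z_n).1` with angle `(φ s' z_n).2` modulo `π`, and at
  time `t'` through the same point with a different angle modulo `π`: this contradicts `no_self_cross`.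
  (Show that the complement is open: `isOpen_iff_eventually`.)
* `FF_fiber`. Case `x ∈ line φ w`, `x = (φ t w).1`: take `α = (φ t w).2`. If `(x, β) ∈ FF` then (the lines
  meet in `x`) `Tang`: `x = (φ t' w).1`, `sin (β - (φ t' w).2) = 0`, and `no_self_cross` gives
  `sin ((φ t w).2 - (φ t' w).2) = 0`, so `β - α ∈ πℤ`. The converse is the definition.
  Case `x ∉ line φ w`: `α` from `exists_disjoint`. If `(x, β) ∈ FF`, then not `Tang`, so disjoint; by the
  uniqueness in `PP`, `line φ (x, β) = line φ (x, α)` as sets. By `tangent_of_line_sub` and `tangent_reparam`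
  the orbit of `(x, α)` passes at some time through `x` with angle `β` modulo `π`; at time `0` it passes
  through `x` with angle `α`. `no_self_cross` (for `w := (x, α)`) gives `sin (β - α) = 0`. Conversely
  `(x, α + kπ)` has the same line as `(x, α)`.
-/

set_option autoImplicit false

open MeasureTheory Set Filter Topology Real Metric

noncomputable section

namespace PPF

variable {g : E → E →L[ℝ] E →L[ℝ] ℝ} {φ : ℝ → St → St}

def FF (φ : ℝ → St → St) (w : St) : Set St :=
  {z | Disjoint (line φ z) (line φ w) ∨ Tang φ z w}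

private theorem T3_sin_trans {a b c : ℝ} (h1 : sin (a - b) = 0) (h2 : sin (b - c) = 0) :
    sin (a - c) = 0 := by
  have : a - c = (a - b) + (b - c) := by ring
  rw [this, sin_add, h1, h2]
  ring

private theorem T3_sin_symm {a b : ℝ} (h : sin (a - b) = 0) : sin (b - a) = 0 := by
  have : b - a = -(a - b) := by ring
  rw [this, sin_neg, h, neg_zero]

theorem line_compl_dense (hφ : IsFlow g φ) (w : St) : Dense (line φ w)ᶜ := by
  have h1 : ContDiff ℝ 1 (fun s => (φ s w).1) := hφ.contDiff_fst w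
  refine h1.dense_compl_range_of_finrank_lt_finrank ?_
  simp

theorem exists_disjoint (hg : Met g) (hφ : IsFlow g φ) (hP : PP φ) {w : St} {x : E}
    (hx : x ∉ line φ w) : ∃ α ∈ Icc 0 π, Disjoint (line φ (x, α)) (line φ w) := by
  obtain ⟨S, ⟨⟨v, hv⟩, hxS, hd⟩, -⟩ := hP w x hx
  subst hv
  obtain ⟨τ, hτ⟩ := hxS
  have hτ' : (φ τ v).1 = x := hτ
  have h1 : φ τ v = (x, (φ τ v).2) := by rw [← hτ']
  set α := (φ τ v).2 with hα
  have h2 : line φ (x, α) = line φ v := by rw [← h1, line_flow hg hφ]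
  have hπ := pi_pos
  refine ⟨α + ((-⌊α / π⌋ : ℤ) : ℝ) * π, ?_, ?_⟩
  · have h3 := Int.floor_le (α / π)
    have h4 := Int.lt_floor_add_one (α / π)
    rw [le_div_iff₀ hπ] at h3
    rw [div_lt_iff₀ hπ] at h4
    push_cast
    constructor
    · linarith
    · nlinarith
  · rw [line_int_pi hg hφ, h2]
    exact hd

theorem no_self_cross (hg : Met g) (hφ : IsFlow g φ) (hP : PP φ) {w : St} {s t : ℝ}
    (h : (φ s w).1 = (φ t w).1) : sin ((φ s w).2 - (φ t w).2) = 0 := by
  by_contra hne
  set q := (φ s w).1 with hq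
  have hcl : q ∈ closure (line φ w)ᶜ := (line_compl_dense hφ w) q
  obtain ⟨x, hx, hxq⟩ := mem_closure_iff_seq_limit.1 hcl
  have h1 : ∀ n, ∃ α ∈ Icc 0 π, Disjoint (line φ (x n, α)) (line φ w) :=
    fun n => exists_disjoint hg hφ hP (hx n)
  choose α hα hdis using h1
  obtain ⟨a, -, ψ, hψ, hαa⟩ := isCompact_Icc.tendsto_subseq hα
  have hz : Tendsto (fun n => ((x (ψ n), α (ψ n)) : St)) atTop (𝓝 (q, a)) :=
    (hxq.comp hψ.tendsto_atTop).prodMk_nhds hαa
  have key : ∀ r, (φ r w).1 = q → sin (a - (φ r w).2) = 0 := by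
    intro r hr
    by_contra hr2
    have h2 : ∀ᶠ z' in 𝓝 ((q, a) : St), ∃ s' t', (φ s' z').1 = (φ t' w).1 ∧
        sin ((φ s' z').2 - (φ t' w).2) ≠ 0 := by
      refine stab (s := 0) (t := r) hg hφ ?_ ?_
      · rw [hφ.zero, hr]
      · rw [hφ.zero]; exact hr2
    obtain ⟨n, s', t', h3, -⟩ := (hz.eventually h2).exists
    exact Set.disjoint_left.1 (hdis (ψ n)) ⟨s', rfl⟩ ⟨t', h3.symm⟩
  have k1 := key s rfl
  have k2 := key t h.symm
  exact hne (T3_sin_trans (T3_sin_symm k1) k2)

theorem FF_closed (hg : Met g) (hφ : IsFlow g φ) (hP : PP φ) (w : St) :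
    IsClosed (FF φ w) := by
  rw [← isOpen_compl_iff, isOpen_iff_eventually]
  intro z hz
  have hz1 : ¬ Disjoint (line φ z) (line φ w) := fun h => hz (Or.inl h)
  have hz2 : ¬ Tang φ z w := fun h => hz (Or.inr h)
  obtain ⟨y, ⟨s, hs⟩, ⟨t, ht⟩⟩ := Set.not_disjoint_iff.1 hz1
  have hst : (φ s z).1 = (φ t w).1 := by
    have h1 : (φ s z).1 = y := hs
    have h2 : (φ t w).1 = y := ht
    rw [h1, h2]
  have hsin : sin ((φ s z).2 - (φ t w).2) ≠ 0 := fun h => hz2 (tang_of_meet hg hφ hst h)
  filter_upwards [stab hg hφ hst hsin] with z' hz'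
  obtain ⟨s', t', h1, h2⟩ := hz'
  rintro (hd | ⟨t'', h3, h4⟩)
  · exact Set.disjoint_left.1 hd ⟨s', rfl⟩ ⟨t', h1.symm⟩
  · obtain ⟨σ, c, -, h5⟩ := tangent_reparam (s := 0) (t := t'') hg hφ (z := z') (w := w)
      (by rw [hφ.zero]; exact h3) (by rw [hφ.zero]; exact h4)
    obtain ⟨h6, h7⟩ := h5 s'
    have h8 := no_self_cross hg hφ hP (h6.symm.trans h1)
    exact h2 (T3_sin_trans h7 h8)

theorem FF_fiber (hg : Met g) (hφ : IsFlow g φ) (hP : PP φ) (w : St) (x : E) :
    ∃ α, ∀ β, (x, β) ∈ FF φ w ↔ ∃ k : ℤ, β = α + k * π := by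
  have sol : ∀ {α β : ℝ}, sin (β - α) = 0 → ∃ k : ℤ, β = α + k * π := by
    intro α β h
    obtain ⟨k, hk⟩ := sin_eq_zero_iff.1 h
    exact ⟨k, by linarith⟩
  by_cases hx : x ∈ line φ w
  · obtain ⟨t, ht⟩ := hx
    have ht' : (φ t w).1 = x := ht
    refine ⟨(φ t w).2, fun β => ⟨?_, ?_⟩⟩
    · rintro (hd | ⟨t', h1, h2⟩)
      · exact absurd (mem_line_self hφ ((x, β) : St)) (fun h => Set.disjoint_left.1 hd h ⟨t, ht⟩)
      · have h3 := no_self_cross hg hφ hP (w := w) (s := t') (t := t)
          (by rw [ht']; exact h1.symm)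
        exact sol (T3_sin_trans h2 h3)
    · rintro ⟨k, hk⟩
      refine Or.inr ⟨t, ht'.symm, ?_⟩
      rw [hk]
      simp
  · obtain ⟨α, -, hα⟩ := exists_disjoint hg hφ hP hx
    refine ⟨α, fun β => ⟨?_, ?_⟩⟩
    · rintro (hd | ⟨t', h1, h2⟩)
      · have h3 : line φ (x, β) = line φ (x, α) := by
          refine (hP w x hx).unique ⟨⟨_, rfl⟩, mem_line_self hφ ((x, β) : St), hd⟩
            ⟨⟨_, rfl⟩, mem_line_self hφ ((x, α) : St), hα⟩
        obtain ⟨s, t, h4, h5⟩ := tangent_of_line_sub hg hφ (z := ((x, β) : St))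
          (w := ((x, α) : St)) h3.subset
        obtain ⟨t', h6, h7⟩ := tang_of_meet hg hφ h4 h5
        have h8 := no_self_cross hg hφ hP (w := ((x, α) : St)) (s := t') (t := 0)
          (by rw [hφ.zero]; exact h6.symm)
        rw [hφ.zero] at h8
        exact sol (T3_sin_trans h7 h8)
      · exact absurd (show x ∈ line φ w from ⟨t', h1.symm⟩) hx
    · rintro ⟨k, hk⟩
      left
      rw [hk, line_int_pi hg hφ]
      exact hα

theorem FF_flow (hg : Met g) (hφ : IsFlow g φ) {w z : St} (hz : z ∈ FF φ w) (t : ℝ) :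
    φ t z ∈ FF φ w := by
  rcases hz with hd | ht
  · left
    rw [line_flow hg hφ]
    exact hd
  · exact Or.inr (ht.flow hg hφ t)

end PPF
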