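import Pool.Agent.Lib.MP_a4f5e0_gt.T9a

/-!
JOB T9b. Primitive of a continuous form with the rectangle identity; exactness of the calibration.

`primitive`: `f(x,y) = ∫_0^x P(s,0) ds + ∫_0^y Q(x,t) dt`. By the rectangle identity (with `a = 0`, `c = 0`)
also `f(x,y) = ∫_0^y Q(0,t) dt + ∫_0^x P(s,y) ds`. So
`f(x+h, y+k) - f(x,y) = ∫_x^{x+h} P(s, y+k) ds + ∫_y^{y+k} Q(x,t) dt`
(first difference with the second formula, second difference with the first formula), and by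
continuity of `P, Q` at `(x,y)` this is `P(x,y) h + Q(x,y) k + o(|h| + |k|)`: for `η > 0` take `δ` with
`|P - P(x,y)|, |Q - Q(x,y)| ≤ η` on the `δ`-ball; the error is `≤ η (|h| + |k|)`
(`intervalIntegral.norm_integral_le_of_norm_le_const`).
Use `EuclideanSpace.proj 0`, `EuclideanSpace.proj 1` for the coordinate forms.
-/

set_option autoImplicit false

open MeasureTheory Set Filter Topology Real Metric

noncomputable section

namespace PPF

private theorem t9b_c0 (c : ℝ) : Continuous fun s : ℝ => (!₂[s, c] : E) := by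
  refine (PiLp.continuous_toLp 2 _).comp (continuous_pi fun i => ?_)
  fin_cases i
  · exact continuous_id
  · exact continuous_const

private theorem t9b_c1 (c : ℝ) : Continuous fun s : ℝ => (!₂[c, s] : E) := by
  refine (PiLp.continuous_toLp 2 _).comp (continuous_pi fun i => ?_)
  fin_cases i
  · exact continuous_const
  · exact continuous_id

private theorem t9b_dist {x z : E} {s t : ℝ} (hs : s ∈ uIcc (x 0) (z 0)) (ht : t ∈ uIcc (x 1) (z 1)) :
    dist (!₂[s, t] : E) x ≤ dist z x := by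
  rw [EuclideanSpace.dist_eq, EuclideanSpace.dist_eq]
  apply Real.sqrt_le_sqrt
  rw [Fin.sum_univ_two, Fin.sum_univ_two]
  have h0 : dist s (x 0) ≤ dist (z 0) (x 0) := by
    rw [Real.dist_eq, Real.dist_eq]
    exact abs_sub_left_of_mem_uIcc hs
  have h1 : dist t (x 1) ≤ dist (z 1) (x 1) := by
    rw [Real.dist_eq, Real.dist_eq]
    exact abs_sub_left_of_mem_uIcc ht
  have h2 := pow_le_pow_left₀ dist_nonneg h0 2
  have h3 := pow_le_pow_left₀ dist_nonneg h1 2
  exact add_le_add h2 h3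

private theorem t9b_coord (x : E) (i : Fin 2) : |x i| ≤ ‖x‖ := by
  rw [← Real.norm_eq_abs]
  exact PiLp.norm_apply_le x i

theorem primitive {P Q : E → ℝ} (hP : Continuous P) (hQ : Continuous Q)
    (h : ∀ a b c d : ℝ, ∫ y in c..d, (Q !₂[b, y] - Q !₂[a, y]) =
      ∫ x in a..b, (P !₂[x, d] - P !₂[x, c])) :
    ∃ f : E → ℝ, ∀ x, HasFDerivAt f
      (P x • (EuclideanSpace.proj 0 : E →L[ℝ] ℝ) + Q x • (EuclideanSpace.proj 1 : E →L[ℝ] ℝ)) x := by
  have iP : ∀ c a b : ℝ, IntervalIntegrable (fun s : ℝ => P !₂[s, c]) volume a b :=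
    fun c a b => (hP.comp (t9b_c0 c)).intervalIntegrable a b
  have iQ : ∀ c a b : ℝ, IntervalIntegrable (fun s : ℝ => Q !₂[c, s]) volume a b :=
    fun c a b => (hQ.comp (t9b_c1 c)).intervalIntegrable a b
  have h' : ∀ a b c d : ℝ, (∫ y in c..d, Q !₂[b, y]) - (∫ y in c..d, Q !₂[a, y]) =
      (∫ x in a..b, P !₂[x, d]) - ∫ x in a..b, P !₂[x, c] := by
    intro a b c d
    rw [← intervalIntegral.integral_sub (iQ b c d) (iQ a c d), h a b c d,
      intervalIntegral.integral_sub (iP d a b) (iP c a b)]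
  refine ⟨fun z => (∫ s in (0:ℝ)..(z 0), P !₂[s, 0]) + ∫ t in (0:ℝ)..(z 1), Q !₂[z 0, t], fun x => ?_⟩
  have key : ∀ z : E, ((∫ s in (0:ℝ)..(z 0), P !₂[s, 0]) + ∫ t in (0:ℝ)..(z 1), Q !₂[z 0, t]) -
      ((∫ s in (0:ℝ)..(x 0), P !₂[s, 0]) + ∫ t in (0:ℝ)..(x 1), Q !₂[x 0, t]) =
      (∫ s in (x 0)..(z 0), P !₂[s, z 1]) + ∫ t in (x 1)..(z 1), Q !₂[x 0, t] := by
    intro z
    have e1 := h' (x 0) (z 0) 0 (z 1)
    have e2 := intervalIntegral.integral_add_adjacent_intervals (iP 0 0 (x 0)) (iP 0 (x 0) (z 0))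
    have e3 := intervalIntegral.integral_add_adjacent_intervals (iQ (x 0) 0 (x 1))
      (iQ (x 0) (x 1) (z 1))
    linarith
  refine HasFDerivAt.of_isLittleO ?_
  rw [Asymptotics.isLittleO_iff]
  intro c hc
  have hc2 : 0 < c / 2 := half_pos hc
  have hPx : ∀ᶠ z in 𝓝 x, dist (P z) (P x) < c / 2 := Metric.tendsto_nhds.1 hP.continuousAt _ hc2
  have hQx : ∀ᶠ z in 𝓝 x, dist (Q z) (Q x) < c / 2 := Metric.tendsto_nhds.1 hQ.continuousAt _ hc2
  obtain ⟨δ, hδ, hball⟩ := Metric.eventually_nhds_iff.1 (hPx.and hQx)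
  rw [Metric.eventually_nhds_iff]
  refine ⟨δ, hδ, fun z hz => ?_⟩
  have hA : ‖∫ s in (x 0)..(z 0), (P !₂[s, z 1] - P x)‖ ≤ (c / 2) * |z 0 - x 0| := by
    apply intervalIntegral.norm_integral_le_of_norm_le_const
    intro s hs
    have h1 := (hball (lt_of_le_of_lt (t9b_dist (uIoc_subset_uIcc hs) right_mem_uIcc) hz)).1
    rw [Real.dist_eq] at h1
    exact h1.le
  have hB : ‖∫ t in (x 1)..(z 1), (Q !₂[x 0, t] - Q x)‖ ≤ (c / 2) * |z 1 - x 1| := by
    apply intervalIntegral.norm_integral_le_of_norm_le_const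
    intro t ht
    have h1 := (hball (lt_of_le_of_lt (t9b_dist left_mem_uIcc (uIoc_subset_uIcc ht)) hz)).2
    rw [Real.dist_eq] at h1
    exact h1.le
  have hA' : ∫ s in (x 0)..(z 0), (P !₂[s, z 1] - P x) =
      (∫ s in (x 0)..(z 0), P !₂[s, z 1]) - (z 0 - x 0) * P x := by
    rw [intervalIntegral.integral_sub (iP _ _ _) intervalIntegrable_const,
      intervalIntegral.integral_const, smul_eq_mul]
  have hB' : ∫ t in (x 1)..(z 1), (Q !₂[x 0, t] - Q x) =
      (∫ t in (x 1)..(z 1), Q !₂[x 0, t]) - (z 1 - x 1) * Q x := by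
    rw [intervalIntegral.integral_sub (iQ _ _ _) intervalIntegrable_const,
      intervalIntegral.integral_const, smul_eq_mul]
  have h0 : |z 0 - x 0| ≤ ‖z - x‖ := t9b_coord (z - x) 0
  have h1 : |z 1 - x 1| ≤ ‖z - x‖ := t9b_coord (z - x) 1
  have hval : (P x • (EuclideanSpace.proj 0 : E →L[ℝ] ℝ) +
      Q x • (EuclideanSpace.proj 1 : E →L[ℝ] ℝ)) (z - x) =
      (z 0 - x 0) * P x + (z 1 - x 1) * Q x := by
    show P x * (z 0 - x 0) + Q x * (z 1 - x 1) = _
    ring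
  rw [key z, hval]
  have e : (∫ s in (x 0)..(z 0), P !₂[s, z 1]) + (∫ t in (x 1)..(z 1), Q !₂[x 0, t]) -
      ((z 0 - x 0) * P x + (z 1 - x 1) * Q x) =
      (∫ s in (x 0)..(z 0), (P !₂[s, z 1] - P x)) + ∫ t in (x 1)..(z 1), (Q !₂[x 0, t] - Q x) := by
    rw [hA', hB']
    ring
  rw [e]
  refine (norm_add_le _ _).trans ?_
  nlinarith

/-- Poincaré lemma for locally Lipschitz forms -/
theorem lip_poincare {P Q : E → ℝ} (hP : LocallyLipschitz P) (hQ : LocallyLipschitz Q)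
    (h : ∀ᵐ x : E, fderiv ℝ Q x b1 = fderiv ℝ P x b2) :
    ∃ f : E → ℝ, ∀ x, HasFDerivAt f
      (P x • (EuclideanSpace.proj 0 : E →L[ℝ] ℝ) + Q x • (EuclideanSpace.proj 1 : E →L[ℝ] ℝ)) x :=
  primitive hP.continuous hQ.continuous (rect_identity hP hQ h)

end PPF
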